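import Pool.Agent.H248.BH.Defs

set_option autoImplicit false
open MeasureTheory Metric Set Filter Topology
open scoped ENNReal NNReal ContDiff

namespace H248.BH.B01


open H248.ID



/-- P0 -/
theorem om_pos {n : ℕ} (hn : 1 ≤ n) : 0 < om n := by
  have : Nonempty (Fin n) := ⟨⟨0, hn⟩⟩
  have : Nontrivial (Y n) := inferInstance
  unfold om sph
  refine ENNReal.toReal_pos ?_ (measure_ne_top _ _)
  rw [Measure.toSphere_apply_univ, finrank_euclideanSpace_fin]
  refine mul_ne_zero ?_ (measure_ball_pos _ _ one_pos).ne'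
  exact_mod_cast (by omega : n ≠ 0)

theorem finrankY (n : ℕ) : Module.finrank ℝ (Y n) = n := finrank_euclideanSpace_fin

/-- the function in polar coordinates -/
noncomputable def Hp {n : ℕ} (h : Y n → ℝ) (p : sphere (0 : Y n) 1 × Ioi (0 : ℝ)) : ℝ :=
  h ((p.2 : ℝ) • (p.1 : Y n))

theorem Hp_comp {n : ℕ} (h : Y n → ℝ) (x : ({(0 : Y n)}ᶜ : Set (Y n))) :
    Hp h (homeomorphUnitSphereProd (Y n) x) = h x := by
  unfold Hp
  have : (((homeomorphUnitSphereProd (Y n)).symm (homeomorphUnitSphereProd (Y n) x)) : Y n) = x := by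
    rw [Homeomorph.symm_apply_apply]
  rw [homeomorphUnitSphereProd_symm_apply_coe] at this
  rw [this]

theorem Hp_integrable {n : ℕ} (hn : 1 ≤ n) {h : Y n → ℝ} (hh : Integrable h) :
    Integrable (Hp h) ((sph n).prod (Measure.volumeIoiPow (n - 1))) := by
  have : Nonempty (Fin n) := ⟨⟨0, hn⟩⟩
  have : Nontrivial (Y n) := inferInstance
  have mp := (volume : Measure (Y n)).measurePreserving_homeomorphUnitSphereProd
  rw [finrankY] at mp
  have h1 := mp.integrable_comp_emb (g := Hp h) (Homeomorph.measurableEmbedding _)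
  unfold sph
  rw [← h1]
  have h2 : Hp h ∘ homeomorphUnitSphereProd (Y n) = h ∘ ((↑) : ({(0 : Y n)}ᶜ : Set (Y n)) → Y n) :=
    funext fun x => Hp_comp h x
  rw [h2, ← integrableOn_iff_comap_subtypeVal (measurableSet_singleton _).compl]
  exact hh.integrableOn

theorem Hp_integral {n : ℕ} (hn : 1 ≤ n) (h : Y n → ℝ) :
    ∫ y, h y = ∫ p, Hp h p ∂((sph n).prod (Measure.volumeIoiPow (n - 1))) := by
  have : Nonempty (Fin n) := ⟨⟨0, hn⟩⟩
  have : Nontrivial (Y n) := inferInstance
  have mp := (volume : Measure (Y n)).measurePreserving_homeomorphUnitSphereProd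
  rw [finrankY] at mp
  have h1 := mp.integral_comp (Homeomorph.measurableEmbedding _) (Hp h)
  unfold sph
  rw [← h1]
  have h2 : ∀ x, Hp h (homeomorphUnitSphereProd (Y n) x) = h x := fun x => Hp_comp h x
  simp only [h2]
  rw [integral_subtype_comap (measurableSet_singleton _).compl h, restrict_compl_singleton]

theorem meas_pow (n : ℕ) : Measurable (fun r : Ioi (0 : ℝ) => ENNReal.ofReal (r.1 ^ n)) :=
  (measurable_subtype_coe.pow_const _).ennreal_ofReal

/-- P1. integration in polar coordinates -/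
theorem polar_integral {n : ℕ} (hn : 1 ≤ n) {h : Y n → ℝ} (hh : Integrable h) :
    (∀ᵐ s ∂(volume.restrict (Ioi (0 : ℝ))), Integrable (fun θ : sphere (0 : Y n) 1 =>
      h (s • (θ : Y n))) (sph n)) ∧
    IntegrableOn (fun s => s ^ (n - 1) * Av h s) (Ioi (0 : ℝ)) ∧
    ∫ y, h y = om n * ∫ s in Ioi (0 : ℝ), s ^ (n - 1) * Av h s := by
  have : IsFiniteMeasure (sph n) := by unfold sph; infer_instance
  have hH := Hp_integrable hn hh
  have hom := om_pos hn
  have hlt : ∀ᵐ r : Ioi (0 : ℝ) ∂(Measure.comap Subtype.val volume),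
      ENNReal.ofReal (r.1 ^ (n - 1)) < ⊤ := Eventually.of_forall fun _ => ENNReal.ofReal_lt_top
  have hAv : ∀ s : ℝ, ∫ θ : sphere (0 : Y n) 1, h (s • (θ : Y n)) ∂(sph n) = om n * Av h s := by
    intro s
    unfold Av
    rw [← mul_assoc, mul_inv_cancel₀ hom.ne', one_mul]
  refine ⟨?_, ?_, ?_⟩
  · have h1 := hH.prod_left_ae
    unfold Measure.volumeIoiPow at h1
    rw [ae_withDensity_iff (meas_pow _)] at h1
    rw [ae_restrict_iff_subtype measurableSet_Ioi]
    filter_upwards [h1] with r hr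
    have hr0 : (0 : ℝ) < r := r.2
    exact hr (ENNReal.ofReal_pos.2 (by positivity)).ne'
  · have h1 := hH.integral_prod_right
    unfold Measure.volumeIoiPow at h1
    rw [integrable_withDensity_iff_integrable_smul' (meas_pow _) hlt] at h1
    have h2 : IntegrableOn (fun s : ℝ => (ENNReal.ofReal (s ^ (n - 1))).toReal •
        (om n * Av h s)) (Ioi (0 : ℝ)) := by
      rw [integrableOn_iff_comap_subtypeVal measurableSet_Ioi]
      refine h1.congr (Eventually.of_forall fun r => ?_)
      show _ = (ENNReal.ofReal ((r : ℝ) ^ (n - 1))).toReal • (om n * Av h r)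
      rw [← hAv]
      rfl
    have h3 : IntegrableOn (fun s : ℝ => (om n)⁻¹ * ((ENNReal.ofReal (s ^ (n - 1))).toReal •
        (om n * Av h s))) (Ioi (0 : ℝ)) := h2.const_mul (om n)⁻¹
    refine h3.congr_fun (fun s hs => ?_) measurableSet_Ioi
    have hs0 : (0 : ℝ) < s := hs
    show (om n)⁻¹ * ((ENNReal.ofReal (s ^ (n - 1))).toReal • (om n * Av h s)) =
      s ^ (n - 1) * Av h s
    rw [ENNReal.toReal_ofReal (by positivity), smul_eq_mul]
    field_simp
  · rw [Hp_integral hn, integral_prod_symm _ hH]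
    unfold Measure.volumeIoiPow
    rw [integral_withDensity_eq_integral_toReal_smul (meas_pow _) hlt]
    have h1 : ∀ r : Ioi (0 : ℝ), (ENNReal.ofReal ((r : ℝ) ^ (n - 1))).toReal •
        ∫ θ, Hp h (θ, r) ∂(sph n) = (fun s : ℝ => om n * (s ^ (n - 1) * Av h s)) r := by
      intro r
      have hr0 : (0 : ℝ) < r := r.2
      have h2 : ∫ θ, Hp h (θ, r) ∂(sph n) = om n * Av h r := hAv r
      rw [h2, ENNReal.toReal_ofReal (by positivity), smul_eq_mul]
      show (r : ℝ) ^ (n - 1) * (om n * Av h r) = om n * ((r : ℝ) ^ (n - 1) * Av h r)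
      ring
    simp only [h1]
    rw [integral_subtype_comap measurableSet_Ioi (fun s : ℝ => om n * (s ^ (n - 1) * Av h s)),
      integral_const_mul]


end H248.BH.B01

namespace H248.BH

export B01 (om_pos polar_integral)

end H248.BH
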