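import Pool.Agent.H248.BH.Defs
import Pool.Agent.H248.BH.B01

set_option autoImplicit false
open MeasureTheory Metric Set Filter Topology
open scoped ENNReal NNReal ContDiff

namespace H248.BH.A1


open H248.ID







/-- a subsequence of an `L¹`-null sequence of nonnegative functions tends to `0` a.e. -/
theorem sc_seq {α : Type*} [MeasurableSpace α] {μ : Measure α} {g : ℕ → α → ℝ}
    (hi : ∀ k, Integrable (g k) μ) (h0 : ∀ k, 0 ≤ᵐ[μ] g k)
    (hlim : Tendsto (fun k => ∫ y, g k y ∂μ) atTop (𝓝 0)) :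
    ∃ κ : ℕ → ℕ, StrictMono κ ∧ ∀ᵐ y ∂μ, Tendsto (fun k => g (κ k) y) atTop (𝓝 0) := by
  have h1 : TendstoInMeasure μ g atTop (fun _ => (0 : ℝ)) := by
    refine tendstoInMeasure_of_tendsto_eLpNorm (p := 1) one_ne_zero
      (fun k => (hi k).aestronglyMeasurable) aestronglyMeasurable_const ?_
    have h2 : (fun k => eLpNorm (g k - fun _ => (0 : ℝ)) 1 μ) =
        fun k => ENNReal.ofReal (∫ y, g k y ∂μ) := by
      funext k
      have e : (g k - fun _ => (0 : ℝ)) = g k := by funext x; simp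
      rw [e, eLpNorm_one_eq_lintegral_enorm, ← ofReal_integral_norm_eq_lintegral_enorm (hi k)]
      congr 1
      refine integral_congr_ae ?_
      filter_upwards [h0 k] with x hx
      exact Real.norm_of_nonneg hx
    rw [h2]
    have h3 := ENNReal.tendsto_ofReal hlim
    simpa using h3
  obtain ⟨κ, hκ, h⟩ := h1.exists_seq_tendsto_ae
  exact ⟨κ, hκ, h⟩

/-- A1. `L¹` convergence implies convergence on almost all spheres along a subsequence -/
theorem sph_conv {n : ℕ} (hn : 1 ≤ n) {h : ℕ → Y n → ℝ} (hi : ∀ k, Integrable (h k))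
    (h0 : ∀ k y, 0 ≤ h k y) (hlim : Tendsto (fun k => ∫ y, h k y) atTop (𝓝 0)) :
    ∃ κ : ℕ → ℕ, StrictMono κ ∧ (∀ᵐ y, Tendsto (fun k => h (κ k) y) atTop (𝓝 0)) ∧
      ∀ᵐ s ∂(volume.restrict (Ioi (0 : ℝ))),
        (∀ k, Integrable (fun θ : sphere (0 : Y n) 1 => h (κ k) (s • (θ : Y n))) (sph n)) ∧
        Tendsto (fun k => Av (h (κ k)) s) atTop (𝓝 0) := by
  obtain ⟨κ₁, hκ₁, h1⟩ := sc_seq hi (fun k => Eventually.of_forall (h0 k)) hlim
  have hAv : ∀ k s, 0 ≤ Av (h k) s := fun k s =>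
    mul_nonneg (inv_nonneg.2 (om_pos hn).le) (integral_nonneg (fun θ => h0 k _))
  have hP := fun k => polar_integral hn (hi k)
  obtain ⟨κ₂, hκ₂, h2⟩ := sc_seq (μ := volume.restrict (Ioi (0 : ℝ)))
    (g := fun k s => s ^ (n - 1) * Av (h (κ₁ k)) s) (fun k => (hP (κ₁ k)).2.1)
    (fun k => by
      filter_upwards [ae_restrict_mem measurableSet_Ioi] with s hs
      exact mul_nonneg (pow_nonneg (le_of_lt hs) _) (hAv _ _))
    (by
      have e : ∀ k, ∫ s in Ioi (0 : ℝ), s ^ (n - 1) * Av (h (κ₁ k)) s =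
          (om n)⁻¹ * ∫ y, h (κ₁ k) y := by
        intro k
        rw [(hP (κ₁ k)).2.2, inv_mul_cancel_left₀ (om_pos hn).ne']
      simp only [e]
      have h3 := (hlim.comp hκ₁.tendsto_atTop).const_mul (om n)⁻¹
      rw [mul_zero] at h3
      exact h3)
  refine ⟨κ₁ ∘ κ₂, hκ₁.comp hκ₂, ?_, ?_⟩
  · filter_upwards [h1] with y hy
    exact hy.comp hκ₂.tendsto_atTop
  · filter_upwards [h2, ae_restrict_mem measurableSet_Ioi, ae_all_iff.2 (fun k => (hP k).1)]
      with s hs hs0 hs1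
    refine ⟨fun k => hs1 _, ?_⟩
    have hpos : (s : ℝ) ^ (n - 1) ≠ 0 := (pow_pos hs0 _).ne'
    have h4 := hs.const_mul (s ^ (n - 1))⁻¹
    rw [mul_zero] at h4
    refine h4.congr (fun k => ?_)
    rw [inv_mul_cancel_left₀ hpos]
    rfl


end H248.BH.A1

namespace H248.BH

export A1 (sph_conv)

end H248.BH
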