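import Pool.Agent.H248.BH.Defs
import Pool.Agent.H248.BH.B01

set_option autoImplicit false
open MeasureTheory Metric Set Filter Topology
open scoped ENNReal NNReal ContDiff

namespace H248.BH.A2


open H248.ID







/-- the annulus -/
def Ann (n : ℕ) (s t : ℝ) : Set (Y n) := {y | s ≤ ‖y‖ ∧ ‖y‖ ≤ t}

theorem ann_meas (n : ℕ) (s t : ℝ) : MeasurableSet (Ann n s t) :=
  ((isClosed_le continuous_const continuous_norm).inter
    (isClosed_le continuous_norm continuous_const)).measurableSet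

theorem ann_finite (n : ℕ) (s t : ℝ) : volume (Ann n s t) < ⊤ := by
  have h : Ann n s t ⊆ closedBall (0 : Y n) t := by
    intro y hy
    rw [mem_closedBall, dist_zero_right]
    exact hy.2
  exact lt_of_le_of_lt (measure_mono h) (isCompact_closedBall _ _).measure_lt_top

/-- truncated root -/
noncomputable def TR {n : ℕ} (p s t : ℝ) (u : Y n → ℝ) : Y n → ℝ :=
  (Ann n s t).indicator (fun y => u y ^ p)

theorem rpow_le_one_add {x p : ℝ} (hx : 0 ≤ x) (hp : 0 ≤ p) (hp1 : p ≤ 1) : x ^ p ≤ 1 + x := by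
  rcases le_total x 1 with h | h
  · have := Real.rpow_le_one hx h hp
    linarith
  · have := Real.rpow_le_rpow_of_exponent_le h hp1
    rw [Real.rpow_one] at this
    linarith

theorem root_intOn {n : ℕ} {p s t : ℝ} (hp : 0 ≤ p) (hp1 : p ≤ 1) {u : Y n → ℝ}
    (hu : Integrable u) (h0 : ∀ y, 0 ≤ u y) : IntegrableOn (fun y => u y ^ p) (Ann n s t) := by
  have h1 : IntegrableOn (fun y => 1 + u y) (Ann n s t) := by
    apply Integrable.add _ hu.integrableOn
    exact integrableOn_const (ann_finite n s t).ne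
  refine Integrable.mono' h1 ?_ (ae_of_all _ fun y => ?_)
  · exact (hu.aemeasurable.pow_const p).aestronglyMeasurable.restrict
  · rw [Real.norm_of_nonneg (Real.rpow_nonneg (h0 y) p)]
    exact rpow_le_one_add (h0 y) hp hp1

theorem TR_int {n : ℕ} {p s t : ℝ} (hp : 0 ≤ p) (hp1 : p ≤ 1) {u : Y n → ℝ}
    (hu : Integrable u) (h0 : ∀ y, 0 ≤ u y) : Integrable (TR p s t u) :=
  (integrable_indicator_iff (ann_meas n s t)).2 (root_intOn hp hp1 hu h0)

theorem root_sub {a b p : ℝ} (ha : 0 ≤ a) (hb : 0 ≤ b) (hp : 0 ≤ p) (hp1 : p ≤ 1) :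
    |a ^ p - b ^ p| ≤ |a - b| ^ p := by
  have key : ∀ x y : ℝ, 0 ≤ y → y ≤ x → |x ^ p - y ^ p| ≤ |x - y| ^ p := by
    intro x y hy hxy
    have h1 : 0 ≤ x - y := by linarith
    have h2 : y ^ p ≤ x ^ p := Real.rpow_le_rpow hy hxy hp
    rw [abs_of_nonneg h1, abs_of_nonneg (by linarith)]
    have h3 := NNReal.rpow_add_le_add_rpow ⟨x - y, h1⟩ ⟨y, hy⟩ hp hp1
    have h4 : (x - y + y) ^ p ≤ (x - y) ^ p + y ^ p := by exact_mod_cast h3
    rw [sub_add_cancel] at h4
    linarith
  rcases le_total b a with h | h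
  · exact key a b hb h
  · rw [abs_sub_comm, abs_sub_comm a b]
    exact key b a ha h

theorem eps_bound {n : ℕ} (hn : 1 ≤ n) {x ε : ℝ} (hx : 0 ≤ x) (hε : 0 < ε) :
    x ^ (1 / (n : ℝ)) ≤ ε + ε ^ (1 - (n : ℝ)) * x := by
  have hn0 : (0 : ℝ) < n := by exact_mod_cast hn
  have hn1 : (1 : ℝ) ≤ n := by exact_mod_cast hn
  rcases le_total x (ε ^ (n : ℝ)) with h | h
  · have h1 : x ^ (1 / (n : ℝ)) ≤ (ε ^ (n : ℝ)) ^ (1 / (n : ℝ)) :=
      Real.rpow_le_rpow hx h (by positivity)
    rw [← Real.rpow_mul hε.le, mul_one_div_cancel hn0.ne', Real.rpow_one] at h1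
    have : 0 ≤ ε ^ (1 - (n : ℝ)) * x := by positivity
    linarith
  · have hεn : 0 < ε ^ (n : ℝ) := by positivity
    have hx0 : 0 < x := lt_of_lt_of_le hεn h
    have h1 : x ^ (1 / (n : ℝ)) = x ^ (1 / (n : ℝ) - 1) * x := by
      rw [Real.rpow_sub hx0, Real.rpow_one]
      field_simp
    have hle : 1 / (n : ℝ) - 1 ≤ 0 := by
      have : 1 / (n : ℝ) ≤ 1 := by
        rw [div_le_one hn0]
        exact hn1
      linarith
    have h2 : x ^ (1 / (n : ℝ) - 1) ≤ (ε ^ (n : ℝ)) ^ (1 / (n : ℝ) - 1) :=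
      Real.rpow_le_rpow_of_nonpos hεn h hle
    rw [← Real.rpow_mul hε.le] at h2
    have h3 : (n : ℝ) * (1 / (n : ℝ) - 1) = 1 - n := by field_simp
    rw [h3] at h2
    rw [h1]
    have := mul_le_mul_of_nonneg_right h2 hx
    linarith

theorem TR_diff {n : ℕ} (hn : 1 ≤ n) {s t : ℝ} {u v : Y n → ℝ}
    (hu : Integrable u) (h0 : ∀ y, 0 ≤ u y) (hv : Integrable v) (h0' : ∀ y, 0 ≤ v y)
    {ε : ℝ} (hε : 0 < ε) :
    ∫ y, |TR (1 / (n : ℝ)) s t u y - TR (1 / (n : ℝ)) s t v y| ≤
      ε * (volume (Ann n s t)).toReal + ε ^ (1 - (n : ℝ)) * ∫ y, |u y - v y| := by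
  have hn0 : (0 : ℝ) < n := by exact_mod_cast hn
  have hn1 : (1 : ℝ) ≤ n := by exact_mod_cast hn
  have hp : 0 ≤ 1 / (n : ℝ) := by positivity
  have hp1 : 1 / (n : ℝ) ≤ 1 := by rw [div_le_one hn0]; exact hn1
  have hd : Integrable (fun y => |u y - v y|) := (hu.sub hv).abs
  have hC : 0 ≤ ε ^ (1 - (n : ℝ)) := by positivity
  have hI : IntegrableOn (fun y => ε + ε ^ (1 - (n : ℝ)) * |u y - v y|) (Ann n s t) := by
    apply Integrable.add
    · exact integrableOn_const (ann_finite n s t).ne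
    · exact (hd.const_mul _).integrableOn
  have hI' := (integrable_indicator_iff (ann_meas n s t)).2 hI
  calc ∫ y, |TR (1 / (n : ℝ)) s t u y - TR (1 / (n : ℝ)) s t v y| ≤
      ∫ y, (Ann n s t).indicator (fun y => ε + ε ^ (1 - (n : ℝ)) * |u y - v y|) y := by
        apply integral_mono ((TR_int hp hp1 hu h0).sub (TR_int hp hp1 hv h0')).abs hI'
        intro y
        change |TR (1 / (n : ℝ)) s t u y - TR (1 / (n : ℝ)) s t v y| ≤ _
        by_cases hy : y ∈ Ann n s t
        · unfold TR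
          simp only [Set.indicator_of_mem hy]
          exact (root_sub (h0 y) (h0' y) hp hp1).trans (eps_bound hn (abs_nonneg _) hε)
        · unfold TR
          simp only [Set.indicator_of_notMem hy]
          simp
    _ = ∫ y in Ann n s t, (ε + ε ^ (1 - (n : ℝ)) * |u y - v y|) :=
        integral_indicator (ann_meas n s t)
    _ = ε * (volume (Ann n s t)).toReal + ε ^ (1 - (n : ℝ)) * ∫ y in Ann n s t, |u y - v y| := by
        have k1 : Integrable (fun _ : Y n => ε) (volume.restrict (Ann n s t)) :=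
          integrableOn_const (ann_finite n s t).ne
        have k2 : Integrable (fun y => ε ^ (1 - (n : ℝ)) * |u y - v y|)
          (volume.restrict (Ann n s t)) := (hd.const_mul _).integrableOn
        rw [integral_add k1 k2, integral_const_mul]
        simp [Measure.real, mul_comm]
    _ ≤ _ := by
        have : ∫ y in Ann n s t, |u y - v y| ≤ ∫ y, |u y - v y| :=
          setIntegral_le_integral hd (ae_of_all _ fun y => abs_nonneg _)
        have := mul_le_mul_of_nonneg_left this hC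
        linarith

theorem Av_TR {n : ℕ} {p s t r : ℝ} (hs : 0 < s) (u : Y n → ℝ) (hr : r ∈ Icc s t) :
    Av (TR p s t u) r = Av (fun y => u y ^ p) r := by
  unfold Av
  congr 1
  apply integral_congr_ae
  refine ae_of_all _ fun θ => ?_
  have hθ : ‖(θ : Y n)‖ = 1 := by
    have := θ.2
    rwa [mem_sphere, dist_zero_right] at this
  have hm : r • (θ : Y n) ∈ Ann n s t := by
    have : ‖r • (θ : Y n)‖ = r := by
      rw [norm_smul, hθ, mul_one, Real.norm_of_nonneg (hs.le.trans hr.1)]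
    constructor
    · rw [this]; exact hr.1
    · rw [this]; exact hr.2
  change TR p s t u (r • (θ : Y n)) = _
  unfold TR
  rw [Set.indicator_of_mem hm]

theorem Av_int {n : ℕ} (hn : 1 ≤ n) {s t : ℝ} (hs : 0 < s) {g : Y n → ℝ} (hg : Integrable g) :
    IntegrableOn (fun r => Av g r) (Icc s t) := by
  obtain ⟨-, h1, -⟩ := polar_integral hn hg
  have h2 : IntegrableOn (fun r => r ^ (n - 1) * Av g r) (Icc s t) :=
    h1.mono_set (fun r hr => lt_of_lt_of_le hs hr.1)
  have h3 : ContinuousOn (fun r : ℝ => (r ^ (n - 1))⁻¹) (Icc s t) := by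
    apply ContinuousOn.inv₀ (by fun_prop)
    intro r hr
    have : 0 < r := lt_of_lt_of_le hs hr.1
    positivity
  have h4 := h2.continuousOn_mul h3 isCompact_Icc
  refine h4.congr_fun ?_ measurableSet_Icc
  intro r hr
  have : 0 < r := lt_of_lt_of_le hs hr.1
  dsimp only
  field_simp

theorem Av_diff {n : ℕ} (hn : 1 ≤ n) {s t : ℝ} (hs : 0 < s) (hst : s ≤ t) {g g' : Y n → ℝ}
    (hg : Integrable g) (hg' : Integrable g') :
    |(∫ r in s..t, Av g r) - ∫ r in s..t, Av g' r| ≤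
      (s ^ (n - 1))⁻¹ * ((om n)⁻¹ * ∫ y, |g y - g' y|) := by
  have hI := Av_int (t := t) hn hs hg
  have hI' := Av_int (t := t) hn hs hg'
  have hd : Integrable (fun y => |g y - g' y|) := (hg.sub hg').abs
  obtain ⟨a1, b1, c1⟩ := polar_integral hn hd
  obtain ⟨a2, -, -⟩ := polar_integral hn hg
  obtain ⟨a3, -, -⟩ := polar_integral hn hg'
  have hom := om_pos hn
  have hsn : 0 < s ^ (n - 1) := by positivity
  have hsub : Icc s t ⊆ Ioi (0 : ℝ) := fun r hr => lt_of_lt_of_le hs hr.1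
  have hpos : ∀ r, 0 ≤ Av (fun y => |g y - g' y|) r := by
    intro r
    unfold Av
    apply mul_nonneg (inv_nonneg.2 hom.le)
    exact integral_nonneg (fun θ => abs_nonneg _)
  rw [intervalIntegral.integral_of_le hst, intervalIntegral.integral_of_le hst,
    ← integral_sub (hI.mono_set Ioc_subset_Icc_self) (hI'.mono_set Ioc_subset_Icc_self)]
  have h1 : ∀ᵐ r ∂(volume.restrict (Ioc s t)), ‖Av g r - Av g' r‖ ≤
      (s ^ (n - 1))⁻¹ * (r ^ (n - 1) * Av (fun y => |g y - g' y|) r) := by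
    have e2 := ae_restrict_of_ae_restrict_of_subset (Ioc_subset_Icc_self.trans hsub) a2
    have e3 := ae_restrict_of_ae_restrict_of_subset (Ioc_subset_Icc_self.trans hsub) a3
    filter_upwards [e2, e3, ae_restrict_mem measurableSet_Ioc] with r k2 k3 hr
    have hr0 : 0 < r := lt_trans hs hr.1
    have h2 : ‖Av g r - Av g' r‖ ≤ Av (fun y => |g y - g' y|) r := by
      unfold Av
      rw [← mul_sub, ← integral_sub k2 k3, norm_mul, Real.norm_of_nonneg (inv_nonneg.2 hom.le)]
      apply mul_le_mul_of_nonneg_left _ (inv_nonneg.2 hom.le)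
      exact norm_integral_le_integral_norm _
    refine h2.trans ?_
    have h3 : s ^ (n - 1) ≤ r ^ (n - 1) := pow_le_pow_left₀ hs.le hr.1.le _
    have h4 := mul_le_mul_of_nonneg_right h3 (hpos r)
    rw [inv_mul_eq_div, le_div_iff₀ hsn]
    linarith
  have hint : IntegrableOn (fun r => (s ^ (n - 1))⁻¹ * (r ^ (n - 1) *
      Av (fun y => |g y - g' y|) r)) (Ioi 0) := b1.const_mul _
  calc |∫ r in Ioc s t, (Av g r - Av g' r)| ≤
      ∫ r in Ioc s t, (s ^ (n - 1))⁻¹ * (r ^ (n - 1) * Av (fun y => |g y - g' y|) r) :=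
        norm_integral_le_of_norm_le (hint.mono_set (Ioc_subset_Icc_self.trans hsub)) h1
    _ ≤ ∫ r in Ioi (0 : ℝ), (s ^ (n - 1))⁻¹ * (r ^ (n - 1) * Av (fun y => |g y - g' y|) r) := by
        apply setIntegral_mono_set hint
        · filter_upwards [ae_restrict_mem measurableSet_Ioi] with r hr
          have hr0 : (0 : ℝ) < r := hr
          have := hpos r
          change 0 ≤ _
          positivity
        · exact (Ioc_subset_Icc_self.trans hsub).eventuallyLE
    _ = _ := by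
        rw [integral_const_mul, c1]
        congr 1
        field_simp

/-- A2. convergence of integrals of averages of `n`-th roots -/
theorem av_rpow_conv {n : ℕ} (hn : 1 ≤ n) {h : ℕ → Y n → ℝ} {h' : Y n → ℝ}
    (hi : ∀ k, Integrable (h k)) (hi' : Integrable h') (h0 : ∀ k y, 0 ≤ h k y)
    (h0' : ∀ y, 0 ≤ h' y) (hlim : Tendsto (fun k => ∫ y, |h k y - h' y|) atTop (𝓝 0))
    {s t : ℝ} (hs : 0 < s) (hst : s ≤ t) :
    IntervalIntegrable (fun r => Av (fun y => h' y ^ (1 / (n : ℝ))) r) volume s t ∧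
    Tendsto (fun k => ∫ r in s..t, Av (fun y => h k y ^ (1 / (n : ℝ))) r) atTop
      (𝓝 (∫ r in s..t, Av (fun y => h' y ^ (1 / (n : ℝ))) r)) := by
  have hn0 : (0 : ℝ) < n := by exact_mod_cast hn
  have hn1 : (1 : ℝ) ≤ n := by exact_mod_cast hn
  have hp : 0 ≤ 1 / (n : ℝ) := by positivity
  have hp1 : 1 / (n : ℝ) ≤ 1 := by rw [div_le_one hn0]; exact hn1
  have hT : ∀ k, Integrable (TR (1 / (n : ℝ)) s t (h k)) := fun k => TR_int hp hp1 (hi k) (h0 k)
  have hT' : Integrable (TR (1 / (n : ℝ)) s t h') := TR_int hp hp1 hi' h0'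
  constructor
  · rw [intervalIntegrable_iff_integrableOn_Icc_of_le hst]
    refine (Av_int hn hs hT').congr_fun ?_ measurableSet_Icc
    intro r hr
    exact Av_TR hs h' hr
  have hL1 : Tendsto (fun k => ∫ y, |TR (1 / (n : ℝ)) s t (h k) y - TR (1 / (n : ℝ)) s t h' y|)
      atTop (𝓝 0) := by
    rw [Metric.tendsto_atTop]
    intro δ hδ
    obtain ⟨V, hV⟩ : ∃ V, V = (volume (Ann n s t)).toReal := ⟨_, rfl⟩
    have hV0 : 0 ≤ V := by rw [hV]; positivity
    obtain ⟨ε, hεd⟩ : ∃ ε, ε = δ / (2 * (V + 1)) := ⟨_, rfl⟩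
    have hε : 0 < ε := by rw [hεd]; positivity
    have hεV : ε * V ≤ δ / 2 := by
      rw [hεd, div_mul_eq_mul_div, div_le_div_iff₀ (by positivity) (by norm_num)]
      nlinarith
    have hC : 0 < ε ^ (1 - (n : ℝ)) := by positivity
    rw [Metric.tendsto_atTop] at hlim
    obtain ⟨N, hN⟩ := hlim (δ / 2 / ε ^ (1 - (n : ℝ))) (by positivity)
    refine ⟨N, fun k hk => ?_⟩
    have h1 := hN k hk
    have hnn : 0 ≤ ∫ y, |h k y - h' y| := integral_nonneg (fun y => abs_nonneg _)
    rw [Real.dist_eq, sub_zero, abs_of_nonneg hnn, lt_div_iff₀ hC] at h1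
    rw [Real.dist_eq, sub_zero, abs_of_nonneg (integral_nonneg (fun y => abs_nonneg _))]
    have h2 := TR_diff (s := s) (t := t) hn (hi k) (h0 k) hi' h0' hε
    rw [← hV] at h2
    linarith
  have hL2 : Tendsto (fun k => (s ^ (n - 1))⁻¹ * ((om n)⁻¹ *
      ∫ y, |TR (1 / (n : ℝ)) s t (h k) y - TR (1 / (n : ℝ)) s t h' y|)) atTop (𝓝 0) := by
    have := (hL1.const_mul ((om n)⁻¹)).const_mul ((s ^ (n - 1))⁻¹)
    simpa using this
  have hcong : ∀ u : Y n → ℝ, (∫ r in s..t, Av (fun y => u y ^ (1 / (n : ℝ))) r) =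
      ∫ r in s..t, Av (TR (1 / (n : ℝ)) s t u) r := by
    intro u
    apply intervalIntegral.integral_congr
    intro r hr
    rw [uIcc_of_le hst] at hr
    exact (Av_TR hs u hr).symm
  rw [tendsto_iff_norm_sub_tendsto_zero]
  refine squeeze_zero (fun k => norm_nonneg _) (fun k => ?_) hL2
  rw [hcong, hcong]
  exact Av_diff hn hs hst (hT k) hT'


end H248.BH.A2

namespace H248.BH

export A2 (av_rpow_conv)

end H248.BH
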