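import Pool.Agent.H248.BH.Defs
import Pool.Agent.H248.BH.B01

set_option autoImplicit false
open MeasureTheory Metric Set Filter Topology
open scoped ENNReal NNReal ContDiff

namespace H248.BH.A4


open H248.ID






/-- A4. radial derivative of the averages -/
theorem av_deriv {n : ℕ} (hn : 1 ≤ n) {v : Y n → ℝ} (hv : ContDiff ℝ 1 v) {s t : ℝ}
    (hs : 0 < s) (hst : s ≤ t) :
    Av v t - Av v s = ∫ r in s..t, Av (fun y => fderiv ℝ v y (‖y‖⁻¹ • y)) r := by
  haveI : IsFiniteMeasure (sph n) := by unfold sph; infer_instance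
  have hder : ∀ θ : sphere (0 : Y n) 1, ∀ r : ℝ,
      HasDerivAt (fun r : ℝ => v (r • (θ : Y n))) (fderiv ℝ v (r • (θ : Y n)) (θ : Y n)) r := by
    intro θ r
    have h1 : HasFDerivAt v (fderiv ℝ v (r • (θ : Y n))) (r • (θ : Y n)) :=
      ((hv.differentiable (by norm_num)) _).hasFDerivAt
    have h2 : HasDerivAt (fun r : ℝ => r • (θ : Y n)) ((1:ℝ) • (θ : Y n)) r :=
      (hasDerivAt_id r).smul_const _
    have h3 := h1.comp_hasDerivAt r h2
    rw [one_smul] at h3
    exact h3
  have hcont : Continuous (fun p : (sphere (0 : Y n) 1) × ℝ =>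
      fderiv ℝ v (p.2 • (p.1 : Y n)) (p.1 : Y n)) := by
    have h := hv.continuous_fderiv (by norm_num)
    exact (h.comp (by fun_prop)).clm_apply (by fun_prop)
  have hint : Integrable (Function.uncurry fun (θ : sphere (0 : Y n) 1) (r : ℝ) =>
      fderiv ℝ v (r • (θ : Y n)) (θ : Y n)) ((sph n).prod (volume.restrict (Ioc s t))) := by
    have h1 : IntegrableOn (fun p : (sphere (0 : Y n) 1) × ℝ =>
        fderiv ℝ v (p.2 • (p.1 : Y n)) (p.1 : Y n)) (univ ×ˢ Icc s t) ((sph n).prod volume) :=
      hcont.continuousOn.integrableOn_compact (isCompact_univ.prod isCompact_Icc)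
    have h2 := h1.mono_set (prod_mono (subset_refl _) Ioc_subset_Icc_self)
    rw [IntegrableOn, ← Measure.prod_restrict, Measure.restrict_univ] at h2
    exact h2
  have hvc : ∀ r : ℝ, Integrable (fun θ : sphere (0 : Y n) 1 => v (r • (θ : Y n))) (sph n) := by
    intro r
    have hc : Continuous (fun θ : sphere (0 : Y n) 1 => v (r • (θ : Y n))) :=
      hv.continuous.comp (by fun_prop)
    have := hc.continuousOn.integrableOn_compact (μ := sph n) isCompact_univ
    rwa [integrableOn_univ] at this
  have hftc : ∀ θ : sphere (0 : Y n) 1,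
      ∫ r in s..t, fderiv ℝ v (r • (θ : Y n)) (θ : Y n) = v (t • (θ : Y n)) - v (s • (θ : Y n)) := by
    intro θ
    refine intervalIntegral.integral_eq_sub_of_hasDerivAt (fun r _ => hder θ r) ?_
    apply Continuous.intervalIntegrable
    exact hcont.comp (by fun_prop : Continuous fun r : ℝ => (θ, r))
  have hmain : (∫ θ : sphere (0 : Y n) 1, v (t • (θ : Y n)) ∂(sph n))
      - (∫ θ : sphere (0 : Y n) 1, v (s • (θ : Y n)) ∂(sph n)) =
      ∫ r in s..t, ∫ θ : sphere (0 : Y n) 1, fderiv ℝ v (r • (θ : Y n)) (θ : Y n) ∂(sph n) := by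
    rw [← integral_sub (hvc t) (hvc s)]
    rw [intervalIntegral.integral_of_le hst, ← integral_integral_swap hint]
    refine integral_congr_ae (Filter.Eventually.of_forall fun θ => ?_)
    simp only
    rw [← hftc θ, intervalIntegral.integral_of_le hst]
  unfold Av
  rw [← mul_sub, hmain, ← intervalIntegral.integral_const_mul]
  refine intervalIntegral.integral_congr fun r hr => ?_
  rw [uIcc_of_le hst] at hr
  have hr0 : 0 < r := lt_of_lt_of_le hs hr.1
  simp only
  congr 1
  refine integral_congr_ae (Filter.Eventually.of_forall fun θ => ?_)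
  simp only
  congr 1
  have hθ : ‖(θ : Y n)‖ = 1 := by simpa using θ.2
  rw [norm_smul, hθ, mul_one, Real.norm_eq_abs, abs_of_pos hr0, smul_smul, inv_mul_cancel₀ hr0.ne',
    one_smul]


end H248.BH.A4

namespace H248.BH

export A4 (av_deriv)

end H248.BH
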