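import Pool.Agent.H248.BH.Defs

set_option autoImplicit false
open MeasureTheory Metric Set Filter Topology
open scoped ENNReal NNReal ContDiff

namespace H248.BH.B02


open H248.ID

theorem polar_core {n : ℕ} (hn : 1 ≤ n) {S : Set (Y n)} (hS : MeasurableSet S) :
    (∀ᵐ y : Y n, y ∈ S) ↔ ∀ᵐ s ∂(volume.restrict (Ioi (0 : ℝ))),
      ∀ᵐ (θ : sphere (0 : Y n) 1) ∂(sph n), s • (θ : Y n) ∈ S := by
  have : Nontrivial (Y n) := by
    have : Nonempty (Fin n) := ⟨⟨0, by omega⟩⟩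
    infer_instance
  -- remove the origin
  have h1 : (∀ᵐ y : Y n, y ∈ S) ↔ ∀ᵐ x : ({(0 : Y n)}ᶜ : Set (Y n))
      ∂(Measure.comap (↑) (volume : Measure (Y n))), (x : Y n) ∈ S := by
    rw [← ae_restrict_iff_subtype (measurableSet_singleton (0 : Y n)).compl,
      restrict_compl_singleton]
  -- polar coordinates
  have h2 : (∀ᵐ x : ({(0 : Y n)}ᶜ : Set (Y n))
      ∂(Measure.comap (↑) (volume : Measure (Y n))), (x : Y n) ∈ S) ↔
      ∀ᵐ q ∂((sph n).prod (Measure.volumeIoiPow (Module.finrank ℝ (Y n) - 1))),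
        (((homeomorphUnitSphereProd (Y n)).symm q : ({(0 : Y n)}ᶜ : Set (Y n))) : Y n) ∈ S := by
    unfold sph
    rw [← (volume : Measure (Y n)).measurePreserving_homeomorphUnitSphereProd.map_eq,
      (homeomorphUnitSphereProd (Y n)).measurableEmbedding.ae_map_iff]
    simp only [Homeomorph.symm_apply_apply]
  -- measurability
  have hm : MeasurableSet {q : sphere (0 : Y n) 1 × Ioi (0 : ℝ) |
      (((homeomorphUnitSphereProd (Y n)).symm q : ({(0 : Y n)}ᶜ : Set (Y n))) : Y n) ∈ S} :=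
    (measurable_subtype_coe.comp (homeomorphUnitSphereProd (Y n)).symm.measurable) hS
  have h3 : (∀ᵐ q ∂((sph n).prod (Measure.volumeIoiPow (Module.finrank ℝ (Y n) - 1))),
        (((homeomorphUnitSphereProd (Y n)).symm q : ({(0 : Y n)}ᶜ : Set (Y n))) : Y n) ∈ S) ↔
      ∀ᵐ (r : Ioi (0 : ℝ)) ∂(Measure.volumeIoiPow (Module.finrank ℝ (Y n) - 1)),
        ∀ᵐ (θ : sphere (0 : Y n) 1) ∂(sph n), (r : ℝ) • (θ : Y n) ∈ S := by
    have : IsFiniteMeasure (sph n) := by unfold sph; infer_instance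
    rw [← Measure.prod_swap, ae_map_iff measurable_swap.aemeasurable hm]
    have hm' : MeasurableSet {q : Ioi (0 : ℝ) × sphere (0 : Y n) 1 |
        (((homeomorphUnitSphereProd (Y n)).symm q.swap : ({(0 : Y n)}ᶜ : Set (Y n))) : Y n) ∈ S} :=
      measurable_swap hm
    rw [Measure.ae_prod_iff_ae_ae hm']
    simp only [Prod.swap_prod_mk, homeomorphUnitSphereProd_symm_apply_coe]
  have h4 : (∀ᵐ (r : Ioi (0 : ℝ)) ∂(Measure.volumeIoiPow (Module.finrank ℝ (Y n) - 1)),
        ∀ᵐ (θ : sphere (0 : Y n) 1) ∂(sph n), (r : ℝ) • (θ : Y n) ∈ S) ↔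
      ∀ᵐ s ∂(volume.restrict (Ioi (0 : ℝ))),
      ∀ᵐ (θ : sphere (0 : Y n) 1) ∂(sph n), s • (θ : Y n) ∈ S := by
    rw [ae_restrict_iff_subtype measurableSet_Ioi, Measure.volumeIoiPow,
      ae_withDensity_iff (by fun_prop)]
    constructor
    · intro h
      filter_upwards [h] with r hr
      apply hr
      have : 0 < (r : ℝ) := r.2
      rw [ne_eq, ENNReal.ofReal_eq_zero, not_le]
      positivity
    · intro h
      filter_upwards [h] with r hr _
      exact hr
  rw [h1, h2, h3, h4]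



/-- P2. null sets in polar coordinates -/
theorem polar_ae {n : ℕ} (hn : 1 ≤ n) {P : Y n → Prop} (h : ∀ᵐ y, P y) :
    ∀ᵐ s ∂(volume.restrict (Ioi (0 : ℝ))), ∀ᵐ (θ : sphere (0 : Y n) 1) ∂(sph n), P (s • (θ : Y n)) := by
  have h0 : volume (toMeasurable volume {y | ¬ P y}) = 0 := by
    rw [measure_toMeasurable]; exact h
  have h1 : ∀ᵐ y : Y n, y ∈ (toMeasurable volume {y | ¬ P y})ᶜ := by
    rw [ae_iff]
    simpa using h0
  filter_upwards [(polar_core hn (measurableSet_toMeasurable _ _).compl).1 h1] with s hs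
  filter_upwards [hs] with θ hθ
  by_contra hcon
  exact hθ (subset_toMeasurable _ _ hcon)

/-- P3. null sets in polar coordinates, converse -/
theorem ae_polar {n : ℕ} (hn : 1 ≤ n) {P : Y n → Prop} (hP : MeasurableSet {y | P y})
    (h : ∀ᵐ s ∂(volume.restrict (Ioi (0 : ℝ))), ∀ᵐ (θ : sphere (0 : Y n) 1) ∂(sph n), P (s • (θ : Y n))) :
    ∀ᵐ y, P y :=
  (polar_core hn hP).2 h

/-- P4. null sets of radii -/
theorem ae_norm {n : ℕ} (hn : 1 ≤ n) {p : ℝ → Prop}
    (h : ∀ᵐ s ∂(volume.restrict (Ioi (0 : ℝ))), p s) : ∀ᵐ y : Y n, p ‖y‖ := by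
  obtain ⟨T, hT⟩ : ∃ T : Set ℝ, T = toMeasurable (volume.restrict (Ioi (0 : ℝ))) {s | ¬ p s} :=
    ⟨_, rfl⟩
  have hTm : MeasurableSet T := by rw [hT]; exact measurableSet_toMeasurable _ _
  have h0 : (volume.restrict (Ioi (0 : ℝ))) T = 0 := by
    rw [hT, measure_toMeasurable]; exact h
  have h1 : ∀ᵐ s ∂(volume.restrict (Ioi (0 : ℝ))), s ∉ T := by
    rw [ae_iff]
    simpa using h0
  have hS : MeasurableSet {y : Y n | ‖y‖ ∉ T} := (measurable_norm hTm).compl
  have h2 : ∀ᵐ y : Y n, ‖y‖ ∉ T := by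
    apply ae_polar hn hS
    filter_upwards [h1, ae_restrict_mem measurableSet_Ioi] with s hs hs0
    apply Filter.Eventually.of_forall
    intro θ
    have hθ : ‖(θ : Y n)‖ = 1 := by simp
    rw [norm_smul, hθ, mul_one, Real.norm_of_nonneg (le_of_lt hs0)]
    exact hs
  filter_upwards [h2] with y hy
  by_contra hcon
  apply hy
  rw [hT]
  exact subset_toMeasurable _ _ hcon


end H248.BH.B02

namespace H248.BH

export B02 (polar_ae ae_polar ae_norm)

end H248.BH
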