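import Pool.Agent.H248.BH.Defs

set_option autoImplicit false
open MeasureTheory Metric Set Filter Topology
open scoped ENNReal NNReal ContDiff

namespace H248.BH.Q2a


open H248.ID



theorem auxP_e {n : ℕ} {X : Type*} [MeasurableSpace X] {μ : Measure X}
    {f : X → Y n} {e J z : X → ℝ} {w : X → Y n} {a β : ℝ}
    (P : Push n μ f e J z w a β) : ∃ C : ℝ, 0 ≤ C ∧ ∀ x, e x ≤ C := by
  obtain ⟨C, hC⟩ := P.e_bdd
  exact ⟨max C 0, le_max_right _ _, fun x => (hC x).trans (le_max_left _ _)⟩

theorem auxP_eJ {n : ℕ} {X : Type*} [MeasurableSpace X] {μ : Measure X}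
    {f : X → Y n} {e J z : X → ℝ} {w : X → Y n} {a β : ℝ}
    (P : Push n μ f e J z w a β) (k : ℕ) : Integrable (fun x => e x ^ k * J x) μ := by
  obtain ⟨C, hC0, hC⟩ := auxP_e P
  refine Integrable.mono' (P.J_int.const_mul (C ^ k))
    ((P.meas_e.pow_const k).mul P.meas_J).aestronglyMeasurable ?_
  filter_upwards with x
  rw [Real.norm_of_nonneg (mul_nonneg (pow_nonneg (P.e_nonneg x) _) (P.J_nonneg x))]
  have h1 := P.e_nonneg x
  have h2 := P.J_nonneg x
  have h3 := hC x
  gcongr

theorem auxP_w {n : ℕ} (hn : 2 ≤ n) {X : Type*} [MeasurableSpace X] {μ : Measure X}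
    {f : X → Y n} {e J z : X → ℝ} {w : X → Y n} {a β : ℝ}
    (P : Push n μ f e J z w a β) (x : X) : ‖w x‖ ≤ J x + z x := by
  have hn1 : (1 : ℝ) < n := by exact_mod_cast (by omega : 1 < n)
  have hn0 : (0 : ℝ) < n := by linarith
  have h1 := Real.geom_mean_le_arith_mean2_weighted (w₁ := ((n : ℝ) - 1) / n) (w₂ := 1 / (n : ℝ))
    (div_nonneg (by linarith) hn0.le) (by positivity) (P.J_nonneg x) (P.z_nonneg x)
    (by field_simp; ring)
  refine (P.w_le x).trans (h1.trans ?_)
  have h2 : ((n : ℝ) - 1) / n ≤ 1 := by rw [div_le_one hn0]; linarith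
  have h3 : 1 / (n : ℝ) ≤ 1 := by rw [div_le_one hn0]; linarith
  have h4 := P.J_nonneg x
  have h5 := P.z_nonneg x
  nlinarith

theorem auxP_third {n : ℕ} (hn : 2 ≤ n) {X : Type*} [MeasurableSpace X] {μ : Measure X}
    {f : X → Y n} {e J z : X → ℝ} {w : X → Y n} {a β : ℝ}
    (P : Push n μ f e J z w a β) (h : Y n) : Integrable (fun x => e x ^ (n - 1) *
        (inner ℝ (w x) h + inner ℝ (f x) h / (β * ‖f x‖ ^ 2) * J x)) μ := by
  obtain ⟨C, hC0, hC⟩ := auxP_e P
  have ha := P.a_pos
  have hβ := P.β_pos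
  refine Integrable.mono' (g := fun x => C ^ (n - 1) * ((J x + z x) * ‖h‖) +
    C ^ (n - 1) * (‖h‖ / (β * a)) * J x) ?_ ?_ ?_
  · exact (((P.J_int.add P.z_int).mul_const _).const_mul _).add (P.J_int.const_mul _)
  · refine Measurable.aestronglyMeasurable ?_
    have m1 : Measurable (fun x => inner ℝ (w x) h) := P.meas_w.inner measurable_const
    have m2 : Measurable (fun x => inner ℝ (f x) h) := P.meas_f.inner measurable_const
    have m3 : Measurable (fun x => β * ‖f x‖ ^ 2) := (P.meas_f.norm.pow_const 2).const_mul β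
    exact (P.meas_e.pow_const _).mul (m1.add ((m2.div m3).mul P.meas_J))
  · filter_upwards with x
    have h1 := P.e_nonneg x
    have h2 := P.J_nonneg x
    have h3 := P.z_nonneg x
    have h4 := hC x
    have h5 := auxP_w hn P x
    have hh := norm_nonneg h
    by_cases he : e x = 0
    · have hn1 : n - 1 ≠ 0 := by omega
      rw [he, zero_pow hn1, zero_mul, norm_zero]
      positivity
    · have h6 := P.f_ge x he
      have hf0 : 0 < ‖f x‖ := lt_of_lt_of_le ha h6
      rw [norm_mul, Real.norm_of_nonneg (pow_nonneg h1 _)]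
      have h7 : ‖(inner ℝ (w x) h : ℝ)‖ ≤ (J x + z x) * ‖h‖ :=
        (norm_inner_le_norm _ _).trans (by gcongr)
      have h8 : ‖(inner ℝ (f x) h / (β * ‖f x‖ ^ 2) * J x : ℝ)‖ ≤ ‖h‖ / (β * a) * J x := by
        rw [norm_mul, norm_div, Real.norm_of_nonneg h2]
        have h9 : ‖(β * ‖f x‖ ^ 2 : ℝ)‖ = β * ‖f x‖ ^ 2 := Real.norm_of_nonneg (by positivity)
        rw [h9]
        have h10 : ‖(inner ℝ (f x) h : ℝ)‖ ≤ ‖f x‖ * ‖h‖ := norm_inner_le_norm _ _
        have h11 : ‖(inner ℝ (f x) h : ℝ)‖ / (β * ‖f x‖ ^ 2) ≤ ‖h‖ / (β * a) := by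
          calc ‖(inner ℝ (f x) h : ℝ)‖ / (β * ‖f x‖ ^ 2) ≤ (‖f x‖ * ‖h‖) / (β * ‖f x‖ ^ 2) := by
                gcongr
            _ = ‖h‖ / (β * ‖f x‖) := by field_simp
            _ ≤ ‖h‖ / (β * a) := by gcongr
        gcongr
      calc e x ^ (n - 1) * ‖(inner ℝ (w x) h + inner ℝ (f x) h / (β * ‖f x‖ ^ 2) * J x : ℝ)‖
          ≤ C ^ (n - 1) * ((J x + z x) * ‖h‖ + ‖h‖ / (β * a) * J x) := by
            gcongr
            exact (norm_add_le _ _).trans (add_le_add h7 h8)
        _ = _ := by ring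

/-- Q2a. derivative of the mollified push-forward -/
theorem push_fderiv {n : ℕ} (hn : 2 ≤ n) {X : Type*} [MeasurableSpace X] {μ : Measure X}
    [IsFiniteMeasure μ] {f : X → Y n} {e J z : X → ℝ} {w : X → Y n} {a β : ℝ}
    (P : Push n μ f e J z w a β) {ρ : Y n → ℝ} (hρ : ContDiff ℝ ∞ ρ) (hρc : HasCompactSupport ρ) :
    Integrable (fun x => e x ^ n * J x) μ ∧ Integrable (fun x => e x ^ (n - 1) * J x) μ ∧
    (∀ h : Y n, Integrable (fun x => e x ^ (n - 1) *
        (inner ℝ (w x) h + inner ℝ (f x) h / (β * ‖f x‖ ^ 2) * J x)) μ) ∧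
    (∀ T : X → ℝ, Integrable T μ → Continuous fun y => ∫ x, ρ (y - f x) * T x ∂μ) ∧
    ContDiff ℝ 1 (fun y => ∫ x, ρ (y - f x) * (e x ^ n * J x) ∂μ) ∧
    ∀ y h : Y n, fderiv ℝ (fun y => ∫ x, ρ (y - f x) * (e x ^ n * J x) ∂μ) y h =
      n * ∫ x, ρ (y - f x) * (e x ^ (n - 1) *
        (inner ℝ (w x) h + inner ℝ (f x) h / (β * ‖f x‖ ^ 2) * J x)) ∂μ := by
  have hSi : Integrable (fun x => e x ^ n * J x) μ := auxP_eJ P n
  have hSm : AEStronglyMeasurable (fun x => e x ^ n * J x) μ := hSi.1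
  obtain ⟨C0, hC0⟩ := hρ.continuous.bounded_above_of_compact_support hρc
  have hρd : Continuous (fderiv ℝ ρ) := hρ.continuous_fderiv (by simp)
  obtain ⟨C1, hC1⟩ := hρd.bounded_above_of_compact_support (hρc.fderiv ℝ)
  have hfm : ∀ y : Y n, Measurable (fun x => y - f x) := fun y => P.meas_f.const_sub y
  have hconv : ∀ T : X → ℝ, Integrable T μ → Continuous fun y => ∫ x, ρ (y - f x) * T x ∂μ := by
    intro T hT
    refine continuous_of_dominated (bound := fun x => C0 * ‖T x‖) ?_ ?_ (hT.norm.const_mul _) ?_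
    · intro y
      exact ((hρ.continuous.measurable.comp (hfm y)).aestronglyMeasurable).mul hT.1
    · intro y
      filter_upwards with x
      rw [norm_mul]
      have := hC0 (y - f x)
      gcongr
    · filter_upwards with x
      exact (hρ.continuous.comp (continuous_id.sub continuous_const)).mul continuous_const
  have hder : ∀ y : Y n, HasFDerivAt (fun y => ∫ x, ρ (y - f x) * (e x ^ n * J x) ∂μ)
      (∫ x, (e x ^ n * J x) • fderiv ℝ ρ (y - f x) ∂μ) y := by
    intro y
    refine hasFDerivAt_integral_of_dominated_of_fderiv_le (𝕜 := ℝ)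
      (F := fun y x => ρ (y - f x) * (e x ^ n * J x))
      (F' := fun y x => (e x ^ n * J x) • fderiv ℝ ρ (y - f x))
      (bound := fun x => ‖e x ^ n * J x‖ * C1) (s := univ) univ_mem ?_ ?_ ?_ ?_
      (hSi.norm.mul_const _) ?_
    · filter_upwards with y'
      exact ((hρ.continuous.measurable.comp (hfm y')).aestronglyMeasurable).mul hSm
    · refine Integrable.mono' (hSi.norm.const_mul C0)
        (((hρ.continuous.measurable.comp (hfm y)).aestronglyMeasurable).mul hSm) ?_
      filter_upwards with x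
      rw [norm_mul]
      have := hC0 (y - f x)
      gcongr
    · exact hSm.smul (hρd.measurable.comp (hfm y)).aestronglyMeasurable
    · filter_upwards with x y' _
      rw [norm_smul]
      have := hC1 (y' - f x)
      gcongr
    · filter_upwards with x y' _
      have h1 : HasFDerivAt ρ (fderiv ℝ ρ (y' - f x)) (y' - f x) :=
        (hρ.differentiable (by simp) _).hasFDerivAt
      have h2 : HasFDerivAt (fun y => ρ (y - f x)) (fderiv ℝ ρ (y' - f x)) y' := by
        have h3 : HasFDerivAt (fun y : Y n => y - f x) (ContinuousLinearMap.id ℝ (Y n)) y' :=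
          (hasFDerivAt_id y').sub_const _
        have h4 := h1.comp y' h3
        rw [ContinuousLinearMap.comp_id] at h4
        exact h4
      exact h2.mul_const (e x ^ n * J x)
  have hfd : ∀ y : Y n, fderiv ℝ (fun y => ∫ x, ρ (y - f x) * (e x ^ n * J x) ∂μ) y =
      ∫ x, (e x ^ n * J x) • fderiv ℝ ρ (y - f x) ∂μ := fun y => (hder y).fderiv
  have hint : ∀ y : Y n, Integrable (fun x => (e x ^ n * J x) • fderiv ℝ ρ (y - f x)) μ := by
    intro y
    refine Integrable.mono' (hSi.norm.mul_const C1)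
      (hSm.smul (hρd.measurable.comp (hfm y)).aestronglyMeasurable) ?_
    filter_upwards with x
    rw [norm_smul]
    have := hC1 (y - f x)
    gcongr
  refine ⟨hSi, auxP_eJ P (n - 1), auxP_third hn P, hconv, ?_, ?_⟩
  · rw [contDiff_one_iff_fderiv]
    refine ⟨fun y => (hder y).differentiableAt, ?_⟩
    have h1 : fderiv ℝ (fun y => ∫ x, ρ (y - f x) * (e x ^ n * J x) ∂μ) =
        fun y => ∫ x, (e x ^ n * J x) • fderiv ℝ ρ (y - f x) ∂μ := funext hfd
    rw [h1]
    refine continuous_of_dominated (bound := fun x => ‖e x ^ n * J x‖ * C1) ?_ ?_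
      (hSi.norm.mul_const _) ?_
    · intro y
      exact hSm.smul (hρd.measurable.comp (hfm y)).aestronglyMeasurable
    · intro y
      filter_upwards with x
      rw [norm_smul]
      have := hC1 (y - f x)
      gcongr
    · filter_upwards with x
      have h9 : Continuous (fun y : Y n => fderiv ℝ ρ (y - f x)) :=
        hρd.comp (continuous_id.sub continuous_const)
      exact h9.const_smul (e x ^ n * J x)
  · intro y h
    rw [hfd, ContinuousLinearMap.integral_apply (hint y)]
    have hψ : ContDiff ℝ ∞ (fun η : Y n => ρ (y - η)) :=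
      hρ.comp (contDiff_const.sub contDiff_id)
    have hψc : HasCompactSupport (fun η : Y n => ρ (y - η)) :=
      hρc.comp_homeomorph (Homeomorph.subLeft y)
    have h1 := P.ident (fun η => ρ (y - η)) hψ hψc h
    have h2 : ∀ η : Y n, fderiv ℝ (fun η => ρ (y - η)) η h = - fderiv ℝ ρ (y - η) h := by
      intro η
      have h3 : HasFDerivAt ρ (fderiv ℝ ρ (y - η)) (y - η) :=
        (hρ.differentiable (by simp) _).hasFDerivAt
      have h4 : HasFDerivAt (fun η : Y n => y - η) (-(ContinuousLinearMap.id ℝ (Y n))) η :=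
        (hasFDerivAt_id η).const_sub _
      have h5 := h3.comp η h4
      have h6 : fderiv ℝ (fun η => ρ (y - η)) η = _ := h5.fderiv
      rw [h6]
      simp
    simp only [h2] at h1
    have h3 : ∫ x, ((e x ^ n * J x) • fderiv ℝ ρ (y - f x)) h ∂μ =
        - ∫ x, -(fderiv ℝ ρ (y - f x)) h * (e x ^ n * J x) ∂μ := by
      rw [← integral_neg]
      congr 1
      funext x
      simp only [ContinuousLinearMap.smul_apply, smul_eq_mul]
      ring
    rw [h3, h1, neg_neg]


end H248.BH.Q2a

namespace H248.BH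

export Q2a (push_fderiv)

end H248.BH
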