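import Pool.Agent.H248.BH.Defs
import Pool.Agent.H248.BH.Q2a

set_option autoImplicit false
open MeasureTheory Metric Set Filter Topology
open scoped ENNReal NNReal ContDiff

namespace H248.BH.Q2


open H248.ID




section helpers49

theorem pd_memLp {X : Type*} [MeasurableSpace X] {μ : Measure X} {A : X → ℝ} {s : ℝ}
    (hs : 0 < s) (hA0 : ∀ x, 0 ≤ A x) (hA : Integrable A μ) :
    MemLp (fun x => A x ^ s) (ENNReal.ofReal (1 / s)) μ := by
  have h1s : 0 < 1 / s := by positivity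
  have hmeas : AEStronglyMeasurable (fun x => A x ^ s) μ :=
    (hA.aestronglyMeasurable.aemeasurable.pow_const s).aestronglyMeasurable
  refine (integrable_norm_rpow_iff hmeas (ENNReal.ofReal_pos.2 h1s).ne'
    ENNReal.ofReal_ne_top).1 ?_
  rw [ENNReal.toReal_ofReal h1s.le]
  refine hA.congr (Filter.Eventually.of_forall fun x => ?_)
  change A x = ‖A x ^ s‖ ^ (1 / s)
  rw [Real.norm_of_nonneg (Real.rpow_nonneg (hA0 x) _), ← Real.rpow_mul (hA0 x),
    mul_one_div_cancel hs.ne', Real.rpow_one]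

theorem pd_hol {X : Type*} [MeasurableSpace X] {μ : Measure X} {A B : X → ℝ} {s t : ℝ}
    (hs : 0 < s) (ht : 0 < t) (hst : s + t = 1) (hA0 : ∀ x, 0 ≤ A x) (hB0 : ∀ x, 0 ≤ B x)
    (hA : Integrable A μ) (hB : Integrable B μ) :
    Integrable (fun x => A x ^ s * B x ^ t) μ ∧
      ∫ x, A x ^ s * B x ^ t ∂μ ≤ (∫ x, A x ∂μ) ^ s * (∫ x, B x ∂μ) ^ t := by
  constructor
  · refine Integrable.mono' ((hA.const_mul s).add (hB.const_mul t)) ?_ ?_
    · exact ((hA.aestronglyMeasurable.aemeasurable.pow_const s).mul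
        (hB.aestronglyMeasurable.aemeasurable.pow_const t)).aestronglyMeasurable
    · refine Filter.Eventually.of_forall fun x => ?_
      rw [Real.norm_of_nonneg (mul_nonneg (Real.rpow_nonneg (hA0 x) _)
        (Real.rpow_nonneg (hB0 x) _))]
      exact Real.geom_mean_le_arith_mean2_weighted hs.le ht.le (hA0 x) (hB0 x) hst
  · have hpq : (1 / s).HolderConjugate (1 / t) := by
      refine ⟨?_, by positivity, by positivity⟩
      rw [one_div, one_div, inv_inv, inv_inv, inv_one, hst]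
    have h := integral_mul_le_Lp_mul_Lq_of_nonneg hpq
      (f := fun x => A x ^ s) (g := fun x => B x ^ t) (μ := μ)
      (Filter.Eventually.of_forall fun x => Real.rpow_nonneg (hA0 x) _)
      (Filter.Eventually.of_forall fun x => Real.rpow_nonneg (hB0 x) _)
      (pd_memLp hs hA0 hA) (pd_memLp ht hB0 hB)
    have e1 : ∀ x, (A x ^ s) ^ (1 / s) = A x := fun x => by
      rw [← Real.rpow_mul (hA0 x), mul_one_div_cancel hs.ne', Real.rpow_one]
    have e2 : ∀ x, (B x ^ t) ^ (1 / t) = B x := fun x => by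
      rw [← Real.rpow_mul (hB0 x), mul_one_div_cancel ht.ne', Real.rpow_one]
    simp only [e1, e2, one_div_one_div] at h
    exact h

theorem pd_alg1 {n : ℕ} (hn : 2 ≤ n) {s t r e J z : ℝ} (hs : s = ((n : ℝ) - 1) / n)
    (ht : t = 1 / (n : ℝ)) (hr : 0 ≤ r) (he : 0 ≤ e) (hJ : 0 ≤ J) (hz : 0 ≤ z) :
    r * (e ^ (n - 1) * (J ^ s * z ^ t)) = (r * (e ^ n * J)) ^ s * (r * z) ^ t := by
  have hn0 : (n : ℝ) ≠ 0 := by positivity
  have hn1 : (1 : ℝ) < n := by exact_mod_cast (by omega : 1 < n)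
  have hs0 : 0 ≤ s := by
    rw [hs]
    exact div_nonneg (by linarith) (by positivity)
  have ht0 : 0 ≤ t := by rw [ht]; positivity
  have hst : s + t = 1 := by
    rw [hs, ht]
    field_simp
    ring
  rw [Real.mul_rpow hr (by positivity), Real.mul_rpow (by positivity) hJ, Real.mul_rpow hr hz]
  have e1 : (e ^ n) ^ s = e ^ (n - 1) := by
    rw [← Real.rpow_natCast, ← Real.rpow_mul he, ← Real.rpow_natCast]
    congr 1
    rw [hs, mul_div_cancel₀ _ hn0]
    have : ((n - 1 : ℕ) : ℝ) = (n : ℝ) - 1 := by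
      rw [Nat.cast_sub (by omega)]
      simp
    rw [this]
  have e2 : r = r ^ s * r ^ t := by
    rw [← Real.rpow_add_of_nonneg hr hs0 ht0, hst, Real.rpow_one]
  rw [e1]
  calc r * (e ^ (n - 1) * (J ^ s * z ^ t))
      = (r ^ s * r ^ t) * (e ^ (n - 1) * (J ^ s * z ^ t)) := by rw [← e2]
    _ = _ := by ring

open Classical in
theorem pd_alg2 {n : ℕ} (hn : 2 ≤ n) {s t r e J : ℝ} (hs : s = ((n : ℝ) - 1) / n)
    (ht : t = 1 / (n : ℝ)) (hr : 0 ≤ r) (he : 0 ≤ e) (hJ : 0 ≤ J) :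
    r * (e ^ (n - 1) * J) = (r * (e ^ n * J)) ^ s * (r * (if e ≠ 0 then J else 0)) ^ t := by
  have hn0 : (n : ℝ) ≠ 0 := by positivity
  have hn1 : (1 : ℝ) < n := by exact_mod_cast (by omega : 1 < n)
  have hs0 : 0 < s := by
    rw [hs]
    exact div_pos (by linarith) (by positivity)
  have ht0 : 0 ≤ t := by rw [ht]; positivity
  have hst : s + t = 1 := by
    rw [hs, ht]
    field_simp
    ring
  by_cases h0 : e = 0
  · rw [h0, zero_pow (by omega : n ≠ 0), zero_pow (by omega : n - 1 ≠ 0)]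
    simp [Real.zero_rpow hs0.ne']
  · rw [if_pos h0, ← pd_alg1 hn hs ht hr he hJ hJ, ← Real.rpow_add_of_nonneg hJ hs0.le ht0, hst,
      Real.rpow_one]

end helpers49



/-- Q2. the mollified push-forward -/
theorem push_deriv {n : ℕ} (hn : 2 ≤ n) {X : Type*} [MeasurableSpace X] {μ : Measure X}
    [IsFiniteMeasure μ] {f : X → Y n} {e J z : X → ℝ} {w : X → Y n} {a β : ℝ}
    (P : Push n μ f e J z w a β) {ρ : Y n → ℝ} (hρ : ContDiff ℝ ∞ ρ) (hρ0 : ∀ y, 0 ≤ ρ y)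
    {ε : ℝ} (hε : 0 < ε) (hεa : ε ≤ a / 2) (hρs : ∀ y, ρ y ≠ 0 → ‖y‖ ≤ ε) {τ : ℝ} (hτ : 0 < τ)
    {Fm Gm Nm Zm : Y n → ℝ} (hFm : ∀ y, Fm y = ∫ x, ρ (y - f x) * (e x ^ n * J x) ∂μ)
    (hGm : ∀ y, Gm y = ∫ x, ρ (y - f x) * (e x ^ (n - 1) * J x) ∂μ)
    (hNm : ∀ y, Nm y = ∫ x in {x | e x ≠ 0}, ρ (y - f x) * J x ∂μ)
    (hZm : ∀ y, Zm y = ∫ x, ρ (y - f x) * z x ∂μ) :
    (∀ y, 0 ≤ Fm y) ∧ (∀ y, 0 ≤ Gm y) ∧ (∀ y, 0 ≤ Nm y) ∧ (∀ y, 0 ≤ Zm y) ∧
    Continuous Fm ∧ Continuous Gm ∧ Continuous Nm ∧ Continuous Zm ∧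
    ContDiff ℝ 1 (fun y => (Fm y + τ) ^ (1 / (n : ℝ))) ∧
    (∀ y h : Y n, inner ℝ y h = 0 →
      |fderiv ℝ (fun y => (Fm y + τ) ^ (1 / (n : ℝ))) y h| ≤
        (Zm y ^ (1 / (n : ℝ)) + ε / (β * a ^ 2) * Nm y ^ (1 / (n : ℝ))) * ‖h‖) ∧
    (∀ y : Y n, y ≠ 0 →
      - Zm y ^ (1 / (n : ℝ)) + (Fm y + τ) ^ ((1 - (n : ℝ)) / n) * Gm y / (β * ‖y‖) -
        2 * ε / (β * a ^ 2) * Nm y ^ (1 / (n : ℝ)) ≤
      fderiv ℝ (fun y => (Fm y + τ) ^ (1 / (n : ℝ))) y (‖y‖⁻¹ • y)) := by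
  classical
  have hρc : HasCompactSupport ρ := by
    refine HasCompactSupport.intro (isCompact_closedBall (0 : Y n) ε) fun y hy => ?_
    by_contra hne
    exact hy (mem_closedBall_zero_iff.2 (hρs y hne))
  obtain ⟨i1, i2, i3, hc, hd, hfd⟩ := push_fderiv hn P hρ hρc
  obtain ⟨Cρ, hCρ⟩ := hρ.continuous.bounded_above_of_compact_support hρc
  have ha := P.a_pos
  have hβ := P.β_pos
  have hn1 : (1 : ℝ) < n := by exact_mod_cast (by omega : 1 < n)
  have hn0 : (0 : ℝ) < n := by linarith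
  obtain ⟨s, hs⟩ : ∃ s, s = ((n : ℝ) - 1) / n := ⟨_, rfl⟩
  obtain ⟨t, ht⟩ : ∃ t, t = 1 / (n : ℝ) := ⟨_, rfl⟩
  have hs0 : 0 < s := by
    rw [hs]
    exact div_pos (by linarith) (by positivity)
  have ht0 : 0 < t := by rw [ht]; positivity
  have hst : s + t = 1 := by
    rw [hs, ht]
    field_simp
    ring
  have hneg : (1 - (n : ℝ)) / n = -s := by
    rw [hs]
    field_simp
    ring
  have hmr : ∀ y, Measurable fun x => ρ (y - f x) := fun y =>
    hρ.continuous.measurable.comp (measurable_const.sub P.meas_f)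
  have hint : ∀ {T : X → ℝ}, Integrable T μ → ∀ y, Integrable (fun x => ρ (y - f x) * T x) μ := by
    intro T hT y
    exact hT.bdd_mul (hmr y).aestronglyMeasurable (Filter.Eventually.of_forall fun x => hCρ _)
  have hSm : MeasurableSet {x | e x ≠ 0} := by
    have : {x | e x ≠ 0} = (e ⁻¹' {0})ᶜ := rfl
    rw [this]
    exact (P.meas_e (measurableSet_singleton 0)).compl
  have hJi : Integrable (fun x => if e x ≠ 0 then J x else 0) μ := by
    have h := P.J_int.indicator hSm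
    refine h.congr (Filter.Eventually.of_forall fun x => ?_)
    simp only [Set.indicator_apply, Set.mem_ofPred_eq]
  have hNm' : ∀ y, Nm y = ∫ x, ρ (y - f x) * (if e x ≠ 0 then J x else 0) ∂μ := by
    intro y
    rw [hNm, ← integral_indicator hSm]
    refine integral_congr_ae (Filter.Eventually.of_forall fun x => ?_)
    simp only [Set.indicator_apply, Set.mem_ofPred_eq]
    split_ifs
    · rfl
    · rw [mul_zero]
  have hFeq : Fm = fun y => ∫ x, ρ (y - f x) * (e x ^ n * J x) ∂μ := funext hFm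
  have hGeq : Gm = fun y => ∫ x, ρ (y - f x) * (e x ^ (n - 1) * J x) ∂μ := funext hGm
  have hNeq : Nm = fun y => ∫ x, ρ (y - f x) * (if e x ≠ 0 then J x else 0) ∂μ := funext hNm'
  have hZeq : Zm = fun y => ∫ x, ρ (y - f x) * z x ∂μ := funext hZm
  have hF0 : ∀ y, 0 ≤ Fm y := by
    intro y
    rw [hFm]
    refine integral_nonneg fun x => mul_nonneg (hρ0 _) (mul_nonneg ?_ (P.J_nonneg x))
    exact pow_nonneg (P.e_nonneg x) _
  have hG0 : ∀ y, 0 ≤ Gm y := by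
    intro y
    rw [hGm]
    refine integral_nonneg fun x => mul_nonneg (hρ0 _) (mul_nonneg ?_ (P.J_nonneg x))
    exact pow_nonneg (P.e_nonneg x) _
  have hJif : ∀ x, 0 ≤ (if e x ≠ 0 then J x else 0) := by
    intro x
    split_ifs
    · exact P.J_nonneg x
    · exact le_refl _
  have hN0 : ∀ y, 0 ≤ Nm y := by
    intro y
    rw [hNm']
    exact integral_nonneg fun x => mul_nonneg (hρ0 _) (hJif x)
  have hZ0 : ∀ y, 0 ≤ Zm y := by
    intro y
    rw [hZm]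
    exact integral_nonneg fun x => mul_nonneg (hρ0 _) (P.z_nonneg x)
  have hFc : Continuous Fm := by
    rw [hFeq]
    exact hc _ i1
  have hGc : Continuous Gm := by
    rw [hGeq]
    exact hc _ i2
  have hNc : Continuous Nm := by
    rw [hNeq]
    exact hc _ hJi
  have hZc : Continuous Zm := by
    rw [hZeq]
    exact hc _ P.z_int
  have hFd : ContDiff ℝ 1 Fm := by
    rw [hFeq]
    exact hd
  have hpos : ∀ y, 0 < Fm y + τ := fun y => by linarith [hF0 y]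
  -- Hölder
  have hA0 : ∀ y x, 0 ≤ ρ (y - f x) * (e x ^ n * J x) := fun y x =>
    mul_nonneg (hρ0 _) (mul_nonneg (pow_nonneg (P.e_nonneg x) _) (P.J_nonneg x))
  have H1 : ∀ y, Integrable (fun x => ρ (y - f x) * (e x ^ (n - 1) * (J x ^ s * z x ^ t))) μ ∧
      ∫ x, ρ (y - f x) * (e x ^ (n - 1) * (J x ^ s * z x ^ t)) ∂μ ≤ Fm y ^ s * Zm y ^ t := by
    intro y
    have h := pd_hol hs0 ht0 hst (hA0 y) (fun x => mul_nonneg (hρ0 (y - f x)) (P.z_nonneg x))
      (hint i1 y) (hint P.z_int y)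
    have e1 : (fun x => ρ (y - f x) * (e x ^ (n - 1) * (J x ^ s * z x ^ t)))
        = fun x => (ρ (y - f x) * (e x ^ n * J x)) ^ s * (ρ (y - f x) * z x) ^ t := by
      funext x
      exact pd_alg1 hn hs ht (hρ0 _) (P.e_nonneg x) (P.J_nonneg x) (P.z_nonneg x)
    rw [e1, hFm, hZm]
    exact h
  have H2 : ∀ y, Gm y ≤ Fm y ^ s * Nm y ^ t := by
    intro y
    have h := pd_hol hs0 ht0 hst (hA0 y) (fun x => mul_nonneg (hρ0 (y - f x)) (hJif x))
      (hint i1 y) (hint hJi y)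
    have e1 : (fun x => ρ (y - f x) * (e x ^ (n - 1) * J x))
        = fun x => (ρ (y - f x) * (e x ^ n * J x)) ^ s
          * (ρ (y - f x) * (if e x ≠ 0 then J x else 0)) ^ t := by
      funext x
      exact pd_alg2 hn hs ht (hρ0 _) (P.e_nonneg x) (P.J_nonneg x)
    rw [hGm, hFm, hNm', e1]
    exact h.2
  -- derivative
  have hder : ∀ y h : Y n, fderiv ℝ (fun y => (Fm y + τ) ^ (1 / (n : ℝ))) y h
      = (Fm y + τ) ^ (-s) * ∫ x, ρ (y - f x) * (e x ^ (n - 1) *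
        (inner ℝ (w x) h + inner ℝ (f x) h / (β * ‖f x‖ ^ 2) * J x)) ∂μ := by
    intro y h
    have h1 : HasFDerivAt Fm (fderiv ℝ Fm y) y :=
      (hFd.differentiable (by norm_num) y).hasFDerivAt
    have h2 := (h1.add_const τ).rpow_const (p := 1 / (n : ℝ)) (Or.inl (hpos y).ne')
    rw [h2.fderiv]
    rw [_root_.smul_apply, smul_eq_mul]
    have h3 : fderiv ℝ Fm y h = n * ∫ x, ρ (y - f x) * (e x ^ (n - 1) *
        (inner ℝ (w x) h + inner ℝ (f x) h / (β * ‖f x‖ ^ 2) * J x)) ∂μ := by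
      rw [hFeq]
      exact hfd y h
    rw [h3]
    have h4 : 1 / (n : ℝ) - 1 = -s := by
      rw [← hneg]
      field_simp
    rw [h4]
    generalize (∫ x, ρ (y - f x) * (e x ^ (n - 1) *
        (inner ℝ (w x) h + inner ℝ (f x) h / (β * ‖f x‖ ^ 2) * J x)) ∂μ) = I
    field_simp
  have hκ : ∀ y, (Fm y + τ) ^ (-s) * Fm y ^ s ≤ 1 := by
    intro y
    rw [Real.rpow_neg (hpos y).le, inv_mul_le_iff₀ (Real.rpow_pos_of_pos (hpos y) _), mul_one]
    exact Real.rpow_le_rpow (hF0 y) (by linarith) hs0.le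
  have hκ0 : ∀ y, 0 ≤ (Fm y + τ) ^ (-s) := fun y => Real.rpow_nonneg (hpos y).le _
  have hII : ∀ y h : Y n, Integrable (fun x => ρ (y - f x) * (e x ^ (n - 1) *
        (inner ℝ (w x) h + inner ℝ (f x) h / (β * ‖f x‖ ^ 2) * J x))) μ := fun y h =>
    hint (i3 h) y
  have hcd : ContDiff ℝ 1 (fun y => (Fm y + τ) ^ (1 / (n : ℝ))) :=
    (hFd.add contDiff_const).rpow_const_of_ne fun y => (hpos y).ne'
  have hwh : ∀ x (h : Y n), |(inner ℝ (w x) h : ℝ)| ≤ (J x ^ s * z x ^ t) * ‖h‖ := by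
    intro x h
    refine (abs_real_inner_le_norm _ _).trans ?_
    have := P.w_le x
    rw [← hs, ← ht] at this
    gcongr
  refine ⟨hF0, hG0, hN0, hZ0, hFc, hGc, hNc, hZc, hcd, ?_, ?_⟩
  · -- tangential
    intro y h hyh
    rw [← ht] at *
    rw [hder, abs_mul, abs_of_nonneg (hκ0 y)]
    have hpt : ∀ x, ‖ρ (y - f x) * (e x ^ (n - 1) *
        (inner ℝ (w x) h + inner ℝ (f x) h / (β * ‖f x‖ ^ 2) * J x))‖
        ≤ ‖h‖ * (ρ (y - f x) * (e x ^ (n - 1) * (J x ^ s * z x ^ t)))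
          + ‖h‖ * (ε / (β * a ^ 2)) * (ρ (y - f x) * (e x ^ (n - 1) * J x)) := by
      intro x
      have hr := hρ0 (y - f x)
      have he := P.e_nonneg x
      have hJ := P.J_nonneg x
      have hz := P.z_nonneg x
      by_cases hr0 : ρ (y - f x) = 0
      · rw [hr0]
        simp
      by_cases he0 : e x = 0
      · rw [he0, zero_pow (by omega : n - 1 ≠ 0)]
        simp
      have hyf := hρs _ hr0
      have hfa := P.f_ge x he0
      have hip : |(inner ℝ (f x) h : ℝ)| ≤ ε * ‖h‖ := by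
        have e1 : (inner ℝ (f x) h : ℝ) = - inner ℝ (y - f x) h := by
          rw [inner_sub_left, hyh]
          ring
        rw [e1, abs_neg]
        refine (abs_real_inner_le_norm _ _).trans ?_
        gcongr
      have hq : |(inner ℝ (f x) h : ℝ) / (β * ‖f x‖ ^ 2)| ≤ ‖h‖ * (ε / (β * a ^ 2)) := by
        rw [abs_div, abs_of_nonneg (a := β * ‖f x‖ ^ 2) (by positivity)]
        calc |(inner ℝ (f x) h : ℝ)| / (β * ‖f x‖ ^ 2) ≤ (ε * ‖h‖) / (β * a ^ 2) := by gcongr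
          _ = ‖h‖ * (ε / (β * a ^ 2)) := by ring
      rw [norm_mul, norm_mul, Real.norm_of_nonneg hr, Real.norm_of_nonneg (pow_nonneg he _)]
      have hsum : ‖(inner ℝ (w x) h + inner ℝ (f x) h / (β * ‖f x‖ ^ 2) * J x : ℝ)‖
          ≤ (J x ^ s * z x ^ t) * ‖h‖ + ‖h‖ * (ε / (β * a ^ 2)) * J x := by
        refine (norm_add_le _ _).trans (add_le_add (hwh x h) ?_)
        rw [norm_mul, Real.norm_of_nonneg hJ, Real.norm_eq_abs]
        gcongr
      calc ρ (y - f x) * (e x ^ (n - 1) *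
            ‖(inner ℝ (w x) h + inner ℝ (f x) h / (β * ‖f x‖ ^ 2) * J x : ℝ)‖)
          ≤ ρ (y - f x) * (e x ^ (n - 1) *
            ((J x ^ s * z x ^ t) * ‖h‖ + ‖h‖ * (ε / (β * a ^ 2)) * J x)) := by gcongr
        _ = _ := by ring
    have hbd : |∫ x, ρ (y - f x) * (e x ^ (n - 1) *
        (inner ℝ (w x) h + inner ℝ (f x) h / (β * ‖f x‖ ^ 2) * J x)) ∂μ|
        ≤ ‖h‖ * (Fm y ^ s * Zm y ^ t) + ‖h‖ * (ε / (β * a ^ 2)) * (Fm y ^ s * Nm y ^ t) := by
      have hi := ((H1 y).1.const_mul ‖h‖).add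
        ((hint i2 y).const_mul (‖h‖ * (ε / (β * a ^ 2))))
      have h1 := norm_integral_le_of_norm_le hi (Filter.Eventually.of_forall hpt)
      rw [Real.norm_eq_abs] at h1
      refine h1.trans ?_
      have e1 : ∫ x, (‖h‖ * (ρ (y - f x) * (e x ^ (n - 1) * (J x ^ s * z x ^ t)))
          + ‖h‖ * (ε / (β * a ^ 2)) * (ρ (y - f x) * (e x ^ (n - 1) * J x))) ∂μ
          = ‖h‖ * (∫ x, ρ (y - f x) * (e x ^ (n - 1) * (J x ^ s * z x ^ t)) ∂μ)
            + ‖h‖ * (ε / (β * a ^ 2)) * Gm y := by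
        rw [integral_add ((H1 y).1.const_mul ‖h‖)
          ((hint i2 y).const_mul (‖h‖ * (ε / (β * a ^ 2)))), integral_const_mul,
          integral_const_mul, hGm]
      refine e1.le.trans (add_le_add ?_ ?_)
      · exact mul_le_mul_of_nonneg_left (H1 y).2 (norm_nonneg _)
      · exact mul_le_mul_of_nonneg_left (H2 y) (by positivity)
    have hZt : 0 ≤ Zm y ^ t := Real.rpow_nonneg (hZ0 y) _
    have hNt : 0 ≤ Nm y ^ t := Real.rpow_nonneg (hN0 y) _
    calc (Fm y + τ) ^ (-s) * |∫ x, ρ (y - f x) * (e x ^ (n - 1) *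
        (inner ℝ (w x) h + inner ℝ (f x) h / (β * ‖f x‖ ^ 2) * J x)) ∂μ|
        ≤ (Fm y + τ) ^ (-s) * (‖h‖ * (Fm y ^ s * Zm y ^ t)
          + ‖h‖ * (ε / (β * a ^ 2)) * (Fm y ^ s * Nm y ^ t)) :=
          mul_le_mul_of_nonneg_left hbd (hκ0 y)
      _ = ((Fm y + τ) ^ (-s) * Fm y ^ s) * ((Zm y ^ t + ε / (β * a ^ 2) * Nm y ^ t) * ‖h‖) := by
          ring
      _ ≤ 1 * ((Zm y ^ t + ε / (β * a ^ 2) * Nm y ^ t) * ‖h‖) :=
          mul_le_mul_of_nonneg_right (hκ y) (by positivity)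
      _ = _ := one_mul _
  · -- radial
    intro y hy
    rw [hneg]
    rw [← ht] at *
    rw [hder]
    have hy0 : 0 < ‖y‖ := norm_pos_iff.2 hy
    have hh1 : ‖(‖y‖⁻¹ • y : Y n)‖ = 1 := by
      rw [norm_smul, norm_inv, norm_norm, inv_mul_cancel₀ hy0.ne']
    obtain ⟨h, hh⟩ : ∃ h : Y n, h = ‖y‖⁻¹ • y := ⟨_, rfl⟩
    rw [← hh] at hh1 ⊢
    have hpt : ∀ x, -(ρ (y - f x) * (e x ^ (n - 1) * (J x ^ s * z x ^ t)))
          + (1 / (β * ‖y‖) - 2 * ε / (β * a ^ 2)) * (ρ (y - f x) * (e x ^ (n - 1) * J x))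
        ≤ ρ (y - f x) * (e x ^ (n - 1) *
        (inner ℝ (w x) h + inner ℝ (f x) h / (β * ‖f x‖ ^ 2) * J x)) := by
      intro x
      have hr := hρ0 (y - f x)
      have he := P.e_nonneg x
      have hJ := P.J_nonneg x
      have hz := P.z_nonneg x
      by_cases hr0 : ρ (y - f x) = 0
      · rw [hr0]
        simp
      by_cases he0 : e x = 0
      · rw [he0, zero_pow (by omega : n - 1 ≠ 0)]
        simp
      have hyf := hρs _ hr0
      have hfa := P.f_ge x he0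
      have hf0 : 0 < ‖f x‖ := lt_of_lt_of_le ha hfa
      have hya : a / 2 ≤ ‖y‖ := by
        have h1 : ‖f x‖ ≤ ‖y‖ + ‖y - f x‖ := by
          have h2 := norm_sub_norm_le (f x) y
          rw [norm_sub_rev] at h2
          linarith
        linarith
      have hip : ‖f x‖ ^ 2 - ‖f x‖ * ε ≤ (inner ℝ (f x) y : ℝ) := by
        have h1 : (inner ℝ (f x) y : ℝ) = ‖f x‖ ^ 2 + inner ℝ (f x) (y - f x) := by
          rw [inner_sub_right, real_inner_self_eq_norm_sq]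
          ring
        have h2 := abs_real_inner_le_norm (f x) (y - f x)
        have h3 : ‖f x‖ * ‖y - f x‖ ≤ ‖f x‖ * ε := by gcongr
        have h4 := neg_abs_le (inner ℝ (f x) (y - f x) : ℝ)
        rw [h1]
        linarith
      have hq : 1 / (β * ‖y‖) - 2 * ε / (β * a ^ 2)
          ≤ (inner ℝ (f x) h : ℝ) / (β * ‖f x‖ ^ 2) := by
        have h1 : (inner ℝ (f x) h : ℝ) = inner ℝ (f x) y / ‖y‖ := by
          rw [hh, inner_smul_right]
          field_simp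
        rw [h1]
        have h2 : (‖f x‖ ^ 2 - ‖f x‖ * ε) / ‖y‖ / (β * ‖f x‖ ^ 2)
            ≤ (inner ℝ (f x) y : ℝ) / ‖y‖ / (β * ‖f x‖ ^ 2) := by gcongr
        refine le_trans ?_ h2
        have h3 : (‖f x‖ ^ 2 - ‖f x‖ * ε) / ‖y‖ / (β * ‖f x‖ ^ 2)
            = 1 / (β * ‖y‖) - ε / (β * (‖y‖ * ‖f x‖)) := by
          field_simp
        rw [h3]
        have h4 : ε / (β * (‖y‖ * ‖f x‖)) ≤ ε / (β * (a / 2 * a)) := by gcongr
        have h5 : ε / (β * (a / 2 * a)) = 2 * ε / (β * a ^ 2) := by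
          field_simp
        linarith
      have hw1 : -(J x ^ s * z x ^ t) ≤ (inner ℝ (w x) h : ℝ) := by
        have h1 := hwh x h
        rw [hh1, mul_one] at h1
        linarith [neg_abs_le (inner ℝ (w x) h : ℝ)]
      have hsum : -(J x ^ s * z x ^ t) + (1 / (β * ‖y‖) - 2 * ε / (β * a ^ 2)) * J x
          ≤ inner ℝ (w x) h + inner ℝ (f x) h / (β * ‖f x‖ ^ 2) * J x :=
        add_le_add hw1 (mul_le_mul_of_nonneg_right hq hJ)
      have hre : 0 ≤ ρ (y - f x) * e x ^ (n - 1) := mul_nonneg hr (pow_nonneg he _)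
      have h6 := mul_le_mul_of_nonneg_left hsum hre
      linarith
    have hbd : -(Fm y ^ s * Zm y ^ t) + Gm y / (β * ‖y‖)
          - 2 * ε / (β * a ^ 2) * (Fm y ^ s * Nm y ^ t)
        ≤ ∫ x, ρ (y - f x) * (e x ^ (n - 1) *
        (inner ℝ (w x) h + inner ℝ (f x) h / (β * ‖f x‖ ^ 2) * J x)) ∂μ := by
      have hng : Integrable
          (fun x => -(ρ (y - f x) * (e x ^ (n - 1) * (J x ^ s * z x ^ t)))) μ := (H1 y).1.neg
      have hi := hng.add ((hint i2 y).const_mul (1 / (β * ‖y‖) - 2 * ε / (β * a ^ 2)))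
      have h1 := integral_mono hi (hII y h) hpt
      refine le_trans ?_ h1
      have e1 : ∫ x, (-(ρ (y - f x) * (e x ^ (n - 1) * (J x ^ s * z x ^ t)))
          + (1 / (β * ‖y‖) - 2 * ε / (β * a ^ 2)) * (ρ (y - f x) * (e x ^ (n - 1) * J x))) ∂μ
          = -(∫ x, ρ (y - f x) * (e x ^ (n - 1) * (J x ^ s * z x ^ t)) ∂μ)
            + (1 / (β * ‖y‖) - 2 * ε / (β * a ^ 2)) * Gm y := by
        rw [integral_add hng
          ((hint i2 y).const_mul (1 / (β * ‖y‖) - 2 * ε / (β * a ^ 2)))]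
        rw [integral_const_mul, hGm]
        congr 1
        exact integral_neg _
      refine le_trans ?_ e1.ge
      have h2 := (H1 y).2
      have h3 : 2 * ε / (β * a ^ 2) * Gm y ≤ 2 * ε / (β * a ^ 2) * (Fm y ^ s * Nm y ^ t) :=
        mul_le_mul_of_nonneg_left (H2 y) (by positivity)
      have h4 : Gm y / (β * ‖y‖) = 1 / (β * ‖y‖) * Gm y := by ring
      rw [h4]
      linarith
    have hZt : 0 ≤ Zm y ^ t := Real.rpow_nonneg (hZ0 y) _
    have hNt : 0 ≤ Nm y ^ t := Real.rpow_nonneg (hN0 y) _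
    have h1 := mul_le_mul_of_nonneg_left hbd (hκ0 y)
    refine le_trans ?_ h1
    have hk := hκ y
    have h2 : (Fm y + τ) ^ (-s) * Fm y ^ s * Zm y ^ t ≤ 1 * Zm y ^ t :=
      mul_le_mul_of_nonneg_right hk hZt
    have h3 : (Fm y + τ) ^ (-s) * Fm y ^ s * (2 * ε / (β * a ^ 2) * Nm y ^ t)
        ≤ 1 * (2 * ε / (β * a ^ 2) * Nm y ^ t) :=
      mul_le_mul_of_nonneg_right hk (by positivity)
    have h4 : (Fm y + τ) ^ (-s) * (-(Fm y ^ s * Zm y ^ t) + Gm y / (β * ‖y‖)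
          - 2 * ε / (β * a ^ 2) * (Fm y ^ s * Nm y ^ t))
        = -((Fm y + τ) ^ (-s) * Fm y ^ s * Zm y ^ t)
          + (Fm y + τ) ^ (-s) * Gm y / (β * ‖y‖)
          - (Fm y + τ) ^ (-s) * Fm y ^ s * (2 * ε / (β * a ^ 2) * Nm y ^ t) := by ring
    rw [h4]
    linarith


end H248.BH.Q2

namespace H248.BH

export Q2 (push_deriv)

end H248.BH
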