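import Pool.Agent.H248.BH.Defs
import Pool.Agent.H248.BH.B01
import Pool.Agent.H248.BH.B02
import Pool.Agent.H248.BH.Q2
import Pool.Agent.H248.BH.A0
import Pool.Agent.H248.BH.A1
import Pool.Agent.H248.BH.A2

set_option autoImplicit false
open MeasureTheory Metric Set Filter Topology
open scoped ENNReal NNReal ContDiff

namespace H248.BH.A5


open H248.ID











theorem h170_ineq0 {n : ℕ} (hn : 1 ≤ n) {ε : ℝ} (hε : 0 < ε) {t u : ℝ} (hu : 0 ≤ u) (htu : u ≤ t) :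
    t - u ≤ ε + (ε ^ (n - 1))⁻¹ * (t ^ n - u ^ n) := by
  have h1 : (t - u) ^ n + u ^ n ≤ ((t - u) + u) ^ n :=
    pow_add_pow_le (by linarith) hu (by omega)
  rw [sub_add_cancel] at h1
  have hp : 0 < ε ^ (n - 1) := pow_pos hε _
  have hd : 0 ≤ (t - u) ^ n := pow_nonneg (by linarith) _
  rcases le_total (t - u) ε with h | h
  · have : 0 ≤ (ε ^ (n - 1))⁻¹ * (t ^ n - u ^ n) := mul_nonneg (inv_nonneg.2 hp.le) (by linarith)
    linarith
  · have h2 : ε ^ (n - 1) * (t - u) ≤ (t - u) ^ n := by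
      obtain ⟨m, rfl⟩ : ∃ m, n = m + 1 := ⟨n - 1, by omega⟩
      rw [Nat.add_sub_cancel, pow_succ]
      exact mul_le_mul_of_nonneg_right (pow_le_pow_left₀ hε.le h _) (by linarith)
    have h3 : t - u = (ε ^ (n - 1))⁻¹ * (ε ^ (n - 1) * (t - u)) := by
      rw [← mul_assoc, inv_mul_cancel₀ hp.ne', one_mul]
    have h4 : (ε ^ (n - 1))⁻¹ * (ε ^ (n - 1) * (t - u)) ≤ (ε ^ (n - 1))⁻¹ * (t ^ n - u ^ n) :=
      mul_le_mul_of_nonneg_left (by linarith) (inv_nonneg.2 hp.le)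
    linarith

theorem h170_ineq {n : ℕ} (hn : 1 ≤ n) {ε : ℝ} (hε : 0 < ε) {a b : ℝ} (ha : 0 ≤ a) (hb : 0 ≤ b) :
    |a ^ (1 / (n : ℝ)) - b ^ (1 / (n : ℝ))| ≤ ε + (ε ^ (n - 1))⁻¹ * |a - b| := by
  have ea : (a ^ (1 / (n : ℝ))) ^ n = a := by
    rw [one_div]; exact Real.rpow_inv_natCast_pow ha (by omega)
  have eb : (b ^ (1 / (n : ℝ))) ^ n = b := by
    rw [one_div]; exact Real.rpow_inv_natCast_pow hb (by omega)
  have ta : 0 ≤ a ^ (1 / (n : ℝ)) := Real.rpow_nonneg ha _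
  have tb : 0 ≤ b ^ (1 / (n : ℝ)) := Real.rpow_nonneg hb _
  have hp : 0 ≤ (ε ^ (n - 1))⁻¹ := inv_nonneg.2 (pow_pos hε _).le
  generalize a ^ (1 / (n : ℝ)) = t at *
  generalize b ^ (1 / (n : ℝ)) = u at *
  rw [← ea, ← eb]
  rcases le_total u t with h | h
  · rw [abs_of_nonneg (by linarith : 0 ≤ t - u)]
    refine (h170_ineq0 hn hε tb h).trans ?_
    have := mul_le_mul_of_nonneg_left (le_abs_self (t ^ n - u ^ n)) hp
    linarith
  · rw [abs_sub_comm, abs_of_nonneg (by linarith : 0 ≤ u - t), abs_sub_comm]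
    refine (h170_ineq0 hn hε ta h).trans ?_
    have := mul_le_mul_of_nonneg_left (le_abs_self (u ^ n - t ^ n)) hp
    linarith

theorem h170_av_diff {n : ℕ} (hn : 1 ≤ n) {u g h : Y n → ℝ} {s : ℝ}
    (hu : Integrable (fun θ : sphere (0 : Y n) 1 => u (s • (θ : Y n))) (sph n))
    (hg : Integrable (fun θ : sphere (0 : Y n) 1 => g (s • (θ : Y n))) (sph n))
    (hh : Integrable (fun θ : sphere (0 : Y n) 1 => h (s • (θ : Y n))) (sph n))
    (hle : ∀ y, |u y - g y| ≤ h y) : |Av u s - Av g s| ≤ Av h s := by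
  unfold Av
  have hom : 0 < (om n)⁻¹ := inv_pos.2 (om_pos hn)
  rw [← mul_sub, ← integral_sub hu hg, abs_mul, abs_of_pos hom]
  refine mul_le_mul_of_nonneg_left ?_ hom.le
  refine (abs_integral_le_integral_abs).trans ?_
  refine integral_mono (hu.sub hg).abs hh ?_
  intro θ
  exact hle _

theorem h170_av_aff {n : ℕ} (hn : 1 ≤ n) {h : Y n → ℝ} {s : ℝ}
    (hh : Integrable (fun θ : sphere (0 : Y n) 1 => h (s • (θ : Y n))) (sph n)) (ε C τ : ℝ) :
    Integrable (fun θ : sphere (0 : Y n) 1 => ε + C * (h (s • (θ : Y n)) + τ)) (sph n) ∧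
    Av (fun y => ε + C * (h y + τ)) s = ε + C * (Av h s + τ) := by
  haveI : IsFiniteMeasure (sph n) := by unfold sph; infer_instance
  have i1 : Integrable (fun _ : sphere (0 : Y n) 1 => τ) (sph n) := integrable_const _
  have i2 : Integrable (fun _ : sphere (0 : Y n) 1 => ε) (sph n) := integrable_const _
  have i3 : Integrable (fun θ : sphere (0 : Y n) 1 => h (s • (θ : Y n)) + τ) (sph n) := hh.add i1
  have i4 : Integrable (fun θ : sphere (0 : Y n) 1 => C * (h (s • (θ : Y n)) + τ)) (sph n) :=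
    i3.const_mul C
  refine ⟨i2.add i4, ?_⟩
  unfold Av
  rw [integral_add i2 i4, integral_const_mul, integral_add hh i1, integral_const, integral_const]
  have hom : om n ≠ 0 := (om_pos hn).ne'
  have : (sph n).real univ = om n := rfl
  rw [this, smul_eq_mul, smul_eq_mul]
  field_simp

theorem h170_sph_meas {n : ℕ} {g : Y n → ℝ} (hg : Measurable g) (s : ℝ) :
    AEStronglyMeasurable (fun θ : sphere (0 : Y n) 1 => g (s • (θ : Y n))) (sph n) := by
  refine Measurable.aestronglyMeasurable ?_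
  exact hg.comp ((measurable_const_smul s).comp measurable_subtype_coe)

/-- convergence of averages -/
theorem h170_av_conv {n : ℕ} (hn : 1 ≤ n) {u h : ℕ → Y n → ℝ} {g : Y n → ℝ} {s : ℝ}
    (hu : ∀ k, Measurable (u k))
    (hg : Integrable (fun θ : sphere (0 : Y n) 1 => g (s • (θ : Y n))) (sph n))
    (hh : ∀ k, Integrable (fun θ : sphere (0 : Y n) 1 => h k (s • (θ : Y n))) (sph n))
    (hle : ∀ k y, |u k y - g y| ≤ h k y) (hlim : Tendsto (fun k => Av (h k) s) atTop (𝓝 0)) :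
    Tendsto (fun k => Av (u k) s) atTop (𝓝 (Av g s)) := by
  have hui : ∀ k, Integrable (fun θ : sphere (0 : Y n) 1 => u k (s • (θ : Y n))) (sph n) := by
    intro k
    refine Integrable.mono' ((hh k).add hg.abs) (h170_sph_meas (hu k) s) (Eventually.of_forall ?_)
    intro θ
    have h1 := hle k (s • (θ : Y n))
    have h2 : |u k (s • (θ : Y n))| ≤ |u k (s • (θ : Y n)) - g (s • (θ : Y n))| + |g (s • (θ : Y n))| := by
      have := abs_add_le (u k (s • (θ : Y n)) - g (s • (θ : Y n))) (g (s • (θ : Y n)))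
      rwa [sub_add_cancel] at this
    show ‖u k (s • (θ : Y n))‖ ≤ h k (s • (θ : Y n)) + |g (s • (θ : Y n))|
    rw [Real.norm_eq_abs]
    linarith
  rw [tendsto_iff_dist_tendsto_zero]
  refine squeeze_zero (fun _ => dist_nonneg) (fun k => ?_) hlim
  rw [Real.dist_eq]
  exact h170_av_diff hn (hui k) hg (hh k) (hle k)

/-- convergence of averages of roots -/
theorem h170_av_root {n : ℕ} (hn : 1 ≤ n) {f h : ℕ → Y n → ℝ} {F : Y n → ℝ} {τ : ℕ → ℝ} {s : ℝ}
    (hf : ∀ k, Measurable (f k)) (hf0 : ∀ k y, 0 ≤ f k y) (hτ : ∀ k, 0 ≤ τ k)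
    (hF0 : ∀ y, 0 ≤ F y) (hFm : Measurable F)
    (hF : Integrable (fun θ : sphere (0 : Y n) 1 => F (s • (θ : Y n))) (sph n))
    (hh : ∀ k, Integrable (fun θ : sphere (0 : Y n) 1 => h k (s • (θ : Y n))) (sph n))
    (hle : ∀ k y, |f k y - F y| ≤ h k y) (hlim : Tendsto (fun k => Av (h k) s) atTop (𝓝 0))
    (hτlim : Tendsto τ atTop (𝓝 0)) :
    Tendsto (fun k => Av (fun y => (f k y + τ k) ^ (1 / (n : ℝ))) s) atTop
      (𝓝 (Av (fun y => F y ^ (1 / (n : ℝ))) s)) := by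
  haveI : IsFiniteMeasure (sph n) := by unfold sph; infer_instance
  have hroot : ∀ x : ℝ, 0 ≤ x → |x ^ (1 / (n : ℝ))| ≤ 1 + x := by
    intro x hx
    have h1 := h170_ineq hn one_pos hx le_rfl
    have h2 : (0:ℝ) ^ (1 / (n : ℝ)) = 0 := Real.zero_rpow (by positivity)
    rw [h2] at h1
    simpa [abs_of_nonneg hx] using h1
  have hFr : Integrable (fun θ : sphere (0 : Y n) 1 => F (s • (θ : Y n)) ^ (1 / (n : ℝ))) (sph n) := by
    have hm : Measurable (fun y => F y ^ (1 / (n : ℝ))) := hFm.pow_const _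
    refine Integrable.mono' ((integrable_const (1:ℝ)).add hF) (h170_sph_meas hm s)
      (Eventually.of_forall ?_)
    intro θ
    exact hroot _ (hF0 _)
  have hfi : ∀ k, Integrable (fun θ : sphere (0 : Y n) 1 => f k (s • (θ : Y n))) (sph n) := by
    intro k
    refine Integrable.mono' ((hh k).add hF) (h170_sph_meas (hf k) s) (Eventually.of_forall ?_)
    intro θ
    have h1 := abs_le.1 (hle k (s • (θ : Y n)))
    show ‖f k (s • (θ : Y n))‖ ≤ h k (s • (θ : Y n)) + F (s • (θ : Y n))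
    rw [Real.norm_eq_abs, abs_of_nonneg (hf0 k _)]
    linarith [h1.2]
  have hfr : ∀ k, Integrable (fun θ : sphere (0 : Y n) 1 =>
      (f k (s • (θ : Y n)) + τ k) ^ (1 / (n : ℝ))) (sph n) := by
    intro k
    have hm : Measurable (fun y => (f k y + τ k) ^ (1 / (n : ℝ))) := ((hf k).add_const _).pow_const _
    refine Integrable.mono' ((integrable_const (1 + τ k)).add (hfi k)) (h170_sph_meas hm s)
      (Eventually.of_forall ?_)
    intro θ
    have h1 := hroot (f k (s • (θ : Y n)) + τ k) (add_nonneg (hf0 k _) (hτ k))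
    show ‖(f k (s • (θ : Y n)) + τ k) ^ (1 / (n : ℝ))‖ ≤ (1 + τ k) + f k (s • (θ : Y n))
    rw [Real.norm_eq_abs]
    linarith
  rw [Metric.tendsto_nhds]
  intro ε' hε'
  set ε : ℝ := ε' / 2 with hεdef
  have hε : 0 < ε := by rw [hεdef]; positivity
  set C : ℝ := (ε ^ (n - 1))⁻¹ with hC
  have hC0 : 0 ≤ C := inv_nonneg.2 (pow_pos hε _).le
  have hb : ∀ k, dist (Av (fun y => (f k y + τ k) ^ (1 / (n : ℝ))) s)
      (Av (fun y => F y ^ (1 / (n : ℝ))) s) ≤ ε + C * (Av (h k) s + τ k) := by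
    intro k
    rw [Real.dist_eq, ← (h170_av_aff hn (hh k) ε C (τ k)).2]
    refine h170_av_diff hn (hfr k) hFr (h170_av_aff hn (hh k) ε C (τ k)).1 ?_
    intro y
    refine (h170_ineq hn hε (add_nonneg (hf0 k y) (hτ k)) (hF0 y)).trans ?_
    have h1 : |f k y + τ k - F y| ≤ h k y + τ k := by
      have h2 : f k y + τ k - F y = (f k y - F y) + τ k := by ring
      rw [h2]
      refine (abs_add_le _ _).trans ?_
      rw [abs_of_nonneg (hτ k)]
      linarith [hle k y]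
    have := mul_le_mul_of_nonneg_left h1 hC0
    linarith
  have hlim2 : Tendsto (fun k => ε + C * (Av (h k) s + τ k)) atTop (𝓝 (ε + C * (0 + 0))) :=
    tendsto_const_nhds.add ((hlim.add hτlim).const_mul C)
  have hlt : ε + C * (0 + 0) < ε' := by
    rw [hεdef]; simp; linarith
  filter_upwards [hlim2.eventually_lt_const hlt] with k hk
  exact (hb k).trans_lt hk



/-- A5. a good approximating sequence -/
theorem approx_seq {n : ℕ} (hn : 2 ≤ n) {X : Type*} [MeasurableSpace X] {μ : Measure X}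
    [IsFiniteMeasure μ] {f : X → Y n} {e J z : X → ℝ} {w : X → Y n} {a β : ℝ}
    {F G N Z : Y n → ℝ} (P : Push n μ f e J z w a β) (D : Dens n μ f e J z F G N Z) :
    ∃ (v R Zk Nk : ℕ → Y n → ℝ) (c : ℕ → ℝ),
      (∀ k, ContDiff ℝ 1 (v k) ∧ Continuous (Zk k) ∧ Continuous (Nk k) ∧ Continuous (R k)) ∧
      (∀ k y, 0 ≤ v k y ∧ 0 ≤ Zk k y ∧ 0 ≤ Nk k y ∧ 0 ≤ R k y) ∧
      (∀ k, 0 ≤ c k) ∧ Tendsto c atTop (𝓝 0) ∧
      (∀ k, ∀ y h : Y n, inner ℝ y h = 0 → |fderiv ℝ (v k) y h| ≤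
        (Zk k y ^ (1 / (n : ℝ)) + c k * Nk k y ^ (1 / (n : ℝ))) * ‖h‖) ∧
      (∀ k, ∀ y : Y n, y ≠ 0 → - Zk k y ^ (1 / (n : ℝ)) + R k y / (β * ‖y‖) -
        2 * c k * Nk k y ^ (1 / (n : ℝ)) ≤ fderiv ℝ (v k) y (‖y‖⁻¹ • y)) ∧
      (∀ᵐ y, Tendsto (fun k => v k y) atTop (𝓝 (F y ^ (1 / (n : ℝ))))) ∧
      (∀ᵐ y, F y ≠ 0 → ∀ q : ℝ, q < 1 → ∀ᶠ k in atTop, q ≤ R k y) ∧
      (∀ᵐ s ∂(volume.restrict (Ioi (0 : ℝ))),
        Tendsto (fun k => Av (v k) s) atTop (𝓝 (Av (fun y => F y ^ (1 / (n : ℝ))) s)) ∧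
        Tendsto (fun k => Av (Zk k) s) atTop (𝓝 (Av Z s)) ∧
        Tendsto (fun k => Av (Nk k) s) atTop (𝓝 (Av N s))) ∧
      (∀ s t : ℝ, 0 < s → s ≤ t →
        Tendsto (fun k => ∫ r in s..t, Av (fun y => Zk k y ^ (1 / (n : ℝ))) r) atTop
          (𝓝 (∫ r in s..t, Av (fun y => Z y ^ (1 / (n : ℝ))) r)) ∧
        Tendsto (fun k => c k * ∫ r in s..t, Av (fun y => Nk k y ^ (1 / (n : ℝ))) r) atTop
          (𝓝 0)) := by
  have hn1 : 1 ≤ n := by omega
  have hn0 : (0:ℝ) < n := by exact_mod_cast (by omega : 0 < n)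
  have ha := P.a_pos
  have hβ := P.β_pos
  -- parameters
  obtain ⟨τ, hτ0, hτlim⟩ : ∃ τ : ℕ → ℝ, (∀ k, 0 < τ k) ∧ Tendsto τ atTop (𝓝 0) :=
    ⟨fun k => 1 / ((k:ℝ) + 1), fun k => by positivity, tendsto_one_div_add_atTop_nhds_zero_nat⟩
  obtain ⟨eps, heps0, hepsa, hepslim⟩ : ∃ eps : ℕ → ℝ, (∀ k, 0 < eps k) ∧ (∀ k, eps k ≤ a / 2) ∧
      Tendsto eps atTop (𝓝 0) := by
    refine ⟨fun k => (a / 2) * (1 / ((k:ℝ) + 1)), fun k => by positivity, fun k => ?_, ?_⟩
    · have h1 : 1 / ((k:ℝ) + 1) ≤ 1 := by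
        rw [div_le_one (by positivity)]
        have : (0:ℝ) ≤ k := Nat.cast_nonneg k
        linarith
      have := mul_le_mul_of_nonneg_left h1 (by positivity : 0 ≤ a / 2)
      simpa using this
    · have := (tendsto_one_div_add_atTop_nhds_zero_nat (𝕜 := ℝ)).const_mul (a / 2)
      simpa using this
  let φ : ℕ → ContDiffBump (0 : Y n) := fun k =>
    { rIn := eps k / 2
      rOut := eps k
      rIn_pos := by have := heps0 k; positivity
      rIn_lt_rOut := by have := heps0 k; linarith }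
  have hφ : Tendsto (fun k => (φ k).rOut) atTop (𝓝 0) := hepslim
  have hρs : ∀ k, ∀ y, (φ k).normed volume y ≠ 0 → ‖y‖ ≤ eps k := by
    intro k y hy
    have h1 : y ∈ Function.support ((φ k).normed volume) := hy
    rw [ContDiffBump.support_normed_eq] at h1
    have h2 := mem_ball_zero_iff.1 h1
    exact h2.le
  have hρm : ∀ k (y : Y n), Measurable (fun η => (φ k).normed volume (y - η)) := fun k y =>
    ((φ k).continuous_normed.comp (continuous_const.sub continuous_id)).measurable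
  have hρb : ∀ k (y : Y n), ∃ C, ∀ η, |(φ k).normed volume (y - η)| ≤ C := by
    intro k y
    obtain ⟨C, hC⟩ := (φ k).hasCompactSupport_normed (μ := volume) |>.exists_bound_of_continuous
      (φ k).continuous_normed
    exact ⟨C, fun η => hC _⟩
  set Mo : (Y n → ℝ) → ℕ → Y n → ℝ := fun H k y => ∫ η, (φ k).normed volume (y - η) * H η with hMo
  have Q := fun k => push_deriv hn P (ρ := (φ k).normed volume) (φ k).contDiff_normed
    (fun y => (φ k).nonneg_normed y) (heps0 k) (hepsa k) (hρs k) (hτ0 k)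
    (Fm := Mo F k) (Gm := Mo G k) (Nm := Mo N k) (Zm := Mo Z k)
    (fun y => (D.hF _ (hρm k y) (hρb k y)).symm) (fun y => (D.hG _ (hρm k y) (hρb k y)).symm)
    (fun y => (D.hN _ (hρm k y) (hρb k y)).symm) (fun y => (D.hZ _ (hρm k y) (hρb k y)).symm)
  obtain ⟨iF, lF⟩ := moll_L1 D.F_int φ hφ
  obtain ⟨iG, lG⟩ := moll_L1 D.G_int φ hφ
  obtain ⟨iN, lN⟩ := moll_L1 D.N_int φ hφ
  obtain ⟨iZ, lZ⟩ := moll_L1 D.Z_int φ hφ
  have iF' : ∀ k, Integrable (Mo F k) := iF
  have iG' : ∀ k, Integrable (Mo G k) := iG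
  have iN' : ∀ k, Integrable (Mo N k) := iN
  have iZ' : ∀ k, Integrable (Mo Z k) := iZ
  have lF' : Tendsto (fun k => ∫ x, |Mo F k x - F x|) atTop (𝓝 0) := lF
  have lG' : Tendsto (fun k => ∫ x, |Mo G k x - G x|) atTop (𝓝 0) := lG
  have lN' : Tendsto (fun k => ∫ x, |Mo N k x - N x|) atTop (𝓝 0) := lN
  have lZ' : Tendsto (fun k => ∫ x, |Mo Z k x - Z x|) atTop (𝓝 0) := lZ
  clear_value Mo
  clear iF iG iN iZ lF lG lN lZ
  have dF : ∀ k, Integrable (fun y => |Mo F k y - F y|) := fun k => ((iF' k).sub D.F_int).abs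
  have dG : ∀ k, Integrable (fun y => |Mo G k y - G y|) := fun k => ((iG' k).sub D.G_int).abs
  have dN : ∀ k, Integrable (fun y => |Mo N k y - N y|) := fun k => ((iN' k).sub D.N_int).abs
  have dZ : ∀ k, Integrable (fun y => |Mo Z k y - Z y|) := fun k => ((iZ' k).sub D.Z_int).abs
  obtain ⟨h, hh⟩ : ∃ h : ℕ → Y n → ℝ, ∀ k y, h k y = |Mo F k y - F y| + |Mo G k y - G y| +
    |Mo N k y - N y| + |Mo Z k y - Z y| := ⟨_, fun k y => rfl⟩
  have hfun : ∀ k, h k = fun y => |Mo F k y - F y| + |Mo G k y - G y| +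
    |Mo N k y - N y| + |Mo Z k y - Z y| := fun k => funext (hh k)
  have hF' : ∀ k y, |Mo F k y - F y| ≤ h k y := by
    intro k y; rw [hh]
    linarith [abs_nonneg (Mo G k y - G y), abs_nonneg (Mo N k y - N y), abs_nonneg (Mo Z k y - Z y)]
  have hG' : ∀ k y, |Mo G k y - G y| ≤ h k y := by
    intro k y; rw [hh]
    linarith [abs_nonneg (Mo F k y - F y), abs_nonneg (Mo N k y - N y), abs_nonneg (Mo Z k y - Z y)]
  have hN' : ∀ k y, |Mo N k y - N y| ≤ h k y := by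
    intro k y; rw [hh]
    linarith [abs_nonneg (Mo F k y - F y), abs_nonneg (Mo G k y - G y), abs_nonneg (Mo Z k y - Z y)]
  have hZ' : ∀ k y, |Mo Z k y - Z y| ≤ h k y := by
    intro k y; rw [hh]
    linarith [abs_nonneg (Mo F k y - F y), abs_nonneg (Mo G k y - G y), abs_nonneg (Mo N k y - N y)]
  have hi : ∀ k, Integrable (h k) := by
    intro k
    rw [hfun k]
    exact (((dF k).add (dG k)).add (dN k)).add (dZ k)
  have h0 : ∀ k y, 0 ≤ h k y := fun k y => (abs_nonneg _).trans (hF' k y)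
  have hlim : Tendsto (fun k => ∫ y, h k y) atTop (𝓝 0) := by
    have e1 : ∀ k, ∫ y, h k y = (∫ y, |Mo F k y - F y|) + (∫ y, |Mo G k y - G y|) +
        (∫ y, |Mo N k y - N y|) + ∫ y, |Mo Z k y - Z y| := by
      intro k
      have s1 : Integrable (fun y => |Mo F k y - F y| + |Mo G k y - G y|) := (dF k).add (dG k)
      have s2 : Integrable (fun y => |Mo F k y - F y| + |Mo G k y - G y| + |Mo N k y - N y|) :=
        s1.add (dN k)
      rw [hfun k]
      show ∫ y, (|Mo F k y - F y| + |Mo G k y - G y| + |Mo N k y - N y| + |Mo Z k y - Z y|) = _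
      rw [integral_add s2 (dZ k), integral_add s1 (dN k), integral_add (dF k) (dG k)]
    simp only [e1]
    have := ((lF'.add lG').add lN').add lZ'
    simpa using this
  obtain ⟨κ, hκ, hae, hsph⟩ := sph_conv hn1 hi h0 hlim
  have hκt : Tendsto κ atTop atTop := hκ.tendsto_atTop
  have haeF : ∀ y, Tendsto (fun k => h (κ k) y) atTop (𝓝 0) →
      Tendsto (fun k => Mo F (κ k) y) atTop (𝓝 (F y)) := by
    intro y hy
    rw [tendsto_iff_dist_tendsto_zero]
    exact squeeze_zero (fun _ => dist_nonneg) (fun k => by rw [Real.dist_eq]; exact hF' _ _) hy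
  have haeG : ∀ y, Tendsto (fun k => h (κ k) y) atTop (𝓝 0) →
      Tendsto (fun k => Mo G (κ k) y) atTop (𝓝 (G y)) := by
    intro y hy
    rw [tendsto_iff_dist_tendsto_zero]
    exact squeeze_zero (fun _ => dist_nonneg) (fun k => by rw [Real.dist_eq]; exact hG' _ _) hy
  have hτκ : Tendsto (fun k => τ (κ k)) atTop (𝓝 0) := hτlim.comp hκt
  have hcκ : Tendsto (fun k => eps (κ k) / (β * a ^ 2)) atTop (𝓝 0) := by
    have := (hepslim.comp hκt).div_const (β * a ^ 2)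
    simpa using this
  refine ⟨fun k y => (Mo F (κ k) y + τ (κ k)) ^ (1 / (n : ℝ)),
    fun k y => (Mo F (κ k) y + τ (κ k)) ^ ((1 - (n : ℝ)) / n) * Mo G (κ k) y,
    fun k => Mo Z (κ k), fun k => Mo N (κ k), fun k => eps (κ k) / (β * a ^ 2),
    ?_, ?_, ?_, hcκ, ?_, ?_, ?_, ?_, ?_, ?_⟩
  · intro k
    obtain ⟨q1, q2, q3, q4, q5, q6, q7, q8, q9, q10, q11⟩ := Q (κ k)
    refine ⟨q9, q8, q7, ?_⟩
    refine Continuous.mul ?_ q6
    refine Continuous.rpow_const (q5.add continuous_const) (fun y => Or.inl ?_)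
    exact (add_pos_of_nonneg_of_pos (q1 y) (hτ0 _)).ne'
  · intro k y
    obtain ⟨q1, q2, q3, q4, -⟩ := Q (κ k)
    have h1 : 0 ≤ Mo F (κ k) y + τ (κ k) := add_nonneg (q1 y) (hτ0 _).le
    exact ⟨Real.rpow_nonneg h1 _, q4 y, q3 y, mul_nonneg (Real.rpow_nonneg h1 _) (q2 y)⟩
  · intro k
    have := heps0 (κ k)
    positivity
  · intro k y h hyh
    obtain ⟨q1, q2, q3, q4, q5, q6, q7, q8, q9, q10, q11⟩ := Q (κ k)
    exact q10 y h hyh
  · intro k y hy
    obtain ⟨q1, q2, q3, q4, q5, q6, q7, q8, q9, q10, q11⟩ := Q (κ k)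
    have := q11 y hy
    rw [← mul_div_assoc]
    exact this
  · filter_upwards [hae] with y hy
    have h1 : Tendsto (fun k => Mo F (κ k) y + τ (κ k)) atTop (𝓝 (F y + 0)) := (haeF y hy).add hτκ
    rw [add_zero] at h1
    exact h1.rpow_const (Or.inr (by positivity))
  · filter_upwards [hae, D.G_ge] with y hy hGy hFy q hq
    have h1 : Tendsto (fun k => Mo F (κ k) y + τ (κ k)) atTop (𝓝 (F y + 0)) := (haeF y hy).add hτκ
    rw [add_zero] at h1
    have h2 := (h1.rpow_const (p := (1 - (n : ℝ)) / n) (Or.inl hFy)).mul (haeG y hy)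
    have hFpos : 0 < F y := lt_of_le_of_ne (D.F_nonneg y) (Ne.symm hFy)
    have h3 : 1 ≤ F y ^ ((1 - (n : ℝ)) / n) * G y := by
      have e1 : F y ^ ((1 - (n : ℝ)) / n) * F y ^ (((n : ℝ) - 1) / n) = 1 := by
        rw [← Real.rpow_add hFpos]
        have : (1 - (n : ℝ)) / n + ((n : ℝ) - 1) / n = 0 := by
          rw [← add_div]; simp
        rw [this, Real.rpow_zero]
      refine e1.symm.le.trans ?_
      exact mul_le_mul_of_nonneg_left hGy (Real.rpow_nonneg hFpos.le _)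
    exact (h2.eventually_const_lt (hq.trans_le h3)).mono fun k hk => hk.le
  · have pF := (polar_integral hn1 D.F_int).1
    have pN := (polar_integral hn1 D.N_int).1
    have pZ := (polar_integral hn1 D.Z_int).1
    filter_upwards [hsph, pF, pN, pZ] with s hs sF sN sZ
    obtain ⟨hs1, hs2⟩ := hs
    refine ⟨?_, ?_, ?_⟩
    · exact h170_av_root hn1 (f := fun k => Mo F (κ k)) (h := fun k => h (κ k)) (τ := fun k => τ (κ k))
        (fun k => (Q (κ k)).2.2.2.2.1.measurable) (fun k y => (Q (κ k)).1 y) (fun k => (hτ0 _).le)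
        D.F_nonneg D.meas_F sF hs1 (fun k y => hF' _ _) hs2 hτκ
    · exact h170_av_conv hn1 (fun k => (Q (κ k)).2.2.2.2.2.2.2.1.measurable) sZ hs1
        (fun k y => hZ' _ _) hs2
    · exact h170_av_conv hn1 (fun k => (Q (κ k)).2.2.2.2.2.2.1.measurable) sN hs1
        (fun k y => hN' _ _) hs2
  · intro s t hs hst
    have aZ := av_rpow_conv hn1 (h := fun k => Mo Z (κ k)) (fun k => iZ' (κ k)) D.Z_int
      (fun k y => (Q (κ k)).2.2.2.1 y) D.Z_nonneg (lZ'.comp hκt) hs hst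
    have aN := av_rpow_conv hn1 (h := fun k => Mo N (κ k)) (fun k => iN' (κ k)) D.N_int
      (fun k y => (Q (κ k)).2.2.1 y) D.N_nonneg (lN'.comp hκt) hs hst
    refine ⟨aZ.2, ?_⟩
    have := hcκ.mul aN.2
    rwa [zero_mul] at this


end H248.BH.A5

namespace H248.BH

export A5 (approx_seq)

end H248.BH
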