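import Pool.Agent.H248.BH.Defs
import Pool.Agent.H248.BH.B01

set_option autoImplicit false
open MeasureTheory Metric Set Filter Topology
open scoped ENNReal NNReal ContDiff

namespace H248.BH.C1


open H248.ID







/-- the shell -/
def c1A (n : ℕ) (R : ℝ) : Set (Y n) := {y | 1 ≤ ‖y‖ ∧ ‖y‖ ≤ R}

/-- the radial extension on the shell -/
noncomputable def c1h {n : ℕ} (R : ℝ) (h : Y n → ℝ) (y : Y n) : ℝ :=
  (c1A n R).indicator (fun y => h (‖y‖⁻¹ • y)) y

theorem c1A_meas (n : ℕ) (R : ℝ) : MeasurableSet (c1A n R) :=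
  ((isClosed_le continuous_const continuous_norm).inter
    (isClosed_le continuous_norm continuous_const)).measurableSet

theorem c1h_meas {n : ℕ} (R : ℝ) {h : Y n → ℝ} (hc : Continuous h) : Measurable (c1h R h) := by
  refine Measurable.indicator ?_ (c1A_meas n R)
  exact hc.measurable.comp (measurable_norm.inv.smul measurable_id)

theorem c1h_nonneg {n : ℕ} (R : ℝ) {h : Y n → ℝ} (h0 : ∀ y, 0 ≤ h y) (y : Y n) : 0 ≤ c1h R h y :=
  Set.indicator_nonneg (fun _ _ => h0 _) y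

theorem c1h_int {n : ℕ} (R : ℝ) {h : Y n → ℝ} (hc : Continuous h) : Integrable (c1h R h) := by
  obtain ⟨M, hM⟩ := (isCompact_sphere (0 : Y n) 1).exists_bound_of_continuousOn hc.continuousOn
  have h1 : IntegrableOn (fun y => h (‖y‖⁻¹ • y)) (c1A n R) := by
    refine Measure.integrableOn_of_bounded (M := M) ?_ ?_ ?_
    · have h2 : c1A n R ⊆ closedBall 0 R := by
        intro y hy
        rw [mem_closedBall_zero_iff]
        exact hy.2
      exact ne_top_of_le_ne_top (isCompact_closedBall (0 : Y n) R).measure_lt_top.ne (measure_mono h2)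
    · exact (hc.measurable.comp (measurable_norm.inv.smul measurable_id)).aestronglyMeasurable
    · filter_upwards [ae_restrict_mem (c1A_meas n R)] with y hy
      apply hM
      have h3 : 0 < ‖y‖ := lt_of_lt_of_le one_pos hy.1
      rw [mem_sphere_zero_iff_norm, norm_smul, norm_inv, norm_norm, inv_mul_cancel₀ h3.ne']
  exact (integrable_indicator_iff (c1A_meas n R)).2 h1

theorem c1_Av {n : ℕ} (R : ℝ) (h : Y n → ℝ) (s : ℝ) (hs : 0 < s) :
    Av (c1h R h) s = (Icc 1 R).indicator (fun _ => Av h 1) s := by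
  have hnorm : ∀ θ : sphere (0 : Y n) 1, ‖s • (θ : Y n)‖ = s := by
    intro θ
    have h1 : ‖(θ : Y n)‖ = 1 := mem_sphere_zero_iff_norm.1 θ.2
    rw [norm_smul, h1, mul_one, Real.norm_of_nonneg hs.le]
  by_cases hsR : s ∈ Icc 1 R
  · rw [Set.indicator_of_mem hsR]
    unfold Av
    congr 1
    apply integral_congr_ae
    refine Filter.Eventually.of_forall fun θ => ?_
    show c1h R h (s • (θ : Y n)) = h ((1 : ℝ) • (θ : Y n))
    unfold c1h
    rw [Set.indicator_of_mem (show s • (θ : Y n) ∈ c1A n R from ⟨by rw [hnorm]; exact hsR.1,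
      by rw [hnorm]; exact hsR.2⟩), hnorm, smul_smul, inv_mul_cancel₀ hs.ne']
  · rw [Set.indicator_of_notMem hsR]
    unfold Av
    have h2 : ∀ θ : sphere (0 : Y n) 1, c1h R h (s • (θ : Y n)) = 0 := by
      intro θ
      unfold c1h
      rw [Set.indicator_of_notMem]
      rintro ⟨h3, h4⟩
      rw [hnorm] at h3 h4
      exact hsR ⟨h3, h4⟩
    simp only [h2, integral_zero, mul_zero]

theorem c1_polar {n : ℕ} (hn : 1 ≤ n) (R : ℝ) {h : Y n → ℝ} (hc : Continuous h) :
    ∫ y, c1h R h y = om n * ((∫ s in Icc (1 : ℝ) R, s ^ (n - 1)) * Av h 1) := by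
  obtain ⟨-, -, h1⟩ := polar_integral hn (c1h_int R hc)
  rw [h1]
  congr 1
  have h2 : ∫ s in Ioi (0 : ℝ), s ^ (n - 1) * Av (c1h R h) s =
      ∫ s in Ioi (0 : ℝ), (Icc (1 : ℝ) R).indicator (fun s => s ^ (n - 1) * Av h 1) s := by
    apply setIntegral_congr_fun measurableSet_Ioi
    intro s hs
    show s ^ (n - 1) * Av (c1h R h) s = _
    rw [c1_Av R h s hs]
    by_cases hsR : s ∈ Icc 1 R
    · rw [Set.indicator_of_mem hsR, Set.indicator_of_mem hsR]
    · rw [Set.indicator_of_notMem hsR, Set.indicator_of_notMem hsR, mul_zero]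
  have h3 : Ioi (0 : ℝ) ∩ Icc 1 R = Icc 1 R := by
    apply Set.inter_eq_right.2
    intro s hs
    exact lt_of_lt_of_le one_pos hs.1
  rw [h2, setIntegral_indicator measurableSet_Icc, h3, integral_mul_const]

/-! chart side -/

theorem c1_norm_ge {m : ℕ} (i : Fin (m + 1)) (t : ℝ) (z : E m) :
    |t| ≤ ‖toY (i.insertNth t z : E (m + 1))‖ := by
  have h1 := PiLp.norm_apply_le (toY (i.insertNth t z : E (m + 1))) i
  have h2 : (toY (i.insertNth t z : E (m + 1))) i = t := by
    show (i.insertNth t z : E (m + 1)) i = t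
    simp
  rwa [h2, Real.norm_eq_abs] at h1

theorem c1_norm_le {m : ℕ} (i : Fin (m + 1)) (σ : ℝ) (hσ : |σ| = 1) (z : E m)
    (hz : z ∈ closedBall (0 : E m) 1) :
    ‖toY (i.insertNth σ z : E (m + 1))‖ ≤ Real.sqrt (m + 1) := by
  rw [EuclideanSpace.norm_eq]
  apply Real.sqrt_le_sqrt
  have h1 : ∀ j : Fin (m + 1), ‖(toY (i.insertNth σ z : E (m + 1))) j‖ ^ 2 ≤ 1 := by
    intro j
    have h2 : (toY (i.insertNth σ z : E (m + 1))) j = (i.insertNth σ z : E (m + 1)) j := rfl
    rw [h2]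
    have h3 : ‖(i.insertNth σ z : E (m + 1)) j‖ ≤ 1 := by
      rcases eq_or_ne j i with rfl | hj
      · simp [hσ]
      · obtain ⟨k, rfl⟩ := Fin.exists_succAbove_eq hj
        rw [Fin.insertNth_apply_succAbove]
        rw [mem_closedBall_zero_iff] at hz
        exact (norm_le_pi_norm z k).trans hz
    exact pow_le_one₀ (norm_nonneg _) h3
  calc ∑ j : Fin (m + 1), ‖(toY (i.insertNth σ z : E (m + 1))) j‖ ^ 2 ≤ ∑ j : Fin (m + 1), (1 : ℝ) :=
        Finset.sum_le_sum fun j _ => h1 j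
    _ = m + 1 := by simp

theorem c1_scale {m : ℕ} (i : Fin (m + 1)) (σ τ : ℝ) (z : E m) :
    toY (i.insertNth (τ * σ) (τ • z) : E (m + 1)) = τ • toY (i.insertNth σ z : E (m + 1)) := by
  have h1 : (i.insertNth (τ * σ) (τ • z) : E (m + 1)) = τ • (i.insertNth σ z : E (m + 1)) := by
    funext j
    rcases eq_or_ne j i with rfl | hj
    · simp
    · obtain ⟨k, rfl⟩ := Fin.exists_succAbove_eq hj
      rw [Fin.insertNth_apply_succAbove, Pi.smul_apply, Pi.smul_apply, Fin.insertNth_apply_succAbove]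
  rw [h1]
  rfl

theorem c1_val {m : ℕ} (i : Fin (m + 1)) (σ : ℝ) (hσ : |σ| = 1) (τ : ℝ) (h1 : 1 ≤ τ) (h2 : τ ≤ 2)
    (z : E m) (hz : z ∈ closedBall (0 : E m) 1) (h : Y (m + 1) → ℝ) :
    c1h (2 * Real.sqrt (m + 1)) h (toY (i.insertNth (τ * σ) (τ • z) : E (m + 1))) = h (face i σ z) := by
  have hτ : 0 < τ := by linarith
  have h3 := c1_norm_ge i σ z
  rw [hσ] at h3
  have h4 := c1_norm_le i σ hσ z hz
  have h5 : 0 < ‖toY (i.insertNth σ z : E (m + 1))‖ := by linarith
  have h6 : ‖toY (i.insertNth (τ * σ) (τ • z) : E (m + 1))‖ = τ * ‖toY (i.insertNth σ z : E (m + 1))‖ := by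
    rw [c1_scale, norm_smul, Real.norm_of_nonneg hτ.le]
  unfold c1h
  rw [Set.indicator_of_mem]
  · rw [h6, c1_scale, smul_smul]
    unfold face
    congr 2
    field_simp
  · refine ⟨?_, ?_⟩
    · rw [h6]
      nlinarith
    · rw [h6]
      exact mul_le_mul h2 h4 h5.le (by norm_num)

theorem c1_toY_meas {m : ℕ} : Measurable (toY : E m → Y m) :=
  (PiLp.volume_preserving_toLp (Fin m)).measurable

theorem c1_insert_meas {m : ℕ} (i : Fin (m + 1)) :
    Measurable (fun p : ℝ × E m => (i.insertNth p.1 p.2 : E (m + 1))) :=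
  (MeasurableEquiv.piFinSuccAbove (fun _ => ℝ) i).symm.measurable

theorem c1_fubini {m : ℕ} (i : Fin (m + 1)) (g : Y (m + 1) → ℝ≥0∞) (hg : Measurable g) :
    ∫⁻ y, g y = ∫⁻ t : ℝ, ∫⁻ z : E m, g (toY (i.insertNth t z : E (m + 1))) := by
  have h1 : ∫⁻ y, g y = ∫⁻ x : E (m + 1), g (toY x) :=
    ((PiLp.volume_preserving_toLp (Fin (m + 1))).lintegral_comp hg).symm
  have h2 : ∫⁻ x : E (m + 1), g (toY x) =
      ∫⁻ p : ℝ × E m, g (toY (i.insertNth p.1 p.2 : E (m + 1))) := by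
    have h3 := (volume_preserving_piFinSuccAbove (fun _ : Fin (m + 1) => ℝ) i).symm
    exact (h3.lintegral_comp (hg.comp c1_toY_meas)).symm
  rw [h1, h2]
  exact lintegral_prod (fun p : ℝ × E m => g (toY (i.insertNth p.1 p.2 : E (m + 1))))
    (hg.comp (c1_toY_meas.comp (c1_insert_meas i))).aemeasurable

theorem c1_inner {m : ℕ} (i : Fin (m + 1)) (σ : ℝ) (hσ : |σ| = 1) (τ : ℝ) (h1 : 1 ≤ τ) (h2 : τ ≤ 2)
    (h : Y (m + 1) → ℝ) (hc : Continuous h) :
    ∫⁻ z in closedBall (0 : E m) 1, ENNReal.ofReal (h (face i σ z)) ≤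
      ∫⁻ z : E m, ENNReal.ofReal (c1h (2 * Real.sqrt (m + 1)) h
        (toY (i.insertNth (τ * σ) z : E (m + 1)))) := by
  set G : E m → ℝ≥0∞ := fun z => ENNReal.ofReal (c1h (2 * Real.sqrt (m + 1)) h
        (toY (i.insertNth (τ * σ) z : E (m + 1)))) with hG
  have hGm : Measurable G := by
    apply ENNReal.measurable_ofReal.comp
    apply (c1h_meas _ hc).comp
    apply c1_toY_meas.comp
    exact (c1_insert_meas i).comp (measurable_const.prodMk measurable_id)
  have hτ : 0 < τ := by linarith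
  have h3 : ∫⁻ z : E m, G (τ • z) ≤ ∫⁻ z, G z := by
    have h4 := lintegral_map (μ := (volume : Measure (E m))) hGm (measurable_const_smul τ)
    rw [← h4, Measure.map_addHaar_smul (volume : Measure (E m)) hτ.ne', lintegral_smul_measure]
    have h5 : ENNReal.ofReal |(τ ^ Module.finrank ℝ (E m))⁻¹| ≤ 1 := by
      rw [← ENNReal.ofReal_one]
      apply ENNReal.ofReal_le_ofReal
      rw [abs_of_nonneg (by positivity)]
      exact inv_le_one_of_one_le₀ (one_le_pow₀ h1)
    calc ENNReal.ofReal |(τ ^ Module.finrank ℝ (E m))⁻¹| • ∫⁻ z, G z ≤ 1 * ∫⁻ z, G z :=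
          mul_le_mul_left h5 _
      _ = ∫⁻ z, G z := one_mul _
  refine le_trans ?_ h3
  calc ∫⁻ z in closedBall (0 : E m) 1, ENNReal.ofReal (h (face i σ z))
      = ∫⁻ z in closedBall (0 : E m) 1, G (τ • z) := by
        apply setLIntegral_congr_fun isClosed_closedBall.measurableSet
        intro z hz
        show _ = ENNReal.ofReal (c1h (2 * Real.sqrt (m + 1)) h
          (toY (i.insertNth (τ * σ) (τ • z) : E (m + 1))))
        rw [c1_val i σ hσ τ h1 h2 z hz]
    _ ≤ ∫⁻ z, G (τ • z) := setLIntegral_le_lintegral _ _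

theorem c1_lower {m : ℕ} (i : Fin (m + 1)) (σ : ℝ) (hσ : σ = 1 ∨ σ = -1)
    (h : Y (m + 1) → ℝ) (hc : Continuous h) :
    ∫⁻ z in closedBall (0 : E m) 1, ENNReal.ofReal (h (face i σ z)) ≤
      ∫⁻ y, ENNReal.ofReal (c1h (2 * Real.sqrt (m + 1)) h y) := by
  have hσ1 : |σ| = 1 := by
    rcases hσ with rfl | rfl <;> simp
  rw [c1_fubini i (fun y => ENNReal.ofReal (c1h (2 * Real.sqrt (m + 1)) h y))
    (ENNReal.measurable_ofReal.comp (c1h_meas _ hc))]
  set c : ℝ≥0∞ := ∫⁻ z in closedBall (0 : E m) 1, ENNReal.ofReal (h (face i σ z)) with hcd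
  -- the interval
  obtain ⟨I, hI, hIv, hIm⟩ : ∃ I : Set ℝ, MeasurableSet I ∧ volume I = 1 ∧
      ∀ t ∈ I, ∃ τ, 1 ≤ τ ∧ τ ≤ 2 ∧ t = τ * σ := by
    rcases hσ with rfl | rfl
    · refine ⟨Icc 1 2, measurableSet_Icc, by rw [Real.volume_Icc]; norm_num, fun t ht => ?_⟩
      exact ⟨t, ht.1, ht.2, by ring⟩
    · refine ⟨Icc (-2) (-1), measurableSet_Icc, by rw [Real.volume_Icc]; norm_num, fun t ht => ?_⟩
      exact ⟨-t, by linarith [ht.2], by linarith [ht.1], by ring⟩
  calc c = ∫⁻ _ in I, c := by rw [setLIntegral_const, hIv, mul_one]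
    _ ≤ ∫⁻ t in I, ∫⁻ z : E m, ENNReal.ofReal (c1h (2 * Real.sqrt (m + 1)) h
        (toY (i.insertNth t z : E (m + 1)))) := by
        apply setLIntegral_mono' hI
        intro t ht
        obtain ⟨τ, h1, h2, rfl⟩ := hIm t ht
        exact c1_inner i σ hσ1 τ h1 h2 h hc
    _ ≤ _ := setLIntegral_le_lintegral _ _

theorem c1_face_cont {m : ℕ} (i : Fin (m + 1)) (σ : ℝ) (hσ : |σ| = 1) :
    Continuous (face i σ : E m → Y (m + 1)) := by
  have h1 : Continuous fun z : E m => toY (i.insertNth σ z : E (m + 1)) := by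
    have h2 : Continuous fun z : E m => (i.insertNth σ z : E (m + 1)) := by
      refine continuous_pi fun j => ?_
      rcases eq_or_ne j i with rfl | hj
      · simp only [Fin.insertNth_apply_same]
        exact continuous_const
      · obtain ⟨k, rfl⟩ := Fin.exists_succAbove_eq hj
        simp only [Fin.insertNth_apply_succAbove]
        exact continuous_apply k
    exact (PiLp.continuous_toLp 2 _).comp h2
  unfold face
  refine Continuous.smul (Continuous.inv₀ h1.norm ?_) h1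
  intro z
  have h3 := c1_norm_ge i σ z
  rw [hσ] at h3
  linarith

/-- C1. the charts and the surface measure -/
theorem face_measure {m : ℕ} (hm : 1 ≤ m) : ∃ C : ℝ, 0 < C ∧ ∀ (i : Fin (m + 1)) (σ : ℝ),
    (σ = 1 ∨ σ = -1) → ∀ h : Y (m + 1) → ℝ, Continuous h → (∀ y, 0 ≤ h y) →
      ∫ z in closedBall (0 : E m) 1, h (face i σ z) ≤ C * Av h 1 := by
  have hc0 : 0 ≤ ∫ s in Icc (1 : ℝ) (2 * Real.sqrt (m + 1)), s ^ (m + 1 - 1) := by
    apply setIntegral_nonneg measurableSet_Icc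
    intro s hs
    have : (0 : ℝ) ≤ s := by linarith [hs.1]
    positivity
  have hom : 0 < om (m + 1) := om_pos (by omega)
  refine ⟨om (m + 1) * (∫ s in Icc (1 : ℝ) (2 * Real.sqrt (m + 1)), s ^ (m + 1 - 1)) + 1,
    by positivity, ?_⟩
  intro i σ hσ h hc h0
  have hσ1 : |σ| = 1 := by
    rcases hσ with rfl | rfl <;> simp
  have h1 := c1_lower i σ hσ h hc
  have hi1 : IntegrableOn (fun z => h (face i σ z)) (closedBall (0 : E m) 1) :=
    (hc.comp (c1_face_cont i σ hσ1)).continuousOn.integrableOn_compact (isCompact_closedBall _ _)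
  rw [← ofReal_integral_eq_lintegral_ofReal hi1 (Filter.Eventually.of_forall fun z => h0 _),
    ← ofReal_integral_eq_lintegral_ofReal (c1h_int _ hc)
      (Filter.Eventually.of_forall fun y => c1h_nonneg _ h0 y)] at h1
  have h2 := (ENNReal.ofReal_le_ofReal_iff (integral_nonneg fun y => c1h_nonneg _ h0 y)).1 h1
  rw [c1_polar (by omega) _ hc] at h2
  have h3 : 0 ≤ Av h 1 := by
    unfold Av
    apply mul_nonneg (inv_nonneg.2 hom.le)
    exact integral_nonneg fun θ => h0 _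
  calc ∫ z in closedBall (0 : E m) 1, h (face i σ z) ≤ _ := h2
    _ ≤ (om (m + 1) * (∫ s in Icc (1 : ℝ) (2 * Real.sqrt (m + 1)), s ^ (m + 1 - 1)) + 1) * Av h 1 := by
        rw [add_mul, one_mul, mul_assoc]
        linarith


end H248.BH.C1

namespace H248.BH

export C1 (face_measure)

end H248.BH
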