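import Pool.Agent.H248.BH.Defs

set_option autoImplicit false
open MeasureTheory Metric Set Filter Topology
open scoped ENNReal NNReal ContDiff

namespace H248.BH.C2


open H248.ID



/-- C2. smoothness of the charts -/
theorem face_smooth {m : ℕ} (hm : 1 ≤ m) : ∃ C : ℝ, 0 < C ∧ ∀ (i : Fin (m + 1)) (σ : ℝ),
    (σ = 1 ∨ σ = -1) → ContDiff ℝ 1 (face (m := m) i σ) ∧ ∀ z : E m, ‖face i σ z‖ = 1 ∧
      ∀ v : E m, ‖fderiv ℝ (face i σ) z v‖ ≤ C * ‖v‖ ∧
        inner ℝ (face i σ z) (fderiv ℝ (face i σ) z v) = 0 := by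
  classical
  have hL : ∀ i : Fin (m + 1), ∃ L : E m →L[ℝ] Y (m + 1), ∀ (σ : ℝ) (z : E m),
      toY (i.insertNth σ z : E (m + 1)) = toY (i.insertNth σ 0 : E (m + 1)) + L z := by
    intro i
    let L0 : E m →ₗ[ℝ] Y (m + 1) :=
      ∑ j : Fin m, (LinearMap.proj j : E m →ₗ[ℝ] ℝ).smulRight
        (EuclideanSpace.single (i.succAbove j) (1 : ℝ))
    refine ⟨LinearMap.toContinuousLinearMap L0, ?_⟩
    intro σ z
    ext k
    have hL0 : (LinearMap.toContinuousLinearMap L0 z : Y (m + 1)) =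
        ∑ j : Fin m, z j • (EuclideanSpace.single (i.succAbove j) (1 : ℝ) : Y (m + 1)) := by
      simp [L0]
    rw [hL0]
    simp only [PiLp.add_apply, WithLp.ofLp_sum, Finset.sum_apply, PiLp.smul_apply, smul_eq_mul,
      EuclideanSpace.single_apply, toY]
    rcases Fin.eq_self_or_eq_succAbove i k with h | ⟨j, h⟩
    · subst h
      simp [Fin.succAbove_ne, Fin.ne_succAbove]
    · subst h
      simp [Fin.succAbove_right_inj]
  choose L hL using hL
  refine ⟨∑ i, ‖L i‖ + 1, by positivity, ?_⟩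
  intro i σ hσ
  have hσ1 : |σ| = 1 := by rcases hσ with h | h <;> simp [h]
  set A : E m → Y (m + 1) := fun z => toY (i.insertNth σ z : E (m + 1)) with hAdef
  have hAL : A = fun z => toY (i.insertNth σ 0 : E (m + 1)) + L i z := by
    funext z; exact hL i σ z
  have hAd : ∀ z, HasFDerivAt A (L i) z := by
    intro z
    rw [hAL]
    exact (L i).hasFDerivAt.const_add _
  have hAc : ContDiff ℝ 1 A := by
    rw [hAL]
    exact contDiff_const.add (L i).contDiff
  have hA1 : ∀ z, 1 ≤ ‖A z‖ := by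
    intro z
    have h := PiLp.norm_apply_le (A z) i
    have h2 : (A z) i = σ := by simp [hAdef, toY]
    rw [h2, Real.norm_eq_abs, hσ1] at h
    exact h
  have hA0 : ∀ z, A z ≠ 0 := by
    intro z h
    have := hA1 z
    rw [h, norm_zero] at this
    linarith
  have hNc : ContDiff ℝ 1 (fun z => ‖A z‖) := hAc.norm ℝ hA0
  have hN0 : ∀ z, ‖A z‖ ≠ 0 := fun z => norm_ne_zero_iff.2 (hA0 z)
  have hface : face (m := m) i σ = fun z => ‖A z‖⁻¹ • A z := rfl
  have hFc : ContDiff ℝ 1 (face (m := m) i σ) := by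
    rw [hface]
    exact (hNc.inv hN0).smul hAc
  refine ⟨hFc, ?_⟩
  intro z
  have hF1 : ∀ z, ‖face i σ z‖ = 1 := by
    intro z
    rw [hface]
    simp only [norm_smul, norm_inv, norm_norm]
    exact inv_mul_cancel₀ (hN0 z)
  refine ⟨hF1 z, ?_⟩
  intro v
  have hFd : DifferentiableAt ℝ (face (m := m) i σ) z :=
    (hFc.differentiable (by norm_num)).differentiableAt
  have horth : inner ℝ (face i σ z) (fderiv ℝ (face i σ) z v) = (0 : ℝ) := by
    have hc : (fun t => inner ℝ (face i σ t) (face i σ t) : E m → ℝ) = fun _ => (1 : ℝ) := by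
      funext t
      rw [real_inner_self_eq_norm_sq, hF1 t]; norm_num
    have h := fderiv_inner_apply ℝ hFd hFd v
    rw [hc] at h
    simp only [fderiv_fun_const, Pi.zero_apply, ContinuousLinearMap.zero_apply] at h
    rw [real_inner_comm (face i σ z) (fderiv ℝ (face i σ) z v)] at h
    linarith
  refine ⟨?_, horth⟩
  have hNd : HasFDerivAt (fun z => ‖A z‖) (fderiv ℝ (fun z => ‖A z‖) z) z :=
    ((hNc.differentiable (by norm_num)).differentiableAt).hasFDerivAt
  have hprod := hNd.smul hFd.hasFDerivAt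
  have hAeq : (fun z => ‖A z‖ • face i σ z) = A := by
    funext t
    rw [hface]
    simp only [smul_smul]
    rw [mul_inv_cancel₀ (hN0 t), one_smul]
  have hprod' : HasFDerivAt A (‖A z‖ • fderiv ℝ (face i σ) z +
      (fderiv ℝ (fun z => ‖A z‖) z).smulRight (face i σ z)) z := by
    have h : HasFDerivAt (fun z => ‖A z‖ • face i σ z) (‖A z‖ • fderiv ℝ (face i σ) z +
      (fderiv ℝ (fun z => ‖A z‖) z).smulRight (face i σ z)) z := hprod
    exact h.congr_of_eventuallyEq (Filter.Eventually.of_forall fun t => (congrFun hAeq t).symm)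
  have huniq := hprod'.unique (hAd z)
  have hLv : L i v = ‖A z‖ • fderiv ℝ (face i σ) z v +
      (fderiv ℝ (fun z => ‖A z‖) z v) • face i σ z := by
    rw [← huniq]; simp
  have hin : inner ℝ (L i v) (fderiv ℝ (face i σ) z v) =
      ‖A z‖ * ‖fderiv ℝ (face i σ) z v‖ ^ 2 := by
    rw [hLv, inner_add_left, real_inner_smul_left, real_inner_smul_left, horth,
      real_inner_self_eq_norm_sq]
    ring
  have hCS : ‖A z‖ * ‖fderiv ℝ (face i σ) z v‖ ^ 2 ≤ ‖L i v‖ * ‖fderiv ℝ (face i σ) z v‖ := by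
    rw [← hin]; exact real_inner_le_norm _ _
  have hle : ‖fderiv ℝ (face i σ) z v‖ ≤ ‖L i v‖ := by
    rcases (norm_nonneg (fderiv ℝ (face i σ) z v)).eq_or_lt with h | h
    · rw [← h]; exact norm_nonneg _
    · have h1 := hA1 z
      have h2 : ‖fderiv ℝ (face i σ) z v‖ * ‖fderiv ℝ (face i σ) z v‖ ≤
          ‖L i v‖ * ‖fderiv ℝ (face i σ) z v‖ := by nlinarith [sq_nonneg ‖fderiv ℝ (face i σ) z v‖]
      exact le_of_mul_le_mul_right h2 h
  have hLi : ‖L i v‖ ≤ ‖L i‖ * ‖v‖ := (L i).le_opNorm v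
  have hsum : ‖L i‖ ≤ ∑ i, ‖L i‖ :=
    Finset.single_le_sum (f := fun i => ‖L i‖) (fun _ _ => norm_nonneg _) (Finset.mem_univ i)
  nlinarith [norm_nonneg v]


end H248.BH.C2

namespace H248.BH

export C2 (face_smooth)

end H248.BH
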