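import Pool.Agent.H248.BH.Defs

set_option autoImplicit false
open MeasureTheory Metric Set Filter Topology
open scoped ENNReal NNReal ContDiff

namespace H248.BH.C3


open H248.ID




theorem face_pt {m : ℕ} (p : E (m + 1)) (i : Fin (m + 1)) (σ : ℝ) (hi : p i = σ) (hp : ∀ k, |p k| ≤ 1) :
    (fun j => p (i.succAbove j)) ∈ closedBall (0 : E m) 1 ∧
    ‖toY p‖⁻¹ • toY p = face i σ (fun j => p (i.succAbove j)) := by
  constructor
  · rw [mem_closedBall, dist_zero_right, pi_norm_le_iff_of_nonneg zero_le_one]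
    intro j
    exact hp _
  · unfold face
    have : (i.insertNth σ (fun j => p (i.succAbove j)) : E (m + 1)) = p := by
      rw [← hi]
      exact Fin.insertNth_self_removeNth i p
    rw [this]

theorem face_two {m : ℕ} {u : Y (m + 1) → ℝ} {A : ℝ}
    (h : ∀ (i : Fin (m + 1)) (σ : ℝ), (σ = 1 ∨ σ = -1) → ∀ x ∈ closedBall (0 : E m) 1,
      ∀ y ∈ closedBall (0 : E m) 1, |u (face i σ x) - u (face i σ y)| ≤ A)
    (p q : E (m + 1)) (i : Fin (m + 1)) (σ : ℝ) (hσ : σ = 1 ∨ σ = -1) (hp : p i = σ) (hq : q i = σ)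
    (hp1 : ∀ k, |p k| ≤ 1) (hq1 : ∀ k, |q k| ≤ 1) :
    |u (‖toY p‖⁻¹ • toY p) - u (‖toY q‖⁻¹ • toY q)| ≤ A := by
  obtain ⟨h1, h2⟩ := face_pt p i σ hp hp1
  obtain ⟨h3, h4⟩ := face_pt q i σ hq hq1
  rw [h2, h4]
  exact h i σ hσ _ h1 _ h3

theorem face_exists {m : ℕ} (a : Y (m + 1)) (ha : ‖a‖ = 1) :
    ∃ (p : E (m + 1)) (i : Fin (m + 1)) (σ : ℝ), (σ = 1 ∨ σ = -1) ∧ p i = σ ∧ (∀ k, |p k| ≤ 1) ∧
      ‖toY p‖⁻¹ • toY p = a := by
  obtain ⟨i, hi⟩ := Finite.exists_max (fun i => |a i|)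
  have hai : a i ≠ 0 := by
    intro h0
    have : a = 0 := by
      ext k
      have := hi k
      rw [h0, abs_zero] at this
      simpa using this
    rw [this, norm_zero] at ha
    exact zero_ne_one ha
  have hpos : 0 < |a i| := abs_pos.mpr hai
  refine ⟨fun k => |a i|⁻¹ * a k, i, |a i|⁻¹ * a i, ?_, rfl, ?_, ?_⟩
  · rcases lt_or_gt_of_ne hai with h | h
    · right; rw [abs_of_neg h]; field_simp
    · left; rw [abs_of_pos h]; field_simp
  · intro k
    simp only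
    rw [abs_mul, abs_inv, abs_abs, inv_mul_le_iff₀ hpos, mul_one]
    exact hi k
  · have e : toY (fun k => |a i|⁻¹ * a k) = |a i|⁻¹ • a := by
      ext k
      simp [toY]
    rw [e, norm_smul, ha, norm_inv, Real.norm_eq_abs, abs_abs, mul_one, inv_inv, smul_smul,
      mul_inv_cancel₀ hpos.ne', one_smul]

/-- C3. chains of charts -/
theorem face_chain {m : ℕ} (hm : 1 ≤ m) {u : Y (m + 1) → ℝ} {A : ℝ}
    (h : ∀ (i : Fin (m + 1)) (σ : ℝ), (σ = 1 ∨ σ = -1) → ∀ x ∈ closedBall (0 : E m) 1,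
      ∀ y ∈ closedBall (0 : E m) 1, |u (face i σ x) - u (face i σ y)| ≤ A)
    {a b : Y (m + 1)} (ha : ‖a‖ = 1) (hb : ‖b‖ = 1) : |u a - u b| ≤ 4 * A := by
  have hA : 0 ≤ A := by
    have := h 0 1 (Or.inl rfl) 0 (by simp) 0 (by simp)
    simpa using this
  obtain ⟨p, i, σ, hσ, hpi, hp, hpa⟩ := face_exists a ha
  obtain ⟨q, j, τ, hτ, hqj, hq, hqb⟩ := face_exists b hb
  have hσ1 : |σ| ≤ 1 := by rcases hσ with h | h <;> rw [h] <;> simp
  have hτ1 : |τ| ≤ 1 := by rcases hτ with h | h <;> rw [h] <;> simp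
  have hr : ∀ (i k : Fin (m + 1)) (s t : ℝ), i ≠ k → |s| ≤ 1 → |t| ≤ 1 →
      ∃ r : E (m + 1), r i = s ∧ r k = t ∧ ∀ l, |r l| ≤ 1 := by
    intro i k s t hik hs ht
    refine ⟨fun l => if l = i then s else if l = k then t else 0, by simp, by simp [hik.symm], fun l => ?_⟩
    simp only
    split_ifs
    · exact hs
    · exact ht
    · simp
  rw [← hpa, ← hqb]
  by_cases hij : i = j
  · subst hij
    haveI : Nontrivial (Fin (m + 1)) := Fin.nontrivial_iff_two_le.mpr (by omega)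
    obtain ⟨k, hk⟩ := exists_ne i
    obtain ⟨r1, h1, h2, h3⟩ := hr i k σ 1 hk.symm hσ1 (by simp)
    obtain ⟨r2, h4, h5, h6⟩ := hr i k τ 1 hk.symm hτ1 (by simp)
    have q1 := face_two h p r1 i σ hσ hpi h1 hp h3
    have q2 := face_two h r1 r2 k 1 (Or.inl rfl) h2 h5 h3 h6
    have q3 := face_two h r2 q i τ hτ h4 hqj h6 hq
    rw [abs_le] at *
    constructor <;> linarith [q1.1, q1.2, q2.1, q2.2, q3.1, q3.2]
  · obtain ⟨r, h1, h2, h3⟩ := hr i j σ τ hij hσ1 hτ1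
    have q1 := face_two h p r i σ hσ hpi h1 hp h3
    have q2 := face_two h r q j τ hτ h2 hqj h3 hq
    rw [abs_le] at *
    constructor <;> linarith [q1.1, q1.2, q2.1, q2.2]


end H248.BH.C3

namespace H248.BH

export C3 (face_chain)

end H248.BH
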