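import Pool.Agent.H248.ID.Defs

set_option autoImplicit false

open MeasureTheory Metric Set Filter Topology
open scoped ENNReal NNReal ContDiff

/-! Definitions for boundary Hölder continuity of quasiregular mappings. -/

namespace H248.BH

open H248.ID

/-- Euclidean space -/
abbrev Y (n : ℕ) := EuclideanSpace ℝ (Fin n)

/-- from coordinates to the Euclidean space -/
noncomputable def toY {n : ℕ} (x : E n) : Y n := WithLp.toLp 2 x

/-- Euclidean norm on coordinates -/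
noncomputable def en {n : ℕ} (x : E n) : ℝ := ‖toY x‖

/-- surface measure on the unit sphere -/
noncomputable def sph (n : ℕ) : Measure (sphere (0 : Y n) 1) := (volume : Measure (Y n)).toSphere

/-- total mass of the unit sphere -/
noncomputable def om (n : ℕ) : ℝ := (sph n univ).toReal

/-- average over the sphere of radius `s` -/
noncomputable def Av {n : ℕ} (h : Y n → ℝ) (s : ℝ) : ℝ :=
  (om n)⁻¹ * ∫ θ : sphere (0 : Y n) 1, h (s • (θ : Y n)) ∂(sph n)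

/-- continuous quasiregular mappings with `|adj(Df)ᵀ w|ⁿ ≤ K J^{n-1} |w|ⁿ` -/
structure QR {n : ℕ} (Ω : Set (E n)) (f : E n → E n) (Df : E n → Matrix (Fin n) (Fin n) ℝ)
    (K : ℝ) : Prop where
  isOpen : IsOpen Ω
  meas_f : Measurable f
  cont : ContinuousOn f Ω
  meas_D : ∀ i j, Measurable fun x => Df x i j
  weak : ∀ φ : E n → ℝ, ContDiff ℝ ∞ φ → HasCompactSupport φ → tsupport φ ⊆ Ω →
    ∀ i j, ∫ x, f x i * pd φ j x = - ∫ x, Df x i j * φ x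
  int : ∀ C : Set (E n), IsCompact C → C ⊆ Ω → IntegrableOn (fun x => sn (Df x) ^ n) C
  pos : ∀ᵐ x ∂(volume.restrict Ω), 0 ≤ (Df x).det ∧ ((Df x).det = 0 → Df x = 0)
  dist : ∀ᵐ x ∂(volume.restrict Ω), ∀ w : E n,
    en ((Df x).adjugate.transpose.mulVec w) ^ n ≤ K * (Df x).det ^ (n - 1) * en w ^ n

/-- gnomonic chart of the unit sphere -/
noncomputable def face {m : ℕ} (i : Fin (m + 1)) (σ : ℝ) (z : E m) : Y (m + 1) :=
  ‖toY (i.insertNth σ z : E (m + 1))‖⁻¹ • toY (i.insertNth σ z : E (m + 1))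

/-- The data of the push-forward argument. -/
structure Push (n : ℕ) {X : Type*} [MeasurableSpace X] (μ : Measure X) (f : X → Y n)
    (e J z : X → ℝ) (w : X → Y n) (a β : ℝ) : Prop where
  meas_f : Measurable f
  meas_e : Measurable e
  meas_J : Measurable J
  meas_z : Measurable z
  meas_w : Measurable w
  e_nonneg : ∀ x, 0 ≤ e x
  J_nonneg : ∀ x, 0 ≤ J x
  z_nonneg : ∀ x, 0 ≤ z x
  e_bdd : ∃ C, ∀ x, e x ≤ C
  f_bdd : ∃ C, ∀ x, e x ≠ 0 → ‖f x‖ ≤ C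
  J_int : Integrable J μ
  z_int : Integrable z μ
  w_le : ∀ x, ‖w x‖ ≤ J x ^ (((n : ℝ) - 1) / n) * z x ^ (1 / (n : ℝ))
  z_zero : ∀ x, (e x = 0 ∨ J x = 0) → z x = 0
  a_pos : 0 < a
  β_pos : 0 < β
  f_ge : ∀ x, e x ≠ 0 → a ≤ ‖f x‖
  ident : ∀ ψ : Y n → ℝ, ContDiff ℝ ∞ ψ → HasCompactSupport ψ → ∀ h : Y n,
    ∫ x, fderiv ℝ ψ (f x) h * (e x ^ n * J x) ∂μ =
      - (n * ∫ x, ψ (f x) * (e x ^ (n - 1) *
        (inner ℝ (w x) h + inner ℝ (f x) h / (β * ‖f x‖ ^ 2) * J x)) ∂μ)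

/-- Densities of the push-forward measures. -/
structure Dens (n : ℕ) {X : Type*} [MeasurableSpace X] (μ : Measure X) (f : X → Y n)
    (e J z : X → ℝ) (F G N Z : Y n → ℝ) : Prop where
  meas_F : Measurable F
  meas_G : Measurable G
  meas_N : Measurable N
  meas_Z : Measurable Z
  F_nonneg : ∀ y, 0 ≤ F y
  G_nonneg : ∀ y, 0 ≤ G y
  N_nonneg : ∀ y, 0 ≤ N y
  Z_nonneg : ∀ y, 0 ≤ Z y
  F_int : Integrable F
  G_int : Integrable G
  N_int : Integrable N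
  Z_int : Integrable Z
  hF : ∀ ψ : Y n → ℝ, Measurable ψ → (∃ C, ∀ y, |ψ y| ≤ C) →
    ∫ x, ψ (f x) * (e x ^ n * J x) ∂μ = ∫ y, ψ y * F y
  hG : ∀ ψ : Y n → ℝ, Measurable ψ → (∃ C, ∀ y, |ψ y| ≤ C) →
    ∫ x, ψ (f x) * (e x ^ (n - 1) * J x) ∂μ = ∫ y, ψ y * G y
  hN : ∀ ψ : Y n → ℝ, Measurable ψ → (∃ C, ∀ y, |ψ y| ≤ C) →
    ∫ x in {x | e x ≠ 0}, ψ (f x) * J x ∂μ = ∫ y, ψ y * N y
  hZ : ∀ ψ : Y n → ℝ, Measurable ψ → (∃ C, ∀ y, |ψ y| ≤ C) →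
    ∫ x, ψ (f x) * z x ∂μ = ∫ y, ψ y * Z y
  G_ge : ∀ᵐ y, F y ^ (((n : ℝ) - 1) / n) ≤ G y
  Z_zero : ∀ᵐ y, F y = 0 → Z y = 0

/-- the excess -/
noncomputable def ex {n : ℕ} (x0 : E n) (r M β : ℝ) (x y : E n) : ℝ :=
  max (Real.log (max (en y / (2 * M)) (r ^ β)) / β - Real.log (r ^ 2 + en (x - x0) ^ 2) / 2) 0

end H248.BH
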