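import Pool.Agent.H248.BH.Defs

set_option autoImplicit false
open MeasureTheory Metric Set Filter Topology
open scoped ENNReal NNReal ContDiff

namespace H248.BH.G0


open H248.ID

theorem en_nonneg {n : ℕ} (x : E n) : 0 ≤ en x := norm_nonneg _

theorem continuous_en {n : ℕ} : Continuous (en : E n → ℝ) := by
  unfold en toY
  exact (PiLp.continuous_toLp 2 _).norm

theorem norm_le_en {n : ℕ} (x : E n) : ‖x‖ ≤ en x := by
  rw [pi_norm_le_iff_of_nonneg (en_nonneg x)]
  intro i
  exact PiLp.norm_apply_le (toY x) i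

theorem ex_core {n : ℕ} {x0 : E n} {r M β : ℝ} (hr : 0 < r) (hM : 0 < M) (hβ : 0 < β) (x y : E n)
    (h : ex x0 r M β x y ≠ 0) :
    (r ^ 2 + en (x - x0) ^ 2) ^ (β / 2) < en y / (2 * M) := by
  have hA : 0 < r ^ 2 + en (x - x0) ^ 2 := by positivity
  have h1 : 0 < Real.log (max (en y / (2 * M)) (r ^ β)) / β - Real.log (r ^ 2 + en (x - x0) ^ 2) / 2 := by
    by_contra hcon
    push Not at hcon
    apply h
    unfold ex
    exact max_eq_right hcon
  have hrβ : 0 < r ^ β := Real.rpow_pos_of_pos hr β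
  have hmax : 0 < max (en y / (2 * M)) (r ^ β) := lt_max_of_lt_right hrβ
  have h2 : Real.log (r ^ 2 + en (x - x0) ^ 2) * (β / 2) < Real.log (max (en y / (2 * M)) (r ^ β)) := by
    have h3 : Real.log (r ^ 2 + en (x - x0) ^ 2) / 2 < Real.log (max (en y / (2 * M)) (r ^ β)) / β := by
      linarith
    rw [lt_div_iff₀ hβ] at h3
    linarith
  have h4 : (r ^ 2 + en (x - x0) ^ 2) ^ (β / 2) < max (en y / (2 * M)) (r ^ β) := by
    rw [Real.rpow_def_of_pos hA, ← Real.lt_log_iff_exp_lt hmax]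
    exact h2
  have h5 : r ^ β ≤ (r ^ 2 + en (x - x0) ^ 2) ^ (β / 2) := by
    have e : r ^ β = (r ^ 2) ^ (β / 2) := by
      rw [← Real.rpow_natCast, ← Real.rpow_mul hr.le]
      congr 1
      push_cast
      ring
    rw [e]
    exact Real.rpow_le_rpow (by positivity) (by nlinarith [sq_nonneg (en (x - x0))]) (by positivity)
  rcases lt_max_iff.1 h4 with h6 | h6
  · exact h6
  · exact absurd (lt_of_le_of_lt h5 h6) (lt_irrefl _)

theorem en_rpow_le {n : ℕ} {r β : ℝ} (hβ : 0 < β) (v : E n) :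
    en v ^ β ≤ (r ^ 2 + en v ^ 2) ^ (β / 2) := by
  have e : en v ^ β = (en v ^ 2) ^ (β / 2) := by
    rw [← Real.rpow_natCast, ← Real.rpow_mul (en_nonneg v)]
    congr 1
    push_cast
    ring
  rw [e]
  exact Real.rpow_le_rpow (by positivity) (by nlinarith [sq_nonneg r]) (by positivity)

theorem ex_core2 {n : ℕ} {x0 : E n} {r M β : ℝ} (hr : 0 < r) (hM : 0 < M) (hβ : 0 < β) (x y : E n)
    (h : ex x0 r M β x y ≠ 0) : en (x - x0) < (en y / (2 * M)) ^ (1 / β) := by
  have h1 := ex_core hr hM hβ x y h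
  have h2 := en_rpow_le (r := r) hβ (x - x0)
  have h3 : en (x - x0) ^ β < en y / (2 * M) := lt_of_le_of_lt h2 h1
  have h4 : en (x - x0) = (en (x - x0) ^ β) ^ (1 / β) := by
    rw [← Real.rpow_mul (en_nonneg _), mul_one_div_cancel hβ.ne', Real.rpow_one]
  rw [h4]
  exact Real.rpow_lt_rpow (Real.rpow_nonneg (en_nonneg _) _) h3 (by positivity)



/-- G0. the domain of positive excess is compact in `Ω` -/
theorem ex_support {n : ℕ} {Ω : Set (E n)} (hΩ : IsOpen Ω) {fc : E n → E n}
    (hfc : ContinuousOn fc (closure Ω)) {x0 : E n} {r R M β : ℝ} (hr : 0 < r) (hR : 0 < R)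
    (hM : 0 < M) (hβ : 0 < β)
    (hfr : ∀ x ∈ frontier Ω, en (x - x0) < R → en (fc x) ≤ M * en (x - x0) ^ β)
    (hin : ∀ x ∈ Ω, en (x - x0) < R → en (fc x) ≤ M * R ^ β) :
    ∃ C : Set (E n), IsCompact C ∧ C ⊆ Ω ∧ C ⊆ {x | en (x - x0) < R} ∧
      (∀ x ∈ Ω, en (x - x0) < R → x ∉ C → ex x0 r M β x (fc x) = 0) ∧
      (∀ x, ex x0 r M β x (fc x) ≠ 0 → 2 * M * r ^ β ≤ en (fc x) ∧
        en (x - x0) < (en (fc x) / (2 * M)) ^ (1 / β)) := by
  obtain ⟨R', hR'⟩ : ∃ R' : ℝ, R' = (R ^ β / 2) ^ (1 / β) := ⟨_, rfl⟩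
  have hRβ : 0 < R ^ β := Real.rpow_pos_of_pos hR β
  have hRR : R' < R := by
    have h1 : R = (R ^ β) ^ (1 / β) := by
      rw [← Real.rpow_mul hR.le, mul_one_div_cancel hβ.ne', Real.rpow_one]
    rw [hR']
    conv_rhs => rw [h1]
    exact Real.rpow_lt_rpow (by positivity) (by linarith) (by positivity)
  have hcx : Continuous (fun x : E n => en (x - x0)) := continuous_en.comp (continuous_id.sub continuous_const)
  have hA : ∀ x : E n, 0 < r ^ 2 + en (x - x0) ^ 2 := by
    intro x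
    positivity
  have hcA : Continuous (fun x : E n => 2 * M * (r ^ 2 + en (x - x0) ^ 2) ^ (β / 2)) := by
    apply continuous_const.mul
    apply Continuous.rpow_const (continuous_const.add (hcx.pow 2))
    intro x
    left
    exact (hA x).ne'
  refine ⟨{x ∈ closure Ω | 2 * M * (r ^ 2 + en (x - x0) ^ 2) ^ (β / 2) ≤ en (fc x)} ∩
    {x | en (x - x0) ≤ R'}, ?_, ?_, ?_, ?_, ?_⟩
  · apply Metric.isCompact_of_isClosed_isBounded
    · apply IsClosed.inter
      · exact isClosed_closure.isClosed_le hcA.continuousOn (continuous_en.comp_continuousOn hfc)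
      · exact isClosed_le hcx continuous_const
    · apply (Metric.isBounded_closedBall (x := x0) (r := R')).subset
      intro x hx
      rw [Metric.mem_closedBall, dist_eq_norm]
      exact (norm_le_en _).trans hx.2
  · rintro x ⟨⟨hx1, hx2⟩, hx3⟩
    by_contra hx
    have hfx : x ∈ frontier Ω := by
      rw [hΩ.frontier_eq]
      exact ⟨hx1, hx⟩
    have hx3' : en (x - x0) ≤ R' := hx3
    have h1 := hfr x hfx (by linarith)
    have h2 := en_rpow_le (r := r) hβ (x - x0)
    have h3 : 0 < (r ^ 2 + en (x - x0) ^ 2) ^ (β / 2) := Real.rpow_pos_of_pos (hA x) _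
    have h4 : M * en (x - x0) ^ β ≤ M * (r ^ 2 + en (x - x0) ^ 2) ^ (β / 2) :=
      mul_le_mul_of_nonneg_left h2 hM.le
    have h5 : 0 < M * (r ^ 2 + en (x - x0) ^ 2) ^ (β / 2) := by positivity
    linarith
  · rintro x ⟨_, hx3⟩
    have hx3' : en (x - x0) ≤ R' := hx3
    exact lt_of_le_of_lt hx3' hRR
  · intro x hx hxR hxC
    by_contra hex
    apply hxC
    have h1 := ex_core hr hM hβ x (fc x) hex
    have h2 := ex_core2 hr hM hβ x (fc x) hex
    refine ⟨⟨subset_closure hx, ?_⟩, ?_⟩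
    · rw [lt_div_iff₀ (by positivity)] at h1
      linarith
    · have h3 : en (fc x) / (2 * M) ≤ R ^ β / 2 := by
        rw [div_le_div_iff₀ (by positivity) (by norm_num)]
        have := hin x hx hxR
        nlinarith
      have h4 : (en (fc x) / (2 * M)) ^ (1 / β) ≤ R' := by
        rw [hR']
        exact Real.rpow_le_rpow (div_nonneg (en_nonneg _) (by positivity)) h3 (by positivity)
      show en (x - x0) ≤ R'
      linarith
  · intro x hex
    refine ⟨?_, ex_core2 hr hM hβ x (fc x) hex⟩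
    have h1 := ex_core hr hM hβ x (fc x) hex
    have h5 : r ^ β ≤ (r ^ 2 + en (x - x0) ^ 2) ^ (β / 2) := by
      have e : r ^ β = (r ^ 2) ^ (β / 2) := by
        rw [← Real.rpow_natCast, ← Real.rpow_mul hr.le]
        congr 1
        push_cast
        ring
      rw [e]
      exact Real.rpow_le_rpow (by positivity) (by nlinarith [sq_nonneg (en (x - x0))]) (by positivity)
    have h6 : r ^ β < en (fc x) / (2 * M) := lt_of_le_of_lt h5 h1
    rw [lt_div_iff₀ (by positivity)] at h6
    linarith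


end H248.BH.G0

namespace H248.BH

export G0 (ex_support)

end H248.BH
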