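import Pool.Agent.H248.BH.Defs

set_option autoImplicit false
open MeasureTheory Metric Set Filter Topology
open scoped ENNReal NNReal ContDiff

namespace H248.BH.G0b


open H248.ID



lemma hasDerivAt_maxpow {n : ℕ} (hn : 2 ≤ n) (t : ℝ) :
    HasDerivAt (fun t : ℝ => (max t 0) ^ n) (n * (max t 0) ^ (n - 1)) t := by
  rcases lt_trichotomy t 0 with h | h | h
  · have h1 : (fun t : ℝ => (max t 0) ^ n) =ᶠ[𝓝 t] fun _ => 0 := by
      filter_upwards [eventually_lt_nhds h] with s hs
      rw [max_eq_right hs.le, zero_pow (by omega)]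
    have h2 : (n : ℝ) * (max t 0) ^ (n - 1) = 0 := by
      rw [max_eq_right h.le, zero_pow (by omega), mul_zero]
    rw [h2]
    exact (hasDerivAt_const t (0 : ℝ)).congr_of_eventuallyEq h1
  · subst h
    have h2 : (n : ℝ) * (max (0 : ℝ) 0) ^ (n - 1) = 0 := by
      rw [max_self, zero_pow (by omega), mul_zero]
    rw [h2]
    have ha : HasDerivWithinAt (fun t : ℝ => (max t 0) ^ n) 0 (Iic 0) 0 := by
      refine (hasDerivWithinAt_const (0 : ℝ) (Iic 0) (0 : ℝ)).congr ?_ ?_
      · intro s hs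
        rw [max_eq_right hs, zero_pow (by omega)]
      · rw [max_self, zero_pow (by omega)]
    have hb : HasDerivWithinAt (fun t : ℝ => (max t 0) ^ n) 0 (Ici 0) 0 := by
      have h3 := (hasDerivAt_pow n (0 : ℝ)).hasDerivWithinAt (s := Ici 0)
      rw [zero_pow (by omega : n - 1 ≠ 0), mul_zero] at h3
      refine h3.congr ?_ ?_
      · intro s hs
        rw [max_eq_left hs]
      · rw [max_self]
    have h4 := ha.union hb
    rw [Iic_union_Ici] at h4
    exact hasDerivWithinAt_univ.mp h4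
  · have h1 : (fun t : ℝ => (max t 0) ^ n) =ᶠ[𝓝 t] fun t => t ^ n := by
      filter_upwards [eventually_gt_nhds h] with s hs
      rw [max_eq_left hs.le]
    rw [max_eq_left h.le]
    exact (hasDerivAt_pow n t).congr_of_eventuallyEq h1

lemma contDiff_maxpow {n : ℕ} (hn : 2 ≤ n) : ContDiff ℝ 1 (fun t : ℝ => (max t 0) ^ n) := by
  rw [contDiff_one_iff_deriv]
  refine ⟨fun t => (hasDerivAt_maxpow hn t).differentiableAt, ?_⟩
  have h : deriv (fun t : ℝ => (max t 0) ^ n) = fun t : ℝ => (n : ℝ) * (max t 0) ^ (n - 1) := by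
    funext t
    exact (hasDerivAt_maxpow hn t).deriv
  rw [h]
  fun_prop

/-- sum of squares -/
noncomputable def qq {n : ℕ} (y : E n) : ℝ := ∑ i, y i ^ 2

lemma en_sq {n : ℕ} (y : E n) : en y ^ 2 = qq y := by
  unfold en toY qq
  rw [EuclideanSpace.norm_sq_eq]
  simp

lemma en_nonneg {n : ℕ} (y : E n) : 0 ≤ en y := norm_nonneg _

lemma qq_nonneg {n : ℕ} (y : E n) : 0 ≤ qq y := by rw [← en_sq]; positivity

lemma contDiff_qq {n : ℕ} {m : ℕ∞ω} : ContDiff ℝ m (qq : E n → ℝ) := by
  unfold qq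
  fun_prop

lemma hasFDerivAt_qq {n : ℕ} (y : E n) :
    HasFDerivAt (qq : E n → ℝ) (∑ i, (2 * y i) • (ContinuousLinearMap.proj i : E n →L[ℝ] ℝ)) y := by
  unfold qq
  apply HasFDerivAt.fun_sum
  intro i _
  have h := (hasFDerivAt_apply (𝕜 := ℝ) i y).pow 2
  simpa using h

/-- smooth version of the excess before truncation -/
noncomputable def uu {n : ℕ} (x0 : E n) (r M β : ℝ) (p : E n × E n) : ℝ :=
  (Real.log (qq p.2) / 2 - Real.log (2 * M)) / β - Real.log (r ^ 2 + qq (p.1 - x0)) / 2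

lemma ex_eq {n : ℕ} (x0 : E n) {r M β : ℝ} (hr : 0 < r) (hM : 0 < M) (hβ : 0 < β)
    (x y : E n) (hy : 0 < qq y) : ex x0 r M β x y = max (uu x0 r M β (x, y)) 0 := by
  have hen : 0 < en y := by
    have h1 := en_sq y
    rcases (en_nonneg y).lt_or_eq with h | h
    · exact h
    · rw [← h] at h1; norm_num at h1; linarith
  have hlog : Real.log (qq y) / 2 = Real.log (en y) := by
    rw [← en_sq, Real.log_pow]; push_cast; ring
  have hbase : 2 * Real.log r ≤ Real.log (r ^ 2 + en (x - x0) ^ 2) := by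
    have h2 : Real.log (r ^ 2) = 2 * Real.log r := by rw [Real.log_pow]; push_cast; ring
    rw [← h2]
    exact Real.log_le_log (by positivity) (by nlinarith [sq_nonneg (en (x - x0))])
  have hrb : Real.log (r ^ β) / β = Real.log r := by
    rw [Real.log_rpow hr]; field_simp
  unfold ex uu
  simp only
  rw [hlog, ← en_sq (x - x0), ← Real.log_div hen.ne' (by positivity)]
  rcases le_total (r ^ β) (en y / (2 * M)) with h | h
  · rw [max_eq_left h]
  · rw [max_eq_right h, hrb]
    have h3 : Real.log (en y / (2 * M)) / β ≤ Real.log r := by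
      rw [← hrb]
      exact div_le_div_of_nonneg_right (Real.log_le_log (by positivity) h) hβ.le
    rw [max_eq_right (by linarith), max_eq_right (by linarith)]

lemma ex_zero {n : ℕ} (x0 : E n) {r M β : ℝ} (hr : 0 < r) (hM : 0 < M) (hβ : 0 < β)
    (x y : E n) (hy : en y ≤ 2 * M * r ^ β) : ex x0 r M β x y = 0 := by
  have hbase : 2 * Real.log r ≤ Real.log (r ^ 2 + en (x - x0) ^ 2) := by
    have h2 : Real.log (r ^ 2) = 2 * Real.log r := by rw [Real.log_pow]; push_cast; ring
    rw [← h2]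
    exact Real.log_le_log (by positivity) (by nlinarith [sq_nonneg (en (x - x0))])
  have hrb : Real.log (r ^ β) / β = Real.log r := by
    rw [Real.log_rpow hr]; field_simp
  unfold ex
  have h1 : en y / (2 * M) ≤ r ^ β := by
    rw [div_le_iff₀ (by positivity)]; linarith
  rw [max_eq_right h1, hrb, max_eq_right (by linarith)]

lemma contDiffAt_uu {n : ℕ} (x0 : E n) {r M β : ℝ} (hr : 0 < r)
    (p : E n × E n) (hy : 0 < qq p.2) : ContDiffAt ℝ 1 (uu x0 r M β) p := by
  unfold uu
  have h1 : ContDiffAt ℝ 1 (fun p : E n × E n => qq p.2) p :=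
    (contDiff_qq.comp contDiff_snd).contDiffAt
  have h2 : ContDiffAt ℝ 1 (fun p : E n × E n => r ^ 2 + qq (p.1 - x0)) p :=
    (contDiff_const.add (contDiff_qq.comp (contDiff_fst.sub contDiff_const))).contDiffAt
  have h3 : r ^ 2 + qq (p.1 - x0) ≠ 0 := by
    have := qq_nonneg (p.1 - x0)
    positivity
  have h4 := h1.log hy.ne'
  have h5 := h2.log h3
  exact (((h4.div_const 2).sub contDiffAt_const).div_const β).sub (h5.div_const 2)

lemma hasFDerivAt_uu {n : ℕ} (x0 : E n) {r M β : ℝ} (hr : 0 < r)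
    (p : E n × E n) (hy : 0 < qq p.2) :
    ∃ L : E n × E n →L[ℝ] ℝ, HasFDerivAt (uu x0 r M β) L p ∧ ∀ h k : E n,
      L (h, k) = (∑ i, p.2 i * k i) / (β * qq p.2) -
        (∑ i, (p.1 - x0) i * h i) / (r ^ 2 + qq (p.1 - x0)) := by
  have h1 := (hasFDerivAt_qq p.2).comp p (hasFDerivAt_snd (𝕜 := ℝ) (E := E n) (F := E n))
  have hs : HasFDerivAt (fun p : E n × E n => p.1 - x0) (ContinuousLinearMap.fst ℝ (E n) (E n)) p :=
    (hasFDerivAt_fst (𝕜 := ℝ) (E := E n) (F := E n)).sub_const x0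
  have h2 := ((hasFDerivAt_qq (p.1 - x0)).comp p hs).const_add (r ^ 2)
  have h3 : r ^ 2 + qq (p.1 - x0) ≠ 0 := by
    have := qq_nonneg (p.1 - x0)
    positivity
  have h4 := h1.log hy.ne'
  have h5 := h2.log h3
  have h6 := (((h4.mul_const (2⁻¹)).sub_const (Real.log (2 * M))).mul_const (β⁻¹)).sub
    (h5.mul_const (2⁻¹))
  refine ⟨_, h6.congr_of_eventuallyEq ?_, ?_⟩
  · refine Filter.Eventually.of_forall (fun q => ?_)
    simp only [uu, Function.comp, div_eq_mul_inv, Pi.sub_apply]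
  · intro h k
    simp only [sub_apply, smul_apply,
      ContinuousLinearMap.comp_apply, sum_apply, smul_eq_mul,
      ContinuousLinearMap.proj_apply, Function.comp]
    simp only [ContinuousLinearMap.coe_snd', ContinuousLinearMap.coe_fst']
    have e1 : ∑ i, 2 * p.2 i * k i = 2 * ∑ i, p.2 i * k i := by
      rw [Finset.mul_sum]; exact Finset.sum_congr rfl (fun i _ => by ring)
    have e2 : ∑ i, 2 * (p.1 - x0) i * h i = 2 * ∑ i, (p.1 - x0) i * h i := by
      rw [Finset.mul_sum]; exact Finset.sum_congr rfl (fun i _ => by ring)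
    rw [e1, e2, div_eq_mul_inv, div_eq_mul_inv, mul_inv]
    ring

/-- G0b. smoothness of the powers of the excess -/
theorem ex_smooth {n : ℕ} (hn : 2 ≤ n) (x0 : E n) {r M β : ℝ} (hr : 0 < r) (hM : 0 < M)
    (hβ : 0 < β) :
    ContDiff ℝ 1 (fun p : E n × E n => ex x0 r M β p.1 p.2 ^ n) ∧
    ∀ x y h k : E n, fderiv ℝ (fun p : E n × E n => ex x0 r M β p.1 p.2 ^ n) (x, y) (h, k) =
      n * ex x0 r M β x y ^ (n - 1) * ((∑ i, y i * k i) / (β * en y ^ 2) -
        (∑ i, (x - x0) i * h i) / (r ^ 2 + en (x - x0) ^ 2)) := by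
  have hcq : Continuous (fun p : E n × E n => qq p.2) :=
    (contDiff_qq (m := 1)).continuous.comp continuous_snd
  have hnear : ∀ p : E n × E n, 0 < qq p.2 →
      (fun p : E n × E n => ex x0 r M β p.1 p.2 ^ n) =ᶠ[𝓝 p]
        (fun t : ℝ => (max t 0) ^ n) ∘ (uu x0 r M β) := by
    intro p hp
    filter_upwards [hcq.continuousAt.eventually (lt_mem_nhds hp)] with q hq
    simp only [Function.comp]
    rw [ex_eq x0 hr hM hβ q.1 q.2 hq]
  have hzero : ∀ p : E n × E n, qq p.2 = 0 →
      (fun p : E n × E n => ex x0 r M β p.1 p.2 ^ n) =ᶠ[𝓝 p] fun _ => 0 := by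
    intro p hp
    have hc : 0 < (2 * M * r ^ β) ^ 2 := by positivity
    have h1 : ∀ᶠ q in 𝓝 p, qq q.2 < (2 * M * r ^ β) ^ 2 := by
      apply hcq.continuousAt.eventually_lt_const
      show qq p.2 < _
      rw [hp]; exact hc
    filter_upwards [h1] with q hq
    have h2 : en q.2 ≤ 2 * M * r ^ β := by
      rw [← en_sq] at hq
      exact (abs_lt_of_sq_lt_sq hq (by positivity)).le.trans' (le_abs_self _)
    rw [ex_zero x0 hr hM hβ q.1 q.2 h2, zero_pow (by omega)]
  refine ⟨?_, ?_⟩
  · rw [contDiff_iff_contDiffAt]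
    intro p
    rcases (qq_nonneg p.2).lt_or_eq with hp | hp
    · exact ((contDiff_maxpow hn).contDiffAt.comp p (contDiffAt_uu x0 hr p hp)).congr_of_eventuallyEq
        (hnear p hp)
    · exact contDiffAt_const.congr_of_eventuallyEq (hzero p hp.symm)
  · intro x y h k
    rcases (qq_nonneg y).lt_or_eq with hp | hp
    · obtain ⟨L, hL, hLv⟩ := hasFDerivAt_uu x0 (M := M) (β := β) hr (x, y) hp
      have h1 := (hasDerivAt_maxpow hn (uu x0 r M β (x, y))).comp_hasFDerivAt (x, y) hL
      have h2 := h1.congr_of_eventuallyEq (hnear (x, y) hp)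
      rw [h2.fderiv, smul_apply, hLv, smul_eq_mul,
        ← ex_eq x0 hr hM hβ x y hp, en_sq, en_sq]
    · have h1 := (hasFDerivAt_const (𝕜 := ℝ) (0 : ℝ) (x, y)).congr_of_eventuallyEq
        (hzero (x, y) hp.symm)
      rw [h1.fderiv]
      have h2 : en y ≤ 2 * M * r ^ β := by
        have : en y = 0 := by
          have := en_sq y
          rw [← hp] at this
          exact pow_eq_zero_iff (two_ne_zero) |>.mp this
        rw [this]; positivity
      rw [ex_zero x0 hr hM hβ x y h2, zero_pow (by omega)]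
      simp


end H248.BH.G0b

namespace H248.BH

export G0b (ex_smooth)

end H248.BH
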