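import Pool.Agent.H248.BH.Defs
import Pool.Agent.H248.ID.J09a

set_option autoImplicit false
open MeasureTheory Metric Set Filter Topology
open scoped ENNReal NNReal ContDiff

namespace H248.BH.X0


open H248.ID



theorem conv_eq {n : ℕ} (g ρ : E n → ℝ) :
    (fun z => ∫ y, g y * ρ (z - y)) =
      (convolution g ρ (ContinuousLinearMap.lsmul ℝ ℝ) volume) := by
  ext z
  rw [convolution_lsmul]
  rfl

theorem moll_smooth {n : ℕ} {g : E n → ℝ} (hg : LocallyIntegrable g) {ρ : E n → ℝ}
    (hρ : ContDiff ℝ ∞ ρ) (hρc : HasCompactSupport ρ) :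
    ContDiff ℝ ∞ (fun z => ∫ y, g y * ρ (z - y)) := by
  rw [conv_eq]
  exact hρc.contDiff_convolution_right _ hg hρ

theorem moll_deriv {n : ℕ} {g : E n → ℝ} (hg : LocallyIntegrable g) {ρ : E n → ℝ}
    (hρ : ContDiff ℝ ∞ ρ) (hρc : HasCompactSupport ρ) (j : Fin n) (x : E n) :
    pd (fun z => ∫ y, g y * ρ (z - y)) j x = ∫ y, g y * pd ρ j (x - y) := by
  rw [conv_eq]
  unfold pd
  have h1 : ContDiff ℝ 1 ρ := hρ.of_le (by exact_mod_cast le_top)
  rw [(hρc.hasFDerivAt_convolution_right (ContinuousLinearMap.lsmul ℝ ℝ) hg h1 x).fderiv,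
    convolution_precompR_apply _ hg (hρc.fderiv ℝ) (h1.continuous_fderiv (by simp))]
  rfl

theorem tangent {p : ℕ} {s m : ℝ} (hp : 1 ≤ p) (hs : 0 ≤ s) (hm : 0 ≤ m) :
    m ^ p + p * m ^ (p - 1) * (s - m) ≤ s ^ p := by
  rcases hm.eq_or_lt with h | h
  · rw [← h]
    obtain ⟨q, rfl⟩ : ∃ q, p = q + 1 := ⟨p - 1, by omega⟩
    rcases Nat.eq_zero_or_pos q with hq | hq
    · subst hq; simp
    · simp [hq.ne', pow_nonneg hs]
  · have h1 := one_add_mul_le_pow (a := s / m - 1) (by
      have : 0 ≤ s / m := by positivity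
      linarith) p
    have h2 : 0 < m ^ p := pow_pos h p
    have h3 := mul_le_mul_of_nonneg_left h1 h2.le
    have h4 : m ^ p * (1 + (s / m - 1)) ^ p = s ^ p := by
      rw [← mul_pow]; congr 1; field_simp; ring
    have h5 : m ^ p * (1 + p * (s / m - 1)) = m ^ p + p * m ^ (p - 1) * (s - m) := by
      obtain ⟨q, rfl⟩ : ∃ q, p = q + 1 := ⟨p - 1, by omega⟩
      rw [Nat.add_sub_cancel, pow_succ]
      field_simp
    linarith

theorem jensen {n : ℕ} {p : ℕ} (hp : 1 ≤ p) (w s : E n → ℝ) (hw0 : ∀ y, 0 ≤ w y)
    (hw : Integrable w) (hw1 : ∫ y, w y = 1) (hs0 : ∀ y, 0 ≤ s y)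
    (h1 : Integrable fun y => w y * s y) (h2 : Integrable fun y => w y * s y ^ p) :
    (∫ y, w y * s y) ^ p ≤ ∫ y, w y * s y ^ p := by
  set m := ∫ y, w y * s y with hm
  have hm0 : 0 ≤ m := integral_nonneg fun y => mul_nonneg (hw0 y) (hs0 y)
  have h3 : ∫ y, (m ^ p * w y + p * m ^ (p - 1) * (w y * s y - m * w y)) ≤
      ∫ y, w y * s y ^ p := by
    apply integral_mono _ h2
    · intro y
      have := mul_le_mul_of_nonneg_left (tangent hp (hs0 y) hm0) (hw0 y)
      show _ ≤ _
      dsimp only
      nlinarith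
    · exact (hw.const_mul _).add ((h1.sub (hw.const_mul _)).const_mul _)
  have h4 : ∫ y, (m ^ p * w y + p * m ^ (p - 1) * (w y * s y - m * w y)) = m ^ p := by
    have i1 : Integrable fun y => m ^ p * w y := hw.const_mul _
    have i2 : Integrable fun y => m * w y := hw.const_mul _
    have i3 : Integrable fun y => w y * s y - m * w y := h1.sub i2
    have i4 : Integrable fun y => (p : ℝ) * m ^ (p - 1) * (w y * s y - m * w y) := i3.const_mul _
    rw [integral_add i1 i4,
      integral_const_mul, integral_const_mul, integral_sub h1 i2,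
      integral_const_mul, hw1, ← hm]
    ring
  rw [h4] at h3
  exact h3



/-- X0. mollification near a compact set -/
theorem mollify_on {n : ℕ} (hn : 1 ≤ n) {Ω : Set (E n)} {f : E n → E n}
    {Df : E n → Matrix (Fin n) (Fin n) ℝ} {K : ℝ} (H : QR Ω f Df K) {C : Set (E n)}
    (hC : IsCompact C) (hCΩ : C ⊆ Ω) :
    ∃ F : ℕ → E n → E n, (∀ k, ContDiff ℝ ∞ (F k)) ∧ TendstoUniformlyOn F f atTop C ∧
      (∀ᵐ x ∂(volume.restrict C), Tendsto (fun k => jac (F k) x) atTop (𝓝 (Df x))) ∧
      ∃ Φ : E n → ℝ, IntegrableOn Φ C ∧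
        ∀ᵐ x ∂(volume.restrict C), ∀ k, sn (jac (F k) x) ^ n ≤ Φ x := by
  obtain ⟨R, hR, hRΩ⟩ := hC.exists_cthickening_subset_open H.isOpen hCΩ
  set B := cthickening R C with hB
  have hBc : IsCompact B := hC.cthickening
  have hCB : C ⊆ B := self_subset_cthickening C
  have hBcl : IsClosed B := isClosed_cthickening
  have hBm : MeasurableSet B := hBcl.measurableSet
  have hBfin : volume B < ⊤ := hBc.measure_lt_top
  have hCm : MeasurableSet C := hC.measurableSet
  have hsn0 : ∀ x, 0 ≤ sn (Df x) := fun x =>
    Finset.sum_nonneg fun i _ => Finset.sum_nonneg fun j _ => abs_nonneg _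
  have hsnm : Measurable fun x => sn (Df x) := by
    unfold sn
    exact Finset.measurable_sum _ fun i _ => Finset.measurable_sum _ fun j _ => (H.meas_D i j).abs
  have hsle : ∀ s : ℝ, 0 ≤ s → s ≤ 1 + s ^ n := by
    intro s hs
    rcases le_total s 1 with h | h
    · have := pow_nonneg hs n; linarith
    · have : s ^ 1 ≤ s ^ n := pow_le_pow_right₀ h hn
      rw [pow_one] at this; linarith
  have hone : IntegrableOn (fun _ : E n => (1 : ℝ)) B := by
    rw [integrableOn_const_iff]; right; exact hBfin
  have hD : IntegrableOn (fun x => sn (Df x) ^ n) B := H.int B hBc hRΩ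
  have hfc : ContinuousOn f B := H.cont.mono hRΩ
  have hf : ∀ i, IntegrableOn (fun x => f x i) B := fun i =>
    ((continuous_apply i).comp_continuousOn hfc).integrableOn_compact hBc
  have hsnint : IntegrableOn (fun x => sn (Df x)) B := by
    refine (hone.add hD).mono' hsnm.aestronglyMeasurable ?_
    filter_upwards with x
    rw [Real.norm_of_nonneg (hsn0 x)]
    exact hsle _ (hsn0 x)
  have hDle : ∀ i j x, |Df x i j| ≤ sn (Df x) := by
    intro i j x
    calc |Df x i j| ≤ ∑ j, |Df x i j| :=
          Finset.single_le_sum (f := fun j => |Df x i j|) (fun j _ => abs_nonneg _) (Finset.mem_univ j)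
      _ ≤ sn (Df x) := Finset.single_le_sum (f := fun i => ∑ j, |Df x i j|)
          (fun i _ => Finset.sum_nonneg fun j _ => abs_nonneg _) (Finset.mem_univ i)
  have hDint : ∀ i j, IntegrableOn (fun x => Df x i j) B := by
    intro i j
    refine hsnint.mono' (H.meas_D i j).aestronglyMeasurable ?_
    filter_upwards with x
    exact hDle i j x
  -- truncations
  set ft : Fin n → E n → ℝ := fun i => B.indicator fun y => f y i with hft
  set Dt : Fin n → Fin n → E n → ℝ := fun i j => B.indicator fun y => Df y i j with hDt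
  set s : E n → ℝ := B.indicator fun y => sn (Df y) with hs
  set G : E n → ℝ := B.indicator fun y => sn (Df y) ^ n with hG
  have hfti : ∀ i, Integrable (ft i) := fun i => (integrable_indicator_iff hBm).mpr (hf i)
  have hDti : ∀ i j, Integrable (Dt i j) := fun i j =>
    (integrable_indicator_iff hBm).mpr (hDint i j)
  have hsi : Integrable s := (integrable_indicator_iff hBm).mpr hsnint
  have hGi : Integrable G := (integrable_indicator_iff hBm).mpr hD
  have hs0 : ∀ y, 0 ≤ s y := fun y => indicator_nonneg (fun x _ => hsn0 x) y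
  have hG0 : ∀ y, 0 ≤ G y := fun y => indicator_nonneg (fun x _ => pow_nonneg (hsn0 x) n) y
  have hsG : ∀ y, s y ^ n = G y := by
    intro y
    by_cases h : y ∈ B
    · rw [hs, hG, indicator_of_mem h, indicator_of_mem h]
    · rw [hs, hG, indicator_of_notMem h, indicator_of_notMem h, zero_pow (by omega)]
  have hsD : ∀ y, ∑ i, ∑ j, |Dt i j y| = s y := by
    intro y
    by_cases h : y ∈ B
    · rw [hs, indicator_of_mem h]
      unfold sn
      apply Finset.sum_congr rfl; intro i _
      apply Finset.sum_congr rfl; intro j _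
      rw [hDt]; dsimp only; rw [indicator_of_mem h]
    · rw [hs, indicator_of_notMem h]
      apply Finset.sum_eq_zero; intro i _
      apply Finset.sum_eq_zero; intro j _
      rw [hDt]; dsimp only; rw [indicator_of_notMem h, abs_zero]
  -- bumps
  let φ : ℕ → ContDiffBump (0 : E n) := fun k =>
    { rIn := R / (2 * (k + 2)), rOut := R / (k + 2)
      rIn_pos := by positivity
      rIn_lt_rOut := by
        apply div_lt_div_of_pos_left hR (by positivity)
        have : (0 : ℝ) ≤ k := Nat.cast_nonneg k
        linarith }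
  have hφout : ∀ k, (φ k).rOut = R / (k + 2) := fun k => rfl
  have hφin : ∀ k, (φ k).rIn = R / (2 * (k + 2)) := fun k => rfl
  have hφt : Tendsto (fun k => (φ k).rOut) atTop (𝓝 0) := by
    have h1 : Tendsto (fun k : ℕ => (k : ℝ) + 2) atTop atTop :=
      tendsto_atTop_add_const_right _ _ tendsto_natCast_atTop_atTop
    exact h1.const_div_atTop R
  obtain ⟨κ, hκ, Φ, hΦ, hdom⟩ := moll_dom hGi hG0 φ hφt
  set ρ : ℕ → E n → ℝ := fun k => (φ (κ k)).normed volume with hρ
  have hρs : ∀ k, ContDiff ℝ ∞ (ρ k) := fun k => (φ (κ k)).contDiff_normed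
  have hρc : ∀ k, HasCompactSupport (ρ k) := fun k => (φ (κ k)).hasCompactSupport_normed
  have hρ0 : ∀ k y, 0 ≤ ρ k y := fun k y => (φ (κ k)).nonneg_normed y
  have hρR : ∀ k, (φ (κ k)).rOut ≤ R := by
    intro k
    rw [hφout]
    apply div_le_self hR.le
    have : (0 : ℝ) ≤ (κ k : ℝ) := Nat.cast_nonneg _
    linarith
  have hρsupp : ∀ k y, y ∉ closedBall (0 : E n) R → ρ k y = 0 := by
    intro k y hy
    by_contra hne
    have h1 : y ∈ Function.support (ρ k) := hne
    rw [hρ, (φ (κ k)).support_normed_eq] at h1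
    exact hy (closedBall_subset_closedBall (hρR k) (ball_subset_closedBall h1))
  have hκt : Tendsto (fun k => (φ (κ k)).rOut) atTop (𝓝 0) := hφt.comp hκ.tendsto_atTop
  have hKφ : ∀ᶠ k in atTop, (φ (κ k)).rOut ≤ 2 * (φ (κ k)).rIn := by
    filter_upwards with k
    rw [hφout, hφin]
    apply le_of_eq
    field_simp
  -- a.e. convergence
  have hconv : ∀ g : E n → ℝ, Integrable g →
      ∀ᵐ x, Tendsto (fun k => ∫ y, g y * ρ k (x - y)) atTop (𝓝 (g x)) := by
    intro g hg
    filter_upwards [ContDiffBump.ae_convolution_tendsto_right_of_locallyIntegrable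
      (φ := fun k => φ (κ k)) hκt hKφ hg.locallyIntegrable] with x hx
    refine hx.congr (fun k => ?_)
    rw [convolution_lsmul_swap]
    apply integral_congr_ae
    filter_upwards with y
    rw [smul_eq_mul, mul_comm]
  -- the sequence
  set F : ℕ → E n → E n := fun k z i => ∫ y, ft i y * ρ k (z - y) with hF
  have hFs : ∀ k, ContDiff ℝ ∞ (F k) := by
    intro k
    rw [contDiff_pi]
    intro i
    exact moll_smooth (hfti i).locallyIntegrable (hρs k) (hρc k)
  have hxsub : ∀ x ∈ C, ∀ y, x - y ∈ closedBall (0 : E n) R → y ∈ B := by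
    intro x hx y hy
    rw [mem_closedBall, dist_zero_right, ← dist_eq_norm, dist_comm] at hy
    exact mem_cthickening_of_dist_le y x R C hx hy
  have hjac : ∀ k, ∀ x ∈ C, ∀ i j,
      jac (F k) x i j = ∫ y, Dt i j y * ρ k (x - y) := by
    intro k x hx i j
    have e1 : jac (F k) x i j = pd (fun z => ∫ y, ft i y * ρ k (z - y)) j x := rfl
    rw [e1, moll_deriv (hfti i).locallyIntegrable (hρs k) (hρc k)]
    set ψ : E n → ℝ := fun y => ρ k (x - y) with hψ
    have hψs : ContDiff ℝ ∞ ψ := (hρs k).comp (contDiff_const.sub contDiff_id)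
    have hψsupp : tsupport ψ ⊆ B := by
      apply closure_minimal _ hBcl
      intro y hy
      by_contra hyB
      apply hy
      apply hρsupp
      intro h
      exact hyB (hxsub x hx y h)
    have hψcomp : HasCompactSupport ψ := hBc.of_isClosed_subset (isClosed_tsupport _) hψsupp
    have hpd : ∀ y, pd ψ j y = - pd (ρ k) j (x - y) := by
      intro y
      unfold pd
      have h1 : HasFDerivAt (ρ k) (fderiv ℝ (ρ k) (x - y)) (x - y) :=
        (((hρs k).differentiable (by simp)) (x - y)).hasFDerivAt
      have h2 : HasFDerivAt (fun y : E n => x - y) (-(ContinuousLinearMap.id ℝ (E n))) y :=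
        (hasFDerivAt_id y).const_sub x
      have h3 := h1.comp y h2
      have h4 : fderiv ℝ ψ y = (fderiv ℝ (ρ k) (x - y)).comp (-(ContinuousLinearMap.id ℝ (E n))) :=
        h3.fderiv
      rw [h4]
      simp
    have hW' := H.weak ψ hψs hψcomp (hψsupp.trans hRΩ) i j
    have hpd0 : ∀ y, y ∉ B → pd (ρ k) j (x - y) = 0 := by
      intro y hy
      have h1 : pd ψ j y = 0 := by
        have h2 : y ∉ tsupport ψ := fun h => hy (hψsupp h)
        unfold pd
        rw [show fderiv ℝ ψ y = 0 from by
          by_contra hne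
          exact h2 (support_fderiv_subset ℝ hne)]
        rfl
      rw [hpd y] at h1
      linarith
    have e2 : ∫ y, ft i y * pd (ρ k) j (x - y) = - ∫ y, f y i * pd ψ j y := by
      rw [← integral_neg]
      apply integral_congr_ae
      filter_upwards with y
      by_cases h : y ∈ B
      · rw [hft]; dsimp only; rw [indicator_of_mem h, hpd y]; ring
      · rw [hpd y, hpd0 y h]; ring
    have e3 : ∫ y, Dt i j y * ρ k (x - y) = ∫ y, Df y i j * ψ y := by
      apply integral_congr_ae
      filter_upwards with y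
      by_cases h : y ∈ B
      · rw [hDt]; dsimp only; rw [indicator_of_mem h]
      · have : ψ y = 0 := by
          by_contra hne
          exact h (hψsupp (subset_tsupport _ hne))
        rw [this, show ρ k (x - y) = 0 from this]; ring
    rw [e2, e3, hW', neg_neg]
  have hw1 : ∀ k x, ∫ y, ρ k (x - y) = 1 := by
    intro k x
    rw [integral_sub_left_eq_self]
    exact (φ (κ k)).integral_normed
  have hwi : ∀ k x, Integrable fun y => ρ k (x - y) := fun k x =>
    ((φ (κ k)).integrable_normed (μ := volume)).comp_sub_left x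
  have hmulk : ∀ k x, ∀ g : E n → ℝ, Integrable g → Integrable fun y => ρ k (x - y) * g y := by
    intro k x g hg
    obtain ⟨C, hC⟩ : ∃ C, ∀ y, ‖ρ k y‖ ≤ C :=
      (hρc k).exists_bound_of_continuous (hρs k).continuous
    refine (hg.norm.const_mul C).mono'
      (((hρs k).continuous.comp (continuous_const.sub continuous_id)).aestronglyMeasurable.mul
        hg.1) ?_
    filter_upwards with y
    rw [norm_mul]
    exact mul_le_mul_of_nonneg_right (hC _) (norm_nonneg _)
  refine ⟨F, hFs, ?_, ?_, Φ, hΦ.integrableOn, ?_⟩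
  · rw [Metric.tendstoUniformlyOn_iff]
    intro ε hε
    have huc : UniformContinuousOn f B := hBc.uniformContinuousOn_of_continuous hfc
    rw [Metric.uniformContinuousOn_iff] at huc
    obtain ⟨δ, hδ, huc⟩ := huc (ε / 2) (by positivity)
    filter_upwards [hκt.eventually (gt_mem_nhds hδ)] with k hk x hx
    refine lt_of_le_of_lt ?_ (half_lt_self hε)
    rw [dist_pi_le_iff (by positivity)]
    intro i
    have hxB : x ∈ B := hCB hx
    have e1 : F k x i = ∫ y, ρ k (x - y) * ft i y := by
      show ∫ y, ft i y * ρ k (x - y) = _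
      congr 1; ext y; ring
    have e2 : f x i = ∫ y, ρ k (x - y) * f x i := by
      rw [integral_mul_const, hw1 k x, one_mul]
    have e3 : f x i - F k x i = ∫ y, ρ k (x - y) * (f x i - ft i y) := by
      rw [e1]
      conv_lhs => rw [e2]
      rw [← integral_sub ((hwi k x).mul_const _) (hmulk k x _ (hfti i))]
      congr 1; ext y; ring
    rw [Real.dist_eq, e3]
    calc |∫ y, ρ k (x - y) * (f x i - ft i y)| ≤ ∫ y, |ρ k (x - y) * (f x i - ft i y)| :=
          abs_integral_le_integral_abs
      _ ≤ ∫ y, ρ k (x - y) * (ε / 2) := by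
          apply integral_mono_of_nonneg
          · filter_upwards with y; exact abs_nonneg _
          · exact (hwi k x).mul_const _
          · filter_upwards with y
            rw [abs_mul, abs_of_nonneg (hρ0 k _)]
            by_cases h0 : ρ k (x - y) = 0
            · rw [h0]; simp
            · apply mul_le_mul_of_nonneg_left _ (hρ0 k _)
              have h1 : x - y ∈ Function.support (ρ k) := h0
              have hyB : y ∈ B := by
                apply hxsub x hx y
                by_contra hh
                exact h0 (hρsupp k _ hh)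
              rw [hρ, (φ (κ k)).support_normed_eq, mem_ball, dist_zero_right, ← dist_eq_norm] at h1
              have h2 := huc x hxB y hyB (h1.trans hk)
              rw [hft]; dsimp only; rw [indicator_of_mem hyB]
              have h3 := (dist_pi_lt_iff (by positivity)).mp h2 i
              rw [Real.dist_eq] at h3
              exact h3.le
      _ = ε / 2 := by
          rw [integral_mul_const, hw1 k x, one_mul]
  · have h2 : ∀ᵐ x, ∀ i j, Tendsto (fun k => ∫ y, Dt i j y * ρ k (x - y)) atTop (𝓝 (Dt i j x)) :=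
      ae_all_iff.mpr fun i => ae_all_iff.mpr fun j => hconv _ (hDti i j)
    filter_upwards [ae_restrict_of_ae h2, ae_restrict_mem hCm] with x hx2 hx
    have hxB : x ∈ B := hCB hx
    refine tendsto_pi_nhds.mpr fun i => ?_
    refine tendsto_pi_nhds.mpr fun j => ?_
    have := hx2 i j
    rw [hDt] at this
    dsimp only at this
    rw [indicator_of_mem hxB] at this
    refine this.congr (fun k => ?_)
    rw [hjac k x hx i j, hDt]
  · filter_upwards [ae_restrict_of_ae hdom, ae_restrict_mem hCm] with x hxd hx
    intro k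
    have hw0 : ∀ y, 0 ≤ ρ k (x - y) := fun y => hρ0 k _
    have hmul : ∀ g : E n → ℝ, Integrable g → Integrable fun y => ρ k (x - y) * g y :=
      hmulk k x
    have h1 : sn (jac (F k) x) ≤ ∫ y, ρ k (x - y) * s y := by
      have e1 : ∫ y, ρ k (x - y) * s y = ∑ i, ∑ j, ∫ y, ρ k (x - y) * |Dt i j y| := by
        have e2 : ∀ y, ρ k (x - y) * s y = ∑ i, ∑ j, ρ k (x - y) * |Dt i j y| := by
          intro y
          rw [← hsD y, Finset.mul_sum]
          apply Finset.sum_congr rfl; intro i _
          rw [Finset.mul_sum]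
        simp_rw [e2]
        rw [integral_finset_sum]
        · apply Finset.sum_congr rfl; intro i _
          rw [integral_finset_sum]
          intro j _
          exact hmul _ (hDti i j).abs
        · intro i _
          apply integrable_finset_sum
          intro j _
          exact hmul _ (hDti i j).abs
      rw [e1]
      unfold sn
      apply Finset.sum_le_sum; intro i _
      apply Finset.sum_le_sum; intro j _
      rw [hjac k x hx i j]
      refine (abs_integral_le_integral_abs).trans (le_of_eq ?_)
      apply integral_congr_ae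
      filter_upwards with y
      rw [abs_mul, abs_of_nonneg (hw0 y), mul_comm]
    have h2 : 0 ≤ sn (jac (F k) x) :=
      Finset.sum_nonneg fun i _ => Finset.sum_nonneg fun j _ => abs_nonneg _
    calc sn (jac (F k) x) ^ n ≤ (∫ y, ρ k (x - y) * s y) ^ n := pow_le_pow_left₀ h2 h1 n
      _ ≤ ∫ y, ρ k (x - y) * s y ^ n := by
          apply jensen hn _ _ hw0 (hwi k x) (hw1 k x) hs0 (hmul s hsi)
          simp_rw [hsG]
          exact hmul G hGi
      _ = ∫ y, ρ k (x - y) * G y := by simp_rw [hsG]
      _ ≤ Φ x := hxd k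


end H248.BH.X0

namespace H248.BH

export X0 (mollify_on)

end H248.BH
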