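import Pool.Agent.H248.BH.Defs
import Pool.Agent.H248.ID.J01

set_option autoImplicit false
open MeasureTheory Metric Set Filter Topology
open scoped ENNReal NNReal ContDiff

namespace H248.BH.X1a


open H248.ID



theorem X1a_jac {n : ℕ} {f : E n → E n} (hf : ContDiff ℝ ∞ f) (k l : Fin n) :
    ContDiff ℝ ∞ (fun x => jac f x k l) := by
  have h1 : ContDiff ℝ ∞ (fun y => f y k) := contDiff_pi.mp hf k
  have h2 : ContDiff ℝ ∞ (fderiv ℝ (fun y => f y k)) := h1.fderiv_right (m := ∞) (by simp)
  exact h2.clm_apply contDiff_const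

theorem X1a_adj {n : ℕ} {f : E n → E n} (hf : ContDiff ℝ ∞ f) (i j : Fin n) :
    ContDiff ℝ ∞ (fun x => (jac f x).adjugate j i) := by
  simp only [Matrix.adjugate_apply, Matrix.det_apply]
  refine ContDiff.sum fun σ _ => ContDiff.const_smul _ (contDiff_prod fun k _ => ?_)
  by_cases h : σ k = i
  · simp only [h, Matrix.updateRow_self]
    exact contDiff_const
  · simp only [Matrix.updateRow_ne h]
    exact X1a_jac hf _ _

theorem X1a_la {n : ℕ} (A : Matrix (Fin n) (Fin n) ℝ) (b : Fin n → ℝ) (i : Fin n) :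
    (A.updateRow i b).det = ∑ j, A.adjugate j i * b j := by
  rw [← Matrix.cramer_transpose_apply, Matrix.cramer_eq_adjugate_mulVec, ← Matrix.adjugate_transpose]
  rfl

theorem X1a_ibp {n : ℕ} {a h : E n → ℝ} (ha : ContDiff ℝ 1 a) (hh : ContDiff ℝ 1 h)
    (hc : HasCompactSupport h) (j : Fin n) :
    Integrable (fun x => a x * pd h j x) ∧ Integrable (fun x => pd a j x * h x) ∧
      ∫ x, a x * pd h j x = - ∫ x, pd a j x * h x := by
  have ca' : Continuous (fun x => pd a j x) :=
    (ha.continuous_fderiv (by norm_num)).clm_apply continuous_const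
  have ch' : Continuous (fun x => pd h j x) :=
    (hh.continuous_fderiv (by norm_num)).clm_apply continuous_const
  have hc' : HasCompactSupport (fun x => pd h j x) := hc.fderiv_apply (𝕜 := ℝ) _
  have i1 : Integrable (fun x => a x * pd h j x) :=
    (ha.continuous.mul ch').integrable_of_hasCompactSupport hc'.mul_left
  have i2 : Integrable (fun x => pd a j x * h x) :=
    (ca'.mul hh.continuous).integrable_of_hasCompactSupport hc.mul_left
  have i3 : Integrable (fun x => a x * h x) :=
    (ha.continuous.mul hh.continuous).integrable_of_hasCompactSupport hc.mul_left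
  exact ⟨i1, i2, integral_mul_fderiv_eq_neg_fderiv_mul_of_integrable i2 i1 i3
    (fun x _ => ha.differentiable (by norm_num) x) (fun x _ => hh.differentiable (by norm_num) x)⟩

theorem X1a_sum {n : ℕ} {a : Fin n → E n → ℝ} {h : E n → ℝ} (ha : ∀ j, ContDiff ℝ 1 (a j))
    (hh : ContDiff ℝ 1 h) (hc : HasCompactSupport h) :
    ∫ x, ∑ j, a j x * pd h j x = - ∫ x, h x * ∑ j, pd (a j) j x := by
  rw [integral_finsetSum _ fun j _ => (X1a_ibp (ha j) hh hc j).1,
    Finset.sum_congr rfl fun j _ => (X1a_ibp (ha j) hh hc j).2.2, Finset.sum_neg_distrib,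
    ← integral_finsetSum _ fun j _ => (X1a_ibp (ha j) hh hc j).2.1]
  congr 1
  refine integral_congr_ae (Filter.Eventually.of_forall fun x => ?_)
  simp only [Finset.mul_sum]
  exact Finset.sum_congr rfl fun j _ => mul_comm _ _

/-- X1a. null Lagrangian, `C¹` version -/
theorem null_lagrangian_C1 {n : ℕ} {f : E n → E n} (hf : ContDiff ℝ ∞ f) {h : E n → ℝ}
    (hh : ContDiff ℝ 1 h) (hc : HasCompactSupport h) (i : Fin n) :
    ∫ x, ∑ j, (jac f x).adjugate j i * pd h j x = 0 := by
  have hA : ∀ j, ContDiff ℝ ∞ (fun x => (jac f x).adjugate j i) := fun j => X1a_adj hf i j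
  have hA1 : ∀ j, ContDiff ℝ 1 (fun x => (jac f x).adjugate j i) := fun j =>
    (hA j).of_le (by exact_mod_cast le_top)
  set a : Fin n → E n → ℝ := fun j x => (jac f x).adjugate j i with ha
  have hdiv : Continuous (fun x => ∑ j, pd (a j) j x) :=
    continuous_finsetSum _ fun j _ =>
      ((hA1 j).continuous_fderiv (by norm_num)).clm_apply continuous_const
  have hae : ∀ᵐ x ∂(volume : Measure (E n)), ∑ j, pd (a j) j x = 0 := by
    refine ae_eq_zero_of_integral_contDiff_smul_eq_zero hdiv.locallyIntegrable ?_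
    intro g hg hgc
    have h1 := null_lagrangian hf hg hgc i
    have h2 : ∫ x, ∑ j, a j x * pd g j x = 0 := by
      rw [← h1]
      refine integral_congr_ae (Filter.Eventually.of_forall fun x => ?_)
      exact (X1a_la _ _ _).symm
    rw [X1a_sum hA1 (hg.of_le (by exact_mod_cast le_top)) hgc, neg_eq_zero] at h2
    exact h2
  have key := X1a_sum (a := a) hA1 hh hc
  have hz : ∫ x, h x * ∑ j, pd (a j) j x = 0 := by
    rw [← integral_zero (E n) ℝ]
    refine integral_congr_ae ?_
    filter_upwards [hae] with x hx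
    rw [hx, mul_zero]
  rw [hz, neg_zero] at key
  exact key



end H248.BH.X1a

namespace H248.BH

export X1a (null_lagrangian_C1)

end H248.BH
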