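import Pool.Agent.H248.BH.Defs
import Pool.Agent.H248.BH.X0
import Pool.Agent.H248.BH.X1a

set_option autoImplicit false
open MeasureTheory Metric Set Filter Topology
open scoped ENNReal NNReal ContDiff

namespace H248.BH.X1


open H248.ID






/-! ### auxiliary lemmas for X1 -/

theorem X1_abs_le_sn {n : ℕ} (M : Matrix (Fin n) (Fin n) ℝ) (i j : Fin n) : |M i j| ≤ sn M := by
  unfold sn
  calc |M i j| ≤ ∑ j, |M i j| :=
        Finset.single_le_sum (f := fun j => |M i j|) (fun _ _ => abs_nonneg _) (Finset.mem_univ j)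
    _ ≤ ∑ i, ∑ j, |M i j| :=
        Finset.single_le_sum (f := fun i => ∑ j, |M i j|)
          (fun _ _ => Finset.sum_nonneg fun _ _ => abs_nonneg _) (Finset.mem_univ i)

theorem X1_sn_nonneg {n : ℕ} (M : Matrix (Fin n) (Fin n) ℝ) : 0 ≤ sn M :=
  Finset.sum_nonneg fun _ _ => Finset.sum_nonneg fun _ _ => abs_nonneg _

theorem X1_abs_det_le {n : ℕ} (M : Matrix (Fin n) (Fin n) ℝ) (x : ℝ) (hx : ∀ i j, |M i j| ≤ x) :
    |M.det| ≤ (n.factorial : ℝ) * x ^ n := by
  have := Matrix.det_le (A := M) (abv := AbsoluteValue.abs) (x := x) hx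
  simpa using this

theorem X1_sn_adj_le {n : ℕ} (hn : 1 ≤ n) : ∃ C : ℝ, 0 < C ∧ ∀ M : Matrix (Fin n) (Fin n) ℝ,
    sn M.adjugate ≤ C * sn M ^ (n - 1) := by
  obtain ⟨m, rfl⟩ : ∃ m, n = m + 1 := ⟨n - 1, by omega⟩
  refine ⟨((m + 1 : ℕ) : ℝ) * (((m + 1 : ℕ) : ℝ) * (m.factorial : ℝ)), by positivity, ?_⟩
  intro M
  have hent : ∀ i j, |M.adjugate i j| ≤ (m.factorial : ℝ) * sn M ^ m := by
    intro i j
    rw [Matrix.adjugate_fin_succ_eq_det_submatrix]
    rw [abs_mul]
    have h1 : |(-1 : ℝ) ^ (j + i : ℕ)| = 1 := by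
      rw [abs_pow]; simp
    rw [h1, one_mul]
    apply X1_abs_det_le
    intro a b
    exact X1_abs_le_sn M _ _
  calc sn M.adjugate = ∑ i, ∑ j, |M.adjugate i j| := rfl
    _ ≤ ∑ i : Fin (m + 1), ∑ j : Fin (m + 1), (m.factorial : ℝ) * sn M ^ m :=
        Finset.sum_le_sum fun i _ => Finset.sum_le_sum fun j _ => hent i j
    _ = ((m + 1 : ℕ) : ℝ) * (((m + 1 : ℕ) : ℝ) * (m.factorial : ℝ)) * sn M ^ (m + 1 - 1) := by
        simp
        ring

theorem X1_pow_le {n : ℕ} {t : ℝ} (ht : 0 ≤ t) : t ^ (n - 1) ≤ 1 + t ^ n := by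
  rcases le_total t 1 with h | h
  · have h1 : t ^ (n - 1) ≤ 1 := pow_le_one₀ ht h
    have h2 : 0 ≤ t ^ n := by positivity
    linarith
  · have h1 : t ^ (n - 1) ≤ t ^ n := pow_le_pow_right₀ h (Nat.sub_le _ _)
    linarith

theorem X1_meas_det {α : Type*} [MeasurableSpace α] {n : ℕ} {M : α → Matrix (Fin n) (Fin n) ℝ}
    (hM : ∀ i j, Measurable fun x => M x i j) : Measurable fun x => (M x).det := by
  simp only [Matrix.det_apply]
  refine Finset.measurable_sum _ fun σ _ => ?_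
  exact (Finset.measurable_prod _ fun i _ => hM _ _).const_smul _

theorem X1_meas_adj {α : Type*} [MeasurableSpace α] {n : ℕ} {M : α → Matrix (Fin n) (Fin n) ℝ}
    (hM : ∀ i j, Measurable fun x => M x i j) (i j : Fin n) :
    Measurable fun x => (M x).adjugate i j := by
  simp only [Matrix.adjugate_apply]
  apply X1_meas_det
  intro a b
  by_cases h : a = j
  · subst h
    simp only [Matrix.updateRow_self]
    exact measurable_const
  · simp only [Matrix.updateRow_ne h]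
    exact hM a b

/-- the integrand -/
noncomputable def X1_T {n : ℕ} (χ : E n → ℝ) (Ψ : E n × E n → ℝ) (k : Fin n) (x y : E n)
    (M : Matrix (Fin n) (Fin n) ℝ) : ℝ :=
  ∑ j, M.adjugate j k * (pd χ j x * Ψ (x, y) + χ x * fderiv ℝ Ψ (x, y) (Pi.single j 1, 0)) +
    χ x * (M.det * fderiv ℝ Ψ (x, y) (0, Pi.single k 1))

theorem X1_jac {n : ℕ} {F : E n → E n} {x : E n} (hF : DifferentiableAt ℝ F x) (l j : Fin n) :
    jac F x l j = fderiv ℝ F x (Pi.single j 1) l := by
  have h : HasFDerivAt (fun y => F y l)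
      ((ContinuousLinearMap.proj l : E n →L[ℝ] ℝ).comp (fderiv ℝ F x)) x :=
    (ContinuousLinearMap.proj l : E n →L[ℝ] ℝ).hasFDerivAt.comp x hF.hasFDerivAt
  show fderiv ℝ (fun y => F y l) x (Pi.single j 1) = _
  rw [h.fderiv]
  rfl

theorem X1_decomp {n : ℕ} (L : E n × E n →L[ℝ] ℝ) (v : E n) :
    L (0, v) = ∑ l, v l * L (0, Pi.single l 1) := by
  have h1 : ∀ w, L (0, w) = (L.comp (ContinuousLinearMap.inr ℝ (E n) (E n))) w := by
    intro w; simp
  rw [h1]
  conv_lhs => rw [← Finset.univ_sum_single v]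
  rw [map_sum]
  refine Finset.sum_congr rfl fun l _ => ?_
  rw [h1]
  have h2 : (Pi.single l (v l) : E n) = v l • Pi.single l 1 := by
    rw [← Pi.single_smul]; simp
  rw [h2, map_smul, smul_eq_mul]

theorem X1_pd {n : ℕ} {χ : E n → ℝ} (hχ : ContDiff ℝ 1 χ) {Ψ : E n × E n → ℝ}
    (hΨ : ContDiff ℝ 1 Ψ) {F : E n → E n} (hF : ContDiff ℝ ∞ F) (j : Fin n) (x : E n) :
    pd (fun x => χ x * Ψ (x, F x)) j x = pd χ j x * Ψ (x, F x) +
      χ x * (fderiv ℝ Ψ (x, F x) (Pi.single j 1, 0) +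
        ∑ l, jac F x l j * fderiv ℝ Ψ (x, F x) (0, Pi.single l 1)) := by
  have hFd : DifferentiableAt ℝ F x := (hF.differentiable (by simp)) x
  have hχd : HasFDerivAt χ (fderiv ℝ χ x) x := ((hχ.differentiable (by simp)) x).hasFDerivAt
  have hΨd : HasFDerivAt Ψ (fderiv ℝ Ψ (x, F x)) (x, F x) :=
    ((hΨ.differentiable (by simp)) (x, F x)).hasFDerivAt
  have h1 : HasFDerivAt (fun x => (x, F x))
      ((ContinuousLinearMap.id ℝ (E n)).prod (fderiv ℝ F x)) x :=
    (hasFDerivAt_id x).prodMk hFd.hasFDerivAt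
  have h2 : HasFDerivAt (fun x => Ψ (x, F x)) ((fderiv ℝ Ψ (x, F x)).comp
      ((ContinuousLinearMap.id ℝ (E n)).prod (fderiv ℝ F x))) x := hΨd.comp x h1
  have h3 := hχd.mul h2
  have h4 : pd (fun x => χ x * Ψ (x, F x)) j x =
      (χ x • (fderiv ℝ Ψ (x, F x)).comp ((ContinuousLinearMap.id ℝ (E n)).prod (fderiv ℝ F x)) +
        Ψ (x, F x) • fderiv ℝ χ x) (Pi.single j 1) := by
    unfold pd
    rw [← h3.fderiv]
    rfl
  rw [h4]
  have h5 : (Pi.single j 1, fderiv ℝ F x (Pi.single j 1)) =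
      ((Pi.single j 1, 0) + (0, fderiv ℝ F x (Pi.single j 1)) : E n × E n) := by
    simp
  have h6 : fderiv ℝ Ψ (x, F x) (Pi.single j 1, fderiv ℝ F x (Pi.single j 1)) =
      fderiv ℝ Ψ (x, F x) (Pi.single j 1, 0) +
        ∑ l, jac F x l j * fderiv ℝ Ψ (x, F x) (0, Pi.single l 1) := by
    rw [h5, map_add, X1_decomp _ (fderiv ℝ F x (Pi.single j 1))]
    congr 1
    refine Finset.sum_congr rfl fun l _ => ?_
    rw [X1_jac hFd]
  have h7 : (χ x • (fderiv ℝ Ψ (x, F x)).comp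
        ((ContinuousLinearMap.id ℝ (E n)).prod (fderiv ℝ F x)) +
        Ψ (x, F x) • fderiv ℝ χ x) (Pi.single j 1) =
      χ x * fderiv ℝ Ψ (x, F x) (Pi.single j 1, fderiv ℝ F x (Pi.single j 1)) +
        Ψ (x, F x) * pd χ j x := rfl
  rw [h7, h6]
  ring

theorem X1_sum {n : ℕ} {χ : E n → ℝ} (hχ : ContDiff ℝ 1 χ) {Ψ : E n × E n → ℝ}
    (hΨ : ContDiff ℝ 1 Ψ) {F : E n → E n} (hF : ContDiff ℝ ∞ F) (k : Fin n) (x : E n) :
    ∑ j, (jac F x).adjugate j k * pd (fun x => χ x * Ψ (x, F x)) j x =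
      X1_T χ Ψ k x (F x) (jac F x) := by
  unfold X1_T
  have h1 : ∀ j, (jac F x).adjugate j k * pd (fun x => χ x * Ψ (x, F x)) j x =
      (jac F x).adjugate j k * (pd χ j x * Ψ (x, F x) +
        χ x * fderiv ℝ Ψ (x, F x) (Pi.single j 1, 0)) +
      χ x * ∑ l, (jac F x l j * (jac F x).adjugate j k) *
        fderiv ℝ Ψ (x, F x) (0, Pi.single l 1) := by
    intro j
    rw [X1_pd hχ hΨ hF]
    have h2 : ∑ l, (jac F x l j * (jac F x).adjugate j k) *
        fderiv ℝ Ψ (x, F x) (0, Pi.single l 1) = (jac F x).adjugate j k *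
        ∑ l, jac F x l j * fderiv ℝ Ψ (x, F x) (0, Pi.single l 1) := by
      rw [Finset.mul_sum]
      refine Finset.sum_congr rfl fun l _ => ?_
      ring
    rw [h2]
    ring
  rw [Finset.sum_congr rfl fun j _ => h1 j, Finset.sum_add_distrib, ← Finset.mul_sum]
  congr 2
  rw [Finset.sum_comm]
  have h3 : ∀ l, ∑ j, jac F x l j * (jac F x).adjugate j k =
      (jac F x).det * (1 : Matrix (Fin n) (Fin n) ℝ) l k := by
    intro l
    rw [← Matrix.mul_apply, Matrix.mul_adjugate, Matrix.smul_apply, smul_eq_mul]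
  simp only [← Finset.sum_mul, h3]
  rw [Finset.sum_eq_single k]
  · rw [Matrix.one_apply_eq, mul_one]
  · intro l _ hl
    rw [Matrix.one_apply_ne hl, mul_zero, zero_mul]
  · intro h
    exact absurd (Finset.mem_univ k) h

theorem X1_T_meas {n : ℕ} {χ : E n → ℝ} (hχ : ContDiff ℝ 1 χ) {Ψ : E n × E n → ℝ}
    (hΨ : ContDiff ℝ 1 Ψ) {F : E n → E n} (hF : Measurable F)
    {M : E n → Matrix (Fin n) (Fin n) ℝ} (hM : ∀ i j, Measurable fun x => M x i j) (k : Fin n) :
    Measurable fun x => X1_T χ Ψ k x (F x) (M x) := by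
  have hFx : Measurable fun x => (x, F x) := measurable_id.prodMk hF
  have h1 : Measurable fun x => Ψ (x, F x) := hΨ.continuous.measurable.comp hFx
  have h2 : ∀ v, Measurable fun x => fderiv ℝ Ψ (x, F x) v := by
    intro v
    have : Continuous fun z => fderiv ℝ Ψ z v :=
      (hΨ.continuous_fderiv (by simp)).clm_apply continuous_const
    exact this.measurable.comp hFx
  have h3 : Measurable χ := hχ.continuous.measurable
  have h4 : ∀ j, Measurable (pd χ j) := by
    intro j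
    exact ((hχ.continuous_fderiv (by simp)).clm_apply continuous_const).measurable
  unfold X1_T
  refine Measurable.add ?_ (h3.mul ((X1_meas_det hM).mul (h2 _)))
  refine Finset.measurable_sum _ fun j _ => ?_
  exact (X1_meas_adj hM j k).mul (((h4 j).mul h1).add (h3.mul (h2 _)))

theorem X1_T_tendsto {n : ℕ} {χ : E n → ℝ} {Ψ : E n × E n → ℝ}
    (hΨ : ContDiff ℝ 1 Ψ) (k : Fin n) (x : E n) {y : E n} {M : Matrix (Fin n) (Fin n) ℝ}
    {ys : ℕ → E n} {Ms : ℕ → Matrix (Fin n) (Fin n) ℝ} (hy : Tendsto ys atTop (𝓝 y))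
    (hM : Tendsto Ms atTop (𝓝 M)) :
    Tendsto (fun m => X1_T χ Ψ k x (ys m) (Ms m)) atTop (𝓝 (X1_T χ Ψ k x y M)) := by
  have hc : Continuous fun p : E n × Matrix (Fin n) (Fin n) ℝ => X1_T χ Ψ k x p.1 p.2 := by
    have hp : Continuous fun p : E n × Matrix (Fin n) (Fin n) ℝ => (x, p.1) :=
      continuous_const.prodMk continuous_fst
    have h1 : Continuous fun p : E n × Matrix (Fin n) (Fin n) ℝ => Ψ (x, p.1) :=
      hΨ.continuous.comp hp
    have h2 : ∀ v, Continuous fun p : E n × Matrix (Fin n) (Fin n) ℝ =>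
        fderiv ℝ Ψ (x, p.1) v := by
      intro v
      exact ((hΨ.continuous_fderiv (by simp)).comp hp).clm_apply continuous_const
    have h3 : Continuous fun p : E n × Matrix (Fin n) (Fin n) ℝ => p.2.det :=
      continuous_snd.matrix_det
    have h4 : ∀ j, Continuous fun p : E n × Matrix (Fin n) (Fin n) ℝ => p.2.adjugate j k := by
      intro j
      exact continuous_snd.matrix_adjugate.matrix_elem j k
    unfold X1_T
    refine Continuous.add ?_ (continuous_const.mul (h3.mul (h2 _)))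
    refine continuous_finsetSum _ fun j _ => ?_
    exact (h4 j).mul ((continuous_const.mul h1).add (continuous_const.mul (h2 _)))
  have h5 : Tendsto (fun m => (ys m, Ms m)) atTop (𝓝 (y, M)) := hy.prodMk_nhds hM
  generalize hg : (fun p : E n × Matrix (Fin n) (Fin n) ℝ => X1_T χ Ψ k x p.1 p.2) = g at hc
  have h6 : Tendsto (fun m => g (ys m, Ms m)) atTop (𝓝 (g (y, M))) := (hc.tendsto (y, M)).comp h5
  rw [← hg] at h6
  exact h6

theorem X1_T_bound {n : ℕ} (hn : 1 ≤ n) {χ : E n → ℝ} (hχ : ContDiff ℝ 1 χ)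
    (hχ1 : ∀ x, |χ x| ≤ 1) {Ψ : E n × E n → ℝ}
    (hΨ : ContDiff ℝ 1 Ψ) (k : Fin n) {K1 : Set (E n)} (hK1 : IsCompact K1) (R0 : ℝ) :
    ∃ B : ℝ, 0 ≤ B ∧ ∀ x ∈ K1, ∀ y : E n, ‖y‖ ≤ R0 → ∀ M : Matrix (Fin n) (Fin n) ℝ,
      |X1_T χ Ψ k x y M| ≤ B * (1 + sn M ^ n) := by
  obtain ⟨C, hC, hadj⟩ := X1_sn_adj_le (n := n) hn
  have hQ : IsCompact (K1 ×ˢ closedBall (0 : E n) R0) := hK1.prod (isCompact_closedBall _ _)
  obtain ⟨b1, hb1⟩ := hQ.exists_bound_of_continuousOn hΨ.continuous.continuousOn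
  obtain ⟨b2, hb2⟩ := hQ.exists_bound_of_continuousOn
    (hΨ.continuous_fderiv (by simp)).continuousOn
  obtain ⟨b3, hb3⟩ := hK1.exists_bound_of_continuousOn
    (hχ.continuous_fderiv (by simp)).continuousOn
  set c1 := |b1| with hc1
  set c2 := |b2| with hc2
  set c3 := |b3| with hc3
  refine ⟨C * (c3 * c1 + c2) + n.factorial * c2, by positivity, ?_⟩
  intro x hx y hy M
  have hxy : (x, y) ∈ K1 ×ˢ closedBall (0 : E n) R0 := ⟨hx, by simpa using hy⟩
  have e1 : |Ψ (x, y)| ≤ c1 := (hb1 _ hxy).trans (le_abs_self _)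
  have e2 : ‖fderiv ℝ Ψ (x, y)‖ ≤ c2 := (hb2 _ hxy).trans (le_abs_self _)
  have e3 : ‖fderiv ℝ χ x‖ ≤ c3 := (hb3 _ hx).trans (le_abs_self _)
  have hs : ∀ j : Fin n, ‖(Pi.single j 1 : E n)‖ ≤ 1 := by
    intro j
    rw [pi_norm_le_iff_of_nonneg zero_le_one]
    intro i
    by_cases h : i = j
    · subst h; simp
    · simp [h]
  have e4 : ∀ j, |pd χ j x| ≤ c3 := by
    intro j
    calc |pd χ j x| ≤ ‖fderiv ℝ χ x‖ * ‖(Pi.single j 1 : E n)‖ :=
          (fderiv ℝ χ x).le_opNorm _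
      _ ≤ c3 * 1 := by gcongr; exact hs j
      _ = c3 := mul_one _
  have e5 : ∀ j, |fderiv ℝ Ψ (x, y) (Pi.single j 1, 0)| ≤ c2 := by
    intro j
    calc |fderiv ℝ Ψ (x, y) (Pi.single j 1, 0)| ≤
          ‖fderiv ℝ Ψ (x, y)‖ * ‖((Pi.single j 1, 0) : E n × E n)‖ :=
          (fderiv ℝ Ψ (x, y)).le_opNorm _
      _ ≤ c2 * 1 := by
          gcongr
          rw [Prod.norm_def]
          simpa using hs j
      _ = c2 := mul_one _
  have e6 : ∀ j, |fderiv ℝ Ψ (x, y) (0, Pi.single j 1)| ≤ c2 := by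
    intro j
    calc |fderiv ℝ Ψ (x, y) (0, Pi.single j 1)| ≤
          ‖fderiv ℝ Ψ (x, y)‖ * ‖((0, Pi.single j 1) : E n × E n)‖ :=
          (fderiv ℝ Ψ (x, y)).le_opNorm _
      _ ≤ c2 * 1 := by
          gcongr
          rw [Prod.norm_def]
          simpa using hs j
      _ = c2 := mul_one _
  have e7 : |∑ j, M.adjugate j k * (pd χ j x * Ψ (x, y) +
      χ x * fderiv ℝ Ψ (x, y) (Pi.single j 1, 0))| ≤ sn M.adjugate * (c3 * c1 + c2) := by
    refine (Finset.abs_sum_le_sum_abs _ _).trans ?_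
    have h1 : ∀ j, |M.adjugate j k * (pd χ j x * Ψ (x, y) +
        χ x * fderiv ℝ Ψ (x, y) (Pi.single j 1, 0))| ≤ |M.adjugate j k| * (c3 * c1 + c2) := by
      intro j
      rw [abs_mul]
      refine mul_le_mul_of_nonneg_left ?_ (abs_nonneg _)
      refine (abs_add_le _ _).trans (add_le_add ?_ ?_)
      · rw [abs_mul]
        exact mul_le_mul (e4 j) e1 (abs_nonneg _) (abs_nonneg _)
      · rw [abs_mul]
        calc |χ x| * |fderiv ℝ Ψ (x, y) (Pi.single j 1, 0)| ≤ 1 * c2 :=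
              mul_le_mul (hχ1 x) (e5 j) (abs_nonneg _) zero_le_one
          _ = c2 := one_mul _
    refine (Finset.sum_le_sum fun j _ => h1 j).trans ?_
    rw [← Finset.sum_mul]
    refine mul_le_mul_of_nonneg_right ?_ (by positivity)
    unfold sn
    exact Finset.sum_le_sum fun j _ =>
      Finset.single_le_sum (f := fun k => |M.adjugate j k|) (fun _ _ => abs_nonneg _)
        (Finset.mem_univ k)
  have e8 : |χ x * (M.det * fderiv ℝ Ψ (x, y) (0, Pi.single k 1))| ≤
      n.factorial * c2 * sn M ^ n := by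
    rw [abs_mul, abs_mul]
    have h1 := X1_abs_det_le M (sn M) (X1_abs_le_sn M)
    calc |χ x| * (|M.det| * |fderiv ℝ Ψ (x, y) (0, Pi.single k 1)|) ≤
          1 * ((n.factorial * sn M ^ n) * c2) :=
          mul_le_mul (hχ1 x) (mul_le_mul h1 (e6 k) (abs_nonneg _)
            (by have := X1_sn_nonneg M; positivity)) (by positivity) zero_le_one
      _ = n.factorial * c2 * sn M ^ n := by ring
  have e9 : sn M.adjugate ≤ C * (1 + sn M ^ n) :=
    (hadj M).trans (mul_le_mul_of_nonneg_left (X1_pow_le (X1_sn_nonneg M)) hC.le)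
  have e10 : 0 ≤ sn M ^ n := by have := X1_sn_nonneg M; positivity
  unfold X1_T
  refine (abs_add_le _ _).trans ?_
  calc _ ≤ sn M.adjugate * (c3 * c1 + c2) + n.factorial * c2 * sn M ^ n := add_le_add e7 e8
    _ ≤ (C * (1 + sn M ^ n)) * (c3 * c1 + c2) + n.factorial * c2 * (1 + sn M ^ n) := by
        gcongr
        linarith
    _ = (C * (c3 * c1 + c2) + n.factorial * c2) * (1 + sn M ^ n) := by ring

theorem X1_cutoff {n : ℕ} {C K1 : Set (E n)} (hC : IsClosed C) (hCK : C ⊆ interior K1) :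
    ∃ χ : E n → ℝ, ContDiff ℝ 1 χ ∧ (∀ᶠ x in 𝓝ˢ C, χ x = 1) ∧ (∀ x ∉ K1, χ x = 0) ∧
      ∀ x, |χ x| ≤ 1 := by
  obtain ⟨f, h1, h2, h3⟩ := exists_contMDiffMap_one_nhds_of_subset_interior
    (n := 1) (modelWithCornersSelf ℝ (E n)) hC hCK
  refine ⟨f, f.contMDiff.contDiff, h1, h2, fun x => ?_⟩
  rw [abs_of_nonneg (h3 x).1]
  exact (h3 x).2



/-- X1. the divergence identity -/
theorem null_identity {n : ℕ} (hn : 2 ≤ n) {Ω : Set (E n)} {f : E n → E n}
    {Df : E n → Matrix (Fin n) (Fin n) ℝ} {K : ℝ} (H : QR Ω f Df K) {C : Set (E n)}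
    (hC : IsCompact C) (hCΩ : C ⊆ Ω) {Ψ : E n × E n → ℝ} (hΨ : ContDiff ℝ 1 Ψ)
    (hsupp : ∀ x ∈ Ω \ C, Ψ (x, f x) = 0 ∧ fderiv ℝ Ψ (x, f x) = 0) (k : Fin n) :
    ∫ x in C, fderiv ℝ Ψ (x, f x) (0, Pi.single k 1) * (Df x).det =
      - ∫ x in C, ∑ j, (Df x).adjugate j k * fderiv ℝ Ψ (x, f x) (Pi.single j 1, 0) := by
  obtain ⟨K1, hK1, hCK, hKΩ⟩ := exists_compact_between hC H.isOpen hCΩ
  obtain ⟨χ, hχ, hχC, hχ0, hχ1⟩ := X1_cutoff hC.isClosed hCK
  obtain ⟨F, hF, hFu, hFj, Φ, hΦ, hFΦ⟩ := mollify_on (by omega) H hK1 hKΩ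
  -- bound on `f`
  obtain ⟨R0, hR0⟩ := hK1.exists_bound_of_continuousOn (H.cont.mono hKΩ)
  obtain ⟨B, hB0, hB⟩ := X1_T_bound (by omega) hχ hχ1 hΨ k hK1 (R0 + 1)
  -- the integrals vanish
  have hpd0 : ∀ x ∉ K1, ∀ j, pd χ j x = 0 := by
    intro x hx j
    have h1 : χ =ᶠ[𝓝 x] fun _ => 0 := by
      filter_upwards [hK1.isClosed.isOpen_compl.mem_nhds hx] with y hy
      exact hχ0 y hy
    unfold pd
    rw [h1.fderiv_eq]
    simp
  have hT0 : ∀ x ∉ K1, ∀ y M, X1_T χ Ψ k x y M = 0 := by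
    intro x hx y M
    unfold X1_T
    simp [hpd0 x hx, hχ0 x hx]
  have hint0 : ∀ m, ∫ x in K1, X1_T χ Ψ k x (F m x) (jac (F m) x) = 0 := by
    intro m
    rw [setIntegral_eq_integral_of_forall_compl_eq_zero (fun x hx => hT0 x hx _ _)]
    have hh : ContDiff ℝ 1 fun x => χ x * Ψ (x, F m x) :=
      hχ.mul (hΨ.comp (contDiff_id.prodMk ((hF m).of_le (by simp))))
    have hcs : HasCompactSupport fun x => χ x * Ψ (x, F m x) := by
      refine HasCompactSupport.intro hK1 fun x hx => ?_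
      rw [hχ0 x hx, zero_mul]
    have := null_lagrangian_C1 (hF m) hh hcs k
    rw [← this]
    refine integral_congr_ae (Eventually.of_forall fun x => ?_)
    exact (X1_sum hχ hΨ (hF m) k x).symm
  -- limit
  have hlim : Tendsto (fun m => ∫ x in K1, X1_T χ Ψ k x (F m x) (jac (F m) x)) atTop
      (𝓝 (∫ x in K1, X1_T χ Ψ k x (f x) (Df x))) := by
    refine tendsto_integral_filter_of_dominated_convergence (fun x => B * (1 + Φ x)) ?_ ?_ ?_ ?_
    · refine Eventually.of_forall fun m => ?_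
      refine (X1_T_meas hχ hΨ (hF m).continuous.measurable ?_ k).aestronglyMeasurable
      intro i j
      have h1 : Continuous fun x => jac (F m) x i j := by
        have h2 : ContDiff ℝ 1 fun y => F m y i :=
          (contDiff_pi.1 ((hF m).of_le (by simp)) : _) i
        exact (h2.continuous_fderiv (by simp)).clm_apply continuous_const
      exact h1.measurable
    · have h1 : ∀ᶠ m in atTop, ∀ x ∈ K1, dist (f x) (F m x) < 1 :=
        Metric.tendstoUniformlyOn_iff.1 hFu 1 one_pos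
      filter_upwards [h1] with m hm
      filter_upwards [hFΦ, ae_restrict_mem hK1.measurableSet] with x hx hxK
      have h2 : ‖F m x‖ ≤ R0 + 1 := by
        have h3 := hm x hxK
        have h4 := hR0 x hxK
        rw [dist_eq_norm] at h3
        have h5 : ‖F m x‖ ≤ ‖f x‖ + ‖f x - F m x‖ := by
          have := norm_sub_le (f x) (f x - F m x)
          simpa using this
        linarith
      have h3 := hB x hxK (F m x) h2 (jac (F m) x)
      rw [Real.norm_eq_abs]
      refine h3.trans ?_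
      have h4 := hx m
      gcongr
    · have hfin : volume K1 < ⊤ := hK1.measure_lt_top
      have h1 : IntegrableOn (fun _ : E n => (1 : ℝ)) K1 := by
        rw [integrableOn_const_iff]
        right
        exact hfin
      exact ((h1.add hΦ).const_mul B)
    · filter_upwards [hFj, ae_restrict_mem hK1.measurableSet] with x hx hxK
      exact X1_T_tendsto hΨ k x (hFu.tendsto_at hxK) hx
  have hzero : ∫ x in K1, X1_T χ Ψ k x (f x) (Df x) = 0 := by
    refine tendsto_nhds_unique hlim ?_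
    simp only [hint0]
    exact tendsto_const_nhds
  -- restrict to `C`
  have hCK' : C ⊆ K1 := hCK.trans interior_subset
  have hrest : ∫ x in K1, X1_T χ Ψ k x (f x) (Df x) = ∫ x in C, X1_T χ Ψ k x (f x) (Df x) := by
    refine setIntegral_eq_of_subset_of_forall_sdiff_eq_zero hK1.measurableSet hCK' ?_
    intro x hx
    obtain ⟨h1, h2⟩ := hsupp x ⟨hKΩ hx.1, hx.2⟩
    unfold X1_T
    rw [h1, h2]
    simp
  have hval : ∀ x ∈ C, X1_T χ Ψ k x (f x) (Df x) =
      ∑ j, (Df x).adjugate j k * fderiv ℝ Ψ (x, f x) (Pi.single j 1, 0) +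
        fderiv ℝ Ψ (x, f x) (0, Pi.single k 1) * (Df x).det := by
    intro x hx
    have h1 : χ =ᶠ[𝓝 x] fun _ => 1 :=
      (eventually_nhdsSet_iff_forall.1 hχC x hx)
    have h2 : χ x = 1 := h1.self_of_nhds
    have h3 : ∀ j, pd χ j x = 0 := by
      intro j
      unfold pd
      rw [h1.fderiv_eq]
      simp
    unfold X1_T
    simp only [h2, h3, zero_mul, zero_add, one_mul]
    rw [mul_comm (Df x).det]
  have hmeas2 : ∀ v, Measurable fun x => fderiv ℝ Ψ (x, f x) v := by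
    intro v
    have : Continuous fun z => fderiv ℝ Ψ z v :=
      (hΨ.continuous_fderiv (by simp)).clm_apply continuous_const
    exact this.measurable.comp (measurable_id.prodMk H.meas_f)
  -- integrability on `C`
  have hCb : ∃ b : ℝ, 0 ≤ b ∧ ∀ x ∈ C, ‖fderiv ℝ Ψ (x, f x)‖ ≤ b := by
    have h1 : ContinuousOn (fun x => fderiv ℝ Ψ (x, f x)) C :=
      (hΨ.continuous_fderiv (by simp)).comp_continuousOn
        (continuousOn_id.prodMk (H.cont.mono hCΩ))
    obtain ⟨b, hb⟩ := hC.exists_bound_of_continuousOn h1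
    exact ⟨|b|, abs_nonneg _, fun x hx => (hb x hx).trans (le_abs_self _)⟩
  obtain ⟨b, hb0, hb⟩ := hCb
  have hsn : IntegrableOn (fun x => 1 + sn (Df x) ^ n) C := by
    have h1 : IntegrableOn (fun _ : E n => (1 : ℝ)) C := by
      rw [integrableOn_const_iff]
      right
      exact hC.measure_lt_top
    exact h1.add (H.int C hC hCΩ)
  have hs : ∀ j : Fin n, ‖(Pi.single j 1 : E n)‖ ≤ 1 := by
    intro j
    rw [pi_norm_le_iff_of_nonneg zero_le_one]
    intro i
    by_cases h : i = j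
    · subst h; simp
    · simp [h]
  have hi2 : IntegrableOn (fun x => fderiv ℝ Ψ (x, f x) (0, Pi.single k 1) * (Df x).det) C := by
    refine Integrable.mono' (hsn.const_mul (b * n.factorial))
      ((hmeas2 _).mul (X1_meas_det H.meas_D)).aestronglyMeasurable ?_
    filter_upwards [ae_restrict_mem hC.measurableSet] with x hx
    rw [norm_mul]
    have h1 := X1_abs_det_le (Df x) (sn (Df x)) (X1_abs_le_sn (Df x))
    have h2 : ‖fderiv ℝ Ψ (x, f x) (0, Pi.single k 1)‖ ≤ b := by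
      calc ‖fderiv ℝ Ψ (x, f x) (0, Pi.single k 1)‖ ≤
            ‖fderiv ℝ Ψ (x, f x)‖ * ‖((0, Pi.single k 1) : E n × E n)‖ :=
            (fderiv ℝ Ψ (x, f x)).le_opNorm _
        _ ≤ b * 1 := by
            gcongr
            · exact hb x hx
            · rw [Prod.norm_def]
              simpa using hs k
        _ = b := mul_one _
    have h3 : 0 ≤ sn (Df x) := X1_sn_nonneg _
    calc ‖fderiv ℝ Ψ (x, f x) (0, Pi.single k 1)‖ * ‖(Df x).det‖ ≤
          b * (n.factorial * sn (Df x) ^ n) :=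
          mul_le_mul h2 h1 (norm_nonneg _) hb0
      _ ≤ b * n.factorial * (1 + sn (Df x) ^ n) := by
          rw [← mul_assoc]
          gcongr
          linarith
  have hi1 : IntegrableOn (fun x => ∑ j, (Df x).adjugate j k *
      fderiv ℝ Ψ (x, f x) (Pi.single j 1, 0)) C := by
    obtain ⟨c, hc, hadj⟩ := X1_sn_adj_le (n := n) (by omega)
    refine integrable_finsetSum _ fun j _ => ?_
    refine Integrable.mono' (hsn.const_mul (c * b))
      ((X1_meas_adj H.meas_D j k).mul (hmeas2 _)).aestronglyMeasurable ?_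
    filter_upwards [ae_restrict_mem hC.measurableSet] with x hx
    rw [norm_mul]
    have h2 : ‖fderiv ℝ Ψ (x, f x) (Pi.single j 1, 0)‖ ≤ b := by
      calc ‖fderiv ℝ Ψ (x, f x) (Pi.single j 1, 0)‖ ≤
            ‖fderiv ℝ Ψ (x, f x)‖ * ‖((Pi.single j 1, 0) : E n × E n)‖ :=
            (fderiv ℝ Ψ (x, f x)).le_opNorm _
        _ ≤ b * 1 := by
            gcongr
            · exact hb x hx
            · rw [Prod.norm_def]
              simpa using hs j
        _ = b := mul_one _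
    have h3 : ‖(Df x).adjugate j k‖ ≤ c * (1 + sn (Df x) ^ n) :=
      (X1_abs_le_sn _ j k).trans ((hadj (Df x)).trans
        (mul_le_mul_of_nonneg_left (X1_pow_le (X1_sn_nonneg _)) hc.le))
    have h4 : 0 ≤ sn (Df x) := X1_sn_nonneg _
    calc ‖(Df x).adjugate j k‖ * ‖fderiv ℝ Ψ (x, f x) (Pi.single j 1, 0)‖ ≤
          (c * (1 + sn (Df x) ^ n)) * b :=
          mul_le_mul h3 h2 (norm_nonneg _) (by positivity)
      _ = c * b * (1 + sn (Df x) ^ n) := by ring
  rw [hrest, setIntegral_congr_fun hC.measurableSet hval, integral_add hi1 hi2] at hzero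
  linarith


end H248.BH.X1

namespace H248.BH

export X1 (null_identity)

end H248.BH
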