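import Pool.Agent.H248.BH.Defs
import Pool.Agent.H248.BH.X1
import Pool.Agent.H248.BH.G0b

set_option autoImplicit false
open MeasureTheory Metric Set Filter Topology
open scoped ENNReal NNReal ContDiff

namespace H248.BH.G1


open H248.ID





/-! ### auxiliary lemmas -/

theorem aux_continuous_toY {n : ℕ} : Continuous (toY (n := n)) :=
  PiLp.continuous_toLp 2 _

theorem aux_continuous_en {n : ℕ} : Continuous (en (n := n)) :=
  aux_continuous_toY.norm

theorem aux_en_nonneg {n : ℕ} (x : E n) : 0 ≤ en x := norm_nonneg _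

theorem aux_en_smul {n : ℕ} (c : ℝ) (x : E n) : en (c • x) = |c| * en x := by
  unfold en toY
  rw [WithLp.toLp_smul, norm_smul, Real.norm_eq_abs]

theorem aux_ex_cont {n : ℕ} (x0 : E n) {r M β : ℝ} (hr : 0 < r) :
    Continuous (fun p : E n × E n => ex x0 r M β p.1 p.2) := by
  unfold ex
  have hrb : 0 < r ^ β := Real.rpow_pos_of_pos hr β
  have hen := aux_continuous_en (n := n)
  have h1 : Continuous fun p : E n × E n => max (en p.2 / (2 * M)) (r ^ β) :=
    ((hen.comp continuous_snd).div_const _).max continuous_const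
  have h2 : Continuous fun p : E n × E n => r ^ 2 + en (p.1 - x0) ^ 2 :=
    continuous_const.add ((hen.comp (continuous_fst.sub continuous_const)).pow 2)
  have h3 : Continuous fun p : E n × E n => Real.log (max (en p.2 / (2 * M)) (r ^ β)) :=
    h1.log fun p => (lt_of_lt_of_le hrb (le_max_right _ _)).ne'
  have h4 : Continuous fun p : E n × E n => Real.log (r ^ 2 + en (p.1 - x0) ^ 2) :=
    h2.log fun p => (add_pos_of_pos_of_nonneg (pow_pos hr 2) (sq_nonneg _)).ne'
  exact ((h3.div_const _).sub (h4.div_const _)).max continuous_const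

theorem aux_ex_nonneg {n : ℕ} (x0 : E n) (r M β : ℝ) (x y : E n) : 0 ≤ ex x0 r M β x y :=
  le_max_right _ _

theorem aux_ex_zero {n : ℕ} (x0 : E n) {r M β : ℝ} (hr : 0 < r) (hM : 0 < M) (hβ : 0 < β)
    {x y : E n} (h : en y ≤ 2 * M * r ^ β) : ex x0 r M β x y = 0 := by
  unfold ex
  apply max_eq_right
  have h1 : en y / (2 * M) ≤ r ^ β := by
    rw [div_le_iff₀ (by linarith)]
    linarith
  rw [max_eq_right h1, Real.log_rpow hr, mul_div_cancel_left₀ _ hβ.ne']
  have h2 : Real.log (r ^ 2) ≤ Real.log (r ^ 2 + en (x - x0) ^ 2) :=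
    Real.log_le_log (pow_pos hr 2) (by nlinarith [sq_nonneg (en (x - x0))])
  rw [Real.log_pow] at h2
  push_cast at h2
  linarith

/-- gradient of the logarithmic weight -/
noncomputable def gg {n : ℕ} (x0 : E n) (r : ℝ) (x : E n) : E n :=
  (-(r ^ 2 + en (x - x0) ^ 2)⁻¹) • (x - x0)

theorem aux_en_gg {n : ℕ} (x0 : E n) {r : ℝ} (hr : 0 < r) (x : E n) :
    en (gg x0 r x) = en (x - x0) / (r ^ 2 + en (x - x0) ^ 2) := by
  have h : 0 < r ^ 2 + en (x - x0) ^ 2 :=
    add_pos_of_pos_of_nonneg (pow_pos hr 2) (sq_nonneg _)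
  unfold gg
  rw [aux_en_smul, abs_neg, abs_of_pos (inv_pos.2 h), div_eq_inv_mul]

theorem aux_gg_cont {n : ℕ} (x0 : E n) {r : ℝ} (hr : 0 < r) : Continuous (gg (n := n) x0 r) := by
  unfold gg
  have hen := aux_continuous_en (n := n)
  have h2 : Continuous fun x : E n => r ^ 2 + en (x - x0) ^ 2 :=
    continuous_const.add ((hen.comp (continuous_id.sub continuous_const)).pow 2)
  have h3 : Continuous fun x : E n => (r ^ 2 + en (x - x0) ^ 2)⁻¹ :=
    h2.inv₀ fun x => (add_pos_of_pos_of_nonneg (pow_pos hr 2) (sq_nonneg _)).ne'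
  exact h3.neg.smul (continuous_id.sub continuous_const)

theorem aux_entry_le {n : ℕ} (M : Matrix (Fin n) (Fin n) ℝ) (i j : Fin n) : |M i j| ≤ sn M := by
  unfold sn
  refine (Finset.single_le_sum (f := fun j => |M i j|) (fun j _ => abs_nonneg _)
    (Finset.mem_univ j)).trans ?_
  exact Finset.single_le_sum (f := fun i => ∑ j, |M i j|)
    (fun i _ => Finset.sum_nonneg fun j _ => abs_nonneg _) (Finset.mem_univ i)

theorem aux_det_le {n : ℕ} (M : Matrix (Fin n) (Fin n) ℝ) :
    |M.det| ≤ n.factorial * sn M ^ n := by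
  have h := Matrix.det_le (A := M) (abv := AbsoluteValue.abs) (x := sn M)
    (fun i j => aux_entry_le M i j)
  rw [Fintype.card_fin, nsmul_eq_mul] at h
  exact h

theorem aux_meas_det {n : ℕ} {Df : E n → Matrix (Fin n) (Fin n) ℝ}
    (h : ∀ i j, Measurable fun x => Df x i j) : Measurable fun x => (Df x).det := by
  simp only [Matrix.det_apply]
  refine Finset.measurable_sum _ fun σ _ => ?_
  refine Measurable.const_smul (Finset.measurable_prod _ fun i _ => h _ _) _

theorem aux_meas_adj {n : ℕ} {Df : E n → Matrix (Fin n) (Fin n) ℝ}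
    (h : ∀ i j, Measurable fun x => Df x i j) (a b : Fin n) :
    Measurable fun x => (Df x).adjugate a b := by
  simp only [Matrix.adjugate_apply]
  refine aux_meas_det fun i j => ?_
  by_cases hi : i = b
  · subst hi
    simp only [Matrix.updateRow_self]
    exact measurable_const
  · simp only [Matrix.updateRow_ne hi]
    exact h i j

theorem aux_meas_av {n : ℕ} {Df : E n → Matrix (Fin n) (Fin n) ℝ}
    (h : ∀ i j, Measurable fun x => Df x i j) {g : E n → E n} (hg : Measurable g) :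
    Measurable fun x => (Df x).adjugate.transpose.mulVec (g x) := by
  refine measurable_pi_iff.2 fun i => ?_
  simp only [Matrix.mulVec, dotProduct, Matrix.transpose_apply]
  refine Finset.measurable_sum _ fun j _ => ?_
  exact (aux_meas_adj h j i).mul ((measurable_pi_apply j).comp hg)

theorem aux_rpow {n : ℕ} (hn : 2 ≤ n) {N d : ℝ} (hN : 0 ≤ N) (hd : 0 < d) :
    d ^ (((n : ℝ) - 1) / n) * (N ^ n / d ^ (n - 1)) ^ (1 / (n : ℝ)) = N := by
  have hn0 : n ≠ 0 := by omega
  have hn0' : (n : ℝ) ≠ 0 := by exact_mod_cast hn0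
  rw [Real.div_rpow (pow_nonneg hN _) (pow_nonneg hd.le _), one_div,
    Real.pow_rpow_inv_natCast hN hn0]
  have h1 : (d ^ (n - 1)) ^ ((n : ℝ)⁻¹) = d ^ (((n : ℝ) - 1) / n) := by
    rw [← Real.rpow_natCast, ← Real.rpow_mul hd.le]
    congr 1
    rw [Nat.cast_sub (by omega)]
    push_cast
    rw [div_eq_mul_inv]
  rw [h1, mul_div_cancel₀]
  exact (Real.rpow_pos_of_pos hd _).ne'

theorem aux_young {n : ℕ} (hn : 2 ≤ n) {J z : ℝ} (hJ : 0 ≤ J) (hz : 0 ≤ z) :
    J ^ (((n : ℝ) - 1) / n) * z ^ (1 / (n : ℝ)) ≤ J + z := by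
  have hn0' : (0 : ℝ) < n := by exact_mod_cast (by omega : 0 < n)
  have hn1 : (1 : ℝ) ≤ n := by exact_mod_cast (by omega : 1 ≤ n)
  have h1 : 0 ≤ ((n : ℝ) - 1) / n := div_nonneg (by linarith) hn0'.le
  have h2 : 0 ≤ 1 / (n : ℝ) := by positivity
  have h3 : ((n : ℝ) - 1) / n + 1 / n = 1 := by field_simp; ring
  have h4 := Real.geom_mean_le_arith_mean2_weighted h1 h2 hJ hz h3
  have h5 : ((n : ℝ) - 1) / n ≤ 1 := by linarith
  have h6 : 1 / (n : ℝ) ≤ 1 := by linarith
  have h7 : ((n : ℝ) - 1) / n * J ≤ 1 * J := mul_le_mul_of_nonneg_right h5 hJ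
  have h8 : 1 / (n : ℝ) * z ≤ 1 * z := mul_le_mul_of_nonneg_right h6 hz
  linarith

theorem aux_QR_mono {n : ℕ} {Ω : Set (E n)} {f : E n → E n}
    {Df : E n → Matrix (Fin n) (Fin n) ℝ} {K : ℝ} (H : QR Ω f Df K) {U : Set (E n)}
    (hU : IsOpen U) (hUΩ : U ⊆ Ω) : QR U f Df K where
  isOpen := hU
  meas_f := H.meas_f
  cont := H.cont.mono hUΩ
  meas_D := H.meas_D
  weak := fun φ h1 h2 h3 => H.weak φ h1 h2 (h3.trans hUΩ)
  int := fun C hC hCU => H.int C hC (hCU.trans hUΩ)
  pos := ae_restrict_of_ae_restrict_of_subset hUΩ H.pos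
  dist := ae_restrict_of_ae_restrict_of_subset hUΩ H.dist

/-- `toY` as a continuous linear map -/
noncomputable def aux_T (n : ℕ) : E n →L[ℝ] Y n :=
  (EuclideanSpace.equiv (Fin n) ℝ).symm.toContinuousLinearMap

theorem aux_T_apply {n : ℕ} (x : E n) : aux_T n x = toY x := rfl

/-- the derivative of the test function -/
theorem aux_fderiv {n : ℕ} (hn : 2 ≤ n) (x0 : E n) {r M β : ℝ} (hr : 0 < r) (hM : 0 < M)
    (hβ : 0 < β) {ψ : Y n → ℝ} (hψ : ContDiff ℝ ∞ ψ) :
    ContDiff ℝ 1 (fun p : E n × E n => ψ (toY p.2) * ex x0 r M β p.1 p.2 ^ n) ∧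
    ∀ x y h k : E n, fderiv ℝ (fun p : E n × E n => ψ (toY p.2) * ex x0 r M β p.1 p.2 ^ n)
      (x, y) (h, k) = ψ (toY y) * (n * ex x0 r M β x y ^ (n - 1) *
        ((∑ i, y i * k i) / (β * en y ^ 2) -
        (∑ i, (x - x0) i * h i) / (r ^ 2 + en (x - x0) ^ 2))) +
        ex x0 r M β x y ^ n * fderiv ℝ ψ (toY y) (toY k) := by
  obtain ⟨hs, hd⟩ := ex_smooth hn x0 hr hM hβ
  let S : E n × E n →L[ℝ] Y n := (aux_T n).comp (ContinuousLinearMap.snd ℝ (E n) (E n))
  have hS : ContDiff ℝ 1 (fun p : E n × E n => ψ (toY p.2)) := by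
    have h1 : ContDiff ℝ 1 (fun p : E n × E n => ψ (S p)) :=
      (hψ.of_le (by exact_mod_cast le_top)).comp S.contDiff
    exact h1
  refine ⟨hS.mul hs, fun x y h k => ?_⟩
  have h1 : HasFDerivAt (fun p : E n × E n => ψ (toY p.2)) ((fderiv ℝ ψ (toY y)).comp S) (x, y) := by
    have h2 : HasFDerivAt ψ (fderiv ℝ ψ (S (x, y))) (S (x, y)) :=
      ((hψ.differentiable (by simp)) _).hasFDerivAt
    exact h2.comp (x, y) S.hasFDerivAt
  have h2 : HasFDerivAt (fun p : E n × E n => ex x0 r M β p.1 p.2 ^ n)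
      (fderiv ℝ (fun p : E n × E n => ex x0 r M β p.1 p.2 ^ n) (x, y)) (x, y) :=
    ((hs.differentiable (by simp)) _).hasFDerivAt
  have h3 : HasFDerivAt (fun p : E n × E n => ψ (toY p.2) * ex x0 r M β p.1 p.2 ^ n)
      (ψ (toY y) • fderiv ℝ (fun p : E n × E n => ex x0 r M β p.1 p.2 ^ n) (x, y) +
        ex x0 r M β x y ^ n • (fderiv ℝ ψ (toY y)).comp S) (x, y) := h1.mul h2
  rw [h3.fderiv]
  change ψ (toY y) * fderiv ℝ (fun p : E n × E n => ex x0 r M β p.1 p.2 ^ n) (x, y) (h, k) +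
    ex x0 r M β x y ^ n * fderiv ℝ ψ (toY y) (S (h, k)) = _
  rw [hd]
  rfl

/-- the identity for one coordinate direction -/
theorem aux_ident {n : ℕ} (hn : 2 ≤ n) {Ω : Set (E n)} {f : E n → E n}
    {Df : E n → Matrix (Fin n) (Fin n) ℝ} {K : ℝ} (H : QR Ω f Df K) {x0 : E n}
    {r M β : ℝ}
    (hr : 0 < r) (hM : 0 < M) (hβ : 0 < β) {C : Set (E n)} (hC : IsCompact C)
    {U : Set (E n)} (hU : IsOpen U) (hUΩ : U ⊆ Ω) (hCU : C ⊆ U)
    (hz : ∀ x ∈ U, x ∉ C → ex x0 r M β x (f x) = 0) {ψ : Y n → ℝ} (hψ : ContDiff ℝ ∞ ψ)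
    (k : Fin n) :
    ∫ x in C, (ψ (toY (f x)) * (n * ex x0 r M β x (f x) ^ (n - 1) *
        (f x k / (β * en (f x) ^ 2))) +
        ex x0 r M β x (f x) ^ n * fderiv ℝ ψ (toY (f x)) (toY (Pi.single k 1))) * (Df x).det =
      - ∫ x in C, ψ (toY (f x)) * (n * ex x0 r M β x (f x) ^ (n - 1) *
        ((Df x).adjugate.transpose.mulVec (gg x0 r x)) k) := by
  obtain ⟨hs, hd⟩ := aux_fderiv hn x0 hr hM hβ hψ
  have h1 := null_identity hn (aux_QR_mono H hU hUΩ) hC hCU hs (by
    rintro x ⟨hxU, hxC⟩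
    have h2 := hz x hxU hxC
    have hn0 : n ≠ 0 := by omega
    have hn1 : n - 1 ≠ 0 := by omega
    constructor
    · change ψ (toY (f x)) * ex x0 r M β x (f x) ^ n = 0
      rw [h2, zero_pow hn0, mul_zero]
    · refine ContinuousLinearMap.ext fun v => ?_
      obtain ⟨v1, v2⟩ := v
      rw [hd, h2, zero_pow hn0, zero_pow hn1]
      simp) k
  have e1 : ∀ x, fderiv ℝ (fun p : E n × E n => ψ (toY p.2) * ex x0 r M β p.1 p.2 ^ n)
      (x, f x) (0, Pi.single k 1) = ψ (toY (f x)) * (n * ex x0 r M β x (f x) ^ (n - 1) *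
        (f x k / (β * en (f x) ^ 2))) +
        ex x0 r M β x (f x) ^ n * fderiv ℝ ψ (toY (f x)) (toY (Pi.single k 1)) := by
    intro x
    rw [hd]
    have h2 : ∑ i, f x i * (Pi.single k 1 : E n) i = f x k := by
      simp [Pi.single_apply]
    have h3 : ∑ i, (x - x0) i * (0 : E n) i = 0 := by simp
    rw [h2, h3, zero_div, sub_zero]
  have e2 : ∀ x, ∑ j, (Df x).adjugate j k *
      fderiv ℝ (fun p : E n × E n => ψ (toY p.2) * ex x0 r M β p.1 p.2 ^ n)
      (x, f x) (Pi.single j 1, 0) = ψ (toY (f x)) * (n * ex x0 r M β x (f x) ^ (n - 1) *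
        ((Df x).adjugate.transpose.mulVec (gg x0 r x)) k) := by
    intro x
    have h4 : ((Df x).adjugate.transpose.mulVec (gg x0 r x)) k =
        ∑ j, (Df x).adjugate j k * gg x0 r x j := rfl
    rw [h4, Finset.mul_sum, Finset.mul_sum]
    refine Finset.sum_congr rfl fun j _ => ?_
    rw [hd]
    have h2 : ∑ i, (x - x0) i * (Pi.single j 1 : E n) i = (x - x0) j := by
      simp [Pi.single_apply]
    have h3 : ∑ i, f x i * (0 : E n) i = 0 := by simp
    have h5 : toY (0 : E n) = 0 := rfl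
    have h6 : gg x0 r x j = -(r ^ 2 + en (x - x0) ^ 2)⁻¹ * (x - x0) j := rfl
    rw [h2, h3, h5, map_zero, zero_div, h6]
    ring
  simp only [e1, e2] at h1
  exact h1

/-- the good points -/
def Gd {n : ℕ} (C : Set (E n)) (f : E n → E n) (Df : E n → Matrix (Fin n) (Fin n) ℝ) (K : ℝ)
    (x0 : E n) (r M β : ℝ) (x : E n) : Prop :=
  x ∈ C ∧ ex x0 r M β x (f x) ≠ 0 ∧ 0 < (Df x).det ∧
    en ((Df x).adjugate.transpose.mulVec (gg x0 r x)) ^ n ≤
      K * (Df x).det ^ (n - 1) * en (gg x0 r x) ^ n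

open Classical in
/-- the excess -/
noncomputable def eF {n : ℕ} (C : Set (E n)) (f : E n → E n)
    (x0 : E n) (r M β : ℝ) (x : E n) : ℝ := if x ∈ C then ex x0 r M β x (f x) else 0

open Classical in
/-- the Jacobian -/
noncomputable def JF {n : ℕ} (C : Set (E n)) (Df : E n → Matrix (Fin n) (Fin n) ℝ) (x : E n) : ℝ :=
  if x ∈ C ∧ 0 ≤ (Df x).det then (Df x).det else 0

open Classical in
/-- the field -/
noncomputable def wF {n : ℕ} (C : Set (E n)) (f : E n → E n)
    (Df : E n → Matrix (Fin n) (Fin n) ℝ) (K : ℝ) (x0 : E n) (r M β : ℝ) (x : E n) : Y n :=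
  if Gd C f Df K x0 r M β x then toY ((Df x).adjugate.transpose.mulVec (gg x0 r x)) else 0

open Classical in
/-- the density -/
noncomputable def zF {n : ℕ} (C : Set (E n)) (f : E n → E n)
    (Df : E n → Matrix (Fin n) (Fin n) ℝ) (K : ℝ) (x0 : E n) (r M β : ℝ) (x : E n) : ℝ :=
  if Gd C f Df K x0 r M β x then
    en ((Df x).adjugate.transpose.mulVec (gg x0 r x)) ^ n / (Df x).det ^ (n - 1) else 0

section data

variable {n : ℕ} (hn : 2 ≤ n) {Ω : Set (E n)} {f : E n → E n}
    {Df : E n → Matrix (Fin n) (Fin n) ℝ} {K : ℝ} (hK : 0 ≤ K) (H : QR Ω f Df K) {x0 : E n}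
    {r M β : ℝ}
    (hr : 0 < r) (hM : 0 < M) (hβ : 0 < β) {C : Set (E n)} (hC : IsCompact C) (hCΩ : C ⊆ Ω)

theorem eF_mem {x : E n} (hx : x ∈ C) : eF C f x0 r M β x = ex x0 r M β x (f x) := if_pos hx

theorem eF_nonneg (x : E n) : 0 ≤ eF C f x0 r M β x := by
  unfold eF
  split_ifs
  · exact aux_ex_nonneg _ _ _ _ _ _
  · exact le_rfl

theorem eF_ne {x : E n} (hx : eF C f x0 r M β x ≠ 0) : x ∈ C ∧ ex x0 r M β x (f x) ≠ 0 := by
  unfold eF at hx
  split_ifs at hx with h
  · exact ⟨h, hx⟩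
  · exact absurd rfl hx

theorem JF_nonneg (x : E n) : 0 ≤ JF C Df x := by
  unfold JF
  split_ifs with h
  · exact h.2
  · exact le_rfl

theorem zF_nonneg (x : E n) : 0 ≤ zF C f Df K x0 r M β x := by
  unfold zF
  split_ifs with h
  · exact div_nonneg (pow_nonneg (aux_en_nonneg _) _) (pow_nonneg h.2.2.1.le _)
  · exact le_rfl

include hn in
theorem wF_le (x : E n) : ‖wF C f Df K x0 r M β x‖ ≤
    JF C Df x ^ (((n : ℝ) - 1) / n) * zF C f Df K x0 r M β x ^ (1 / (n : ℝ)) := by
  by_cases h : Gd C f Df K x0 r M β x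
  · have h1 : wF C f Df K x0 r M β x = toY ((Df x).adjugate.transpose.mulVec (gg x0 r x)) :=
      if_pos h
    have h2 : zF C f Df K x0 r M β x =
      en ((Df x).adjugate.transpose.mulVec (gg x0 r x)) ^ n / (Df x).det ^ (n - 1) := if_pos h
    have h3 : JF C Df x = (Df x).det := if_pos ⟨h.1, h.2.2.1.le⟩
    rw [h1, h2, h3, aux_rpow hn (aux_en_nonneg _) h.2.2.1]
    exact le_rfl
  · have h1 : wF C f Df K x0 r M β x = 0 := if_neg h
    rw [h1, norm_zero]
    exact mul_nonneg (Real.rpow_nonneg (JF_nonneg x) _) (Real.rpow_nonneg (zF_nonneg x) _)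

theorem zF_zero (x : E n) (h : eF C f x0 r M β x = 0 ∨ JF C Df x = 0) :
    zF C f Df K x0 r M β x = 0 := by
  refine if_neg ?_
  intro hG
  rcases h with h | h
  · rw [eF_mem hG.1] at h
    exact hG.2.1 h
  · have h3 : JF C Df x = (Df x).det := if_pos ⟨hG.1, hG.2.2.1.le⟩
    rw [h3] at h
    exact hG.2.2.1.ne' h

include hK hr in
theorem zF_le (x : E n) : zF C f Df K x0 r M β x ≤
    K * (en (x - x0) / (r ^ 2 + en (x - x0) ^ 2)) ^ n := by
  have h0 : 0 ≤ K * (en (x - x0) / (r ^ 2 + en (x - x0) ^ 2)) ^ n := by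
    have := aux_en_nonneg (x - x0)
    positivity
  unfold zF
  split_ifs with h
  · rw [div_le_iff₀ (pow_pos h.2.2.1 _)]
    have h1 := h.2.2.2
    rw [aux_en_gg x0 hr] at h1
    linarith
  · exact h0

include hr in
theorem aux_ratio (x : E n) : en (x - x0) / (r ^ 2 + en (x - x0) ^ 2) ≤ 1 / (2 * r) := by
  have h1 := aux_en_nonneg (x - x0)
  have h2 : 0 < r ^ 2 + en (x - x0) ^ 2 :=
    add_pos_of_pos_of_nonneg (pow_pos hr 2) (sq_nonneg _)
  rw [div_le_div_iff₀ h2 (by linarith)]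
  nlinarith [sq_nonneg (r - en (x - x0))]

include hK hr in
theorem zF_bdd (x : E n) : zF C f Df K x0 r M β x ≤ K * (1 / (2 * r)) ^ n := by
  refine (zF_le hK hr x).trans ?_
  refine mul_le_mul_of_nonneg_left ?_ hK
  refine pow_le_pow_left₀ ?_ (aux_ratio hr x) n
  have h1 := aux_en_nonneg (x - x0)
  positivity


theorem aux_meas_comp (g : E n × E n → ℝ) (h1 : Measurable g)
    (h2 : Measurable (fun x : E n => (x, f x))) : Measurable fun x => g (x, f x) := h1.comp h2

theorem meas_ex (hr : 0 < r) (hf : Measurable f) : Measurable fun x => ex x0 r M β x (f x) :=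
  aux_meas_comp (fun p : E n × E n => ex x0 r M β p.1 p.2) (aux_ex_cont x0 hr).measurable
    (measurable_id.prodMk hf)

theorem aux_cont_comp (g : E n × E n → ℝ) (h1 : Continuous g)
    (h2 : ContinuousOn (fun x : E n => (x, f x)) C) : ContinuousOn (fun x => g (x, f x)) C :=
  h1.comp_continuousOn h2

theorem cont_ex (hr : 0 < r) (hf : ContinuousOn f C) :
    ContinuousOn (fun x => ex x0 r M β x (f x)) C :=
  aux_cont_comp (fun p : E n × E n => ex x0 r M β p.1 p.2) (aux_ex_cont x0 hr)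
    (continuousOn_id.prodMk hf)

include H hr hC in
theorem meas_eF : Measurable (eF C f x0 r M β) :=
  Measurable.ite hC.isClosed.measurableSet (meas_ex hr H.meas_f) measurable_const

include H hC in
theorem meas_JF : Measurable (JF C Df) := by
  have h1 := aux_meas_det H.meas_D
  refine Measurable.ite (hC.isClosed.measurableSet.inter (measurableSet_le measurable_const h1))
    h1 measurable_const

include H hr hC in
theorem meas_Gd : MeasurableSet {x | Gd C f Df K x0 r M β x} := by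
  have h1 := aux_meas_det H.meas_D
  have h2 := aux_meas_av H.meas_D (aux_gg_cont x0 hr).measurable
  have h3 : Measurable fun x => en ((Df x).adjugate.transpose.mulVec (gg x0 r x)) ^ n :=
    (aux_continuous_en.measurable.comp h2).pow_const n
  have h4 : Measurable fun x => K * (Df x).det ^ (n - 1) * en (gg x0 r x) ^ n :=
    ((h1.pow_const _).const_mul K).mul
      ((aux_continuous_en.measurable.comp (aux_gg_cont x0 hr).measurable).pow_const n)
  have h5 : MeasurableSet {x | ex x0 r M β x (f x) ≠ 0} :=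
    (meas_ex hr H.meas_f) (MeasurableSet.singleton (0 : ℝ)).compl
  have h6 : MeasurableSet {x | 0 < (Df x).det} := measurableSet_lt measurable_const h1
  exact hC.isClosed.measurableSet.inter (h5.inter (h6.inter (measurableSet_le h3 h4)))

include H hr hC in
theorem meas_wF : Measurable (wF C f Df K x0 r M β) :=
  Measurable.ite (meas_Gd H hr hC)
    (aux_continuous_toY.measurable.comp (aux_meas_av H.meas_D (aux_gg_cont x0 hr).measurable))
    measurable_const

include H hr hC in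
theorem meas_zF : Measurable (zF C f Df K x0 r M β) := by
  have h1 := aux_meas_det H.meas_D
  have h2 := aux_meas_av H.meas_D (aux_gg_cont x0 hr).measurable
  have h3 : Measurable fun x => en ((Df x).adjugate.transpose.mulVec (gg x0 r x)) ^ n :=
    (aux_continuous_en.measurable.comp h2).pow_const n
  exact Measurable.ite (meas_Gd H hr hC) (h3.div (h1.pow_const _)) measurable_const

include H hr hC hCΩ in
theorem eF_bdd : ∃ B, ∀ x, eF C f x0 r M β x ≤ B := by
  have h1 : ContinuousOn (fun x => ex x0 r M β x (f x)) C := cont_ex hr (H.cont.mono hCΩ)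
  obtain ⟨B, hB⟩ := hC.exists_bound_of_continuousOn h1
  refine ⟨|B|, fun x => ?_⟩
  by_cases hx : x ∈ C
  · rw [eF_mem hx]
    exact (le_abs_self _).trans ((hB x hx).trans (le_abs_self _))
  · rw [eF, if_neg hx]
    exact abs_nonneg _

include H hC hCΩ in
theorem f_bdd : ∃ B, ∀ x ∈ C, en (f x) ≤ B := by
  have h1 : ContinuousOn (fun x => en (f x)) C :=
    aux_continuous_en.comp_continuousOn (H.cont.mono hCΩ)
  obtain ⟨B, hB⟩ := hC.exists_bound_of_continuousOn h1
  exact ⟨B, fun x hx => (le_abs_self _).trans (hB x hx)⟩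

include H hC hCΩ in
theorem JF_int : Integrable (JF C Df) (volume.restrict C) := by
  have h1 : Integrable (fun x => (n.factorial : ℝ) * sn (Df x) ^ n) (volume.restrict C) :=
    (H.int C hC hCΩ).const_mul _
  refine h1.mono' (meas_JF H hC).aestronglyMeasurable (Eventually.of_forall fun x => ?_)
  rw [Real.norm_eq_abs]
  unfold JF
  split_ifs
  · exact aux_det_le (Df x)
  · rw [abs_zero]
    exact (abs_nonneg _).trans (aux_det_le (Df x))

include hK H hr hC in
theorem zF_int : Integrable (zF C f Df K x0 r M β) (volume.restrict C) := by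
  have hfin : IsFiniteMeasure ((volume : Measure (E n)).restrict C) :=
    ⟨by rw [Measure.restrict_apply_univ]; exact hC.measure_lt_top⟩
  refine (integrable_const (K * (1 / (2 * r)) ^ n)).mono' (meas_zF H hr hC).aestronglyMeasurable
    (Eventually.of_forall fun x => ?_)
  rw [Real.norm_eq_abs, abs_of_nonneg (zF_nonneg x)]
  exact zF_bdd hK hr x

include H hC hCΩ in
theorem JF_ae : ∀ᵐ x ∂(volume.restrict C), JF C Df x = (Df x).det := by
  have h1 := ae_restrict_of_ae_restrict_of_subset hCΩ H.pos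
  filter_upwards [h1, ae_restrict_mem hC.isClosed.measurableSet] with x hx hxC
  exact if_pos ⟨hxC, hx.1⟩

include hn H hC hCΩ in
theorem wF_ae : ∀ᵐ x ∂(volume.restrict C), ∀ k : Fin n,
    ex x0 r M β x (f x) ^ (n - 1) * ((Df x).adjugate.transpose.mulVec (gg x0 r x)) k =
      eF C f x0 r M β x ^ (n - 1) * (wF C f Df K x0 r M β x) k := by
  have h1 := ae_restrict_of_ae_restrict_of_subset hCΩ H.pos
  have h2 := ae_restrict_of_ae_restrict_of_subset hCΩ H.dist
  filter_upwards [h1, h2, ae_restrict_mem hC.isClosed.measurableSet] with x hx hx2 hxC k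
  rw [eF_mem hxC]
  by_cases h0 : ex x0 r M β x (f x) = 0
  · rw [h0, zero_pow (by omega), zero_mul, zero_mul]
  · congr 1
    rcases hx.1.lt_or_eq with h3 | h3
    · have h4 : wF C f Df K x0 r M β x =
        toY ((Df x).adjugate.transpose.mulVec (gg x0 r x)) := if_pos ⟨hxC, h0, h3, hx2 _⟩
      rw [h4]
      rfl
    · have h4 : wF C f Df K x0 r M β x = 0 := if_neg fun hG => hG.2.2.1.ne h3
      have h5 := hx.2 h3.symm
      have hnt : Nontrivial (Fin n) := Fin.nontrivial_iff_two_le.2 hn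
      rw [h4, h5, Matrix.adjugate_zero]
      simp

end data

section identity

variable {n : ℕ} {f : E n → E n} {e J z : E n → ℝ} {w : E n → Y n} {β : ℝ} {C : Set (E n)}

/-- the term with the derivative -/
noncomputable def tA (f : E n → E n) (e J : E n → ℝ) (ψ : Y n → ℝ) (h : Y n) (x : E n) : ℝ :=
  fderiv ℝ ψ (toY (f x)) h * (e x ^ n * J x)

/-- the radial term -/
noncomputable def tB (f : E n → E n) (e J : E n → ℝ) (β : ℝ) (ψ : Y n → ℝ) (h : Y n)
    (x : E n) : ℝ :=
  ψ (toY (f x)) * (e x ^ (n - 1) * (inner ℝ (toY (f x)) h / (β * ‖toY (f x)‖ ^ 2) * J x))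

/-- the field term -/
noncomputable def tD (f : E n → E n) (e : E n → ℝ) (w : E n → Y n) (ψ : Y n → ℝ) (h : Y n)
    (x : E n) : ℝ :=
  ψ (toY (f x)) * (e x ^ (n - 1) * inner ℝ (w x) h)

theorem tA_int (mf : Measurable f) (me : Measurable e) (mJ : Measurable J)
    (e0 : ∀ x, 0 ≤ e x) (J0 : ∀ x, 0 ≤ J x) {Be : ℝ} (hBe : ∀ x, e x ≤ Be)
    (hJ : Integrable J (volume.restrict C)) {ψ : Y n → ℝ} (hψ : ContDiff ℝ ∞ ψ)
    (hc : HasCompactSupport ψ) (h : Y n) : Integrable (tA f e J ψ h) (volume.restrict C) := by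
  have hcont : Continuous fun y => fderiv ℝ ψ y h :=
    (hψ.continuous_fderiv (by simp)).clm_apply continuous_const
  have hcs : HasCompactSupport fun y => fderiv ℝ ψ y h := by
    have h1 := hc.fderiv (𝕜 := ℝ)
    refine h1.comp_left (g := fun L : Y n →L[ℝ] ℝ => L h) ?_
    simp
  obtain ⟨B, hB⟩ := hcs.exists_bound_of_continuous hcont
  have hB0 : 0 ≤ B := (norm_nonneg _).trans (hB 0)
  refine (hJ.const_mul (B * Be ^ n)).mono' ?_ (Eventually.of_forall fun x => ?_)
  · have m1 : Measurable fun x => fderiv ℝ ψ (toY (f x)) h :=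
      hcont.measurable.comp (aux_continuous_toY.measurable.comp mf)
    exact (m1.mul ((me.pow_const n).mul mJ)).aestronglyMeasurable
  · unfold tA
    rw [norm_mul, norm_mul, norm_pow, Real.norm_of_nonneg (e0 x), Real.norm_of_nonneg (J0 x)]
    have h1 := hB (toY (f x))
    have h2 : e x ^ n ≤ Be ^ n := pow_le_pow_left₀ (e0 x) (hBe x) n
    calc ‖fderiv ℝ ψ (toY (f x)) h‖ * (e x ^ n * J x) ≤ B * (Be ^ n * J x) := by
          refine mul_le_mul h1 (mul_le_mul_of_nonneg_right h2 (J0 x)) ?_ hB0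
          exact mul_nonneg (pow_nonneg (e0 x) _) (J0 x)
      _ = B * Be ^ n * J x := by ring

theorem tB_int (hn : 2 ≤ n) (mf : Measurable f) (me : Measurable e) (mJ : Measurable J)
    (e0 : ∀ x, 0 ≤ e x) (J0 : ∀ x, 0 ≤ J x) {Be : ℝ} (hBe : ∀ x, e x ≤ Be)
    (hJ : Integrable J (volume.restrict C)) (hβ : 0 < β) {a : ℝ} (ha : 0 < a)
    (hfa : ∀ x, e x ≠ 0 → a ≤ ‖toY (f x)‖) {ψ : Y n → ℝ} (hψ : ContDiff ℝ ∞ ψ)
    (hc : HasCompactSupport ψ) (h : Y n) : Integrable (tB f e J β ψ h) (volume.restrict C) := by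
  obtain ⟨B, hB⟩ := hc.exists_bound_of_continuous hψ.continuous
  have hB0 : 0 ≤ B := (norm_nonneg _).trans (hB 0)
  have hBe0 : 0 ≤ Be := (e0 0).trans (hBe 0)
  refine (hJ.const_mul (B * (Be ^ (n - 1) * (‖h‖ / (β * a))))).mono' ?_
    (Eventually.of_forall fun x => ?_)
  · have mF : Measurable fun x => toY (f x) := aux_continuous_toY.measurable.comp mf
    have m1 : Measurable fun x => ψ (toY (f x)) := hψ.continuous.measurable.comp mF
    have m2 : Measurable fun x => inner ℝ (toY (f x)) h := by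
      have hc2 : Continuous fun y : Y n => inner ℝ y h := by fun_prop
      exact hc2.measurable.comp mF
    have m3 : Measurable fun x => β * ‖toY (f x)‖ ^ 2 := (mF.norm.pow_const 2).const_mul β
    exact (m1.mul ((me.pow_const _).mul ((m2.div m3).mul mJ))).aestronglyMeasurable
  · unfold tB
    by_cases hx : e x = 0
    · rw [hx, zero_pow (by omega), zero_mul, mul_zero, norm_zero]
      have := J0 x
      positivity
    · have hfx := hfa x hx
      have hf0 : 0 < ‖toY (f x)‖ := ha.trans_le hfx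
      rw [norm_mul, norm_mul, norm_mul, norm_pow, Real.norm_of_nonneg (e0 x),
        Real.norm_of_nonneg (J0 x)]
      have h1 := hB (toY (f x))
      have h2 : e x ^ (n - 1) ≤ Be ^ (n - 1) := pow_le_pow_left₀ (e0 x) (hBe x) _
      have h3 : ‖inner ℝ (toY (f x)) h / (β * ‖toY (f x)‖ ^ 2)‖ ≤ ‖h‖ / (β * a) := by
        rw [norm_div, Real.norm_of_nonneg (by positivity : 0 ≤ β * ‖toY (f x)‖ ^ 2),
          div_le_div_iff₀ (by positivity) (by positivity)]
        have h4 : ‖inner ℝ (toY (f x)) h‖ ≤ ‖toY (f x)‖ * ‖h‖ := norm_inner_le_norm _ _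
        calc ‖inner ℝ (toY (f x)) h‖ * (β * a) ≤ (‖toY (f x)‖ * ‖h‖) * (β * ‖toY (f x)‖) := by
              refine mul_le_mul h4 (mul_le_mul_of_nonneg_left hfx hβ.le) (by positivity)
                (by positivity)
          _ = ‖h‖ * (β * ‖toY (f x)‖ ^ 2) := by ring
      calc ‖ψ (toY (f x))‖ * (e x ^ (n - 1) *
            (‖inner ℝ (toY (f x)) h / (β * ‖toY (f x)‖ ^ 2)‖ * J x)) ≤
            B * (Be ^ (n - 1) * (‖h‖ / (β * a) * J x)) := by
            refine mul_le_mul h1 (mul_le_mul h2 (mul_le_mul_of_nonneg_right h3 (J0 x)) ?_ ?_) ?_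
              hB0
            · exact mul_nonneg (norm_nonneg _) (J0 x)
            · positivity
            · exact mul_nonneg (pow_nonneg (e0 x) _) (mul_nonneg (norm_nonneg _) (J0 x))
        _ = B * (Be ^ (n - 1) * (‖h‖ / (β * a))) * J x := by ring

theorem tD_int (mf : Measurable f) (me : Measurable e) (mw : Measurable w)
    (e0 : ∀ x, 0 ≤ e x) {Be : ℝ} (hBe : ∀ x, e x ≤ Be)
    (hJ : Integrable J (volume.restrict C)) (hz : Integrable z (volume.restrict C))
    (hw : ∀ x, ‖w x‖ ≤ J x + z x) {ψ : Y n → ℝ} (hψ : ContDiff ℝ ∞ ψ)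
    (hc : HasCompactSupport ψ) (h : Y n) : Integrable (tD f e w ψ h) (volume.restrict C) := by
  obtain ⟨B, hB⟩ := hc.exists_bound_of_continuous hψ.continuous
  have hB0 : 0 ≤ B := (norm_nonneg _).trans (hB 0)
  have hBe0 : 0 ≤ Be := (e0 0).trans (hBe 0)
  refine ((hJ.add hz).const_mul (B * (Be ^ (n - 1) * ‖h‖))).mono' ?_
    (Eventually.of_forall fun x => ?_)
  · have mF : Measurable fun x => toY (f x) := aux_continuous_toY.measurable.comp mf
    have m1 : Measurable fun x => ψ (toY (f x)) := hψ.continuous.measurable.comp mF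
    have m2 : Measurable fun x => inner ℝ (w x) h := by
      have hc2 : Continuous fun y : Y n => inner ℝ y h := by fun_prop
      exact hc2.measurable.comp mw
    exact (m1.mul ((me.pow_const _).mul m2)).aestronglyMeasurable
  · unfold tD
    rw [norm_mul, norm_mul, norm_pow, Real.norm_of_nonneg (e0 x)]
    have h1 := hB (toY (f x))
    have h2 : e x ^ (n - 1) ≤ Be ^ (n - 1) := pow_le_pow_left₀ (e0 x) (hBe x) _
    have h4 : ‖inner ℝ (w x) h‖ ≤ (J x + z x) * ‖h‖ :=
      (norm_inner_le_norm _ _).trans (mul_le_mul_of_nonneg_right (hw x) (norm_nonneg _))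
    calc ‖ψ (toY (f x))‖ * (e x ^ (n - 1) * ‖inner ℝ (w x) h‖) ≤
          B * (Be ^ (n - 1) * ((J x + z x) * ‖h‖)) := by
          refine mul_le_mul h1 (mul_le_mul h2 h4 (norm_nonneg _) (pow_nonneg hBe0 _)) ?_ hB0
          exact mul_nonneg (pow_nonneg (e0 x) _) (norm_nonneg _)
      _ = B * (Be ^ (n - 1) * ‖h‖) * (J + z) x := by
          rw [Pi.add_apply]; ring

theorem aux_decomp (h : Y n) : h = ∑ k, h k • toY (Pi.single k (1 : ℝ) : E n) := by
  refine PiLp.ext fun i => ?_
  have h1 : (∑ k, h k • toY (Pi.single k (1 : ℝ) : E n)) i =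
      ∑ k, h k * (Pi.single k (1 : ℝ) : E n) i := by
    rw [WithLp.ofLp_sum, Finset.sum_apply]
    rfl
  rw [h1]
  simp [Pi.single_apply]

/-- the identity for all directions -/
theorem aux_all
    (hA : ∀ h, ∀ ψ : Y n → ℝ, ContDiff ℝ ∞ ψ → HasCompactSupport ψ →
      Integrable (tA f e J ψ h) (volume.restrict C))
    (hB : ∀ h, ∀ ψ : Y n → ℝ, ContDiff ℝ ∞ ψ → HasCompactSupport ψ →
      Integrable (tB f e J β ψ h) (volume.restrict C))
    (hD : ∀ h, ∀ ψ : Y n → ℝ, ContDiff ℝ ∞ ψ → HasCompactSupport ψ →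
      Integrable (tD f e w ψ h) (volume.restrict C))
    (hid : ∀ ψ : Y n → ℝ, ContDiff ℝ ∞ ψ → HasCompactSupport ψ → ∀ k : Fin n,
      ∫ x in C, (n * tB f e J β ψ (toY (Pi.single k 1)) x + tA f e J ψ (toY (Pi.single k 1)) x) =
        - ∫ x in C, n * tD f e w ψ (toY (Pi.single k 1)) x)
    (ψ : Y n → ℝ) (hψ : ContDiff ℝ ∞ ψ) (hc : HasCompactSupport ψ) (h : Y n) :
    ∫ x in C, fderiv ℝ ψ (toY (f x)) h * (e x ^ n * J x) =
      - (n * ∫ x in C, ψ (toY (f x)) * (e x ^ (n - 1) *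
        (inner ℝ (w x) h + inner ℝ (toY (f x)) h / (β * ‖toY (f x)‖ ^ 2) * J x))) := by
  obtain ⟨u, hu⟩ : ∃ u : Fin n → Y n, u = fun k => toY (Pi.single k (1 : ℝ) : E n) := ⟨_, rfl⟩
  have hdec : h = ∑ k, h k • u k := by rw [hu]; exact aux_decomp h
  have sA : ∀ x, tA f e J ψ h x = ∑ k, h k * tA f e J ψ (u k) x := by
    intro x
    unfold tA
    conv_lhs => rw [hdec, map_sum, Finset.sum_mul]
    refine Finset.sum_congr rfl fun k _ => ?_
    rw [map_smul, smul_eq_mul, mul_assoc]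
  have sB : ∀ x, tB f e J β ψ h x = ∑ k, h k * tB f e J β ψ (u k) x := by
    intro x
    unfold tB
    conv_lhs => rw [hdec, inner_sum, Finset.sum_div, Finset.sum_mul, Finset.mul_sum,
      Finset.mul_sum]
    refine Finset.sum_congr rfl fun k _ => ?_
    rw [real_inner_smul_right]
    ring
  have sD : ∀ x, tD f e w ψ h x = ∑ k, h k * tD f e w ψ (u k) x := by
    intro x
    unfold tD
    conv_lhs => rw [hdec, inner_sum, Finset.mul_sum, Finset.mul_sum]
    refine Finset.sum_congr rfl fun k _ => ?_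
    rw [real_inner_smul_right]
    ring
  have iA : ∫ x in C, tA f e J ψ h x = ∑ k, h k * ∫ x in C, tA f e J ψ (u k) x := by
    simp only [sA]
    rw [integral_finsetSum _ fun k _ => (hA (u k) ψ hψ hc).const_mul _]
    exact Finset.sum_congr rfl fun k _ => integral_const_mul _ _
  have iB : ∫ x in C, tB f e J β ψ h x = ∑ k, h k * ∫ x in C, tB f e J β ψ (u k) x := by
    simp only [sB]
    rw [integral_finsetSum _ fun k _ => (hB (u k) ψ hψ hc).const_mul _]
    exact Finset.sum_congr rfl fun k _ => integral_const_mul _ _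
  have iD : ∫ x in C, tD f e w ψ h x = ∑ k, h k * ∫ x in C, tD f e w ψ (u k) x := by
    simp only [sD]
    rw [integral_finsetSum _ fun k _ => (hD (u k) ψ hψ hc).const_mul _]
    exact Finset.sum_congr rfl fun k _ => integral_const_mul _ _
  have hk : ∀ k, ∫ x in C, tA f e J ψ (u k) x =
      -(n * ((∫ x in C, tD f e w ψ (u k) x) + ∫ x in C, tB f e J β ψ (u k) x)) := by
    intro k
    have h1 := hid ψ hψ hc k
    rw [show toY (Pi.single k (1 : ℝ) : E n) = u k by rw [hu]] at h1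
    rw [integral_add ((hB (u k) ψ hψ hc).const_mul _) (hA (u k) ψ hψ hc), integral_const_mul,
      integral_const_mul] at h1
    linear_combination h1
  have hR : ∫ x in C, ψ (toY (f x)) * (e x ^ (n - 1) *
        (inner ℝ (w x) h + inner ℝ (toY (f x)) h / (β * ‖toY (f x)‖ ^ 2) * J x)) =
      (∫ x in C, tD f e w ψ h x) + ∫ x in C, tB f e J β ψ h x := by
    rw [← integral_add (hD h ψ hψ hc) (hB h ψ hψ hc)]
    refine integral_congr_ae (Eventually.of_forall fun x => ?_)
    unfold tD tB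
    simp only
    ring
  rw [hR]
  change ∫ x in C, tA f e J ψ h x = _
  rw [iA, iB, iD, ← Finset.sum_add_distrib, Finset.mul_sum, ← Finset.sum_neg_distrib]
  refine Finset.sum_congr rfl fun k _ => ?_
  rw [hk]
  ring

end identity



/-- G1. the push-forward data of a quasiregular mapping -/
theorem push_of_qr {n : ℕ} (hn : 2 ≤ n) {Ω : Set (E n)} {f : E n → E n}
    {Df : E n → Matrix (Fin n) (Fin n) ℝ} {K : ℝ} (hK : 0 ≤ K) (H : QR Ω f Df K) {x0 : E n}
    {r M β : ℝ}
    (hr : 0 < r) (hM : 0 < M) (hβ : 0 < β) {C : Set (E n)} (hC : IsCompact C) (hCΩ : C ⊆ Ω)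
    {U : Set (E n)} (hU : IsOpen U) (hUΩ : U ⊆ Ω) (hCU : C ⊆ U)
    (hz : ∀ x ∈ U, x ∉ C → ex x0 r M β x (f x) = 0) :
    ∃ (e J z : E n → ℝ) (w : E n → Y n),
      Push n (volume.restrict C) (fun x => toY (f x)) e J z w (2 * M * r ^ β) β ∧
      (∀ x ∈ C, e x = ex x0 r M β x (f x)) ∧
      (∀ᵐ x ∂(volume.restrict C), J x = (Df x).det) ∧
      (∀ x, z x ≤ K * (en (x - x0) / (r ^ 2 + en (x - x0) ^ 2)) ^ n) := by
  obtain ⟨Be, hBe⟩ := eF_bdd (β := β) (M := M) (x0 := x0) H hr hC hCΩ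
  obtain ⟨Bf, hBf⟩ := f_bdd H hC hCΩ
  have ha : 0 < 2 * M * r ^ β := by
    have := Real.rpow_pos_of_pos hr β
    positivity
  have hfge : ∀ x, eF C f x0 r M β x ≠ 0 → 2 * M * r ^ β ≤ ‖toY (f x)‖ := by
    intro x hx
    by_contra hcon
    push Not at hcon
    exact (eF_ne hx).2 (aux_ex_zero x0 hr hM hβ hcon.le)
  have hJint : Integrable (JF C Df) (volume.restrict C) := JF_int H hC hCΩ
  have hzint : Integrable (zF C f Df K x0 r M β) (volume.restrict C) := zF_int hK H hr hC
  have hwle : ∀ x, ‖wF C f Df K x0 r M β x‖ ≤ JF C Df x + zF C f Df K x0 r M β x := fun x =>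
    (wF_le hn x).trans (aux_young hn (JF_nonneg x) (zF_nonneg x))
  have hid := aux_all (f := f) (e := eF C f x0 r M β) (J := JF C Df)
    (w := wF C f Df K x0 r M β) (β := β) (C := C)
    (fun h ψ hψ hc => tA_int H.meas_f (meas_eF H hr hC) (meas_JF H hC) eF_nonneg JF_nonneg hBe
      hJint hψ hc h)
    (fun h ψ hψ hc => tB_int hn H.meas_f (meas_eF H hr hC) (meas_JF H hC) eF_nonneg JF_nonneg
      hBe hJint hβ ha hfge hψ hc h)
    (fun h ψ hψ hc => tD_int H.meas_f (meas_eF H hr hC) (meas_wF H hr hC) eF_nonneg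
      hBe hJint hzint hwle hψ hc h)
    (by
      intro ψ hψ hc k
      have h1 := aux_ident hn H hr hM hβ hC hU hUΩ hCU hz hψ k
      have h2 : ∫ x in C, (n * tB f (eF C f x0 r M β) (JF C Df) β ψ (toY (Pi.single k 1)) x +
          tA f (eF C f x0 r M β) (JF C Df) ψ (toY (Pi.single k 1)) x) =
          ∫ x in C, (ψ (toY (f x)) * (n * ex x0 r M β x (f x) ^ (n - 1) *
          (f x k / (β * en (f x) ^ 2))) + ex x0 r M β x (f x) ^ n *
          fderiv ℝ ψ (toY (f x)) (toY (Pi.single k 1))) * (Df x).det := by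
        refine integral_congr_ae ?_
        filter_upwards [JF_ae H hC hCΩ, ae_restrict_mem hC.isClosed.measurableSet] with x hJ hxC
        unfold tA tB
        have h3 : inner ℝ (toY (f x)) (toY (Pi.single k (1 : ℝ) : E n)) = f x k := by
          rw [PiLp.inner_apply]
          have h4 : ∀ i, inner ℝ ((toY (f x)).ofLp i) ((toY (Pi.single k (1 : ℝ) : E n)).ofLp i) =
              (Pi.single k (1 : ℝ) : E n) i * f x i := fun i => rfl
          simp only [h4]
          simp [Pi.single_apply]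
        rw [hJ, eF_mem hxC, h3]
        change _ = (ψ (toY (f x)) * (n * ex x0 r M β x (f x) ^ (n - 1) *
          (f x k / (β * ‖toY (f x)‖ ^ 2))) + ex x0 r M β x (f x) ^ n *
          fderiv ℝ ψ (toY (f x)) (toY (Pi.single k 1))) * (Df x).det
        ring
      have h5 : ∫ x in C, n * tD f (eF C f x0 r M β) (wF C f Df K x0 r M β) ψ
          (toY (Pi.single k 1)) x = ∫ x in C, ψ (toY (f x)) *
          (n * ex x0 r M β x (f x) ^ (n - 1) *
          ((Df x).adjugate.transpose.mulVec (gg x0 r x)) k) := by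
        refine integral_congr_ae ?_
        filter_upwards [wF_ae hn H hC hCΩ] with x hw
        unfold tD
        have h3 : inner ℝ (wF C f Df K x0 r M β x) (toY (Pi.single k (1 : ℝ) : E n)) =
            wF C f Df K x0 r M β x k := by
          rw [PiLp.inner_apply]
          have h4 : ∀ i, inner ℝ ((wF C f Df K x0 r M β x).ofLp i)
              ((toY (Pi.single k (1 : ℝ) : E n)).ofLp i) =
              (Pi.single k (1 : ℝ) : E n) i * wF C f Df K x0 r M β x i := fun i => rfl
          simp only [h4]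
          simp [Pi.single_apply]
        rw [h3, ← hw k]
        ring
      rw [h2, h5]
      exact h1)
  refine ⟨eF C f x0 r M β, JF C Df, zF C f Df K x0 r M β, wF C f Df K x0 r M β,
    ⟨?_, meas_eF H hr hC, meas_JF H hC, meas_zF H hr hC, meas_wF H hr hC, eF_nonneg, JF_nonneg,
      zF_nonneg, ⟨Be, hBe⟩, ⟨Bf, ?_⟩, hJint, hzint, wF_le hn, zF_zero, ha, hβ, hfge, ?_⟩,
    fun x hx => eF_mem hx, JF_ae H hC hCΩ, zF_le hK hr⟩
  · exact aux_continuous_toY.measurable.comp H.meas_f
  · intro x hx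
    exact hBf x (eF_ne hx).1
  · intro ψ hψ hc h
    exact hid ψ hψ hc h


end H248.BH.G1

namespace H248.BH

export G1 (push_of_qr)

end H248.BH
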