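import Pool.Agent.H248.BH.Defs
import Pool.Agent.H248.BH.B01

set_option autoImplicit false
open MeasureTheory Metric Set Filter Topology
open scoped ENNReal NNReal ContDiff

namespace H248.BH.X5


open H248.ID







/-- X5. the energy of the logarithm -/
theorem log_energy {n : ℕ} (hn : 2 ≤ n) (x0 : E n) {r R : ℝ} (hr : 0 < r) (hR : 0 < R) :
    IntegrableOn (fun x : E n => (en (x - x0) / (r ^ 2 + en (x - x0) ^ 2)) ^ n)
      {x | en (x - x0) < R} ∧
    ∫ x in {x : E n | en (x - x0) < R}, (en (x - x0) / (r ^ 2 + en (x - x0) ^ 2)) ^ n ≤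
      om n * (max (Real.log (R / r)) 0 + 1) := by
  classical
  have hom := om_pos (n := n) (by omega)
  haveI : Nonempty (Fin n) := ⟨⟨0, by omega⟩⟩
  haveI : Nontrivial (Y n) := by
    have : 0 < Module.finrank ℝ (Y n) := by simp; omega
    exact Module.nontrivial_of_finrank_pos this
  set T : E n → Y n := fun x => toY (x - x0) with hT
  have hmp : MeasurePreserving T volume volume :=
    (PiLp.volume_preserving_toLp (Fin n)).comp (measurePreserving_sub_right volume x0)
  have hemb : MeasurableEmbedding T :=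
    (MeasurableEquiv.toLp 2 (Fin n → ℝ)).measurableEmbedding.comp
      (MeasurableEquiv.subRight x0).measurableEmbedding
  have hS : {x : E n | en (x - x0) < R} = T ⁻¹' ball 0 R := by
    ext x; simp [hT, en]
  set F : Y n → ℝ := fun y => (‖y‖ / (r ^ 2 + ‖y‖ ^ 2)) ^ n with hF
  have hden : ∀ s : ℝ, 0 < r ^ 2 + s ^ 2 := fun s => by positivity
  have hFc : Continuous F := by
    rw [hF]
    refine Continuous.pow (Continuous.div continuous_norm (by fun_prop) ?_) n
    intro y
    exact (hden _).ne'
  have hbd : ∀ y, ‖F y‖ ≤ (1 / (2 * r)) ^ n := by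
    intro y
    rw [hF]
    simp only
    rw [norm_pow]
    refine pow_le_pow_left₀ (norm_nonneg _) ?_ n
    rw [Real.norm_of_nonneg (div_nonneg (norm_nonneg _) (hden _).le)]
    rw [div_le_div_iff₀ (hden _) (by positivity)]
    nlinarith [sq_nonneg (r - ‖y‖)]
  have hFi : IntegrableOn F (ball 0 R) := by
    refine Measure.integrableOn_of_bounded (M := (1 / (2 * r)) ^ n) ?_ ?_ ?_
    · exact measure_ball_lt_top.ne
    · exact hFc.aestronglyMeasurable
    · exact Filter.Eventually.of_forall hbd
  have hfun : (fun x : E n => (en (x - x0) / (r ^ 2 + en (x - x0) ^ 2)) ^ n) = F ∘ T := by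
    ext x; simp [hT, hF, en]
  rw [hS, hfun]
  refine ⟨?_, ?_⟩
  · rw [hmp.integrableOn_comp_preimage hemb]
    exact hFi
  · have h1 : ∫ x in T ⁻¹' ball 0 R, (F ∘ T) x = ∫ y in ball 0 R, F y :=
      hmp.setIntegral_preimage_emb hemb F _
    have h2 : ∫ y in ball (0 : Y n) R, F y =
        ∫ y : Y n, (Iio R).indicator (fun s : ℝ => (s / (r ^ 2 + s ^ 2)) ^ n) ‖y‖ := by
      rw [← integral_indicator measurableSet_ball]
      congr 1
      ext y
      by_cases hy : ‖y‖ < R
      · rw [indicator_of_mem (by simpa using hy), indicator_of_mem (by simpa using hy)]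
      · rw [indicator_of_notMem (by simpa using hy), indicator_of_notMem (by simpa using hy)]
    rw [h1, h2, integral_fun_norm_addHaar (volume : Measure (Y n))]
    have h3 : om n = (Module.finrank ℝ (Y n) : ℝ) * (volume : Measure (Y n)).real (ball 0 1) := by
      have := Measure.toSphere_real_apply_univ (volume : Measure (Y n))
      exact this
    rw [nsmul_eq_mul, smul_eq_mul, ← mul_assoc, ← h3]
    refine mul_le_mul_of_nonneg_left ?_ hom.le
    have hfr : Module.finrank ℝ (Y n) = n := by simp
    rw [hfr]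
    have h4 : ∫ s in Ioi (0 : ℝ), s ^ (n - 1) •
        (Iio R).indicator (fun s : ℝ => (s / (r ^ 2 + s ^ 2)) ^ n) s =
        ∫ s in Ioc (0 : ℝ) R, s ^ (n - 1) * (s / (r ^ 2 + s ^ 2)) ^ n := by
      have e0 : ∀ s : ℝ, s ^ (n - 1) •
          (Iio R).indicator (fun s : ℝ => (s / (r ^ 2 + s ^ 2)) ^ n) s =
          (Iio R).indicator (fun s : ℝ => s ^ (n - 1) * (s / (r ^ 2 + s ^ 2)) ^ n) s := by
        intro s
        by_cases h : s ∈ Iio R
        · rw [indicator_of_mem h, indicator_of_mem h, smul_eq_mul]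
        · rw [indicator_of_notMem h, indicator_of_notMem h, smul_zero]
      simp_rw [e0]
      rw [setIntegral_indicator measurableSet_Iio]
      have e1 : Ioi (0 : ℝ) ∩ Iio R = Ioo 0 R := by ext; simp
      rw [e1, integral_Ioc_eq_integral_Ioo]
    rw [h4, ← intervalIntegral.integral_of_le hR.le]
    have hcont1 : Continuous fun s : ℝ => s ^ (n - 1) * (s / (r ^ 2 + s ^ 2)) ^ n := by
      refine (continuous_pow _).mul (Continuous.pow (Continuous.div continuous_id (by fun_prop) ?_) n)
      intro y
      exact (hden _).ne'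
    have hcont2 : Continuous fun s : ℝ => s / (r ^ 2 + s ^ 2) := by
      refine Continuous.div continuous_id (by fun_prop) ?_
      intro y
      exact (hden _).ne'
    have h5 : ∫ s in (0 : ℝ)..R, s ^ (n - 1) * (s / (r ^ 2 + s ^ 2)) ^ n ≤
        ∫ s in (0 : ℝ)..R, s / (r ^ 2 + s ^ 2) := by
      refine intervalIntegral.integral_mono_on hR.le (hcont1.intervalIntegrable _ _)
        (hcont2.intervalIntegrable _ _) ?_
      intro s hs
      obtain ⟨m, rfl⟩ : ∃ m, n = m + 1 := ⟨n - 1, by omega⟩
      have e1 : s ^ (m + 1 - 1) * (s / (r ^ 2 + s ^ 2)) ^ (m + 1) =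
          (s ^ 2 / (r ^ 2 + s ^ 2)) ^ m * (s / (r ^ 2 + s ^ 2)) := by
        simp only [Nat.add_sub_cancel]
        rw [pow_succ, ← mul_assoc, ← mul_pow]
        congr 2
        ring
      rw [e1]
      have e2 : (s ^ 2 / (r ^ 2 + s ^ 2)) ^ m ≤ 1 := by
        refine pow_le_one₀ (by positivity) ?_
        rw [div_le_one (hden s)]
        nlinarith [sq_nonneg r]
      have e3 : 0 ≤ s / (r ^ 2 + s ^ 2) := div_nonneg hs.1 (hden s).le
      nlinarith
    have h6 : ∫ s in (0 : ℝ)..R, s / (r ^ 2 + s ^ 2) =
        Real.log (r ^ 2 + R ^ 2) / 2 - Real.log (r ^ 2 + 0 ^ 2) / 2 := by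
      refine intervalIntegral.integral_eq_sub_of_hasDerivAt (f := fun s => Real.log (r ^ 2 + s ^ 2) / 2)
        ?_ (hcont2.intervalIntegrable _ _)
      intro s _
      have d1 : HasDerivAt (fun s : ℝ => r ^ 2 + s ^ 2) (2 * s) s := by
        simpa using (hasDerivAt_pow 2 s).const_add (r ^ 2)
      have d2 := (d1.log (hden s).ne').div_const 2
      have e3 : 2 * s / (r ^ 2 + s ^ 2) / 2 = s / (r ^ 2 + s ^ 2) := by ring
      rw [e3] at d2
      exact d2
    refine h5.trans ?_
    rw [h6]
    have h7 : Real.log (r ^ 2 + R ^ 2) ≤ 2 * (max (Real.log (R / r)) 0 + 1) + Real.log (r ^ 2 + 0 ^ 2) := by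
      have hl2 : Real.log 2 ≤ 1 := by
        have := Real.log_le_sub_one_of_pos (show (0:ℝ) < 2 by norm_num)
        linarith
      rcases le_total R r with hRr | hRr
      · have e1 : Real.log (r ^ 2 + R ^ 2) ≤ Real.log (2 * r ^ 2) :=
          Real.log_le_log (hden R) (by nlinarith)
        rw [Real.log_mul (by norm_num) (by positivity)] at e1
        have e2 := le_max_right (Real.log (R / r)) 0
        simp only [ne_eq, OfNat.ofNat_ne_zero, not_false_eq_true, zero_pow, add_zero]
        linarith
      · have e1 : Real.log (r ^ 2 + R ^ 2) ≤ Real.log (2 * R ^ 2) :=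
          Real.log_le_log (hden R) (by nlinarith)
        rw [Real.log_mul (by norm_num) (by positivity), Real.log_pow] at e1
        have e2 := le_max_left (Real.log (R / r)) 0
        rw [Real.log_div hR.ne' hr.ne'] at e2 ⊢
        simp only [ne_eq, OfNat.ofNat_ne_zero, not_false_eq_true, zero_pow, add_zero, Real.log_pow]
        push_cast at e1 ⊢
        linarith
    linarith


end H248.BH.X5

namespace H248.BH

export X5 (log_energy)

end H248.BH
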