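import Pool.Agent.H248.BH.Defs
import Pool.Agent.H248.BH.B01
import Pool.Agent.H248.BH.X5

set_option autoImplicit false
open MeasureTheory Metric Set Filter Topology
open scoped ENNReal NNReal ContDiff

namespace H248.BH.G3


open H248.ID








/-- G3. the energy of the push-forward -/
theorem growth_energy {n : ℕ} (hn : 2 ≤ n) {C : Set (E n)} (hC : IsCompact C) {f : E n → Y n}
    {e J z : E n → ℝ} {w : E n → Y n} {F G N Z : Y n → ℝ} {x0 : E n} {r M β K : ℝ}
    (hr : 0 < r) (hM : 0 < M) (hβ : 0 < β) (hK : 0 ≤ K)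
    (P : Push n (volume.restrict C) f e J z w (2 * M * r ^ β) β)
    (D : Dens n (volume.restrict C) f e J z F G N Z)
    (hz : ∀ x, z x ≤ K * (en (x - x0) / (r ^ 2 + en (x - x0) ^ 2)) ^ n)
    (he : ∀ x ∈ C, e x ≠ 0 → en (x - x0) < (‖f x‖ / (2 * M)) ^ (1 / β)) {s t : ℝ}
    (hs : 0 < s) (hst : s ≤ t) :
    ∫ x in s..t, x ^ n * Av Z x / x ≤
      K * (max (Real.log (t / (2 * M * r ^ β)) / β) 0 + 1) := by
  classical
  have ht : 0 < t := lt_of_lt_of_le hs hst
  have hn1 : 1 ≤ n := by omega
  have hom := om_pos hn1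
  -- the shell
  set S : Set (Y n) := {y | s < ‖y‖ ∧ ‖y‖ ≤ t} with hS
  have hSm : MeasurableSet S :=
    (measurableSet_lt measurable_const measurable_norm).inter
      (measurableSet_le measurable_norm measurable_const)
  set ψ : Y n → ℝ := S.indicator (fun _ => (1 : ℝ)) with hψ
  have hψm : Measurable ψ := measurable_const.indicator hSm
  have hψb : ∃ C, ∀ y, |ψ y| ≤ C := by
    refine ⟨1, fun y => ?_⟩
    by_cases hy : y ∈ S
    · rw [hψ, Set.indicator_of_mem hy]; simp
    · rw [hψ, Set.indicator_of_notMem hy]; simp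
  have hh : Integrable (S.indicator Z) := D.Z_int.indicator hSm
  obtain ⟨_, _, hpol⟩ := polar_integral hn1 hh
  -- A, B
  have hAv : ∀ x ∈ Ioi (0 : ℝ), x ^ (n - 1) * Av (S.indicator Z) x =
      (Ioc s t).indicator (fun x => x ^ (n - 1) * Av Z x) x := by
    intro x hx
    have hx0 : (0 : ℝ) < x := hx
    have hnorm : ∀ θ : sphere (0 : Y n) 1, ‖x • (θ : Y n)‖ = x := by
      intro θ
      rw [norm_smul, Real.norm_eq_abs, abs_of_pos hx0]
      have : ‖(θ : Y n)‖ = 1 := by
        have := θ.2
        simpa using this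
      rw [this, mul_one]
    by_cases hxs : x ∈ Ioc s t
    · rw [Set.indicator_of_mem hxs]
      congr 1
      unfold Av
      congr 1
      refine integral_congr_ae (Filter.Eventually.of_forall fun θ => ?_)
      have hm : x • (θ : Y n) ∈ S := by
        show s < ‖x • (θ : Y n)‖ ∧ ‖x • (θ : Y n)‖ ≤ t
        rw [hnorm θ]
        exact hxs
      exact Set.indicator_of_mem hm Z
    · rw [Set.indicator_of_notMem hxs]
      have h0 : Av (S.indicator Z) x = 0 := by
        unfold Av
        have : ∀ θ : sphere (0 : Y n) 1, S.indicator Z (x • (θ : Y n)) = 0 := by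
          intro θ
          refine Set.indicator_of_notMem ?_ Z
          intro hm
          have hm' : s < ‖x • (θ : Y n)‖ ∧ ‖x • (θ : Y n)‖ ≤ t := hm
          rw [hnorm θ] at hm'
          exact hxs hm'
        simp_rw [this]
        simp
      rw [h0, mul_zero]
  have hI : ∫ x in s..t, x ^ n * Av Z x / x = (om n)⁻¹ * ∫ y, S.indicator Z y := by
    rw [hpol, ← mul_assoc, inv_mul_cancel₀ hom.ne', one_mul,
      setIntegral_congr_fun measurableSet_Ioi hAv, setIntegral_indicator measurableSet_Ioc,
      intervalIntegral.integral_of_le hst]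
    have hsub : Ioi (0 : ℝ) ∩ Ioc s t = Ioc s t := by
      ext x
      constructor
      · exact fun h => h.2
      · exact fun h => ⟨lt_trans hs h.1, h⟩
    rw [hsub]
    refine setIntegral_congr_fun measurableSet_Ioc ?_
    intro x hx
    have hx0 : x ≠ 0 := (lt_trans hs hx.1).ne'
    show x ^ n * Av Z x / x = x ^ (n - 1) * Av Z x
    obtain ⟨m, rfl⟩ : ∃ m, n = m + 1 := ⟨n - 1, by omega⟩
    rw [Nat.add_sub_cancel, pow_succ]
    field_simp
  -- C
  have hCeq : ∫ y, S.indicator Z y = ∫ x in C, ψ (f x) * z x := by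
    rw [D.hZ ψ hψm hψb]
    refine integral_congr_ae (Filter.Eventually.of_forall fun y => ?_)
    show S.indicator Z y = ψ y * Z y
    by_cases hy : y ∈ S
    · rw [hψ, Set.indicator_of_mem hy, Set.indicator_of_mem hy, one_mul]
    · rw [hψ, Set.indicator_of_notMem hy, Set.indicator_of_notMem hy, zero_mul]
  -- D
  set R' : ℝ := (t / (2 * M)) ^ (1 / β) with hR'
  have hR'0 : 0 < R' := Real.rpow_pos_of_pos (by positivity) _
  obtain ⟨hint, hle⟩ := log_energy hn x0 hr hR'0
  have hcont : Continuous (fun x : E n => en (x - x0)) := by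
    have h1 : Continuous (fun x : E n => (toY (x - x0) : Y n)) :=
      (PiLp.continuous_toLp 2 _).comp (continuous_id.sub continuous_const)
    exact h1.norm
  have hBm : MeasurableSet {x : E n | en (x - x0) < R'} :=
    measurableSet_lt hcont.measurable measurable_const
  have hD : ∫ x in C, ψ (f x) * z x ≤
      ∫ x in {x : E n | en (x - x0) < R'}, K * (en (x - x0) / (r ^ 2 + en (x - x0) ^ 2)) ^ n := by
    rw [← integral_indicator hC.measurableSet, ← integral_indicator hBm]
    refine integral_mono_of_nonneg (Filter.Eventually.of_forall fun x => ?_)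
      ((integrable_indicator_iff hBm).2 (hint.const_mul K))
      (Filter.Eventually.of_forall fun x => ?_)
    · show 0 ≤ C.indicator (fun x => ψ (f x) * z x) x
      refine Set.indicator_nonneg (fun x _ => ?_) x
      refine mul_nonneg ?_ (P.z_nonneg x)
      rw [hψ]
      exact Set.indicator_nonneg (fun _ _ => zero_le_one) _
    · show C.indicator (fun x => ψ (f x) * z x) x ≤
        ({x : E n | en (x - x0) < R'}).indicator
          (fun x => K * (en (x - x0) / (r ^ 2 + en (x - x0) ^ 2)) ^ n) x
      have hen : ∀ x : E n, 0 ≤ en x := fun x => norm_nonneg _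
      have hrhs : 0 ≤ ({x : E n | en (x - x0) < R'}).indicator
          (fun x => K * (en (x - x0) / (r ^ 2 + en (x - x0) ^ 2)) ^ n) x := by
        refine Set.indicator_nonneg (fun x _ => ?_) x
        have := hen (x - x0)
        positivity
      by_cases hxC : x ∈ C
      · rw [Set.indicator_of_mem hxC]
        by_cases hfx : f x ∈ S
        · have e1 : ψ (f x) = 1 := by rw [hψ, Set.indicator_of_mem hfx]
          rw [e1, one_mul]
          by_cases hex : e x = 0
          · rw [P.z_zero x (Or.inl hex)]
            exact hrhs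
          · have h1 := he x hxC hex
            have h2 : (‖f x‖ / (2 * M)) ^ (1 / β) ≤ R' := by
              refine Real.rpow_le_rpow (by positivity) ?_ (by positivity)
              exact div_le_div_of_nonneg_right hfx.2 (by positivity)
            have h3 : x ∈ {x : E n | en (x - x0) < R'} := lt_of_lt_of_le h1 h2
            rw [Set.indicator_of_mem h3]
            exact hz x
        · have e1 : ψ (f x) = 0 := by rw [hψ, Set.indicator_of_notMem hfx]
          rw [e1, zero_mul]
          exact hrhs
      · rw [Set.indicator_of_notMem hxC]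
        exact hrhs
  -- F
  have hlog : Real.log (R' / r) = Real.log (t / (2 * M * r ^ β)) / β := by
    have h2M : 0 < t / (2 * M) := by positivity
    have hrb : 0 < r ^ β := Real.rpow_pos_of_pos hr β
    have e1 : t / (2 * M * r ^ β) = (t / (2 * M)) / r ^ β := by rw [div_div]
    rw [Real.log_div hR'0.ne' hr.ne', hR', Real.log_rpow h2M, e1,
      Real.log_div h2M.ne' hrb.ne', Real.log_rpow hr]
    field_simp
  rw [hI, hCeq]
  have hfin : ∫ x in C, ψ (f x) * z x ≤
      K * (om n * (max (Real.log (t / (2 * M * r ^ β)) / β) 0 + 1)) := by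
    refine hD.trans ?_
    rw [integral_const_mul, ← hlog]
    exact mul_le_mul_of_nonneg_left hle hK
  calc (om n)⁻¹ * ∫ x in C, ψ (f x) * z x
      ≤ (om n)⁻¹ * (K * (om n * (max (Real.log (t / (2 * M * r ^ β)) / β) 0 + 1))) :=
        mul_le_mul_of_nonneg_left hfin (inv_nonneg.2 hom.le)
    _ = K * (max (Real.log (t / (2 * M * r ^ β)) / β) 0 + 1) := by
        have := hom.ne'
        field_simp


end H248.BH.G3

namespace H248.BH

export G3 (growth_energy)

end H248.BH
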