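import Pool.Agent.H248.BH.Defs

set_option autoImplicit false
open MeasureTheory Metric Set Filter Topology
open scoped ENNReal NNReal ContDiff

namespace H248.BH.X3a


open H248.ID



/-- X3a. a continuous function with vanishing weak gradient -/
theorem weak_const {n : ℕ} {U : Set (E n)} (hU : IsOpen U) {v : E n → ℝ} (hv : ContinuousOn v U)
    (h : ∀ φ : E n → ℝ, ContDiff ℝ ∞ φ → HasCompactSupport φ → tsupport φ ⊆ U →
      ∀ j, ∫ x, v x * pd φ j x = 0) {a : E n} {ρ : ℝ} (hρ : closedBall a ρ ⊆ U) :
    ∀ x ∈ closedBall a ρ, v x = v a := by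
  intro x₁ hx₁
  have hρ0 : 0 ≤ ρ := le_trans dist_nonneg hx₁
  obtain ⟨δ, hδ, hδU⟩ := (isCompact_closedBall a ρ).exists_cthickening_subset_open hU hρ
  rw [cthickening_closedBall hδ.le hρ0] at hδU
  set B := closedBall a (δ + ρ) with hB
  set w : E n → ℝ := indicator B v with hw
  have hwi : Integrable w := by
    apply IntegrableOn.integrable_indicator _ isClosed_closedBall.measurableSet
    exact (hv.mono hδU).integrableOn_compact (isCompact_closedBall _ _)
  let φ : ℕ → ContDiffBump (0 : E n) := fun k =>
    { rIn := δ / (2 * (k + 2))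
      rOut := δ / (k + 2)
      rIn_pos := by positivity
      rIn_lt_rOut := by
        apply div_lt_div_of_pos_left hδ (by positivity)
        nlinarith [(Nat.cast_nonneg k : (0:ℝ) ≤ k)] }
  have hφo : ∀ k, (φ k).rOut = δ / (k + 2) := fun k => rfl
  have hφle : ∀ k, (φ k).rOut ≤ δ / 2 := by
    intro k
    rw [hφo]
    apply div_le_div_of_nonneg_left hδ.le (by norm_num)
    linarith [(Nat.cast_nonneg k : (0:ℝ) ≤ k)]
  have hφt : Tendsto (fun k => (φ k).rOut) atTop (𝓝 0) := by
    simp only [hφo]
    apply Tendsto.div_atTop tendsto_const_nhds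
    exact tendsto_atTop_add_const_right _ _ tendsto_natCast_atTop_atTop
  -- the mollification
  set vk : ℕ → E n → ℝ := fun k => convolution ((φ k).normed volume) w
    (ContinuousLinearMap.lsmul ℝ ℝ) volume with hvk
  have hfd : ∀ k x, HasFDerivAt (vk k)
      ((convolution (fderiv ℝ ((φ k).normed volume)) w
        ((ContinuousLinearMap.lsmul ℝ ℝ).precompL (E n)) volume) x) x := by
    intro k x
    exact (φ k).hasCompactSupport_normed.hasFDerivAt_convolution_left _
      ((φ k).contDiff_normed (n := 1)) hwi.locallyIntegrable x
  have hzero : ∀ k, ∀ x ∈ ball a (ρ + δ / 2),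
      ((convolution (fderiv ℝ ((φ k).normed volume)) w
        ((ContinuousLinearMap.lsmul ℝ ℝ).precompL (E n)) volume) x) = 0 := by
    intro k x hx
    set f := (φ k).normed volume with hf
    have hfs : ContDiff ℝ ∞ f := (φ k).contDiff_normed
    have hfc : HasCompactSupport f := (φ k).hasCompactSupport_normed
    have hts : tsupport f = closedBall 0 (φ k).rOut := (φ k).tsupport_normed_eq
    -- the reflected test function
    set ψ : E n → ℝ := fun y => f (x - y) with hψ
    have hψs : ContDiff ℝ ∞ ψ := hfs.comp (contDiff_const.sub contDiff_id)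
    have hsub : tsupport ψ ⊆ closedBall x (φ k).rOut := by
      apply closure_minimal _ isClosed_closedBall
      intro y hy
      have : x - y ∈ tsupport f := subset_tsupport _ hy
      rw [hts, mem_closedBall_zero_iff] at this
      rwa [mem_closedBall, dist_comm, dist_eq_norm]
    have hsubB : closedBall x (φ k).rOut ⊆ B := by
      apply closedBall_subset_closedBall'
      have := hφle k
      rw [mem_ball] at hx
      linarith
    have hψc : HasCompactSupport ψ :=
      IsCompact.of_isClosed_subset (isCompact_closedBall _ _) (isClosed_tsupport _) hsub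
    have key := h ψ hψs hψc ((hsub.trans hsubB).trans hδU)
    have hpd : ∀ j y, pd ψ j y = - pd f j (x - y) := by
      intro j y
      have h1 : HasFDerivAt f (fderiv ℝ f (x - y)) (x - y) :=
        (hfs.differentiable (by simp)).differentiableAt.hasFDerivAt
      have h2 : HasFDerivAt (fun y : E n => x - y) (-(ContinuousLinearMap.id ℝ (E n))) y := by
        exact (hasFDerivAt_id y).const_sub x
      have h3 : HasFDerivAt ψ ((fderiv ℝ f (x - y)).comp (-(ContinuousLinearMap.id ℝ (E n)))) y :=
        h1.comp y h2
      unfold pd
      rw [h3.fderiv]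
      simp
    -- basis
    have hj : ∀ j : Fin n, ((convolution (fderiv ℝ f) w
        ((ContinuousLinearMap.lsmul ℝ ℝ).precompL (E n)) volume) x) (Pi.single j 1) = 0 := by
      intro j
      have hint : Integrable (fun t => ((ContinuousLinearMap.lsmul ℝ ℝ).precompL (E n))
          (fderiv ℝ f t) (w (x - t))) volume := by
        have hce : ConvolutionExists (fderiv ℝ f) w
            ((ContinuousLinearMap.lsmul ℝ ℝ).precompL (E n)) volume :=
          (hfc.fderiv ℝ).convolutionExists_left _ (hfs.continuous_fderiv (by simp))
            hwi.locallyIntegrable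
        exact hce x
      rw [convolution_def, ContinuousLinearMap.integral_apply hint]
      have e1 : ∀ t, (((ContinuousLinearMap.lsmul ℝ ℝ).precompL (E n))
          (fderiv ℝ f t) (w (x - t))) (Pi.single j 1) = pd f j t * w (x - t) := by
        intro t
        simp [pd, ContinuousLinearMap.precompL_apply]
      simp only [e1]
      rw [← integral_sub_left_eq_self (fun t => pd f j t * w (x - t)) volume x]
      have e2 : ∀ y, pd f j (x - y) * w (x - (x - y)) = - (v y * pd ψ j y) := by
        intro y
        rw [sub_sub_cancel, hpd]
        by_cases hy : y ∈ B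
        · rw [hw, indicator_of_mem hy]; ring
        · rw [hw, indicator_of_notMem hy]
          have : pd ψ j y = 0 := by
            have hyn : y ∉ tsupport ψ := fun hh => hy (hsubB (hsub hh))
            have : fderiv ℝ ψ y = 0 := by
              by_contra hne
              exact hyn (support_fderiv_subset ℝ hne)
            unfold pd
            rw [this]; simp
          rw [hpd] at this
          have : pd f j (x - y) = 0 := by linarith
          rw [this]; ring
      simp only [e2]
      rw [integral_neg, key j, neg_zero]
    apply ContinuousLinearMap.coe_injective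
    apply (Pi.basisFun ℝ (Fin n)).ext
    intro j
    simpa using hj j
  have hconst : ∀ k, ∀ x ∈ ball a (ρ + δ / 2), vk k x = vk k a := by
    intro k x hx
    have hconv : Convex ℝ (ball a (ρ + δ / 2)) := convex_ball _ _
    have ha : a ∈ ball a (ρ + δ / 2) := by
      rw [mem_ball, dist_self]; linarith
    apply isOpen_ball.is_const_of_fderiv_eq_zero (𝕜 := ℝ) hconv.isPreconnected
      (fun y _ => (hfd k y).differentiableAt.differentiableWithinAt) _ hx ha
    intro y hy
    rw [(hfd k y).fderiv, hzero k y hy]
    rfl
  have hlim : ∀ x ∈ closedBall a ρ, Tendsto (fun k => vk k x) atTop (𝓝 (v x)) := by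
    intro x hx
    have hxB : x ∈ ball a (δ + ρ) := by
      rw [mem_ball]; rw [mem_closedBall] at hx; linarith
    have hnhds : B ∈ 𝓝 x := mem_of_superset (isOpen_ball.mem_nhds hxB) ball_subset_closedBall
    have hwv : w =ᶠ[𝓝 x] v := by
      filter_upwards [hnhds] with y hy
      rw [hw, indicator_of_mem hy]
    have hcv : ContinuousAt v x := hv.continuousAt (hU.mem_nhds (hρ hx))
    have hcw : Tendsto w (𝓝 x) (𝓝 (v x)) := (tendsto_congr' hwv).mpr hcv
    have := ContDiffBump.convolution_tendsto_right (μ := (volume : Measure (E n)))
      (g := fun _ : ℕ => w) (k := fun _ : ℕ => x) (x₀ := x) (z₀ := v x) hφt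
      (Eventually.of_forall fun _ => hwi.aestronglyMeasurable)
      (by
        have : Function.uncurry (fun _ : ℕ => w) = w ∘ Prod.snd := by
          funext p; rfl
        rw [this]
        exact hcw.comp tendsto_snd) tendsto_const_nhds
    exact this
  have h1 := hlim x₁ hx₁
  have h2 := hlim a (mem_closedBall_self hρ0)
  have hx₁' : x₁ ∈ ball a (ρ + δ / 2) := by
    rw [mem_ball]; rw [mem_closedBall] at hx₁; linarith
  have h3 : (fun k => vk k x₁) = fun k => vk k a := by
    funext k; exact hconst k x₁ hx₁'
  rw [h3] at h1
  exact tendsto_nhds_unique h1 h2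


end H248.BH.X3a

namespace H248.BH

export X3a (weak_const)

end H248.BH
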