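import Pool.Agent.H248.BH.Defs
import Pool.Agent.H248.BH.X0

set_option autoImplicit false
open MeasureTheory Metric Set Filter Topology
open scoped ENNReal NNReal ContDiff

namespace H248.BH.X3b


open H248.ID




/-! ### auxiliary lemmas for X3b -/

theorem X3b_en {n : ℕ} (y : E n) : en y = √(∑ i, y i ^ 2) := by
  unfold en toY
  rw [EuclideanSpace.norm_eq]
  simp [sq_abs]

theorem X3b_en_cont {n : ℕ} : Continuous (en : E n → ℝ) := by
  have : (en : E n → ℝ) = fun y => √(∑ i, y i ^ 2) := funext X3b_en
  rw [this]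
  fun_prop

theorem X3b_abs_le_en {n : ℕ} (y : E n) (i : Fin n) : |y i| ≤ en y := by
  rw [X3b_en]
  apply Real.abs_le_sqrt
  exact Finset.single_le_sum (f := fun i => y i ^ 2) (fun i _ => sq_nonneg _) (Finset.mem_univ i)

/-- cutoff functions decreasing to the indicator of `S` -/
noncomputable def eta (S : Set ℝ) (L : ℝ) (J : ℕ) (t : ℝ) : ℝ :=
  max 0 (1 - ((J : ℝ) + 2 / L) * infDist t S)

theorem eta_cont (S : Set ℝ) (L : ℝ) (J : ℕ) : Continuous (eta S L J) := by
  unfold eta
  have : Continuous fun t : ℝ => infDist t S := continuous_infDist_pt S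
  fun_prop

theorem eta_nonneg (S : Set ℝ) (L : ℝ) (J : ℕ) (t : ℝ) : 0 ≤ eta S L J t := le_max_left _ _

theorem eta_le_one (S : Set ℝ) {L : ℝ} (hL : 0 < L) (J : ℕ) (t : ℝ) : eta S L J t ≤ 1 := by
  unfold eta
  apply max_le zero_le_one
  have : 0 ≤ ((J : ℝ) + 2 / L) * infDist t S := mul_nonneg (by positivity) infDist_nonneg
  linarith

theorem eta_zero {S : Set ℝ} (hS : S.Nonempty) {L : ℝ} (hL : 0 < L) (hSL : ∀ s ∈ S, L ≤ s) (J : ℕ)
    {t : ℝ} (ht : t ≤ L / 2) : eta S L J t = 0 := by
  unfold eta
  apply max_eq_left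
  have h1 : L / 2 ≤ infDist t S := by
    rw [le_infDist hS]
    intro s hs
    rw [Real.dist_eq, abs_sub_comm]
    have := hSL s hs
    exact le_trans (by linarith) (le_abs_self _)
  have h2 : (2 / L) * (L / 2) = 1 := by field_simp
  have h3 : (2 / L) * (L / 2) ≤ ((J : ℝ) + 2 / L) * infDist t S := by
    apply mul_le_mul _ h1 (by positivity) (by positivity)
    have : (0 : ℝ) ≤ J := Nat.cast_nonneg J
    linarith
  linarith

theorem eta_tendsto_of_mem {S : Set ℝ} {L : ℝ} {t : ℝ} (ht : t ∈ S) (J : ℕ) : eta S L J t = 1 := by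
  unfold eta
  rw [infDist_zero_of_mem ht]
  simp

theorem eta_tendsto_of_notMem {S : Set ℝ} (hS : S.Nonempty) (hc : IsClosed S) {L : ℝ} (hL : 0 < L)
    {t : ℝ} (ht : t ∉ S) : ∀ᶠ J : ℕ in atTop, eta S L J t = 0 := by
  have h1 : 0 < infDist t S := (hc.notMem_iff_infDist_pos hS).mp ht
  obtain ⟨N, hN⟩ := exists_nat_gt (1 / infDist t S)
  filter_upwards [eventually_ge_atTop N] with J hJ
  unfold eta
  apply max_eq_left
  have h2 : (N : ℝ) ≤ J := by exact_mod_cast hJ
  rw [div_lt_iff₀ h1] at hN
  have h3 : (N : ℝ) * infDist t S ≤ ((J : ℝ) + 2 / L) * infDist t S := by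
    apply mul_le_mul_of_nonneg_right _ h1.le
    have : 0 < 2 / L := by positivity
    linarith
  linarith

/-- primitive of the cutoff -/
noncomputable def gg (S : Set ℝ) (L : ℝ) (J : ℕ) (t : ℝ) : ℝ := ∫ s in (0 : ℝ)..t, eta S L J s

theorem gg_hasDeriv (S : Set ℝ) (L : ℝ) (J : ℕ) (t : ℝ) :
    HasDerivAt (gg S L J) (eta S L J t) t :=
  ((eta_cont S L J).integral_hasStrictDerivAt 0 t).hasDerivAt

theorem gg_cont (S : Set ℝ) (L : ℝ) (J : ℕ) : Continuous (gg S L J) :=
  continuous_iff_continuousAt.mpr fun t => (gg_hasDeriv S L J t).continuousAt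

theorem gg_zero {S : Set ℝ} (hS : S.Nonempty) {L : ℝ} (hL : 0 < L) (hSL : ∀ s ∈ S, L ≤ s) (J : ℕ)
    {t : ℝ} (h0 : 0 ≤ t) (ht : t ≤ L / 2) : gg S L J t = 0 := by
  unfold gg
  rw [intervalIntegral.integral_of_le h0]
  apply setIntegral_eq_zero_of_forall_eq_zero
  intro s hs
  exact eta_zero hS hL hSL J (hs.2.trans ht)

theorem gg_abs_le (S : Set ℝ) {L : ℝ} (hL : 0 < L) (J : ℕ) (t : ℝ) : |gg S L J t| ≤ |t| := by
  have h := intervalIntegral.norm_integral_le_of_norm_le_const (a := 0) (b := t) (C := 1)
    (f := eta S L J) (fun x _ => by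
      rw [Real.norm_eq_abs, abs_of_nonneg (eta_nonneg S L J x)]
      exact eta_le_one S hL J x)
  rw [Real.norm_eq_abs, one_mul, sub_zero] at h
  exact h

theorem gg_tendsto {S : Set ℝ} (hS : S.Nonempty) (hc : IsClosed S) {L : ℝ} (hL : 0 < L)
    (hSL : ∀ s ∈ S, L ≤ s) {t : ℝ} (ht : 0 ≤ t) :
    Tendsto (fun J => gg S L J t) atTop (𝓝 (volume (S ∩ Iic t)).toReal) := by
  have h1 : (volume (S ∩ Iic t)).toReal = ∫ s in (0 : ℝ)..t, S.indicator (fun _ => (1 : ℝ)) s := by
    rw [intervalIntegral.integral_of_le ht, integral_indicator hc.measurableSet,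
      Measure.restrict_restrict hc.measurableSet]
    have h2 : S ∩ Iic t = S ∩ Ioc 0 t := by
      ext s
      constructor
      · rintro ⟨h3, h4⟩
        exact ⟨h3, hL.trans_le (hSL s h3), h4⟩
      · rintro ⟨h3, h4⟩
        exact ⟨h3, h4.2⟩
    rw [h2]
    simp [Measure.real]
  rw [h1]
  unfold gg
  apply intervalIntegral.tendsto_integral_filter_of_dominated_convergence (fun _ => (1 : ℝ))
  · exact Eventually.of_forall fun J => (eta_cont S L J).aestronglyMeasurable
  · refine Eventually.of_forall fun J => Eventually.of_forall fun x _ => ?_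
    rw [Real.norm_eq_abs, abs_of_nonneg (eta_nonneg S L J x)]
    exact eta_le_one S hL J x
  · exact intervalIntegrable_const
  · refine Eventually.of_forall fun x _ => ?_
    by_cases hx : x ∈ S
    · rw [Set.indicator_of_mem hx]
      simp only [eta_tendsto_of_mem hx]
      exact tendsto_const_nhds
    · rw [Set.indicator_of_notMem hx]
      apply tendsto_const_nhds.congr'
      filter_upwards [eta_tendsto_of_notMem hS hc hL hx] with J hJ using hJ.symm

/-- the primitive in terms of the squared norm -/
theorem hh_deriv {S : Set ℝ} (hS : S.Nonempty) {L : ℝ} (hL : 0 < L) (hSL : ∀ s ∈ S, L ≤ s) (J : ℕ)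
    (s : ℝ) : HasDerivAt (fun s => gg S L J (√s))
      (eta S L J (√s) / (2 * max (√s) (L / 2))) s := by
  rcases le_or_gt s 0 with h | h
  · have h1 : eta S L J (√s) = 0 := by
      rw [Real.sqrt_eq_zero_of_nonpos h]
      exact eta_zero hS hL hSL J (by positivity)
    rw [h1, zero_div]
    have h2 : (fun s => gg S L J (√s)) =ᶠ[𝓝 s] fun _ => 0 := by
      have h3 : Iio ((L / 2) ^ 2) ∈ 𝓝 s := Iio_mem_nhds (by
        have : 0 < (L / 2) ^ 2 := by positivity
        linarith)
      filter_upwards [h3] with x hx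
      apply gg_zero hS hL hSL J (Real.sqrt_nonneg x)
      rw [Real.sqrt_le_left (by positivity)]
      exact (le_of_lt hx)
    exact (hasDerivAt_const s (0 : ℝ)).congr_of_eventuallyEq h2
  · have h1 := (gg_hasDeriv S L J (√s)).comp s (Real.hasDerivAt_sqrt h.ne')
    refine h1.congr_deriv ?_
    have hs : 0 < √s := Real.sqrt_pos.mpr h
    rcases le_total (√s) (L / 2) with h2 | h2
    · rw [eta_zero hS hL hSL J h2]
      simp
    · rw [max_eq_left h2]
      ring

/-- the coefficient in the chain rule -/
noncomputable def cc {n : ℕ} (S : Set ℝ) (L : ℝ) (J : ℕ) (y : E n) : ℝ :=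
  eta S L J (en y) / max (en y) (L / 2)

theorem cc_cont {n : ℕ} (S : Set ℝ) {L : ℝ} (hL : 0 < L) (J : ℕ) :
    Continuous (cc S L J : E n → ℝ) := by
  unfold cc
  have h1 : Continuous (en : E n → ℝ) := X3b_en_cont
  apply Continuous.div ((eta_cont S L J).comp h1) (h1.max continuous_const)
  intro y
  exact (lt_max_of_lt_right (by positivity : 0 < L / 2)).ne'

theorem cc_mul_le {n : ℕ} (S : Set ℝ) {L : ℝ} (hL : 0 < L) (J : ℕ) (y : E n) (i : Fin n) :
    |cc S L J y * y i| ≤ eta S L J (en y) := by
  unfold cc
  have h1 : 0 < max (en y) (L / 2) := lt_max_of_lt_right (by positivity)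
  have h2 := eta_nonneg S L J (en y)
  rw [abs_mul, abs_of_nonneg (div_nonneg h2 h1.le), div_mul_eq_mul_div, div_le_iff₀ h1]
  exact mul_le_mul_of_nonneg_left ((X3b_abs_le_en y i).trans (le_max_left _ _)) h2

/-- chain rule -/
theorem X3b_chain {n : ℕ} {S : Set ℝ} (hS : S.Nonempty) {L : ℝ} (hL : 0 < L)
    (hSL : ∀ s ∈ S, L ≤ s) (J : ℕ) {F : E n → E n} (hF : ContDiff ℝ ∞ F) (x : E n) :
    ∃ D : E n →L[ℝ] ℝ, HasFDerivAt (fun x => gg S L J (en (F x))) D x ∧
      ∀ j, D (Pi.single j 1) = cc S L J (F x) * ∑ i, F x i * jac F x i j := by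
  have hFi : ∀ i, HasFDerivAt (fun x => F x i) (fderiv ℝ (fun x => F x i) x) x := by
    intro i
    have h1 : ContDiff ℝ ∞ (fun x => F x i) := contDiff_pi.mp hF i
    exact (h1.differentiable (by norm_num) x).hasFDerivAt
  have hsum : HasFDerivAt (fun x => ∑ i, (F x i) ^ 2)
      (∑ i, (2 * F x i) • fderiv ℝ (fun x => F x i) x) x := by
    apply HasFDerivAt.fun_sum
    intro i _
    have := (hFi i).pow 2
    simpa using this
  have h1 := (hh_deriv hS hL hSL J (∑ i, (F x i) ^ 2)).comp_hasFDerivAt x hsum
  refine ⟨(eta S L J (√(∑ i, F x i ^ 2)) / (2 * max (√(∑ i, F x i ^ 2)) (L / 2))) •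
      ∑ i, (2 * F x i) • fderiv ℝ (fun x => F x i) x, ?_, ?_⟩
  · have h2 : (fun x => gg S L J (en (F x))) = (fun s => gg S L J (√s)) ∘
        fun x => ∑ i, (F x i) ^ 2 := by
      funext x
      rw [Function.comp_apply, X3b_en]
    rw [h2]
    exact h1
  · intro j
    simp only [ContinuousLinearMap.smul_apply, ContinuousLinearMap.sum_apply, smul_eq_mul]
    unfold cc jac pd
    rw [← X3b_en]
    simp only [Matrix.of_apply]
    have h3 : 0 < max (en (F x)) (L / 2) := lt_max_of_lt_right (by positivity)
    have h4 : ∑ i, 2 * F x i * (fderiv ℝ (fun x => F x i) x) (Pi.single j 1)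
        = 2 * ∑ i, F x i * (fderiv ℝ (fun x => F x i) x) (Pi.single j 1) := by
      rw [Finset.mul_sum]
      apply Finset.sum_congr rfl
      intro i _
      ring
    rw [h4]
    field_simp

theorem jac_cont {n : ℕ} {F : E n → E n} (hF : ContDiff ℝ ∞ F) (i j : Fin n) :
    Continuous fun x => jac F x i j := by
  have h1 : ContDiff ℝ ∞ (fun x => F x i) := contDiff_pi.mp hF i
  exact (h1.continuous_fderiv (by norm_num)).clm_apply continuous_const

/-- integration by parts for the mollified maps -/
theorem X3b_ibp {n : ℕ} {S : Set ℝ} (hS : S.Nonempty) {L : ℝ} (hL : 0 < L)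
    (hSL : ∀ s ∈ S, L ≤ s) (J : ℕ) {F : E n → E n} (hF : ContDiff ℝ ∞ F)
    {φ : E n → ℝ} (hφ : ContDiff ℝ ∞ φ) (hφc : HasCompactSupport φ) (j : Fin n) :
    ∫ x, gg S L J (en (F x)) * pd φ j x =
      - ∫ x, (cc S L J (F x) * ∑ i, F x i * jac F x i j) * φ x := by
  have hu : Continuous fun x => gg S L J (en (F x)) :=
    (gg_cont S L J).comp (X3b_en_cont.comp hF.continuous)
  have hd : ∀ x, DifferentiableAt ℝ (fun x => gg S L J (en (F x))) x := fun x => by
    obtain ⟨D, hD, _⟩ := X3b_chain hS hL hSL J hF x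
    exact hD.differentiableAt
  have hfd : ∀ x, fderiv ℝ (fun x => gg S L J (en (F x))) x (Pi.single j 1)
      = cc S L J (F x) * ∑ i, F x i * jac F x i j := fun x => by
    obtain ⟨D, hD, h⟩ := X3b_chain hS hL hSL J hF x
    rw [hD.fderiv, h]
  have hcD : Continuous fun x => cc S L J (F x) * ∑ i, F x i * jac F x i j := by
    apply ((cc_cont S hL J).comp hF.continuous).mul
    apply continuous_finsetSum
    intro i _
    exact ((continuous_apply i).comp hF.continuous).mul (jac_cont hF i j)
  have hpc : Continuous fun x => fderiv ℝ φ x (Pi.single j 1) :=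
    (hφ.continuous_fderiv (by norm_num)).clm_apply continuous_const
  have hps : HasCompactSupport fun x => fderiv ℝ φ x (Pi.single j 1) :=
    (hφc.fderiv (𝕜 := ℝ)).comp_left (g := fun L : E n →L[ℝ] ℝ => L (Pi.single j 1)) (by simp)
  have h := integral_mul_fderiv_eq_neg_fderiv_mul_of_integrable (μ := volume)
    (f := fun x => gg S L J (en (F x))) (g := φ) (v := (Pi.single j 1 : E n))
    (by
      simp only [hfd]
      exact (hcD.mul hφ.continuous).integrable_of_hasCompactSupport hφc.mul_left)
    ((hu.mul hpc).integrable_of_hasCompactSupport hps.mul_left)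
    ((hu.mul hφ.continuous).integrable_of_hasCompactSupport hφc.mul_left)
    (fun x _ => hd x) (fun x _ => hφ.differentiable (by norm_num) x)
  simp only [hfd] at h
  exact h

theorem sn_bound {n : ℕ} {S : Set ℝ} {L : ℝ} (hL : 0 < L) (J : ℕ) (y : E n)
    (A : Matrix (Fin n) (Fin n) ℝ) (j : Fin n) :
    |cc S L J y * ∑ i, y i * A i j| ≤ eta S L J (en y) * sn A := by
  rw [Finset.mul_sum]
  calc |∑ i, cc S L J y * (y i * A i j)| ≤ ∑ i, |cc S L J y * (y i * A i j)| :=
        Finset.abs_sum_le_sum_abs _ _
    _ ≤ ∑ i, eta S L J (en y) * |A i j| := by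
        apply Finset.sum_le_sum
        intro i _
        rw [← mul_assoc, abs_mul]
        exact mul_le_mul_of_nonneg_right (cc_mul_le S hL J y i) (abs_nonneg _)
    _ = eta S L J (en y) * ∑ i, |A i j| := by rw [Finset.mul_sum]
    _ ≤ eta S L J (en y) * sn A := by
        apply mul_le_mul_of_nonneg_left _ (eta_nonneg S L J _)
        unfold sn
        apply Finset.sum_le_sum
        intro i _
        exact Finset.single_le_sum (f := fun j => |A i j|) (fun j _ => abs_nonneg _)
          (Finset.mem_univ j)

theorem sn_nonneg {n : ℕ} (A : Matrix (Fin n) (Fin n) ℝ) : 0 ≤ sn A :=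
  Finset.sum_nonneg fun _ _ => Finset.sum_nonneg fun _ _ => abs_nonneg _

theorem le_one_add_pow {n : ℕ} (hn : 1 ≤ n) {s : ℝ} (hs : 0 ≤ s) : s ≤ 1 + s ^ n := by
  rcases le_total s 1 with h | h
  · have : 0 ≤ s ^ n := pow_nonneg hs n
    linarith
  · have : s ≤ s ^ n := le_self_pow₀ h (by omega)
    linarith



/-- X3b. chain rule for the measure of levels -/
theorem level_weak {n : ℕ} (hn : 1 ≤ n) {Ω : Set (E n)} {f : E n → E n}
    {Df : E n → Matrix (Fin n) (Fin n) ℝ} {K : ℝ} (H : QR Ω f Df K) {x0 : E n} {r L m : ℝ}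
    (hL : 0 < L) {S : Set ℝ} (hS : IsCompact S) (hSLm : S ⊆ Icc L m)
    (h0 : ∀ᵐ x ∂(volume.restrict Ω), en (x - x0) < r → en (f x) ∈ S → Df x = 0)
    {φ : E n → ℝ} (hφ : ContDiff ℝ ∞ φ) (hφc : HasCompactSupport φ)
    (hφs : tsupport φ ⊆ Ω ∩ {x | en (x - x0) < r}) (j : Fin n) :
    ∫ x, (volume (S ∩ Iic (en (f x)))).toReal * pd φ j x = 0 := by
  classical
  rcases S.eq_empty_or_nonempty with hSe | hSn
  · simp [hSe]
  have hSL : ∀ s ∈ S, L ≤ s := fun s hs => (hSLm hs).1
  have hcl : IsClosed S := hS.isClosed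
  set C : Set (E n) := tsupport φ with hC
  have hCc : IsCompact C := hφc
  have hCΩ : C ⊆ Ω := fun x hx => (hφs hx).1
  have hCr : ∀ x ∈ C, en (x - x0) < r := fun x hx => (hφs hx).2
  have hCm : MeasurableSet C := hCc.isClosed.measurableSet
  obtain ⟨F, hF, hunif, hjac, Φ, hΦ, hbd⟩ := mollify_on hn H hCc hCΩ
  -- vanishing outside C
  have hφ0 : ∀ x, x ∉ C → φ x = 0 := fun x hx => image_eq_zero_of_notMem_tsupport hx
  have hpd0 : ∀ x, x ∉ C → pd φ j x = 0 := by
    intro x hx
    unfold pd
    rw [fderiv_of_notMem_tsupport _ hx]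
    rfl
  have hpc : Continuous fun x => pd φ j x :=
    (hφ.continuous_fderiv (by norm_num)).clm_apply continuous_const
  -- boundedness on C
  have hfC : ContinuousOn f C := H.cont.mono hCΩ
  have henf : ContinuousOn (fun x => en (f x)) C := X3b_en_cont.comp_continuousOn hfC
  obtain ⟨B, hB⟩ := hCc.exists_bound_of_continuousOn henf
  obtain ⟨Bφ, hBφ⟩ := hCc.exists_bound_of_continuousOn hφ.continuous.continuousOn
  obtain ⟨Bp, hBp⟩ := hCc.exists_bound_of_continuousOn hpc.continuousOn
  haveI : IsFiniteMeasure (volume.restrict C) := ⟨by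
    rw [Measure.restrict_apply_univ]; exact hCc.measure_lt_top⟩
  have hconst : ∀ c : ℝ, Integrable (fun _ : E n => c) (volume.restrict C) := fun c =>
    integrable_const c
  have hmemC : ∀ᵐ x ∂(volume.restrict C), x ∈ C := ae_restrict_mem hCm
  -- measurability
  have hmf : ∀ i, Measurable fun x => f x i := fun i => (measurable_pi_apply i).comp H.meas_f
  have hmen : Measurable fun x => en (f x) := X3b_en_cont.measurable.comp H.meas_f
  -- Step 1: for fixed J
  have step1 : ∀ J, ∫ x in C, gg S L J (en (f x)) * pd φ j x =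
      - ∫ x in C, (cc S L J (f x) * ∑ i, f x i * Df x i j) * φ x := by
    intro J
    have hk : ∀ k, ∫ x in C, gg S L J (en (F k x)) * pd φ j x =
        - ∫ x in C, (cc S L J (F k x) * ∑ i, F k x i * jac (F k) x i j) * φ x := by
      intro k
      rw [setIntegral_eq_integral_of_forall_compl_eq_zero (fun x hx => by rw [hpd0 x hx, mul_zero]),
        setIntegral_eq_integral_of_forall_compl_eq_zero (fun x hx => by rw [hφ0 x hx, mul_zero])]
      exact X3b_ibp hSn hL hSL J (hF k) hφ hφc j
    have hL1 : Tendsto (fun k => ∫ x in C, gg S L J (en (F k x)) * pd φ j x) atTop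
        (𝓝 (∫ x in C, gg S L J (en (f x)) * pd φ j x)) := by
      have hev : ∀ᶠ k in atTop, ∀ x ∈ C, en (F k x) ≤ B + n := by
        have h1 := (Metric.tendstoUniformlyOn_iff.mp hunif) 1 one_pos
        filter_upwards [h1] with k hk x hx
        have h2 := hk x hx
        have h3 : en (F k x) ≤ en (f x) + en (F k x - f x) := by
          unfold en
          have : toY (F k x) = toY (f x) + toY (F k x - f x) := by
            unfold toY
            rw [← WithLp.toLp_add]
            congr 1
            abel
          rw [this]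
          exact norm_add_le _ _
        have h4 : en (F k x - f x) ≤ n := by
          rw [X3b_en]
          have h5 : ∀ i, (F k x - f x) i ^ 2 ≤ 1 := by
            intro i
            have h6 : |(F k x - f x) i| ≤ 1 := by
              have := norm_le_pi_norm (F k x - f x) i
              rw [← dist_eq_norm, dist_comm] at this
              exact this.trans h2.le
            rw [sq_le_one_iff_abs_le_one]
            exact h6
          have h7 : ∑ i, (F k x - f x) i ^ 2 ≤ n := by
            calc ∑ i, (F k x - f x) i ^ 2 ≤ ∑ _i : Fin n, (1 : ℝ) :=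
                  Finset.sum_le_sum (fun i _ => h5 i)
              _ = n := by simp
          have hn1 : (1 : ℝ) ≤ n := by exact_mod_cast hn
          rw [Real.sqrt_le_left (by positivity)]
          nlinarith
        have h5 := (le_abs_self _).trans (hB x hx)
        linarith
      apply tendsto_integral_filter_of_dominated_convergence (fun _ => (B + n) * Bp)
      · refine Eventually.of_forall fun k => Continuous.aestronglyMeasurable ?_
        exact ((gg_cont S L J).comp (X3b_en_cont.comp (hF k).continuous)).mul hpc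
      · filter_upwards [hev] with k hk
        filter_upwards [hmemC] with x hx
        rw [norm_mul]
        have h1 : ‖gg S L J (en (F k x))‖ ≤ B + n := by
          rw [Real.norm_eq_abs]
          refine (gg_abs_le S hL J _).trans ?_
          have h00 : 0 ≤ en (F k x) := norm_nonneg (toY (F k x))
          rw [abs_of_nonneg h00]
          exact hk x hx
        have h2 := hBp x hx
        exact mul_le_mul h1 h2 (norm_nonneg _) ((norm_nonneg _).trans h1)
      · exact hconst _
      · filter_upwards [hmemC] with x hx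
        apply Tendsto.mul_const
        have h1 := hunif.tendsto_at hx
        exact (((gg_cont S L J).comp X3b_en_cont).tendsto (f x)).comp h1
    have hR1 : Tendsto (fun k => - ∫ x in C, (cc S L J (F k x) *
        ∑ i, F k x i * jac (F k) x i j) * φ x) atTop
        (𝓝 (- ∫ x in C, (cc S L J (f x) * ∑ i, f x i * Df x i j) * φ x)) := by
      apply Tendsto.neg
      apply tendsto_integral_filter_of_dominated_convergence (fun x => (1 + Φ x) * Bφ)
      · refine Eventually.of_forall fun k => Continuous.aestronglyMeasurable ?_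
        refine Continuous.mul ?_ hφ.continuous
        apply ((cc_cont S hL J).comp (hF k).continuous).mul
        apply continuous_finsetSum
        intro i _
        exact ((continuous_apply i).comp (hF k).continuous).mul (jac_cont (hF k) i j)
      · refine Eventually.of_forall fun k => ?_
        filter_upwards [hmemC, hbd] with x hx hbx
        rw [norm_mul]
        have h1 : ‖cc S L J (F k x) * ∑ i, F k x i * jac (F k) x i j‖ ≤ 1 + Φ x := by
          rw [Real.norm_eq_abs]
          refine (sn_bound hL J (F k x) (jac (F k) x) j).trans ?_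
          have h2 := sn_nonneg (jac (F k) x)
          have h3 := mul_le_mul_of_nonneg_right (eta_le_one S hL J (en (F k x))) h2
          have h4 := le_one_add_pow hn h2
          have h5 := hbx k
          linarith
        exact mul_le_mul h1 (hBφ x hx) (norm_nonneg _) ((norm_nonneg _).trans h1)
      · exact ((hconst 1).add hΦ).mul_const Bφ
      · filter_upwards [hmemC, hjac] with x hx hjx
        apply Tendsto.mul_const
        have h1 := hunif.tendsto_at hx
        refine Tendsto.mul (((cc_cont S hL J).tendsto (f x)).comp h1) ?_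
        apply tendsto_finsetSum
        intro i _
        refine Tendsto.mul ?_ ?_
        · exact ((continuous_apply i).tendsto (f x)).comp h1
        · have h2 : Tendsto (fun k => jac (F k) x i) atTop (𝓝 (Df x i)) :=
            (tendsto_pi_nhds.mp hjx) i
          exact (tendsto_pi_nhds.mp h2) j
    exact tendsto_nhds_unique hL1 (hR1.congr (fun k => (hk k).symm))
  -- Step 2: limit in J
  have hL2 : Tendsto (fun J => ∫ x in C, gg S L J (en (f x)) * pd φ j x) atTop
      (𝓝 (∫ x in C, (volume (S ∩ Iic (en (f x)))).toReal * pd φ j x)) := by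
    apply tendsto_integral_filter_of_dominated_convergence (fun _ => B * Bp)
    · refine Eventually.of_forall fun J => Measurable.aestronglyMeasurable ?_
      exact ((gg_cont S L J).measurable.comp hmen).mul hpc.measurable
    · refine Eventually.of_forall fun J => ?_
      filter_upwards [hmemC] with x hx
      rw [norm_mul]
      have h1 : ‖gg S L J (en (f x))‖ ≤ B := by
        rw [Real.norm_eq_abs]
        refine (gg_abs_le S hL J _).trans ?_
        exact hB x hx
      exact mul_le_mul h1 (hBp x hx) (norm_nonneg _) ((norm_nonneg _).trans h1)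
    · exact hconst _
    · refine Eventually.of_forall fun x => ?_
      exact (gg_tendsto hSn hcl hL hSL (norm_nonneg _)).mul_const _
  have hDf : ∀ᵐ x ∂(volume.restrict C), en (f x) ∈ S → Df x = 0 := by
    filter_upwards [ae_restrict_of_ae_restrict_of_subset hCΩ h0, hmemC] with x hx hxC
    exact hx (hCr x hxC)
  have hR2 : Tendsto (fun J => - ∫ x in C, (cc S L J (f x) * ∑ i, f x i * Df x i j) * φ x) atTop
      (𝓝 (- ∫ _x in C, (0 : ℝ))) := by
    apply Tendsto.neg
    apply tendsto_integral_filter_of_dominated_convergence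
      (fun x => (1 + sn (Df x) ^ n) * Bφ)
    · refine Eventually.of_forall fun J => Measurable.aestronglyMeasurable ?_
      refine Measurable.mul ?_ hφ.continuous.measurable
      apply ((cc_cont S hL J).measurable.comp H.meas_f).mul
      apply Finset.measurable_fun_sum
      intro i _
      exact (hmf i).mul (H.meas_D i j)
    · refine Eventually.of_forall fun J => ?_
      filter_upwards [hmemC] with x hx
      rw [norm_mul]
      have h1 : ‖cc S L J (f x) * ∑ i, f x i * Df x i j‖ ≤ 1 + sn (Df x) ^ n := by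
        rw [Real.norm_eq_abs]
        refine (sn_bound hL J (f x) (Df x) j).trans ?_
        have h2 := sn_nonneg (Df x)
        have h3 := mul_le_mul_of_nonneg_right (eta_le_one S hL J (en (f x))) h2
        have h4 := le_one_add_pow hn h2
        linarith
      exact mul_le_mul h1 (hBφ x hx) (norm_nonneg _) ((norm_nonneg _).trans h1)
    · exact ((hconst 1).add (H.int C hCc hCΩ)).mul_const Bφ
    · filter_upwards [hDf] with x hx
      by_cases hxS : en (f x) ∈ S
      · rw [hx hxS]
        simp
      · apply tendsto_const_nhds.congr'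
        filter_upwards [eta_tendsto_of_notMem hSn hcl hL hxS] with J hJ
        unfold cc
        rw [hJ]
        simp
  have hfinal := tendsto_nhds_unique hL2 (hR2.congr (fun J => (step1 J).symm))
  rw [setIntegral_eq_integral_of_forall_compl_eq_zero
    (fun x hx => by rw [hpd0 x hx, mul_zero])] at hfinal
  rw [hfinal]
  simp


end H248.BH.X3b

namespace H248.BH

export X3b (level_weak)

end H248.BH
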