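import Pool.Agent.H248.BH.Defs
import Pool.Agent.H248.BH.X3a
import Pool.Agent.H248.BH.X3b

set_option autoImplicit false
open MeasureTheory Metric Set Filter Topology
open scoped ENNReal NNReal ContDiff

namespace H248.BH.X3


open H248.ID







/-- X3. levels of `|f|` are not skipped -/
theorem level_lemma {n : ℕ} (hn : 1 ≤ n) {Ω : Set (E n)} {f : E n → E n}
    {Df : E n → Matrix (Fin n) (Fin n) ℝ} {K : ℝ} (H : QR Ω f Df K) {fc : E n → E n}
    (hfc : ContinuousOn fc (closure Ω)) (hff : ∀ x ∈ Ω, f x = fc x) {x0 : E n} {r L m : ℝ}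
    (hr : 0 < r) (hL : 0 < L) (hfr : ∀ x ∈ frontier Ω, en (x - x0) ≤ r → en (fc x) < L)
    (hx0 : x0 ∈ Ω → en (fc x0) < L) {x1 : E n} (hx1 : x1 ∈ Ω) (hx1r : en (x1 - x0) ≤ r)
    (hx1m : m ≤ en (fc x1)) {S : Set ℝ} (hS : IsCompact S) (hSLm : S ⊆ Icc L m)
    (h0 : ∀ᵐ x ∂(volume.restrict Ω), en (x - x0) < r → en (f x) ∈ S → Df x = 0) :
    volume S = 0 := by
  rcases S.eq_empty_or_nonempty with hSe | ⟨t0, ht0⟩
  · rw [hSe]; simp
  have hLm : L ≤ m := le_trans (hSLm ht0).1 (hSLm ht0).2
  have hSfin : volume S < ⊤ := hS.measure_lt_top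
  obtain ⟨g, hg⟩ : ∃ g : ℝ → ℝ, g = fun t => (volume (S ∩ Iic t)).toReal := ⟨_, rfl⟩
  have hfin : ∀ t, volume (S ∩ Iic t) ≠ ⊤ := fun t =>
    ne_top_of_le_ne_top hSfin.ne (measure_mono inter_subset_left)
  have hgmono : Monotone g := by
    intro s t hst
    rw [hg]
    exact ENNReal.toReal_mono (hfin t) (measure_mono (inter_subset_inter_right _ (Iic_subset_Iic.2 hst)))
  have hgadd : ∀ s t, s ≤ t → g t ≤ g s + (t - s) := by
    intro s t hst
    rw [hg]
    have h1 : volume (S ∩ Iic t) ≤ volume (S ∩ Iic s) + volume (Ioc s t) := by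
      refine le_trans (measure_mono ?_) (measure_union_le _ _)
      rintro x ⟨hxS, hxt⟩
      rcases le_or_gt x s with h | h
      · exact Or.inl ⟨hxS, h⟩
      · exact Or.inr ⟨h, hxt⟩
    have h2 := ENNReal.toReal_mono (by
      rw [Real.volume_Ioc]
      exact ENNReal.add_ne_top.2 ⟨hfin s, ENNReal.ofReal_ne_top⟩) h1
    rw [ENNReal.toReal_add (hfin s) (by rw [Real.volume_Ioc]; exact ENNReal.ofReal_ne_top),
      Real.volume_Ioc, ENNReal.toReal_ofReal (by linarith)] at h2
    exact h2
  have hgc : Continuous g := by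
    have : LipschitzWith 1 g := by
      apply LipschitzWith.of_le_add
      intro x y
      rcases le_total x y with h | h
      · have := hgmono h
        have := dist_nonneg (x := x) (y := y)
        linarith
      · have h1 := hgadd y x h
        rw [Real.dist_eq, abs_of_nonneg (by linarith)]
        exact h1
    exact this.continuous
  have hg0 : ∀ t, t < L → g t = 0 := by
    intro t ht
    have : S ∩ Iic t = ∅ := by
      ext x
      simp only [mem_inter_iff, mem_Iic, mem_empty_iff_false, iff_false, not_and, not_le]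
      intro hx
      exact lt_of_lt_of_le ht (hSLm hx).1
    rw [hg]
    simp [this]
  have hg1 : ∀ t, m ≤ t → g t = (volume S).toReal := by
    intro t ht
    have : S ∩ Iic t = S := by
      apply inter_eq_left.2
      intro x hx
      exact le_trans (hSLm hx).2 ht
    rw [hg]
    simp [this]
  have henc : Continuous (fun x : E n => en x) := by
    unfold en toY
    exact continuous_norm.comp (PiLp.continuous_toLp 2 _)
  have hens : ∀ (c : ℝ) (x : E n), en (c • x) = |c| * en x := by
    intro c x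
    unfold en toY
    rw [WithLp.toLp_smul, norm_smul, Real.norm_eq_abs]
  have hen0 : ∀ x : E n, 0 ≤ en x := fun x => norm_nonneg _
  obtain ⟨U, hU⟩ : ∃ U : Set (E n), U = Ω ∩ {x | en (x - x0) < r} := ⟨_, rfl⟩
  have hUo : IsOpen U := by
    rw [hU]
    exact H.isOpen.inter (isOpen_lt (henc.comp (continuous_id.sub continuous_const)) continuous_const)
  have hvc : ContinuousOn (fun x => (volume (S ∩ Iic (en (f x)))).toReal) U := by
    have h1 : ContinuousOn (fun x => g (en (f x))) U := by
      refine hgc.comp_continuousOn (henc.comp_continuousOn (H.cont.mono ?_))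
      rw [hU]; exact inter_subset_left
    rw [hg] at h1
    exact h1
  have hloc : ∀ (a : E n) (ρ : ℝ), closedBall a ρ ⊆ U → ∀ x ∈ closedBall a ρ,
      g (en (f x)) = g (en (f a)) := by
    intro a ρ hρ x hx
    have h1 := weak_const hUo hvc (fun φ hφ hφc hφs j =>
      level_weak hn H hL hS hSLm h0 hφ hφc (by rw [hU] at hφs; exact hφs) j) hρ x hx
    rw [hg]
    exact h1
  -- the segment
  obtain ⟨γ, hγ⟩ : ∃ γ : ℝ → E n, γ = fun s => x1 + s • (x0 - x1) := ⟨_, rfl⟩
  have hγc : Continuous γ := by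
    rw [hγ]
    exact continuous_const.add (continuous_id.smul continuous_const)
  have hγ0 : γ 0 = x1 := by rw [hγ]; simp
  have hγ1 : γ 1 = x0 := by rw [hγ]; simp
  have hγe : ∀ s, en (γ s - x0) = |1 - s| * en (x1 - x0) := by
    intro s
    rw [← hens]
    congr 1
    rw [hγ]
    module
  obtain ⟨s1, hs0, hs1, hsΩ, hscl, hsL⟩ : ∃ s1 : ℝ, 0 < s1 ∧ s1 ≤ 1 ∧ (∀ s, 0 ≤ s → s < s1 → γ s ∈ Ω) ∧
      γ s1 ∈ closure Ω ∧ en (fc (γ s1)) < L := by
    obtain ⟨T, hT⟩ : ∃ T : Set ℝ, T = Icc 0 1 ∩ γ ⁻¹' Ωᶜ := ⟨_, rfl⟩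
    have hTc : IsCompact T := by
      rw [hT]
      exact isCompact_Icc.inter_right (H.isOpen.isClosed_compl.preimage hγc)
    rcases T.eq_empty_or_nonempty with hTe | hTn
    · have hall : ∀ s, 0 ≤ s → s ≤ 1 → γ s ∈ Ω := by
        intro s h1 h2
        by_contra hcon
        have : s ∈ T := by rw [hT]; exact ⟨⟨h1, h2⟩, hcon⟩
        rw [hTe] at this
        exact this
      have h1 : x0 ∈ Ω := by rw [← hγ1]; exact hall 1 zero_le_one le_rfl
      exact ⟨1, one_pos, le_rfl, fun s h1 h2 => hall s h1 h2.le, subset_closure (by rw [hγ1]; exact h1),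
        by rw [hγ1]; exact hx0 h1⟩
    · have hmem := hTc.sInf_mem hTn
      obtain ⟨s1, hs1⟩ : ∃ s1, s1 = sInf T := ⟨_, rfl⟩
      rw [← hs1] at hmem
      rw [hT] at hmem
      obtain ⟨⟨h01, h02⟩, h03⟩ := hmem
      have hpos : 0 < s1 := by
        rcases eq_or_lt_of_le h01 with h | h
        · exfalso
          rw [← h] at h03
          have : γ 0 ∉ Ω := h03
          rw [hγ0] at this
          exact this hx1
        · exact h
      have hlt : ∀ s, 0 ≤ s → s < s1 → γ s ∈ Ω := by
        intro s h1 h2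
        by_contra hcon
        have h3 : s ∈ T := by rw [hT]; exact ⟨⟨h1, by linarith⟩, hcon⟩
        have h4 := csInf_le hTc.bddBelow h3
        rw [← hs1] at h4
        linarith
      have hcl : γ s1 ∈ closure Ω := by
        have h1 : s1 ∈ closure (Ico 0 s1) := by
          rw [closure_Ico hpos.ne]
          exact ⟨hpos.le, le_rfl⟩
        have h2 := image_closure_subset_closure_image hγc (mem_image_of_mem γ h1)
        refine closure_mono ?_ h2
        rintro _ ⟨s, hs, rfl⟩
        exact hlt s hs.1 hs.2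
      refine ⟨s1, hpos, h02, hlt, hcl, ?_⟩
      apply hfr
      · rw [H.isOpen.frontier_eq]
        exact ⟨hcl, h03⟩
      · rw [hγe, abs_of_nonneg (by linarith)]
        have := hen0 (x1 - x0)
        nlinarith
  -- the function along the segment
  have hwc : ContinuousOn (fun s => g (en (fc (γ s)))) (Icc 0 s1) := by
    refine hgc.comp_continuousOn (henc.comp_continuousOn (hfc.comp hγc.continuousOn ?_))
    intro s hs
    rcases eq_or_lt_of_le hs.2 with h | h
    · rw [h]; exact hscl
    · exact subset_closure (hsΩ s hs.1 h)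
  have hwd : ∀ s ∈ Ioo 0 s1, HasDerivAt (fun s => g (en (fc (γ s)))) ((fun _ => (0 : ℝ)) s) s := by
    intro s hs
    have hsU : γ s ∈ U := by
      rw [hU]
      refine ⟨hsΩ s hs.1.le hs.2, ?_⟩
      show en (γ s - x0) < r
      rw [hγe, abs_of_nonneg (by linarith [hs.2])]
      have h1 := hen0 (x1 - x0)
      have h2 := hs.1
      nlinarith [hs.2]
    obtain ⟨ρ, hρ0, hρ⟩ := Metric.nhds_basis_closedBall.mem_iff.1 (hUo.mem_nhds hsU)
    have hev : (fun s => g (en (fc (γ s)))) =ᶠ[𝓝 s] fun _ => g (en (f (γ s))) := by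
      have h1 : ∀ᶠ s' in 𝓝 s, γ s' ∈ closedBall (γ s) ρ :=
        hγc.continuousAt.eventually (closedBall_mem_nhds _ hρ0)
      filter_upwards [h1] with s' hs'
      have h2 := hloc (γ s) ρ hρ (γ s') hs'
      have h3 : γ s' ∈ Ω := by
        have := hρ hs'
        rw [hU] at this
        exact this.1
      rw [← h2, hff _ h3]
    exact (hasDerivAt_const s _).congr_of_eventuallyEq hev
  obtain ⟨c, _, hc⟩ := exists_hasDerivAt_eq_slope (fun s => g (en (fc (γ s)))) (fun _ => 0) hs0 hwc hwd
  have hc' : g (en (fc (γ s1))) - g (en (fc (γ 0))) = 0 := by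
    have h1 : s1 - 0 ≠ 0 := by linarith
    field_simp at hc
    linarith
  rw [hγ0, hg1 _ hx1m, hg0 _ hsL] at hc'
  have h5 : (volume S).toReal = 0 := by linarith
  rcases (ENNReal.toReal_eq_zero_iff _).1 h5 with h | h
  · exact h
  · exact absurd h hSfin.ne


end H248.BH.X3

namespace H248.BH

export X3 (level_lemma)

end H248.BH
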