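import Pool.Agent.H248.BH.Defs
import Pool.Agent.H248.BH.B01
import Pool.Agent.H248.BH.B02
import Pool.Agent.H248.BH.X3

set_option autoImplicit false
open MeasureTheory Metric Set Filter Topology
open scoped ENNReal NNReal ContDiff

namespace H248.BH.G4


open H248.ID







theorem gl_norm {n : ℕ} (s : ℝ) (hs : 0 < s) (θ : sphere (0 : Y n) 1) : ‖s • (θ : Y n)‖ = s := by
  rw [norm_smul, Real.norm_eq_abs, abs_of_pos hs, norm_eq_of_mem_sphere θ, mul_one]

theorem gl_fact {n : ℕ} {x0 : E n} {r M β : ℝ} (hr : 0 < r) (hM : 0 < M) (hβ : 0 < β) {x y : E n}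
    (hx : en (x - x0) < r) (hy : 0 < en y) :
    Real.log (en y / (2 * M * r ^ β)) / β - Real.log 2 / 2 ≤ ex x0 r M β x y := by
  unfold ex
  refine le_trans ?_ (le_max_left _ _)
  have hrb : 0 < r ^ β := Real.rpow_pos_of_pos hr β
  have e1 : Real.log (en y / (2 * M * r ^ β)) / β = Real.log (en y / (2 * M)) / β - Real.log r := by
    rw [← div_div, Real.log_div (by positivity) hrb.ne', Real.log_rpow hr]
    field_simp
  have e2 : Real.log (en y / (2 * M)) ≤ Real.log (max (en y / (2 * M)) (r ^ β)) :=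
    Real.log_le_log (by positivity) (le_max_left _ _)
  have h0 : 0 ≤ en (x - x0) := norm_nonneg _
  have e3 : Real.log (r ^ 2 + en (x - x0) ^ 2) ≤ Real.log 2 + 2 * Real.log r := by
    have h1 : r ^ 2 + en (x - x0) ^ 2 ≤ 2 * r ^ 2 := by nlinarith
    calc Real.log (r ^ 2 + en (x - x0) ^ 2) ≤ Real.log (2 * r ^ 2) :=
          Real.log_le_log (by positivity) h1
      _ = _ := by rw [Real.log_mul (by norm_num) (by positivity), Real.log_pow]; push_cast; ring
  have e4 := div_le_div_of_nonneg_right e2 hβ.le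
  rw [e1]; linarith

/-- the comparison function -/
noncomputable def glk (L β t : ℝ) : ℝ :=
  if L ≤ t then max (Real.log (t / L) / β - Real.log 2 / 2) 0 else 0

theorem glk_nonneg (L β t : ℝ) : 0 ≤ glk L β t := by
  unfold glk; split_ifs
  · exact le_max_right _ _
  · exact le_rfl

theorem glk_meas (L β : ℝ) : Measurable (glk L β) := by
  unfold glk
  refine Measurable.ite measurableSet_Ici ?_ measurable_const
  fun_prop

theorem glk_le {L β t k : ℝ} (hL : 0 < L) (hβ : 0 < β) (htk : t ≤ k) (hk : 0 ≤ k) :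
    glk L β t ≤ k / L / β := by
  unfold glk
  split_ifs with h
  · apply max_le _ (by positivity)
    have ht : 0 < t := lt_of_lt_of_le hL h
    have h1 : Real.log (t / L) ≤ t / L := Real.log_le_self (by positivity)
    have h2 : t / L ≤ k / L := div_le_div_of_nonneg_right htk hL.le
    have h3 : Real.log (t / L) / β ≤ k / L / β := div_le_div_of_nonneg_right (by linarith) hβ.le
    have h4 : 0 < Real.log 2 := Real.log_pos (by norm_num)
    linarith
  · positivity

theorem glk_ex {n : ℕ} {x0 : E n} {r M β : ℝ} (hr : 0 < r) (hM : 0 < M) (hβ : 0 < β) {x y : E n}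
    (hx : en (x - x0) < r) : glk (2 * M * r ^ β) β (en y) ≤ ex x0 r M β x y := by
  have hrb : 0 < r ^ β := Real.rpow_pos_of_pos hr β
  have h0 : 0 ≤ ex x0 r M β x y := le_max_right _ _
  unfold glk
  split_ifs with h
  · apply max_le _ h0
    exact gl_fact hr hM hβ hx (lt_of_lt_of_le (by positivity) h)
  · exact h0

/-- comparison of the densities -/
theorem gl_dom {n : ℕ} (hn : n ≠ 0) {X : Type*} [MeasurableSpace X] {μ : Measure X} {A : Set X}
    (hA : MeasurableSet A) {g : X → Y n} (hg : Measurable g)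
    {e J : X → ℝ} (hem : Measurable e) (hJi : Integrable J μ) (he0 : ∀ x, 0 ≤ e x)
    (hJ0 : ∀ x, 0 ≤ J x) (heb : ∃ B, ∀ x, e x ≤ B) {F N : Y n → ℝ} (hFm : Measurable F)
    (hFi : Integrable F) (hNm : Measurable N) (hNi : Integrable N)
    (hF : ∀ ψ : Y n → ℝ, Measurable ψ → (∃ B, ∀ y, |ψ y| ≤ B) →
      ∫ x, ψ (g x) * (e x ^ n * J x) ∂μ = ∫ y, ψ y * F y)
    (hN : ∀ ψ : Y n → ℝ, Measurable ψ → (∃ B, ∀ y, |ψ y| ≤ B) →
      ∫ x in A, ψ (g x) * J x ∂μ = ∫ y, ψ y * N y)
    {kap : ℝ → ℝ} (hkm : Measurable kap) (hk0 : ∀ t, 0 ≤ kap t)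
    (hkb : ∀ k : ℕ, ∃ B : ℝ, ∀ t ≤ (k : ℝ), kap t ≤ B) (hke : ∀ x ∈ A, kap ‖g x‖ ≤ e x) :
    ∀ᵐ y, kap ‖y‖ ^ n * N y ≤ F y := by
  have key : ∀ k : ℕ, ∀ᵐ y : Y n, ‖y‖ ≤ k → kap ‖y‖ ^ n * N y ≤ F y := by
    intro k
    obtain ⟨B, hB⟩ := hkb k
    obtain ⟨Be, hBe⟩ := heb
    have hkm' : Measurable fun y : Y n => kap ‖y‖ ^ n := (hkm.comp measurable_norm).pow_const n
    set T : Set (Y n) := {y | ‖y‖ ≤ k ∧ F y < kap ‖y‖ ^ n * N y} with hT
    have hTm : MeasurableSet T :=
      (measurableSet_le measurable_norm measurable_const).inter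
        (measurableSet_lt hFm (hkm'.mul hNm))
    have hBk : ∀ y ∈ T, kap ‖y‖ ^ n ≤ B ^ n := fun y hy =>
      pow_le_pow_left₀ (hk0 _) (hB _ hy.1) n
    set ψ : Y n → ℝ := T.indicator 1 with hψ
    set φ : Y n → ℝ := T.indicator (fun y => kap ‖y‖ ^ n) with hφ
    have hψm : Measurable ψ := measurable_one.indicator hTm
    have hφm : Measurable φ := hkm'.indicator hTm
    have hψb : ∀ y, |ψ y| ≤ 1 := by
      intro y
      by_cases hy : y ∈ T
      · rw [hψ, Set.indicator_of_mem hy]; simp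
      · rw [hψ, Set.indicator_of_notMem hy]; simp
    have hφb : ∀ y, |φ y| ≤ |B ^ n| := by
      intro y
      by_cases hy : y ∈ T
      · rw [hφ, Set.indicator_of_mem hy, abs_of_nonneg (pow_nonneg (hk0 _) n)]
        exact le_trans (hBk y hy) (le_abs_self _)
      · rw [hφ, Set.indicator_of_notMem hy]; simp
    have hψ0 : ∀ y, 0 ≤ ψ y := fun y => Set.indicator_nonneg (fun _ _ => zero_le_one) y
    have h1 := hF ψ hψm ⟨1, hψb⟩
    have h2 := hN φ hφm ⟨_, hφb⟩
    have hint1 : Integrable (fun x => ψ (g x) * (e x ^ n * J x)) μ := by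
      have i1 : Integrable (fun x => e x ^ n * J x) μ := by
        refine hJi.bdd_mul (c := Be ^ n) (hem.pow_const n).aestronglyMeasurable ?_
        refine Eventually.of_forall fun x => ?_
        rw [Real.norm_eq_abs, abs_of_nonneg (pow_nonneg (he0 x) n)]
        exact pow_le_pow_left₀ (he0 x) (hBe x) n
      refine i1.bdd_mul (c := 1) (hψm.comp hg).aestronglyMeasurable ?_
      exact Eventually.of_forall fun x => hψb _
    have hint2 : Integrable (fun x => φ (g x) * J x) μ := by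
      refine hJi.bdd_mul (c := |B ^ n|) (hφm.comp hg).aestronglyMeasurable ?_
      exact Eventually.of_forall fun x => hφb _
    have hintF : Integrable (fun y => ψ y * F y) :=
      hFi.bdd_mul (c := 1) hψm.aestronglyMeasurable (Eventually.of_forall fun x => hψb _)
    have hintN : Integrable (fun y => φ y * N y) :=
      hNi.bdd_mul (c := |B ^ n|) hφm.aestronglyMeasurable (Eventually.of_forall fun x => hφb _)
    have h3 : ∫ x in A, φ (g x) * J x ∂μ ≤ ∫ x, ψ (g x) * (e x ^ n * J x) ∂μ := by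
      calc ∫ x in A, φ (g x) * J x ∂μ ≤ ∫ x in A, ψ (g x) * (e x ^ n * J x) ∂μ := by
            refine setIntegral_mono_on hint2.integrableOn hint1.integrableOn hA ?_
            intro x hx
            rw [← mul_assoc]
            refine mul_le_mul_of_nonneg_right ?_ (hJ0 x)
            by_cases hy : g x ∈ T
            · rw [hφ, hψ, Set.indicator_of_mem hy, Set.indicator_of_mem hy, Pi.one_apply, one_mul]
              exact pow_le_pow_left₀ (hk0 _) (hke x hx) n
            · rw [hφ, hψ, Set.indicator_of_notMem hy, Set.indicator_of_notMem hy, zero_mul]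
        _ ≤ _ := setIntegral_le_integral hint1
            (Eventually.of_forall fun x => mul_nonneg (hψ0 _) (mul_nonneg (pow_nonneg (he0 x) n) (hJ0 x)))
    rw [h1, h2] at h3
    have h4 : ∀ y, φ y * N y - ψ y * F y = T.indicator (fun y => kap ‖y‖ ^ n * N y - F y) y := by
      intro y
      by_cases hy : y ∈ T
      · rw [hφ, hψ, Set.indicator_of_mem hy, Set.indicator_of_mem hy, Set.indicator_of_mem hy,
          Pi.one_apply, one_mul]
      · rw [hφ, hψ, Set.indicator_of_notMem hy, Set.indicator_of_notMem hy,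
          Set.indicator_of_notMem hy, zero_mul, zero_mul, sub_zero]
    have h5 : ∀ y, 0 ≤ φ y * N y - ψ y * F y := by
      intro y
      rw [h4]
      exact Set.indicator_nonneg (fun z hz => by linarith [hz.2]) y
    have h6 : ∫ y, (φ y * N y - ψ y * F y) = 0 := by
      apply le_antisymm
      · rw [integral_sub hintN hintF]; linarith
      · exact integral_nonneg h5
    rw [integral_eq_zero_iff_of_nonneg h5 (hintN.sub hintF)] at h6
    filter_upwards [h6] with y hy hyk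
    by_contra hcon
    have hyT : y ∈ T := ⟨hyk, not_le.mp hcon⟩
    have h7 := h4 y
    rw [Set.indicator_of_mem hyT] at h7
    have h8 : φ y * N y - ψ y * F y = 0 := hy
    have := hyT.2
    linarith
  rw [← ae_all_iff] at key
  filter_upwards [key] with y hy
  exact hy ⌈‖y‖⌉₊ (Nat.le_ceil _)

theorem gl_zero {n : ℕ} (hn : 1 ≤ n) {NA : Y n → ℝ} (hi : Integrable NA)
    {S : Set ℝ} (hS : MeasurableSet S)
    (h : ∀ s ∈ S, ∀ᵐ (θ : sphere (0 : Y n) 1) ∂(sph n), NA (s • (θ : Y n)) = 0) :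
    ∫ y, ({y : Y n | ‖y‖ ∈ S}.indicator 1 y) * NA y = 0 := by
  have hSm : MeasurableSet {y : Y n | ‖y‖ ∈ S} := measurable_norm hS
  have hb : ∀ y : Y n, ‖({y : Y n | ‖y‖ ∈ S}.indicator (1 : Y n → ℝ) y)‖ ≤ 1 := by
    intro y
    by_cases hy : y ∈ {y : Y n | ‖y‖ ∈ S}
    · rw [Set.indicator_of_mem hy]; simp
    · rw [Set.indicator_of_notMem hy]; simp
  have hint : Integrable (fun y : Y n => ({y : Y n | ‖y‖ ∈ S}.indicator (1 : Y n → ℝ) y) * NA y) :=
    hi.bdd_mul (c := 1) (measurable_one.indicator hSm).aestronglyMeasurable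
      (Eventually.of_forall hb)
  rw [(polar_integral hn hint).2.2]
  have h0 : ∀ s ∈ Ioi (0 : ℝ), s ^ (n - 1) *
      Av (fun y : Y n => ({y : Y n | ‖y‖ ∈ S}.indicator (1 : Y n → ℝ) y) * NA y) s = 0 := by
    intro s hs
    have h1 : Av (fun y : Y n => ({y : Y n | ‖y‖ ∈ S}.indicator (1 : Y n → ℝ) y) * NA y) s = 0 := by
      unfold Av
      have h2 : ∫ θ : sphere (0 : Y n) 1, ({y : Y n | ‖y‖ ∈ S}.indicator (1 : Y n → ℝ)
          (s • (θ : Y n))) * NA (s • (θ : Y n)) ∂(sph n) = 0 := by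
        apply integral_eq_zero_of_ae
        by_cases hsS : s ∈ S
        · filter_upwards [h s hsS] with θ hθ
          rw [hθ, mul_zero]; rfl
        · refine Eventually.of_forall fun θ => ?_
          have : s • (θ : Y n) ∉ {y : Y n | ‖y‖ ∈ S} := by
            intro hh
            have hh' : ‖s • (θ : Y n)‖ ∈ S := hh
            rw [gl_norm s hs θ] at hh'
            exact hsS hh'
          show _ * _ = (0 : ℝ)
          rw [Set.indicator_of_notMem this, zero_mul]
      rw [h2, mul_zero]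
    rw [h1, mul_zero]
  rw [setIntegral_congr_fun measurableSet_Ioi h0]
  simp

theorem gl_meas {n : ℕ} {NA : Y n → ℝ} (hm : Measurable NA) :
    MeasurableSet {s : ℝ | ∀ᵐ (θ : sphere (0 : Y n) 1) ∂(sph n), NA (s • (θ : Y n)) = 0} := by
  haveI : IsFiniteMeasure (sph n) := by unfold sph; infer_instance
  have h1 : Measurable fun p : ℝ × sphere (0 : Y n) 1 => ‖NA (p.1 • (p.2 : Y n))‖ₑ := by
    apply Measurable.enorm
    apply hm.comp
    exact measurable_fst.smul (measurable_subtype_coe.comp measurable_snd)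
  have h2 : Measurable fun s : ℝ => ∫⁻ θ : sphere (0 : Y n) 1, ‖NA (s • (θ : Y n))‖ₑ ∂(sph n) :=
    h1.lintegral_prod_right'
  have h3 : {s : ℝ | ∀ᵐ (θ : sphere (0 : Y n) 1) ∂(sph n), NA (s • (θ : Y n)) = 0} =
      {s : ℝ | ∫⁻ θ : sphere (0 : Y n) 1, ‖NA (s • (θ : Y n))‖ₑ ∂(sph n) = 0} := by
    ext s
    have h4 : Measurable fun θ : sphere (0 : Y n) 1 => ‖NA (s • (θ : Y n))‖ₑ :=
      h1.comp measurable_prodMk_left
    show (∀ᵐ (θ : sphere (0 : Y n) 1) ∂(sph n), NA (s • (θ : Y n)) = 0) ↔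
      ∫⁻ θ : sphere (0 : Y n) 1, ‖NA (s • (θ : Y n))‖ₑ ∂(sph n) = 0
    rw [MeasureTheory.lintegral_eq_zero_iff h4]
    constructor
    · intro h
      filter_upwards [h] with θ hθ
      rw [hθ]; simp
    · intro h
      filter_upwards [h] with θ hθ
      simpa using hθ
  rw [h3]
  exact h2 (measurableSet_singleton 0)



/-- G4. the lower bound for the averages -/
theorem growth_lower {n : ℕ} (hn : 2 ≤ n) {Ω : Set (E n)} {f : E n → E n}
    {Df : E n → Matrix (Fin n) (Fin n) ℝ} {K : ℝ} (H : QR Ω f Df K) {fc : E n → E n}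
    (hfc : ContinuousOn fc (closure Ω)) (hff : ∀ x ∈ Ω, f x = fc x) {x0 x1 : E n}
    {r M β Cm : ℝ} (hr : 0 < r) (hM : 0 < M) (hβ : 0 < β) (hβ1 : β ≤ 1) (hCm : 0 < Cm)
    (hfr : ∀ x ∈ frontier Ω, en (x - x0) ≤ r → en (fc x) ≤ M * r ^ β)
    (hx0 : x0 ∈ Ω → fc x0 = 0) (hx1 : x1 ∈ Ω) (hx1r : en (x1 - x0) ≤ r)
    {C : Set (E n)} (hC : IsCompact C) (hCΩ : C ⊆ Ω)
    (hz : ∀ x ∈ Ω, en (x - x0) < r → x ∉ C → ex x0 r M β x (f x) = 0)
    {e J z : E n → ℝ} {w : E n → Y n} {F G N Z : Y n → ℝ}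
    (P : Push n (volume.restrict C) (fun x => toY (f x)) e J z w (2 * M * r ^ β) β)
    (D : Dens n (volume.restrict C) (fun x => toY (f x)) e J z F G N Z)
    (he : ∀ x ∈ C, e x = ex x0 r M β x (f x))
    (hJ : ∀ᵐ x ∂(volume.restrict C), J x = (Df x).det)
    (hint : ∀ A : Set (E n), MeasurableSet A → A ⊆ C →
      ∃ NA : Y n → ℝ, Measurable NA ∧ Integrable NA ∧ (∀ y, NA y = 0 ∨ 1 ≤ NA y) ∧
        ∀ ψ : Y n → ℝ, Measurable ψ → (∃ B, ∀ y, |ψ y| ≤ B) →
          ∫ x in A, ψ (toY (f x)) * (Df x).det = ∫ y, ψ y * NA y)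
    (hosc : ∀ᵐ y, |F y ^ (1 / (n : ℝ)) - Av (fun y => F y ^ (1 / (n : ℝ))) ‖y‖| ^ n ≤
      Cm * (‖y‖ ^ n * Av Z ‖y‖)) :
    ∀ᵐ s ∂(volume.restrict (Ioo 0 (en (fc x1)))),
      Real.log (s / (2 * M * r ^ β)) / β - 1 - (Cm * (s ^ n * Av Z s)) ^ (1 / (n : ℝ)) ≤
        Av (fun y => F y ^ (1 / (n : ℝ))) s := by
  have hrb : 0 < r ^ β := Real.rpow_pos_of_pos hr β
  obtain ⟨L, hLdef⟩ : ∃ L : ℝ, L = 2 * M * r ^ β := ⟨_, rfl⟩
  have hL : 0 < L := by rw [hLdef]; positivity
  obtain ⟨m, hm⟩ : ∃ m : ℝ, m = en (fc x1) := ⟨_, rfl⟩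
  have hn1 : 1 ≤ n := by omega
  have hn0 : n ≠ 0 := by omega
  have hnR : (n : ℝ) ≠ 0 := by exact_mod_cast hn0
  have hlog2 : 0 < Real.log 2 := Real.log_pos (by norm_num)
  have hlog2' : Real.log 2 < 0.6931471808 := Real.log_two_lt_d9
  have hCm' : MeasurableSet C := hC.isClosed.measurableSet
  have henm : Measurable fun x : E n => en (x - x0) := by
    unfold en toY
    fun_prop
  have hefm : Measurable fun x : E n => en (f x) := P.meas_f.norm
  obtain ⟨A, hAdef⟩ : ∃ A : Set (E n), A = C ∩ {x | en (x - x0) < r} := ⟨_, rfl⟩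
  have hA : MeasurableSet A := by
    rw [hAdef]; exact hCm'.inter (measurableSet_lt henm measurable_const)
  have hAC : A ⊆ C := by rw [hAdef]; exact Set.inter_subset_left
  obtain ⟨NA, hNm, hNi, hN01, hNint⟩ := hint A hA hAC
  have hrest : (volume.restrict C).restrict A = volume.restrict A := by
    rw [Measure.restrict_restrict hA, Set.inter_eq_left.mpr hAC]
  have hJA : ∀ᵐ x ∂(volume.restrict A), J x = (Df x).det := ae_restrict_of_ae_restrict_of_subset hAC hJ
  have hNint' : ∀ ψ : Y n → ℝ, Measurable ψ → (∃ B, ∀ y, |ψ y| ≤ B) →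
      ∫ x in A, ψ (toY (f x)) * J x ∂(volume.restrict C) = ∫ y, ψ y * NA y := by
    intro ψ h1 h2
    rw [hrest, ← hNint ψ h1 h2]
    apply integral_congr_ae
    filter_upwards [hJA] with x hx
    rw [hx]
  -- Step 1
  have step1 : volume {s : ℝ | s ∈ Ioo 0 m ∧ Real.log 2 / 2 < Real.log (s / L) / β ∧
      ∀ᵐ (θ : sphere (0 : Y n) 1) ∂(sph n), NA (s • (θ : Y n)) = 0} = 0 := by
    by_contra hcon
    set B0 : Set ℝ := {s : ℝ | s ∈ Ioo 0 m ∧ Real.log 2 / 2 < Real.log (s / L) / β ∧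
      ∀ᵐ (θ : sphere (0 : Y n) 1) ∂(sph n), NA (s • (θ : Y n)) = 0} with hB0
    have hB0m : MeasurableSet B0 := by
      have hlm : Measurable fun s : ℝ => Real.log (s / L) / β := by fun_prop
      exact measurableSet_Ioo.inter (MeasurableSet.inter (measurableSet_lt measurable_const hlm)
        (gl_meas hNm))
    have hB0f : volume B0 ≠ ⊤ := by
      refine ne_top_of_le_ne_top ?_ (measure_mono (fun s hs => hs.1 : B0 ⊆ Ioo 0 m))
      simp
    obtain ⟨S, hSB, hS, hSpos⟩ := hB0m.exists_lt_isCompact_of_ne_top hB0f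
      (pos_iff_ne_zero.mpr hcon)
    have hSm : MeasurableSet S := hS.isClosed.measurableSet
    have hSL : ∀ s ∈ S, L < s := by
      intro s hs
      obtain ⟨h1, h2, -⟩ := hSB hs
      have h3 : 0 < Real.log (s / L) := by
        by_contra hh
        have : Real.log (s / L) / β ≤ 0 := div_nonpos_of_nonpos_of_nonneg (not_lt.mp hh) hβ.le
        linarith
      by_contra hh
      have h4 : s / L ≤ 1 := by rw [div_le_one hL]; exact not_lt.mp hh
      have h5 := Real.log_nonpos (div_nonneg h1.1.le hL.le) h4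
      linarith
    have hzero := gl_zero hn1 hNi hSm (fun s hs => (hSB hs).2.2)
    have hψm : Measurable ({y : Y n | ‖y‖ ∈ S}.indicator (1 : Y n → ℝ)) :=
      measurable_one.indicator (measurable_norm hSm)
    have hψb : ∀ y : Y n, |({y : Y n | ‖y‖ ∈ S}.indicator (1 : Y n → ℝ) y)| ≤ 1 := by
      intro y
      by_cases hy : y ∈ {y : Y n | ‖y‖ ∈ S}
      · rw [Set.indicator_of_mem hy]; simp
      · rw [Set.indicator_of_notMem hy]; simp
    have h1 := hNint' _ hψm ⟨1, hψb⟩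
    rw [hzero, hrest] at h1
    have hJiA : Integrable J (volume.restrict A) := by
      rw [← hrest]; exact P.J_int.restrict
    have hψ0 : ∀ y : Y n, 0 ≤ ({y : Y n | ‖y‖ ∈ S}.indicator (1 : Y n → ℝ) y) :=
      fun y => Set.indicator_nonneg (fun _ _ => zero_le_one) y
    have h2 : (fun x => ({y : Y n | ‖y‖ ∈ S}.indicator (1 : Y n → ℝ) (toY (f x))) * J x)
        =ᵐ[volume.restrict A] 0 := by
      rw [integral_eq_zero_iff_of_nonneg (fun x => mul_nonneg (hψ0 _) (P.J_nonneg x))] at h1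
      · exact h1
      · exact hJiA.bdd_mul (c := 1) (hψm.comp P.meas_f).aestronglyMeasurable
          (Eventually.of_forall fun x => hψb _)
    have hAΩ : A ⊆ Ω := hAC.trans hCΩ
    have h3 : ∀ᵐ x ∂(volume.restrict A), en (f x) ∈ S → Df x = 0 := by
      filter_upwards [h2, hJA, ae_restrict_of_ae_restrict_of_subset hAΩ H.pos] with x hx1' hx2 hx3 hx4
      apply hx3.2
      have h5 : toY (f x) ∈ {y : Y n | ‖y‖ ∈ S} := hx4
      have h6 : ({y : Y n | ‖y‖ ∈ S}.indicator (1 : Y n → ℝ) (toY (f x))) * J x = 0 := hx1'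
      rw [Set.indicator_of_mem h5, Pi.one_apply, one_mul] at h6
      rw [← hx2]; exact h6
    have h4 : ∀ᵐ x ∂(volume.restrict Ω), en (x - x0) < r → en (f x) ∈ S → Df x = 0 := by
      rw [ae_restrict_iff' hA] at h3
      rw [ae_restrict_iff' H.isOpen.measurableSet]
      filter_upwards [h3] with x hx hxΩ hxr hxS
      by_cases hxC : x ∈ C
      · refine hx ?_ hxS
        rw [hAdef]; exact ⟨hxC, hxr⟩
      · exfalso
        have h5 := hz x hxΩ hxr hxC
        have h6 := gl_fact (x := x) (y := f x) hr hM hβ hxr (lt_trans hL (hSL _ hxS))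
        rw [← hLdef, h5] at h6
        have h7 := (hSB hxS).2.1
        linarith
    have h5 := level_lemma hn1 H hfc hff (x0 := x0) (r := r) (L := L) (m := m) hr hL ?_ ?_ hx1 hx1r
      (le_of_eq hm) hS ?_ h4
    · rw [h5] at hSpos
      exact lt_irrefl _ hSpos
    · intro x hx hxr
      refine lt_of_le_of_lt (hfr x hx hxr) ?_
      rw [hLdef]
      nlinarith [mul_pos hM hrb]
    · intro hh
      rw [hx0 hh]
      have : en (0 : E n) = 0 := by unfold en toY; simp
      rw [this]; exact hL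
    · intro s hs
      exact ⟨(hSL s hs).le, (hSB hs).1.2.le⟩
  -- Step 2
  have step2 : ∀ᵐ y : Y n, glk L β ‖y‖ ^ n * NA y ≤ F y := by
    refine gl_dom (μ := volume.restrict C) (A := A) hn0 hA P.meas_f P.meas_e P.J_int P.e_nonneg
      P.J_nonneg P.e_bdd D.meas_F D.F_int hNm hNi D.hF hNint' (glk_meas L β) (glk_nonneg L β) ?_ ?_
    · intro k
      exact ⟨(k : ℝ) / L / β, fun t ht => glk_le hL hβ ht (Nat.cast_nonneg k)⟩
    · intro x hx
      rw [he x (hAC hx), hLdef]
      rw [hAdef] at hx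
      exact glk_ex hr hM hβ hx.2
  -- Step 3
  have hp2 := polar_ae hn1 step2
  have hp3 := polar_ae hn1 hosc
  have hsub : Ioo 0 (en (fc x1)) ⊆ Ioi 0 := fun s hs => hs.1
  have hp4 : ∀ᵐ s ∂(volume.restrict (Ioo 0 (en (fc x1)))), ¬ (s ∈ Ioo 0 m ∧
      Real.log 2 / 2 < Real.log (s / L) / β ∧
      ∀ᵐ (θ : sphere (0 : Y n) 1) ∂(sph n), NA (s • (θ : Y n)) = 0) := by
    apply ae_restrict_of_ae
    rw [ae_iff]
    simpa only [not_not] using step1
  filter_upwards [ae_restrict_of_ae_restrict_of_subset hsub hp2,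
    ae_restrict_of_ae_restrict_of_subset hsub hp3, hp4, ae_restrict_mem measurableSet_Ioo]
    with s hs2 hs3 hs4 hs
  have hs0 : 0 < s := hs.1
  rw [← hLdef]
  have hZ : 0 ≤ Av Z s := by
    unfold Av
    exact mul_nonneg (inv_nonneg.mpr (om_pos hn1).le) (integral_nonneg fun θ => D.Z_nonneg _)
  have hF1 : 0 ≤ Av (fun y => F y ^ (1 / (n : ℝ))) s := by
    unfold Av
    exact mul_nonneg (inv_nonneg.mpr (om_pos hn1).le)
      (integral_nonneg fun θ => Real.rpow_nonneg (D.F_nonneg _) _)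
  have hQ : 0 ≤ Cm * (s ^ n * Av Z s) := by positivity
  have hQ' : 0 ≤ (Cm * (s ^ n * Av Z s)) ^ (1 / (n : ℝ)) := Real.rpow_nonneg hQ _
  by_cases hc : Real.log (s / L) / β ≤ Real.log 2 / 2
  · linarith
  · have hc' := not_le.mp hc
    have h1 : ¬ ∀ᵐ (θ : sphere (0 : Y n) 1) ∂(sph n), NA (s • (θ : Y n)) = 0 := by
      intro hh
      exact hs4 ⟨⟨hs0, by rw [hm]; exact hs.2⟩, hc', hh⟩
    have h2 : ∃ᶠ (θ : sphere (0 : Y n) 1) in ae (sph n), ¬ NA (s • (θ : Y n)) = 0 := by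
      intro hh
      apply h1
      filter_upwards [hh] with θ hθ
      exact not_not.mp hθ
    obtain ⟨θ, hθ1, hθ2, hθ3⟩ := (h2.and_eventually (hs2.and hs3)).exists
    have hNge : 1 ≤ NA (s • (θ : Y n)) := (hN01 _).resolve_left hθ1
    rw [gl_norm s hs0 θ] at hθ2 hθ3
    obtain ⟨κ, hκ⟩ : ∃ κ : ℝ, κ = Real.log (s / L) / β - Real.log 2 / 2 := ⟨_, rfl⟩
    have hκ0 : 0 < κ := by rw [hκ]; linarith
    have hLs : L ≤ s := by
      by_contra hh
      have h4 : s / L ≤ 1 := by rw [div_le_one hL]; exact (not_le.mp hh).le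
      have h5 := Real.log_nonpos (div_nonneg hs0.le hL.le) h4
      have : Real.log (s / L) / β ≤ 0 := div_nonpos_of_nonpos_of_nonneg h5 hβ.le
      linarith
    have hgk : glk L β s = κ := by
      unfold glk
      rw [if_pos hLs, ← hκ, max_eq_left hκ0.le]
    rw [hgk] at hθ2
    have h3 : κ ^ n ≤ F (s • (θ : Y n)) := by
      refine le_trans ?_ hθ2
      have := pow_pos hκ0 n
      nlinarith
    have h4 : κ ≤ F (s • (θ : Y n)) ^ (1 / (n : ℝ)) := by
      have h5 : (κ ^ n) ^ (1 / (n : ℝ)) ≤ F (s • (θ : Y n)) ^ (1 / (n : ℝ)) :=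
        Real.rpow_le_rpow (pow_nonneg hκ0.le n) h3 (by positivity)
      have h6 : (κ ^ n) ^ (1 / (n : ℝ)) = κ := by
        rw [← Real.rpow_natCast, ← Real.rpow_mul hκ0.le, mul_one_div_cancel hnR, Real.rpow_one]
      rw [h6] at h5
      exact h5
    have h5 : |F (s • (θ : Y n)) ^ (1 / (n : ℝ)) - Av (fun y => F y ^ (1 / (n : ℝ))) s| ≤
        (Cm * (s ^ n * Av Z s)) ^ (1 / (n : ℝ)) := by
      have h6 := Real.rpow_le_rpow (pow_nonneg (abs_nonneg _) n) hθ3 (show 0 ≤ 1 / (n : ℝ) by positivity)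
      have h7 : (|F (s • (θ : Y n)) ^ (1 / (n : ℝ)) - Av (fun y => F y ^ (1 / (n : ℝ))) s| ^ n) ^
          (1 / (n : ℝ)) = |F (s • (θ : Y n)) ^ (1 / (n : ℝ)) - Av (fun y => F y ^ (1 / (n : ℝ))) s| := by
        rw [← Real.rpow_natCast, ← Real.rpow_mul (abs_nonneg _), mul_one_div_cancel hnR, Real.rpow_one]
      rw [h7] at h6
      exact h6
    have h6 := (abs_le.mp h5).2
    linarith



end H248.BH.G4

namespace H248.BH

export G4 (growth_lower)

end H248.BH
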