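import Pool.Agent.H248.BH.Defs

set_option autoImplicit false
open MeasureTheory Metric Set Filter Topology
open scoped ENNReal NNReal ContDiff

namespace H248.BH.O1


open H248.ID


/-! ### helpers for O1 -/

theorem o1_young_delta {κ : ℝ} (hκ : 0 < κ) (hκ1 : κ < 1) {a δ : ℝ} (ha : 0 ≤ a) (hδ : 0 < δ) :
    ∃ C : ℝ, 0 ≤ C ∧ ∀ y : ℝ, 0 ≤ y → (a * y) ^ κ ≤ δ * y + C := by
  have h1κ : 0 < 1 - κ := by linarith
  refine ⟨(1 - κ) * (a * κ / δ) ^ (κ / (1 - κ)), by positivity, ?_⟩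
  intro y hy
  have h := Real.geom_mean_le_arith_mean2_weighted (w₁ := κ) (w₂ := 1 - κ) (p₁ := δ * y / κ)
    (p₂ := (a * κ / δ) ^ (κ / (1 - κ))) hκ.le h1κ.le (by positivity) (by positivity) (by ring)
  have e1 : ((a * κ / δ) ^ (κ / (1 - κ))) ^ (1 - κ) = (a * κ / δ) ^ κ := by
    rw [← Real.rpow_mul (by positivity)]
    congr 1
    field_simp
  rw [e1, ← Real.mul_rpow (by positivity) (by positivity)] at h
  have e2 : δ * y / κ * (a * κ / δ) = a * y := by field_simp
  rw [e2] at h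
  have e3 : κ * (δ * y / κ) = δ * y := by field_simp
  rw [e3] at h
  exact h

theorem o1_young_special {n : ℕ} (hn : 2 ≤ n) {β : ℝ} (hβ : 0 < β) {y : ℝ} (hy : 0 ≤ y) :
    y ^ (1 / (n : ℝ)) ≤
      1 / (n : ℝ) * (β ^ ((n : ℝ) - 1) * y) + ((n : ℝ) - 1) / n * (1 / β) := by
  have hn2 : (2 : ℝ) ≤ n := by exact_mod_cast hn
  have hn0 : (0 : ℝ) < n := by linarith
  have hn1 : (0 : ℝ) ≤ (n : ℝ) - 1 := by linarith
  have hb : 0 < β ^ ((n : ℝ) - 1) := Real.rpow_pos_of_pos hβ _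
  have h := Real.geom_mean_le_arith_mean2_weighted (w₁ := 1 / (n : ℝ)) (w₂ := ((n : ℝ) - 1) / n)
    (p₁ := β ^ ((n : ℝ) - 1) * y) (p₂ := 1 / β) (by positivity) (by positivity) (by positivity)
    (by positivity) (by field_simp; ring)
  have e1 : (β ^ ((n : ℝ) - 1) * y) ^ (1 / (n : ℝ)) * (1 / β) ^ (((n : ℝ) - 1) / n) =
      y ^ (1 / (n : ℝ)) := by
    rw [Real.mul_rpow hb.le hy, ← Real.rpow_mul hβ.le, one_div β, Real.inv_rpow hβ.le]
    have : ((n : ℝ) - 1) * (1 / (n : ℝ)) = ((n : ℝ) - 1) / n := by ring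
    rw [this]
    have hb2 : 0 < β ^ (((n : ℝ) - 1) / n) := Real.rpow_pos_of_pos hβ _
    field_simp
  rw [e1] at h
  exact h

theorem o1_exists_small {m : ℝ} (hm : 0 < m) {φ : ℝ → ℝ}
    (hi : IntegrableOn (fun x => φ x / x) (Icc (m / 16) (m / 4))) {Q : ℝ → Prop}
    (hQ : ∀ᵐ s ∂(volume.restrict (Ioo (m / 16) (m / 4))), Q s) :
    ∃ s ∈ Ioo (m / 16) (m / 4),
      φ s ≤ (∫ x in (m / 16)..(m / 4), φ x / x) / Real.log 4 ∧ Q s := by
  by_contra hcon
  push Not at hcon
  set p := ∫ x in (m / 16)..(m / 4), φ x / x with hp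
  have hlog : 0 < Real.log 4 := Real.log_pos (by norm_num)
  have hab : m / 16 < m / 4 := by linarith
  have hmem : ∀ᵐ s ∂(volume.restrict (Ioo (m / 16) (m / 4))), s ∈ Ioo (m / 16) (m / 4) :=
    ae_restrict_mem measurableSet_Ioo
  have hpos : ∀ᵐ s ∂(volume.restrict (Ioo (m / 16) (m / 4))),
      0 < φ s / s - p / Real.log 4 * (1 / s) := by
    filter_upwards [hQ, hmem] with s hs hs2
    have h1 : p / Real.log 4 < φ s := by
      by_contra hle
      exact hcon s hs2 (not_lt.mp hle) hs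
    have hs0 : 0 < s := by have := hs2.1; linarith
    have : φ s / s - p / Real.log 4 * (1 / s) = (φ s - p / Real.log 4) / s := by ring
    rw [this]
    exact div_pos (by linarith) hs0
  have hint1 : IntervalIntegrable (fun x => φ x / x) volume (m / 16) (m / 4) := by
    rw [intervalIntegrable_iff_integrableOn_Icc_of_le hab.le]
    exact hi
  have hint2 : IntervalIntegrable (fun x : ℝ => p / Real.log 4 * (1 / x)) volume
      (m / 16) (m / 4) := by
    apply ContinuousOn.intervalIntegrable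
    apply ContinuousOn.mul continuousOn_const
    apply ContinuousOn.div continuousOn_const continuousOn_id
    intro x hx
    rw [uIcc_of_le hab.le] at hx
    have := hx.1
    simp only [id]
    linarith
  have hz : ∫ x in (m / 16)..(m / 4), (φ x / x - p / Real.log 4 * (1 / x)) = 0 := by
    rw [intervalIntegral.integral_sub hint1 hint2, intervalIntegral.integral_const_mul,
      integral_one_div_of_pos (by linarith) (by linarith)]
    have e : m / 4 / (m / 16) = 4 := by field_simp; norm_num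
    rw [e, ← hp]
    field_simp
    ring
  rw [intervalIntegral.integral_of_le hab.le, integral_Ioc_eq_integral_Ioo] at hz
  have hint3 : IntegrableOn (fun x => φ x / x - p / Real.log 4 * (1 / x))
      (Ioo (m / 16) (m / 4)) := by
    have := hint1.sub hint2
    rw [intervalIntegrable_iff_integrableOn_Ioo_of_le hab.le] at this
    exact this
  have h0 := (integral_eq_zero_iff_of_nonneg_ae (hpos.mono fun s hs => hs.le) hint3).1 hz
  have : (ae (volume.restrict (Ioo (m / 16) (m / 4)))).NeBot := by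
    rw [ae_neBot]
    intro hzero
    rw [Measure.restrict_eq_zero] at hzero
    rw [Real.volume_Ioo, ENNReal.ofReal_eq_zero] at hzero
    linarith
  obtain ⟨x, hx1, hx2⟩ := (hpos.and h0).exists
  simp only [Pi.zero_apply] at hx2
  linarith

theorem o1_limit {β sa h0 c S1 : ℝ} (hβ : 0 < β) (hsa : 0 < sa) (hh0 : 0 ≤ h0) {b D : ℝ → ℝ}
    (hD : ∀ t, sa ≤ t → IntegrableOn (fun x => D x / x) (Icc sa t))
    (h3 : ∀ᵐ t ∂(volume.restrict (Ioi sa)),
      c - b t + Real.log t / β ≤ ∫ x in sa..t, D x / x)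
    (h7 : ∀ᵐ s ∂(volume.restrict (Ioi S1)), b s ≤ 0) :
    ∃ t, sa ≤ t ∧ (∀ᵐ x ∂(volume.restrict (Ioo sa t)), h0 < b x) ∧
      c - h0 + Real.log t / β ≤ ∫ x in sa..t, D x / x := by
  set S : Set ℝ := {t | sa < t ∧ c - b t + Real.log t / β ≤ (∫ x in sa..t, D x / x) ∧ b t ≤ h0}
    with hS
  have hne : S.Nonempty := by
    have hsub1 : Ioi (max sa S1) ⊆ Ioi sa := Ioi_subset_Ioi (le_max_left _ _)
    have hsub2 : Ioi (max sa S1) ⊆ Ioi S1 := Ioi_subset_Ioi (le_max_right _ _)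
    have k1 := ae_restrict_of_ae_restrict_of_subset hsub1 h3
    have k2 := ae_restrict_of_ae_restrict_of_subset hsub2 h7
    have k3 : ∀ᵐ s ∂(volume.restrict (Ioi (max sa S1))), s ∈ Ioi (max sa S1) :=
      ae_restrict_mem measurableSet_Ioi
    have : (ae (volume.restrict (Ioi (max sa S1)))).NeBot := by
      rw [ae_neBot]
      intro hzero
      rw [Measure.restrict_eq_zero, Real.volume_Ioi] at hzero
      exact ENNReal.top_ne_zero hzero
    obtain ⟨x, hx1, hx2, hx3⟩ := (k1.and (k2.and k3)).exists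
    exact ⟨x, hsub1 hx3, hx1, hx2.trans hh0⟩
  have hbdd : BddBelow S := ⟨sa, fun t ht => ht.1.le⟩
  have hsat : sa ≤ sInf S := le_csInf hne fun t ht => ht.1.le
  refine ⟨sInf S, hsat, ?_, ?_⟩
  · have k1 := ae_restrict_of_ae_restrict_of_subset
      (show Ioo sa (sInf S) ⊆ Ioi sa from fun x hx => hx.1) h3
    filter_upwards [k1, ae_restrict_mem measurableSet_Ioo] with x hx1 hx2
    by_contra hle
    have : x ∈ S := ⟨hx2.1, hx1, not_lt.mp hle⟩
    exact absurd hx2.2 (not_lt.mpr (csInf_le hbdd this))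
  · obtain ⟨u, hu1, hu2, hu3⟩ := exists_seq_tendsto_sInf hne hbdd
    have hpos : 0 < sInf S := hsa.trans_le hsat
    have t1 : Tendsto (fun j => c - h0 + Real.log (u j) / β) atTop
        (𝓝 (c - h0 + Real.log (sInf S) / β)) := by
      apply Tendsto.const_add
      apply Tendsto.div_const
      exact (Real.continuousAt_log hpos.ne').tendsto.comp hu2
    have hu0 : sa ≤ u 0 := (hu3 0).1.le
    have hc : ContinuousOn (fun t => ∫ x in sa..t, D x / x) (uIcc sa (u 0)) := by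
      apply intervalIntegral.continuousOn_primitive_interval
      rw [uIcc_of_le hu0]
      exact hD _ hu0
    rw [uIcc_of_le hu0] at hc
    have hmem : sInf S ∈ Icc sa (u 0) := ⟨hsat, csInf_le hbdd (hu3 0)⟩
    have t2 : Tendsto (fun j => ∫ x in sa..(u j), D x / x) atTop
        (𝓝 (∫ x in sa..(sInf S), D x / x)) := by
      have := (hc (sInf S) hmem).tendsto
      refine this.comp ?_
      rw [tendsto_nhdsWithin_iff]
      refine ⟨hu2, Eventually.of_forall fun j => ⟨(hu3 j).1.le, hu1 (Nat.zero_le j)⟩⟩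
    refine le_of_tendsto_of_tendsto' t1 t2 fun j => ?_
    have h1 := (hu3 j).2.1
    have h2 := (hu3 j).2.2
    linarith

theorem o1_int_le {u v δ C : ℝ} (hu : 0 < u) (huv : u ≤ v) {φ D : ℝ → ℝ}
    (hφi : IntegrableOn (fun x => φ x / x) (Icc u v))
    (hDi : IntegrableOn (fun x => D x / x) (Icc u v))
    (h : ∀ᵐ x ∂(volume.restrict (Ioo u v)), D x ≤ δ * φ x + C) :
    ∫ x in u..v, D x / x ≤
      δ * (∫ x in u..v, φ x / x) + C * (Real.log v - Real.log u) := by
  have hint1 : IntervalIntegrable (fun x => φ x / x) volume u v := by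
    rw [intervalIntegrable_iff_integrableOn_Icc_of_le huv]
    exact hφi
  have hint0 : IntervalIntegrable (fun x => D x / x) volume u v := by
    rw [intervalIntegrable_iff_integrableOn_Icc_of_le huv]
    exact hDi
  have hint2 : IntervalIntegrable (fun x : ℝ => C * (1 / x)) volume u v := by
    apply ContinuousOn.intervalIntegrable
    apply ContinuousOn.mul continuousOn_const
    apply ContinuousOn.div continuousOn_const continuousOn_id
    intro x hx
    rw [uIcc_of_le huv] at hx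
    have := hx.1
    simp only [id]
    linarith
  have e : δ * (∫ x in u..v, φ x / x) + C * (Real.log v - Real.log u) =
      ∫ x in u..v, (δ * (φ x / x) + C * (1 / x)) := by
    rw [intervalIntegral.integral_add (hint1.const_mul δ) hint2,
      intervalIntegral.integral_const_mul, intervalIntegral.integral_const_mul,
      integral_one_div_of_pos hu (hu.trans_le huv),
      Real.log_div (hu.trans_le huv).ne' hu.ne']
  rw [e]
  apply intervalIntegral.integral_mono_ae_restrict huv hint0 ((hint1.const_mul δ).add hint2)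
  rw [← Measure.restrict_congr_set Ioo_ae_eq_Icc]
  filter_upwards [h, ae_restrict_mem measurableSet_Ioo] with x hx hx2
  have hx0 : 0 < x := hu.trans hx2.1
  have e2 : δ * (φ x / x) + C * (1 / x) = (δ * φ x + C) / x := by ring
  rw [e2]
  gcongr

theorem o1_D_le {n : ℕ} (hn : 2 ≤ n) {β Cm φ D q bx : ℝ} (hβ : 0 < β) (hCm : 0 < Cm)
    (hφ : 0 ≤ φ) (hq0 : 0 ≤ q) (hq1 : q ≤ 1)
    (hD : D ≤ (1 - q) ^ (((n : ℝ) - 1) / n) * φ ^ (1 / (n : ℝ)) + q / β)
    (hb : 0 < q → bx ≤ (Cm * φ) ^ (1 / (n : ℝ)))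
    (hb0 : Cm ^ (1 / (n : ℝ)) * (n / (((n : ℝ) - 1) * β)) + 1 < bx) :
    D ≤ φ ^ (1 / (n : ℝ)) := by
  have hn2 : (2 : ℝ) ≤ n := by exact_mod_cast hn
  have hn0 : (0 : ℝ) < n := by linarith
  have hn1 : (0 : ℝ) < (n : ℝ) - 1 := by linarith
  rcases hq0.eq_or_lt with hq | hq
  · rw [← hq] at hD
    simpa using hD
  · have h1 := hb hq
    rw [Real.mul_rpow hCm.le hφ] at h1
    have hC : 0 < Cm ^ (1 / (n : ℝ)) := Real.rpow_pos_of_pos hCm _
    set y := φ ^ (1 / (n : ℝ)) with hy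
    have h2 : (n : ℝ) / (((n : ℝ) - 1) * β) < y := by
      have : Cm ^ (1 / (n : ℝ)) * (n / (((n : ℝ) - 1) * β)) < Cm ^ (1 / (n : ℝ)) * y := by
        linarith
      exact lt_of_mul_lt_mul_left this hC.le
    have h3 : 1 / β ≤ ((n : ℝ) - 1) / n * y := by
      have e : 1 / β = ((n : ℝ) - 1) / n * (n / (((n : ℝ) - 1) * β)) := by
        field_simp
      rw [e]
      have : 0 ≤ ((n : ℝ) - 1) / n := by positivity
      exact mul_le_mul_of_nonneg_left h2.le this
    have h4 : (1 - q) ^ (((n : ℝ) - 1) / n) ≤ 1 + ((n : ℝ) - 1) / n * (-q) := by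
      have := _root_.rpow_one_add_le_one_add_mul_self (s := -q) (by linarith)
        (p := ((n : ℝ) - 1) / n) (by positivity) (by rw [div_le_one hn0]; linarith)
      rw [← sub_eq_add_neg] at this
      exact this
    have hy0 : 0 ≤ y := Real.rpow_nonneg hφ _
    have h5 : (1 - q) ^ (((n : ℝ) - 1) / n) * y ≤ (1 + ((n : ℝ) - 1) / n * (-q)) * y :=
      mul_le_mul_of_nonneg_right h4 hy0
    have h6 : q * (1 / β) ≤ q * (((n : ℝ) - 1) / n * y) := mul_le_mul_of_nonneg_left h3 hq.le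
    have e2 : q / β = q * (1 / β) := by ring
    rw [e2] at hD
    nlinarith [hD, h5, h6]

theorem o1_main {n : ℕ} (hn : 2 ≤ n) {β Cm : ℝ} (hβ : 0 < β) (hCm : 0 < Cm)
    {C1' C2 : ℝ} (hC2 : 0 ≤ C2)
    (hy1 : ∀ y : ℝ, 0 ≤ y → (Cm / Real.log 4 * y) ^ (1 / (n : ℝ)) ≤
      1 / (n : ℝ) * β ^ ((n : ℝ) - 1) / 2 * y + C1')
    (hy2 : ∀ y : ℝ, 0 ≤ y → (1 * y) ^ (1 / (n : ℝ)) ≤
      1 / (n : ℝ) * β ^ ((n : ℝ) - 1) / 2 * y + C2)
    {ℓ m S1 : ℝ} {b φ D q : ℝ → ℝ} (hm : 0 < m)
    (h1 : ∀ s, 0 < s → 0 ≤ φ s)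
    (hφi : ∀ s t, 0 < s → s ≤ t → IntegrableOn (fun x => φ x / x) (Icc s t))
    (hDi : ∀ s t, 0 < s → s ≤ t → IntegrableOn (fun x => D x / x) (Icc s t))
    (h3 : ∀ᵐ s ∂(volume.restrict (Ioi (0 : ℝ))), ∀ᵐ t ∂(volume.restrict (Ioi s)),
        b s - b t + (Real.log t - Real.log s) / β ≤ ∫ x in s..t, D x / x)
    (h4 : ∀ᵐ s ∂(volume.restrict (Ioi (0 : ℝ))), 0 ≤ q s ∧ q s ≤ 1 ∧
        D s ≤ (1 - q s) ^ (((n : ℝ) - 1) / n) * φ s ^ (1 / (n : ℝ)) + q s / β)
    (h5 : ∀ᵐ s ∂(volume.restrict (Ioi (0 : ℝ))), 0 < q s → b s ≤ (Cm * φ s) ^ (1 / (n : ℝ)))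
    (h6 : ∀ᵐ s ∂(volume.restrict (Ioo (m / 16) m)),
        (Real.log s - ℓ) / β - 1 - (Cm * φ s) ^ (1 / (n : ℝ)) ≤ b s)
    (h7 : ∀ᵐ s ∂(volume.restrict (Ioi S1)), b s ≤ 0)
    (h8 : ∀ s t, 0 < s → s ≤ t → ∫ x in s..t, φ x / x ≤
        β ^ (1 - (n : ℝ)) * (max ((Real.log t - ℓ) / β) 0 + 1))
    (hpos : 0 < (Real.log (m / 16) - ℓ) / β) :
    ((n : ℝ) - 1) / n * ((Real.log (m / 4) - ℓ) / β) ≤
      Real.log 4 / β + 1 + (Cm ^ (1 / (n : ℝ)) * (n / (((n : ℝ) - 1) * β)) + 1) + C1' +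
        C2 * Real.log 4 + 1 / (n : ℝ) := by
  have hn2 : (2 : ℝ) ≤ n := by exact_mod_cast hn
  have hn0 : (0 : ℝ) < n := by linarith
  have hn1 : (0 : ℝ) < (n : ℝ) - 1 := by linarith
  have hlog : 0 < Real.log 4 := Real.log_pos (by norm_num)
  set h0 : ℝ := Cm ^ (1 / (n : ℝ)) * (n / (((n : ℝ) - 1) * β)) + 1 with hh0
  have hh0' : 0 ≤ h0 := by
    have : 0 < Cm ^ (1 / (n : ℝ)) := Real.rpow_pos_of_pos hCm _
    rw [hh0]
    positivity
  have hm16 : 0 < m / 16 := by linarith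
  have hm4 : 0 < m / 4 := by linarith
  have hm164 : m / 16 ≤ m / 4 := by linarith
  have hφi0 := hφi (m / 16) (m / 4) hm16 hm164
  set p := ∫ x in (m / 16)..(m / 4), φ x / x with hp
  set k' := β ^ ((n : ℝ) - 1) with hk'
  have hk'0 : 0 < k' := Real.rpow_pos_of_pos hβ _
  -- choose `sa`
  have hsubI : Ioo (m / 16) (m / 4) ⊆ Ioi (0 : ℝ) := fun x hx => hm16.trans hx.1
  have hsubJ : Ioo (m / 16) (m / 4) ⊆ Ioo (m / 16) m := fun x hx => ⟨hx.1, by
    have := hx.2
    linarith⟩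
  have hQ := (ae_restrict_of_ae_restrict_of_subset hsubI h3).and
    (ae_restrict_of_ae_restrict_of_subset hsubJ h6)
  obtain ⟨sa, hsaI, hφsa, h3a, h6a⟩ := o1_exists_small hm hφi0 hQ
  rw [← hp] at hφsa
  have hsa : 0 < sa := hm16.trans hsaI.1
  have hp0 : 0 ≤ p := by
    rw [hp]
    apply intervalIntegral.integral_nonneg hm164
    intro x hx
    have hx0 : 0 < x := hm16.trans_le hx.1
    exact div_nonneg (h1 x hx0) hx0.le
  -- the a.e. inequality in the variable `t`
  have h3b : ∀ᵐ t ∂(volume.restrict (Ioi sa)),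
      (b sa - Real.log sa / β) - b t + Real.log t / β ≤ ∫ x in sa..t, D x / x := by
    filter_upwards [h3a] with t ht
    have e : (Real.log t - Real.log sa) / β = Real.log t / β - Real.log sa / β := by ring
    rw [e] at ht
    linarith
  obtain ⟨t, hsat, hbt, hmain⟩ := o1_limit hβ hsa hh0' (fun t ht => hDi sa t hsa ht) h3b h7
  have ht0 : 0 < t := hsa.trans_le hsat
  -- the bound of `D`
  have hDle : ∀ᵐ x ∂(volume.restrict (Ioo sa t)), D x ≤ φ x ^ (1 / (n : ℝ)) := by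
    have hsub : Ioo sa t ⊆ Ioi (0 : ℝ) := fun x hx => hsa.trans hx.1
    filter_upwards [hbt, ae_restrict_of_ae_restrict_of_subset hsub h4,
      ae_restrict_of_ae_restrict_of_subset hsub h5, ae_restrict_mem measurableSet_Ioo]
      with x hx1 hx2 hx3 hx4
    exact o1_D_le hn hβ hCm (h1 x (hsub hx4)) hx2.1 hx2.2.1 hx2.2.2 hx3 hx1
  -- lower bound of `b sa`
  have hcp : (Cm * φ sa) ^ (1 / (n : ℝ)) ≤ 1 / (n : ℝ) * k' / 2 * p + C1' := by
    refine le_trans ?_ (hy1 p hp0)
    apply Real.rpow_le_rpow (mul_nonneg hCm.le (h1 sa hsa)) _ (by positivity)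
    have e : Cm / Real.log 4 * p = Cm * (p / Real.log 4) := by ring
    rw [e]
    exact mul_le_mul_of_nonneg_left hφsa hCm.le
  have hlog164 : Real.log (m / 4) - Real.log (m / 16) = Real.log 4 := by
    rw [← Real.log_div hm4.ne' hm16.ne']
    congr 1
    field_simp
    norm_num
  have hlsa1 : Real.log (m / 16) ≤ Real.log sa := Real.log_le_log hm16 hsaI.1.le
  have hlsat : Real.log sa ≤ Real.log t := Real.log_le_log hsa hsat
  set X := (Real.log (m / 4) - ℓ) / β with hX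
  set Xs := (Real.log t - ℓ) / β with hXs
  have hX0 : 0 < X := by
    refine hpos.trans_le ?_
    rw [hX]
    have := Real.log_le_log hm16 hm164
    gcongr
  have hXs0 : 0 < Xs := by
    refine hpos.trans_le ?_
    rw [hXs]
    have := hlsa1.trans hlsat
    gcongr
  have hkk : k' * β ^ (1 - (n : ℝ)) = 1 := by
    rw [hk', ← Real.rpow_add hβ]
    have : (n : ℝ) - 1 + (1 - (n : ℝ)) = 0 := by ring
    rw [this, Real.rpow_zero]
  have hstar : Xs - 1 - (1 / (n : ℝ) * k' / 2 * p + C1') - h0 ≤ ∫ x in sa..t, D x / x := by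
    refine le_trans ?_ hmain
    have e1 : (Real.log sa - ℓ) / β = Real.log sa / β - ℓ / β := by ring
    have e2 : Xs = Real.log t / β - ℓ / β := by rw [hXs]; ring
    rw [e1] at h6a
    rw [e2]
    linarith
  have hθκ : ((n : ℝ) - 1) / n + 1 / (n : ℝ) = 1 := by field_simp; ring
  have hκ0 : 0 < 1 / (n : ℝ) := by positivity
  have hθ0 : 0 < ((n : ℝ) - 1) / n := by positivity
  set κ := 1 / (n : ℝ) with hκ
  set θ := ((n : ℝ) - 1) / n with hθ
  -- D is at most the linear function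
  have hD1 : ∀ᵐ x ∂(volume.restrict (Ioo sa t)), D x ≤ κ * k' / 2 * φ x + C2 := by
    filter_upwards [hDle, ae_restrict_mem measurableSet_Ioo] with x hx hx2
    have := hy2 (φ x) (h1 x (hsa.trans hx2.1))
    rw [one_mul] at this
    exact hx.trans this
  have hD2 : ∀ᵐ x ∂(volume.restrict (Ioo sa t)), D x ≤ κ * k' * φ x + θ * (1 / β) := by
    filter_upwards [hDle, ae_restrict_mem measurableSet_Ioo] with x hx hx2
    have := o1_young_special hn hβ (h1 x (hsa.trans hx2.1))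
    refine hx.trans (this.trans (le_of_eq ?_))
    rw [hκ, hk', hθ]
    ring
  rcases le_total t (m / 4) with hcase | hcase
  · -- case A
    have i1 := o1_int_le hsa hsat (hφi sa t hsa hsat) (hDi sa t hsa hsat) hD1
    have i2 : ∫ x in sa..t, φ x / x ≤ p := by
      rw [hp]
      apply intervalIntegral.integral_mono_interval hsaI.1.le hsat hcase
      · filter_upwards [ae_restrict_mem measurableSet_Ioc] with x hx
        have hx0 : 0 < x := hm16.trans hx.1
        exact div_nonneg (h1 x hx0) hx0.le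
      · rw [intervalIntegrable_iff_integrableOn_Icc_of_le hm164]
        exact hφi0
    have i3 : Real.log t - Real.log sa ≤ Real.log 4 := by
      have := Real.log_le_log ht0 hcase
      linarith
    have i4 : k' * p ≤ X + 1 := by
      have := h8 (m / 16) (m / 4) hm16 hm164
      rw [← hp, ← hX, max_eq_left hX0.le] at this
      have := mul_le_mul_of_nonneg_left this hk'0.le
      rw [← mul_assoc, hkk, one_mul] at this
      exact this
    have i5 : X - Real.log 4 / β ≤ Xs := by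
      have e : X - Real.log 4 / β = (Real.log (m / 16) - ℓ) / β := by
        rw [hX, ← hlog164]
        ring
      rw [e, hXs]
      have := hlsa1.trans hlsat
      gcongr
    have i6 : κ * k' / 2 * (∫ x in sa..t, φ x / x) ≤ κ * k' / 2 * p :=
      mul_le_mul_of_nonneg_left i2 (by positivity)
    have i7 : C2 * (Real.log t - Real.log sa) ≤ C2 * Real.log 4 :=
      mul_le_mul_of_nonneg_left i3 hC2
    have i8 : κ * (k' * p) ≤ κ * (X + 1) := mul_le_mul_of_nonneg_left i4 hκ0.le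
    have e9 : θ * X = X - κ * X := by
      have : θ = 1 - κ := by linarith
      rw [this]; ring
    rw [e9]
    have e10 : κ * (k' * p) = κ * k' / 2 * p + κ * k' / 2 * p := by ring
    have e11 : κ * (X + 1) = κ * X + κ := by ring
    linarith
  · -- case B
    have hsa4 : sa ≤ m / 4 := hsaI.2.le
    have hD1' : ∀ᵐ x ∂(volume.restrict (Ioo sa (m / 4))), D x ≤ κ * k' / 2 * φ x + C2 :=
      ae_restrict_of_ae_restrict_of_subset (Ioo_subset_Ioo_right hcase) hD1
    have hD2' : ∀ᵐ x ∂(volume.restrict (Ioo (m / 4) t)), D x ≤ κ * k' * φ x + θ * (1 / β) :=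
      ae_restrict_of_ae_restrict_of_subset (Ioo_subset_Ioo_left hsa4) hD2
    have i1 := o1_int_le hsa hsa4 (hφi sa _ hsa hsa4) (hDi sa _ hsa hsa4) hD1'
    have j1 := o1_int_le hm4 hcase (hφi _ t hm4 hcase) (hDi _ t hm4 hcase) hD2'
    set P := ∫ x in (m / 4)..t, φ x / x with hP
    have hii : ∀ (f : ℝ → ℝ) (a c : ℝ), a ≤ c → IntegrableOn f (Icc a c) →
        IntervalIntegrable f volume a c := by
      intro f a c hac hf
      rw [intervalIntegrable_iff_integrableOn_Icc_of_le hac]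
      exact hf
    have hsplit : ∫ x in sa..t, D x / x =
        (∫ x in sa..(m / 4), D x / x) + ∫ x in (m / 4)..t, D x / x := by
      rw [intervalIntegral.integral_add_adjacent_intervals]
      · exact hii _ _ _ hsa4 (hDi _ _ hsa hsa4)
      · exact hii _ _ _ hcase (hDi _ _ hm4 hcase)
    have hsplit2 : ∫ x in (m / 16)..t, φ x / x = p + P := by
      rw [hp, hP, intervalIntegral.integral_add_adjacent_intervals]
      · exact hii _ _ _ hm164 hφi0
      · exact hii _ _ _ hcase (hφi _ _ hm4 hcase)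
    have i2 : ∫ x in sa..(m / 4), φ x / x ≤ p := by
      rw [hp]
      apply intervalIntegral.integral_mono_interval hsaI.1.le hsa4 le_rfl
      · filter_upwards [ae_restrict_mem measurableSet_Ioc] with x hx
        have hx0 : 0 < x := hm16.trans hx.1
        exact div_nonneg (h1 x hx0) hx0.le
      · rw [intervalIntegrable_iff_integrableOn_Icc_of_le hm164]
        exact hφi0
    have i3 : Real.log (m / 4) - Real.log sa ≤ Real.log 4 := by linarith
    have i4 : k' * (p + P) ≤ Xs + 1 := by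
      have := h8 (m / 16) t hm16 (hm164.trans hcase)
      rw [hsplit2, ← hXs, max_eq_left hXs0.le] at this
      have := mul_le_mul_of_nonneg_left this hk'0.le
      rw [← mul_assoc, hkk, one_mul] at this
      exact this
    have i6 : κ * k' / 2 * (∫ x in sa..(m / 4), φ x / x) ≤ κ * k' / 2 * p :=
      mul_le_mul_of_nonneg_left i2 (by positivity)
    have i7 : C2 * (Real.log (m / 4) - Real.log sa) ≤ C2 * Real.log 4 :=
      mul_le_mul_of_nonneg_left i3 hC2
    have i8 : κ * (k' * (p + P)) ≤ κ * (Xs + 1) := mul_le_mul_of_nonneg_left i4 hκ0.le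
    have e12 : θ * (1 / β) * (Real.log t - Real.log (m / 4)) = θ * Xs - θ * X := by
      rw [hX, hXs]; ring
    have e9 : θ * Xs = Xs - κ * Xs := by
      have : θ = 1 - κ := by linarith
      rw [this]; ring
    have e10 : κ * (k' * (p + P)) = κ * k' / 2 * p + κ * k' / 2 * p + κ * k' * P := by ring
    have e11 : κ * (Xs + 1) = κ * Xs + κ := by ring
    have h40 : 0 ≤ Real.log 4 / β := by positivity
    rw [e12] at j1
    rw [hsplit] at hstar
    linarith



/-- O1. -/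
theorem ode_lemma {n : ℕ} (hn : 2 ≤ n) {β Cm : ℝ} (hβ : 0 < β) (hβ1 : β ≤ 1) (hCm : 0 < Cm) :
    ∃ C1 : ℝ, 0 < C1 ∧ ∀ (M r m S1 : ℝ) (b φ D q : ℝ → ℝ), 0 < M → 0 < r → 0 < m →
      (∀ s, 0 < s → 0 ≤ φ s) → (∀ s, 0 < s → 0 ≤ D s) →
      (∀ s t, 0 < s → s ≤ t → IntegrableOn (fun x => φ x / x) (Icc s t)) →
      (∀ s t, 0 < s → s ≤ t → IntegrableOn (fun x => D x / x) (Icc s t)) →
      (∀ᵐ s ∂(volume.restrict (Ioi (0 : ℝ))), ∀ᵐ t ∂(volume.restrict (Ioi s)),
        b s - b t + (Real.log t - Real.log s) / β ≤ ∫ x in s..t, D x / x) →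
      (∀ᵐ s ∂(volume.restrict (Ioi (0 : ℝ))), 0 ≤ q s ∧ q s ≤ 1 ∧
        D s ≤ (1 - q s) ^ (((n : ℝ) - 1) / n) * φ s ^ (1 / (n : ℝ)) + q s / β) →
      (∀ᵐ s ∂(volume.restrict (Ioi (0 : ℝ))), 0 < q s → b s ≤ (Cm * φ s) ^ (1 / (n : ℝ))) →
      (∀ᵐ s ∂(volume.restrict (Ioo (m / 16) m)),
        Real.log (s / (2 * M * r ^ β)) / β - 1 - (Cm * φ s) ^ (1 / (n : ℝ)) ≤ b s) →
      (∀ᵐ s ∂(volume.restrict (Ioi S1)), b s ≤ 0) →
      (∀ s t, 0 < s → s ≤ t → ∫ x in s..t, φ x / x ≤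
        β ^ (1 - (n : ℝ)) * (max (Real.log (t / (2 * M * r ^ β)) / β) 0 + 1)) →
      m ≤ C1 * M * r ^ β := by
  have hn2 : (2 : ℝ) ≤ n := by exact_mod_cast hn
  have hn0 : (0 : ℝ) < n := by linarith
  have hn1 : (0 : ℝ) < (n : ℝ) - 1 := by linarith
  have hlog : 0 < Real.log 4 := Real.log_pos (by norm_num)
  have hκ0 : 0 < 1 / (n : ℝ) := by positivity
  have hκ1 : 1 / (n : ℝ) < 1 := by rw [div_lt_one hn0]; linarith
  have hk'0 : 0 < β ^ ((n : ℝ) - 1) := Real.rpow_pos_of_pos hβ _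
  obtain ⟨C1', hC1', hy1⟩ := o1_young_delta hκ0 hκ1 (a := Cm / Real.log 4)
    (δ := 1 / (n : ℝ) * β ^ ((n : ℝ) - 1) / 2) (by positivity) (by positivity)
  obtain ⟨C2, hC2, hy2⟩ := o1_young_delta hκ0 hκ1 (a := 1)
    (δ := 1 / (n : ℝ) * β ^ ((n : ℝ) - 1) / 2) (by positivity) (by positivity)
  have hθ0 : 0 < ((n : ℝ) - 1) / n := by positivity
  set C0 : ℝ := Real.log 4 / β + 1 + (Cm ^ (1 / (n : ℝ)) * (n / (((n : ℝ) - 1) * β)) + 1) + C1' +
        C2 * Real.log 4 + 1 / (n : ℝ) with hC0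
  have hC00 : 0 ≤ C0 := by
    have : 0 < Cm ^ (1 / (n : ℝ)) := Real.rpow_pos_of_pos hCm _
    rw [hC0]
    positivity
  refine ⟨32 * Real.exp (β * (C0 / (((n : ℝ) - 1) / n))), by positivity, ?_⟩
  intro M r m S1 b φ D q hM hr hm h1 _ hφi hDi h3 h4 h5 h6 h7 h8
  have hrb : 0 < r ^ β := Real.rpow_pos_of_pos hr _
  have hL : 0 < 2 * M * r ^ β := by positivity
  have hexp : 1 ≤ Real.exp (β * (C0 / (((n : ℝ) - 1) / n))) := Real.one_le_exp (by positivity)
  by_cases hpos : 0 < (Real.log (m / 16) - Real.log (2 * M * r ^ β)) / β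
  · have h6' : ∀ᵐ s ∂(volume.restrict (Ioo (m / 16) m)),
        (Real.log s - Real.log (2 * M * r ^ β)) / β - 1 - (Cm * φ s) ^ (1 / (n : ℝ)) ≤ b s := by
      filter_upwards [h6, ae_restrict_mem measurableSet_Ioo] with s hs hs2
      have hs0 : 0 < s := by have := hs2.1; linarith
      rw [Real.log_div hs0.ne' hL.ne'] at hs
      exact hs
    have h8' : ∀ s t, 0 < s → s ≤ t → ∫ x in s..t, φ x / x ≤
        β ^ (1 - (n : ℝ)) * (max ((Real.log t - Real.log (2 * M * r ^ β)) / β) 0 + 1) := by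
      intro s t hs hst
      have := h8 s t hs hst
      rw [Real.log_div (hs.trans_le hst).ne' hL.ne'] at this
      exact this
    have hmain := o1_main hn hβ hCm hC2 hy1 hy2 hm h1 hφi hDi h3 h4 h5 h6' h7 h8' hpos
    rw [← hC0] at hmain
    have h9 : (Real.log (m / 4) - Real.log (2 * M * r ^ β)) / β ≤ C0 / (((n : ℝ) - 1) / n) := by
      rw [le_div_iff₀ hθ0, mul_comm]
      exact hmain
    rw [div_le_iff₀ hβ] at h9
    have h10 : Real.log (m / 4) ≤ Real.log (2 * M * r ^ β) + β * (C0 / (((n : ℝ) - 1) / n)) := by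
      linarith
    have h11 : m / 4 ≤ 2 * M * r ^ β * Real.exp (β * (C0 / (((n : ℝ) - 1) / n))) := by
      have hm4 : 0 < m / 4 := by linarith
      rw [← Real.exp_log hm4, ← Real.exp_log hL, ← Real.exp_add]
      apply Real.exp_le_exp.2
      exact h10
    have h12 : 0 ≤ M * r ^ β * Real.exp (β * (C0 / (((n : ℝ) - 1) / n))) := by positivity
    calc m = 4 * (m / 4) := by ring
      _ ≤ 4 * (2 * M * r ^ β * Real.exp (β * (C0 / (((n : ℝ) - 1) / n)))) := by linarith
      _ = 8 * (M * r ^ β * Real.exp (β * (C0 / (((n : ℝ) - 1) / n)))) := by ring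
      _ ≤ 32 * (M * r ^ β * Real.exp (β * (C0 / (((n : ℝ) - 1) / n)))) := by linarith
      _ = _ := by ring
  · have h9 : (Real.log (m / 16) - Real.log (2 * M * r ^ β)) / β ≤ 0 := not_lt.mp hpos
    rw [div_le_iff₀ hβ, zero_mul] at h9
    have h10 : m / 16 ≤ 2 * M * r ^ β := by
      have hm16 : 0 < m / 16 := by linarith
      rw [← Real.log_le_log_iff hm16 hL]
      linarith
    have h12 : 0 ≤ M * r ^ β := by positivity
    have h13 : M * r ^ β * 1 ≤ M * r ^ β * Real.exp (β * (C0 / (((n : ℝ) - 1) / n))) :=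
      mul_le_mul_of_nonneg_left hexp h12
    calc m ≤ 32 * (M * r ^ β * 1) := by linarith
      _ ≤ 32 * (M * r ^ β * Real.exp (β * (C0 / (((n : ℝ) - 1) / n)))) := by linarith
      _ = _ := by ring


end H248.BH.O1

namespace H248.BH

export O1 (ode_lemma)

end H248.BH
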