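import Pool.Agent.H248.BH.Defs
import Pool.Agent.H248.BH.B01
import Pool.Agent.H248.BH.B02
import Pool.Agent.H248.BH.A2
import Pool.Agent.H248.BH.A4
import Pool.Agent.H248.BH.A5

set_option autoImplicit false
open MeasureTheory Metric Set Filter Topology
open scoped ENNReal NNReal ContDiff

namespace H248.BH.Q4


open H248.ID











/-- the sphere measure is finite -/
instance sph_finite (n : ℕ) : IsFiniteMeasure (sph n) := by
  unfold sph; infer_instance

theorem av_cont_param {n : ℕ} (h : ℝ → sphere (0 : Y n) 1 → ℝ) (hh : Continuous h.uncurry) :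
    Continuous (fun r => (om n)⁻¹ * ∫ θ : sphere (0 : Y n) 1, h r θ ∂(sph n)) := by
  apply Continuous.mul continuous_const
  have := continuous_parametric_integral_of_continuous (μ := sph n) (f := h) hh
    (s := (univ : Set (sphere (0 : Y n) 1))) isCompact_univ
  simpa using this

theorem int_sph_cont {n : ℕ} (h : sphere (0 : Y n) 1 → ℝ) (hh : Continuous h) :
    Integrable h (sph n) :=
  hh.integrable_of_hasCompactSupport (HasCompactSupport.of_compactSpace h)

theorem av_cont {n : ℕ} {h : Y n → ℝ} (hh : Continuous h) : Continuous (Av h) := by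
  exact av_cont_param (n := n) (fun r (θ : sphere (0 : Y n) 1) => h (r • (θ : Y n)))
    (hh.comp (continuous_fst.smul (continuous_subtype_val.comp continuous_snd)))

/-- Q4. one-sided monotonicity of the averages -/
theorem mono_limit {n : ℕ} (hn : 2 ≤ n) {X : Type} [MeasurableSpace X]
    {μ : Measure X} [IsFiniteMeasure μ] {f : X → Y n} {e J z : X → ℝ} {w : X → Y n} {a β : ℝ}
    {F G N Z : Y n → ℝ} (P : Push n μ f e J z w a β) (D : Dens n μ f e J z F G N Z) :
    ∀ᵐ s ∂(volume.restrict (Ioi (0 : ℝ))), ∀ᵐ t ∂(volume.restrict (Ioi s)),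
      Av (fun y => F y ^ (1 / (n : ℝ))) s - Av (fun y => F y ^ (1 / (n : ℝ))) t ≤
        ∫ r in s..t, (Av (fun y => Z y ^ (1 / (n : ℝ))) r -
          Av ({y | F y ≠ 0}.indicator fun _ => (1 : ℝ)) r / (β * r)) := by
  classical
  have hn1 : 1 ≤ n := by omega
  have hom : 0 < om n := om_pos hn1
  obtain ⟨v, R, Zk, Nk, c, hcont, hnn, hc0, hclim, -, hrad, -, hRae, hav, hint⟩ := approx_seq hn P D
  have hβ := P.β_pos
  set g : Y n → ℝ := {y | F y ≠ 0}.indicator (fun _ => (1 : ℝ)) with hg
  have hgm : Measurable g := by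
    apply Measurable.indicator measurable_const
    exact (D.meas_F (measurableSet_singleton 0)).compl
  have hg0 : ∀ y, 0 ≤ g y := fun y => Set.indicator_nonneg (fun _ _ => zero_le_one) y
  have hg1 : ∀ y, g y ≤ 1 := by
    intro y
    rw [hg]
    by_cases h : y ∈ {y | F y ≠ 0}
    · rw [Set.indicator_of_mem h]
    · rw [Set.indicator_of_notMem h]; exact zero_le_one
  -- measurability helper
  have hsm : ∀ (q : Y n → ℝ), Measurable q → Measurable (Av q) := by
    intro q hq
    have h1 : Measurable (fun p : ℝ × sphere (0 : Y n) 1 => q (p.1 • (p.2 : Y n))) :=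
      hq.comp (measurable_fst.smul (measurable_subtype_coe.comp measurable_snd))
    have h2 : StronglyMeasurable (fun r : ℝ => ∫ θ : sphere (0 : Y n) 1, q (r • (θ : Y n)) ∂(sph n)) :=
      h1.stronglyMeasurable.integral_prod_right
    exact measurable_const.mul h2.measurable
  have hint1 : ∀ (q : Y n → ℝ), Measurable q → (∀ y, |q y| ≤ 1) → ∀ r : ℝ,
      Integrable (fun θ : sphere (0 : Y n) 1 => q (r • (θ : Y n))) (sph n) := by
    intro q hq hq1 r
    apply Integrable.of_bound (C := 1)
    · exact (hq.comp ((measurable_const_smul r).comp measurable_subtype_coe)).aestronglyMeasurable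
    · exact Filter.Eventually.of_forall (fun θ => hq1 _)
  have habs1 : ∀ (q : Y n → ℝ), Measurable q → (∀ y, |q y| ≤ 1) → ∀ r : ℝ, |Av q r| ≤ 1 := by
    intro q hq hq1 r
    unfold Av
    rw [abs_mul, abs_inv, abs_of_pos hom]
    rw [inv_mul_le_iff₀ hom, mul_one]
    have h1 : ‖∫ θ : sphere (0 : Y n) 1, q (r • (θ : Y n)) ∂(sph n)‖ ≤ 1 * (sph n).real univ :=
      norm_integral_le_of_norm_le_const (Filter.Eventually.of_forall (fun θ => hq1 _))
    rw [one_mul] at h1
    exact h1
  -- the truncated functions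
  set m : ℕ → Y n → ℝ := fun k y => min (R k y) 1 * g y with hm
  have hmm : ∀ k, Measurable (m k) := fun k =>
    (((hcont k).2.2.2.measurable).min measurable_const).mul hgm
  have hm0 : ∀ k y, 0 ≤ m k y := fun k y =>
    mul_nonneg (le_min (hnn k y).2.2.2 zero_le_one) (hg0 y)
  have hm1 : ∀ k y, |m k y| ≤ 1 := by
    intro k y
    rw [abs_of_nonneg (hm0 k y)]
    calc min (R k y) 1 * g y ≤ 1 * 1 :=
          mul_le_mul (min_le_right _ _) (hg1 y) (hg0 y) zero_le_one
      _ = 1 := one_mul 1
  have hgabs : ∀ y, |g y| ≤ 1 := fun y => by rw [abs_of_nonneg (hg0 y)]; exact hg1 y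
  have hmR : ∀ k y, m k y ≤ R k y := by
    intro k y
    calc min (R k y) 1 * g y ≤ min (R k y) 1 * 1 :=
          mul_le_mul_of_nonneg_left (hg1 y) (le_min (hnn k y).2.2.2 zero_le_one)
      _ ≤ R k y := by rw [mul_one]; exact min_le_left _ _
  -- a.e. convergence of the averages of m k
  have hconv : ∀ᵐ r ∂(volume.restrict (Ioi (0 : ℝ))), Tendsto (fun k => Av (m k) r) atTop
      (𝓝 (Av g r)) := by
    filter_upwards [polar_ae hn1 hRae] with r hr
    unfold Av
    apply Filter.Tendsto.const_mul
    apply tendsto_integral_of_dominated_convergence (fun _ => (1 : ℝ))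
    · intro k
      exact (hint1 (m k) (hmm k) (hm1 k) r).aestronglyMeasurable
    · exact integrable_const _
    · intro k
      exact Filter.Eventually.of_forall (fun θ => hm1 k _)
    · filter_upwards [hr] with θ hθ
      by_cases hF : F (r • (θ : Y n)) = 0
      · have h1 : ∀ k, m k (r • (θ : Y n)) = 0 := by
          intro k
          simp only [hm]
          have : g (r • (θ : Y n)) = 0 := by
            rw [hg]; exact Set.indicator_of_notMem (by simpa using hF) _
          rw [this, mul_zero]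
        have h2 : g (r • (θ : Y n)) = 0 := by
          rw [hg]; exact Set.indicator_of_notMem (by simpa using hF) _
        simp only [h1, h2]
        exact tendsto_const_nhds
      · have h2 : g (r • (θ : Y n)) = 1 := by
          rw [hg]; exact Set.indicator_of_mem (by simpa using hF) _
        have h3 := hθ hF
        rw [h2, Metric.tendsto_atTop]
        intro ε hε
        obtain ⟨K, hK⟩ := Filter.eventually_atTop.1 (h3 (1 - ε / 2) (by linarith))
        refine ⟨K, fun k hk => ?_⟩
        have h4 := hK k hk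
        simp only [hm]
        rw [h2, mul_one, Real.dist_eq, abs_sub_comm, abs_of_nonneg (by linarith [min_le_right (R k (r • (θ : Y n))) 1])]
        have h5 : 1 - ε / 2 ≤ min (R k (r • (θ : Y n))) 1 := le_min h4 (by linarith)
        linarith
  -- main
  have hpos : ∀ᵐ s ∂(volume.restrict (Ioi (0 : ℝ))), s ∈ Ioi (0 : ℝ) :=
    ae_restrict_mem measurableSet_Ioi
  filter_upwards [hav, hpos] with s hs hs0
  have hs0' : (0 : ℝ) < s := hs0
  have hsub : Ioi s ⊆ Ioi (0 : ℝ) := Ioi_subset_Ioi hs0'.le
  have hav' := ae_restrict_of_ae_restrict_of_subset hsub hav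
  have hpos' : ∀ᵐ t ∂(volume.restrict (Ioi s)), t ∈ Ioi s := ae_restrict_mem measurableSet_Ioi
  filter_upwards [hav', hpos'] with t ht hts
  have hst : s < t := hts
  have hst' : s ≤ t := hst.le
  -- interval integrability
  have hIm : ∀ q : Y n → ℝ, Measurable q → (∀ y, |q y| ≤ 1) →
      IntervalIntegrable (fun r => Av q r / (β * r)) volume s t := by
    intro q hq hq1
    rw [intervalIntegrable_iff_integrableOn_Ioc_of_le hst']
    apply Measure.integrableOn_of_bounded (M := 1 / (β * s))
    · rw [Real.volume_Ioc]; exact ENNReal.ofReal_ne_top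
    · exact ((hsm q hq).div (measurable_const.mul measurable_id)).aestronglyMeasurable
    · filter_upwards [ae_restrict_mem measurableSet_Ioc] with r hr
      have hrpos : 0 < r := hs0'.trans hr.1
      rw [Real.norm_eq_abs, abs_div, abs_of_pos (mul_pos hβ hrpos)]
      apply div_le_div₀ zero_le_one (habs1 q hq hq1 r) (mul_pos hβ hs0')
      exact mul_le_mul_of_nonneg_left hr.1.le hβ.le
  have hrp : ∀ h : Y n → ℝ, Continuous h → Continuous (fun y => h y ^ (1 / (n : ℝ))) := by
    intro h hh
    exact hh.rpow_const (fun y => Or.inr (by positivity))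
  have hIz : ∀ k, IntervalIntegrable (fun r => Av (fun y => Zk k y ^ (1 / (n : ℝ))) r) volume s t :=
    fun k => (av_cont (hrp _ (hcont k).2.1)).intervalIntegrable _ _
  have hIn : ∀ k, IntervalIntegrable (fun r => Av (fun y => Nk k y ^ (1 / (n : ℝ))) r) volume s t :=
    fun k => (av_cont (hrp _ (hcont k).2.2.1)).intervalIntegrable _ _
  -- the radial derivative on spheres
  have hfd : ∀ k, Continuous (fun r : ℝ => (om n)⁻¹ * ∫ θ : sphere (0 : Y n) 1,
      fderiv ℝ (v k) (r • (θ : Y n)) (θ : Y n) ∂(sph n)) := by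
    intro k
    apply av_cont_param (fun (r : ℝ) (θ : sphere (0 : Y n) 1) => fderiv ℝ (v k) (r • (θ : Y n)) (θ : Y n))
    have h1 : Continuous (fderiv ℝ (v k)) := (hcont k).1.continuous_fderiv (by norm_num)
    have h2 : Continuous (fun p : ℝ × sphere (0 : Y n) 1 => p.1 • (p.2 : Y n)) :=
      continuous_fst.smul (continuous_subtype_val.comp continuous_snd)
    exact (h1.comp h2).clm_apply (continuous_subtype_val.comp continuous_snd)
  have hnorm : ∀ (r : ℝ), 0 < r → ∀ θ : sphere (0 : Y n) 1, ‖r • (θ : Y n)‖ = r := by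
    intro r hr θ
    rw [norm_smul, Real.norm_eq_abs, abs_of_pos hr, norm_eq_of_mem_sphere, mul_one]
  have hrad' : ∀ (r : ℝ), 0 < r → ∀ θ : sphere (0 : Y n) 1,
      ‖r • (θ : Y n)‖⁻¹ • (r • (θ : Y n)) = (θ : Y n) := by
    intro r hr θ
    rw [hnorm r hr θ, smul_smul, inv_mul_cancel₀ hr.ne', one_smul]
  have hcs : ∀ r : ℝ, Continuous (fun θ : sphere (0 : Y n) 1 => r • (θ : Y n)) :=
    fun r => continuous_subtype_val.const_smul r
  have hkey : ∀ k, ∀ r : ℝ, 0 < r →
      - Av (fun y => Zk k y ^ (1 / (n : ℝ))) r + Av (m k) r / (β * r)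
        - 2 * c k * Av (fun y => Nk k y ^ (1 / (n : ℝ))) r ≤
      Av (fun y => fderiv ℝ (v k) y (‖y‖⁻¹ • y)) r := by
    intro k r hr
    have hi1 : Integrable (fun θ : sphere (0 : Y n) 1 => Zk k (r • (θ : Y n)) ^ (1 / (n : ℝ))) (sph n) :=
      int_sph_cont _ ((hrp _ (hcont k).2.1).comp (hcs r))
    have hi2 : Integrable (fun θ : sphere (0 : Y n) 1 => Nk k (r • (θ : Y n)) ^ (1 / (n : ℝ))) (sph n) :=
      int_sph_cont _ ((hrp _ (hcont k).2.2.1).comp (hcs r))
    have hi3 := hint1 (m k) (hmm k) (hm1 k) r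
    have hi4 : Integrable (fun θ : sphere (0 : Y n) 1 =>
        fderiv ℝ (v k) (r • (θ : Y n)) (‖r • (θ : Y n)‖⁻¹ • (r • (θ : Y n)))) (sph n) := by
      have h1 : Continuous (fderiv ℝ (v k)) := (hcont k).1.continuous_fderiv (by norm_num)
      have h2 : Continuous (fun θ : sphere (0 : Y n) 1 => fderiv ℝ (v k) (r • (θ : Y n)) (θ : Y n)) :=
        (h1.comp (hcs r)).clm_apply continuous_subtype_val
      have h3 := int_sph_cont _ h2
      refine h3.congr (Filter.Eventually.of_forall (fun θ => ?_))
      simp only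
      rw [hrad' r hr θ]
    have hmono := integral_mono (μ := sph n)
      (f := fun θ : sphere (0 : Y n) 1 => - Zk k (r • (θ : Y n)) ^ (1 / (n : ℝ)) +
        m k (r • (θ : Y n)) / (β * r) - 2 * c k * Nk k (r • (θ : Y n)) ^ (1 / (n : ℝ)))
      (g := fun θ : sphere (0 : Y n) 1 =>
        fderiv ℝ (v k) (r • (θ : Y n)) (‖r • (θ : Y n)‖⁻¹ • (r • (θ : Y n))))
      ((hi1.neg.add (hi3.div_const _)).sub (hi2.const_mul _)) hi4 (by
        intro θ
        have hne : r • (θ : Y n) ≠ 0 := by
          intro h0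
          have := hnorm r hr θ
          rw [h0, norm_zero] at this
          exact hr.ne this
        have h1 := hrad k (r • (θ : Y n)) hne
        have h2 : m k (r • (θ : Y n)) / (β * r) ≤ R k (r • (θ : Y n)) / (β * ‖r • (θ : Y n)‖) := by
          rw [hnorm r hr θ]
          exact div_le_div_of_nonneg_right (hmR k _) (mul_pos hβ hr).le
        simp only
        linarith)
    have hexp : ∫ θ : sphere (0 : Y n) 1, (- Zk k (r • (θ : Y n)) ^ (1 / (n : ℝ)) +
        m k (r • (θ : Y n)) / (β * r) - 2 * c k * Nk k (r • (θ : Y n)) ^ (1 / (n : ℝ))) ∂(sph n)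
        = - (∫ θ : sphere (0 : Y n) 1, Zk k (r • (θ : Y n)) ^ (1 / (n : ℝ)) ∂(sph n)) +
          (∫ θ : sphere (0 : Y n) 1, m k (r • (θ : Y n)) ∂(sph n)) / (β * r) -
          2 * c k * ∫ θ : sphere (0 : Y n) 1, Nk k (r • (θ : Y n)) ^ (1 / (n : ℝ)) ∂(sph n) := by
      rw [integral_sub, integral_add, integral_neg, integral_div, integral_const_mul]
      · exact hi1.neg
      · exact hi3.div_const _
      · exact hi1.neg.add (hi3.div_const _)
      · exact hi2.const_mul _
    rw [hexp] at hmono
    unfold Av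
    have hinv : 0 ≤ (om n)⁻¹ := (inv_pos.2 hom).le
    have := mul_le_mul_of_nonneg_left hmono hinv
    calc _ = (om n)⁻¹ * (- (∫ θ : sphere (0 : Y n) 1, Zk k (r • (θ : Y n)) ^ (1 / (n : ℝ)) ∂(sph n)) +
          (∫ θ : sphere (0 : Y n) 1, m k (r • (θ : Y n)) ∂(sph n)) / (β * r) -
          2 * c k * ∫ θ : sphere (0 : Y n) 1, Nk k (r • (θ : Y n)) ^ (1 / (n : ℝ)) ∂(sph n)) := by ring
      _ ≤ _ := this
  -- integrate
  have hstep : ∀ k, Av (v k) s - Av (v k) t ≤
      (∫ r in s..t, Av (fun y => Zk k y ^ (1 / (n : ℝ))) r) - (∫ r in s..t, Av (m k) r / (β * r))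
        + 2 * (c k * ∫ r in s..t, Av (fun y => Nk k y ^ (1 / (n : ℝ))) r) := by
    intro k
    have h1 := av_deriv hn1 (hcont k).1 hs0' hst'
    have hI1 : IntervalIntegrable (fun r => Av (fun y => fderiv ℝ (v k) y (‖y‖⁻¹ • y)) r) volume s t := by
      refine ((hfd k).intervalIntegrable s t).congr ?_
      intro r hr
      rw [uIoc_of_le hst'] at hr
      have hrpos : 0 < r := hs0'.trans hr.1
      simp only [Av]
      congr 1
      apply integral_congr_ae
      refine Filter.Eventually.of_forall (fun θ => ?_)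
      simp only
      rw [hrad' r hrpos θ]
    have hI2 : IntervalIntegrable (fun r => - Av (fun y => Zk k y ^ (1 / (n : ℝ))) r
        + Av (m k) r / (β * r) - 2 * c k * Av (fun y => Nk k y ^ (1 / (n : ℝ))) r) volume s t :=
      ((hIz k).neg.add (hIm _ (hmm k) (hm1 k))).sub ((hIn k).const_mul _)
    have h2 : ∫ r in s..t, (- Av (fun y => Zk k y ^ (1 / (n : ℝ))) r
        + Av (m k) r / (β * r) - 2 * c k * Av (fun y => Nk k y ^ (1 / (n : ℝ))) r) ≤
        ∫ r in s..t, Av (fun y => fderiv ℝ (v k) y (‖y‖⁻¹ • y)) r := by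
      apply intervalIntegral.integral_mono_on hst' hI2 hI1
      intro r hr
      exact hkey k r (hs0'.trans_le hr.1)
    have h3 : ∫ r in s..t, (- Av (fun y => Zk k y ^ (1 / (n : ℝ))) r
        + Av (m k) r / (β * r) - 2 * c k * Av (fun y => Nk k y ^ (1 / (n : ℝ))) r) =
        - (∫ r in s..t, Av (fun y => Zk k y ^ (1 / (n : ℝ))) r) + (∫ r in s..t, Av (m k) r / (β * r))
        - 2 * c k * ∫ r in s..t, Av (fun y => Nk k y ^ (1 / (n : ℝ))) r := by
      have hng : IntervalIntegrable (fun r => - Av (fun y => Zk k y ^ (1 / (n : ℝ))) r) volume s t :=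
        (hIz k).neg
      have hng2 : IntervalIntegrable (fun r => - Av (fun y => Zk k y ^ (1 / (n : ℝ))) r
        + Av (m k) r / (β * r)) volume s t := hng.add (hIm _ (hmm k) (hm1 k))
      have hng3 : IntervalIntegrable (fun r => 2 * c k * Av (fun y => Nk k y ^ (1 / (n : ℝ))) r)
        volume s t := (hIn k).const_mul _
      rw [intervalIntegral.integral_sub hng2 hng3,
        intervalIntegral.integral_add hng (hIm _ (hmm k) (hm1 k)),
        intervalIntegral.integral_neg, intervalIntegral.integral_const_mul]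
    rw [h3, ← h1] at h2
    linarith
  -- limit of the integrals of Av (m k) / (β r)
  have hlim2 : Tendsto (fun k => ∫ r in s..t, Av (m k) r / (β * r)) atTop
      (𝓝 (∫ r in s..t, Av g r / (β * r))) := by
    apply intervalIntegral.tendsto_integral_filter_of_dominated_convergence (fun _ => 1 / (β * s))
    · refine Filter.Eventually.of_forall (fun k => ?_)
      exact ((hsm (m k) (hmm k)).div (measurable_const.mul measurable_id)).aestronglyMeasurable
    · refine Filter.Eventually.of_forall (fun k => ?_)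
      refine Filter.Eventually.of_forall (fun r hr => ?_)
      rw [uIoc_of_le hst'] at hr
      have hrpos : 0 < r := hs0'.trans hr.1
      rw [Real.norm_eq_abs, abs_div, abs_of_pos (mul_pos hβ hrpos)]
      apply div_le_div₀ zero_le_one (habs1 (m k) (hmm k) (hm1 k) r) (mul_pos hβ hs0')
      exact mul_le_mul_of_nonneg_left hr.1.le hβ.le
    · exact intervalIntegrable_const
    · have h5 := (ae_restrict_iff' measurableSet_Ioi).1 hconv
      filter_upwards [h5] with r hr hrm
      rw [uIoc_of_le hst'] at hrm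
      have hrpos : 0 < r := hs0'.trans hrm.1
      exact (hr hrpos).div_const _
  have hlimL : Tendsto (fun k => Av (v k) s - Av (v k) t) atTop
      (𝓝 (Av (fun y => F y ^ (1 / (n : ℝ))) s - Av (fun y => F y ^ (1 / (n : ℝ))) t)) :=
    hs.1.sub ht.1
  have hZI : IntervalIntegrable (fun r => Av (fun y => Z y ^ (1 / (n : ℝ))) r) volume s t := by
    refine (av_rpow_conv hn1 (h := fun _ => Z) (h' := Z) (fun _ => D.Z_int) D.Z_int
      (fun _ => D.Z_nonneg) D.Z_nonneg ?_ hs0' hst').1
    simp
  have hlimR : Tendsto (fun k => (∫ r in s..t, Av (fun y => Zk k y ^ (1 / (n : ℝ))) r)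
        - (∫ r in s..t, Av (m k) r / (β * r))
        + 2 * (c k * ∫ r in s..t, Av (fun y => Nk k y ^ (1 / (n : ℝ))) r)) atTop
      (𝓝 ((∫ r in s..t, Av (fun y => Z y ^ (1 / (n : ℝ))) r) - (∫ r in s..t, Av g r / (β * r))
        + 2 * 0)) :=
    ((hint s t hs0' hst').1.sub hlim2).add ((hint s t hs0' hst').2.const_mul 2)
  have hfin := le_of_tendsto_of_tendsto' hlimL hlimR hstep
  rw [intervalIntegral.integral_sub hZI (hIm g hgm hgabs)]
  linarith


end H248.BH.Q4

namespace H248.BH

export Q4 (mono_limit)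

end H248.BH
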