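import Pool.Agent.H248.BH.Defs
import Pool.Agent.H248.BH.B01
import Pool.Agent.H248.BH.B02
import Pool.Agent.H248.BH.A2
import Pool.Agent.H248.BH.Q4
import Pool.Agent.H248.BH.O1

set_option autoImplicit false
open MeasureTheory Metric Set Filter Topology
open scoped ENNReal NNReal ContDiff

namespace H248.BH.G5


open H248.ID












instance G5_fin (n : ℕ) : IsFiniteMeasure (sph n) := by
  unfold sph
  infer_instance

theorem G5_Av_nonneg {n : ℕ} {h : Y n → ℝ} (h0 : ∀ y, 0 ≤ h y) (s : ℝ) : 0 ≤ Av h s :=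
  mul_nonneg (inv_nonneg.mpr ENNReal.toReal_nonneg) (integral_nonneg fun _ => h0 _)

theorem G5_smul_meas {n : ℕ} :
    Measurable fun p : ℝ × sphere (0 : Y n) 1 => p.1 • (p.2 : Y n) :=
  measurable_fst.smul (measurable_subtype_coe.comp measurable_snd)

theorem G5_Av_meas {n : ℕ} {h : Y n → ℝ} (hh : Measurable h) : Measurable (fun s => Av h s) := by
  unfold Av
  have h1 : StronglyMeasurable (fun p : ℝ × sphere (0 : Y n) 1 => h (p.1 • (p.2 : Y n))) :=
    (hh.comp G5_smul_meas).stronglyMeasurable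
  exact (h1.integral_prod_right').measurable.const_mul _

theorem G5_ind_meas {n : ℕ} {F : Y n → ℝ} (hF : Measurable F) :
    Measurable ({y | F y ≠ 0}.indicator fun _ => (1 : ℝ)) :=
  measurable_const.indicator (hF (measurableSet_singleton (0 : ℝ)).compl)

theorem G5_ind_nonneg {n : ℕ} (F : Y n → ℝ) (y : Y n) :
    0 ≤ ({y | F y ≠ 0}.indicator fun _ => (1 : ℝ)) y :=
  Set.indicator_nonneg (fun _ _ => zero_le_one) y

theorem G5_ind_le {n : ℕ} (F : Y n → ℝ) (y : Y n) :
    ({y | F y ≠ 0}.indicator fun _ => (1 : ℝ)) y ≤ 1 :=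
  Set.indicator_le_self' (fun _ _ => zero_le_one) y

theorem G5_int_one (n : ℕ) : ∫ _θ : sphere (0 : Y n) 1, (1 : ℝ) ∂(sph n) = om n := by
  simp [om, Measure.real]

theorem G5_Av_ind_le {n : ℕ} (hn : 1 ≤ n) (F : Y n → ℝ) (s : ℝ) :
    Av ({y | F y ≠ 0}.indicator fun _ => (1 : ℝ)) s ≤ 1 := by
  have hom := om_pos hn
  unfold Av
  rw [inv_mul_le_iff₀ hom, mul_one, ← G5_int_one n]
  apply integral_mono_of_nonneg
  · exact Filter.Eventually.of_forall fun θ => G5_ind_nonneg F _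
  · exact integrable_const _
  · exact Filter.Eventually.of_forall fun θ => G5_ind_le F _

theorem G5_holder {n : ℕ} (hn : 2 ≤ n) {F Z : Y n → ℝ} (hF : Measurable F) (hZ : Measurable Z)
    (hZ0 : ∀ y, 0 ≤ Z y) {s : ℝ}
    (hi : Integrable (fun θ : sphere (0 : Y n) 1 => Z (s • (θ : Y n))) (sph n))
    (hz : ∀ᵐ (θ : sphere (0 : Y n) 1) ∂(sph n), F (s • (θ : Y n)) = 0 → Z (s • (θ : Y n)) = 0) :
    Av (fun y => Z y ^ (1 / (n : ℝ))) s ≤ (Av Z s) ^ (1 / (n : ℝ)) *
      (Av ({y | F y ≠ 0}.indicator fun _ => (1 : ℝ)) s) ^ (((n : ℝ) - 1) / n) := by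
  have hom := om_pos (show 1 ≤ n by omega)
  have hn2 : (2 : ℝ) ≤ n := by exact_mod_cast hn
  have hn0 : (n : ℝ) ≠ 0 := by linarith
  have hn1 : (n : ℝ) - 1 ≠ 0 := by intro h; linarith
  have hpq : (n : ℝ).HolderConjugate ((n : ℝ) / (n - 1)) := by
    rw [Real.holderConjugate_iff]
    refine ⟨by linarith, ?_⟩
    field_simp
    ring
  have hsm : Measurable fun θ : sphere (0 : Y n) 1 => s • (θ : Y n) :=
    measurable_subtype_coe.const_smul s
  have hfm : Measurable (fun θ : sphere (0 : Y n) 1 => Z (s • (θ : Y n)) ^ (1 / (n : ℝ))) :=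
    (hZ.comp hsm).pow_const _
  have hgm : Measurable (fun θ : sphere (0 : Y n) 1 =>
      ({y | F y ≠ 0}.indicator fun _ => (1 : ℝ)) (s • (θ : Y n))) := (G5_ind_meas hF).comp hsm
  have hfp : ∀ θ : sphere (0 : Y n) 1,
      (Z (s • (θ : Y n)) ^ (1 / (n : ℝ))) ^ (n : ℝ) = Z (s • (θ : Y n)) := by
    intro θ
    rw [← Real.rpow_mul (hZ0 _), one_div, inv_mul_cancel₀ hn0, Real.rpow_one]
  have hf : MemLp (fun θ : sphere (0 : Y n) 1 => Z (s • (θ : Y n)) ^ (1 / (n : ℝ)))
      (ENNReal.ofReal (n : ℝ)) (sph n) := by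
    rw [← integrable_norm_rpow_iff hfm.aestronglyMeasurable
      (by simp; omega) ENNReal.ofReal_ne_top]
    rw [ENNReal.toReal_ofReal (by positivity)]
    refine hi.congr (Filter.Eventually.of_forall fun θ => ?_)
    simp only
    rw [Real.norm_of_nonneg (Real.rpow_nonneg (hZ0 _) _), hfp]
  have hg : MemLp (fun θ : sphere (0 : Y n) 1 =>
      ({y | F y ≠ 0}.indicator fun _ => (1 : ℝ)) (s • (θ : Y n)))
      (ENNReal.ofReal ((n : ℝ) / (n - 1))) (sph n) := by
    apply MemLp.of_bound hgm.aestronglyMeasurable 1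
    refine Filter.Eventually.of_forall fun θ => ?_
    rw [Real.norm_of_nonneg (G5_ind_nonneg F _)]
    exact G5_ind_le F _
  have hH := integral_mul_le_Lp_mul_Lq_of_nonneg hpq
    (Filter.Eventually.of_forall fun θ => Real.rpow_nonneg (hZ0 _) _)
    (Filter.Eventually.of_forall fun θ => G5_ind_nonneg F _) hf hg
  have e1 : ∫ θ : sphere (0 : Y n) 1, Z (s • (θ : Y n)) ^ (1 / (n : ℝ)) *
      ({y | F y ≠ 0}.indicator fun _ => (1 : ℝ)) (s • (θ : Y n)) ∂(sph n) =
      ∫ θ : sphere (0 : Y n) 1, Z (s • (θ : Y n)) ^ (1 / (n : ℝ)) ∂(sph n) := by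
    apply integral_congr_ae
    filter_upwards [hz] with θ hθ
    by_cases h0 : F (s • (θ : Y n)) = 0
    · rw [hθ h0, Real.zero_rpow (by positivity), zero_mul]
    · rw [Set.indicator_of_mem (show s • (θ : Y n) ∈ {y | F y ≠ 0} from h0), mul_one]
  have e2 : ∫ θ : sphere (0 : Y n) 1, (Z (s • (θ : Y n)) ^ (1 / (n : ℝ))) ^ (n : ℝ) ∂(sph n) =
      ∫ θ : sphere (0 : Y n) 1, Z (s • (θ : Y n)) ∂(sph n) :=
    integral_congr_ae (Filter.Eventually.of_forall hfp)
  have e3 : ∫ θ : sphere (0 : Y n) 1, (({y | F y ≠ 0}.indicator fun _ => (1 : ℝ))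
      (s • (θ : Y n))) ^ ((n : ℝ) / (n - 1)) ∂(sph n) =
      ∫ θ : sphere (0 : Y n) 1, ({y | F y ≠ 0}.indicator fun _ => (1 : ℝ))
      (s • (θ : Y n)) ∂(sph n) := by
    apply integral_congr_ae
    refine Filter.Eventually.of_forall fun θ => ?_
    simp only
    by_cases h0 : F (s • (θ : Y n)) = 0
    · rw [Set.indicator_of_notMem (show s • (θ : Y n) ∉ {y | F y ≠ 0} from fun h => h h0),
        Real.zero_rpow (div_ne_zero hn0 hn1)]
    · rw [Set.indicator_of_mem (show s • (θ : Y n) ∈ {y | F y ≠ 0} from h0), Real.one_rpow]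
  rw [e1, e2, e3] at hH
  have e4 : 1 / ((n : ℝ) / (n - 1)) = ((n : ℝ) - 1) / n := by
    field_simp
  rw [e4] at hH
  have hA : 0 ≤ ∫ θ : sphere (0 : Y n) 1, Z (s • (θ : Y n)) ∂(sph n) :=
    integral_nonneg fun _ => hZ0 _
  have hB : 0 ≤ ∫ θ : sphere (0 : Y n) 1, ({y | F y ≠ 0}.indicator fun _ => (1 : ℝ))
      (s • (θ : Y n)) ∂(sph n) := integral_nonneg fun _ => G5_ind_nonneg F _
  have hoi : 0 < (om n)⁻¹ := inv_pos.mpr hom
  unfold Av
  rw [Real.mul_rpow hoi.le hA, Real.mul_rpow hoi.le hB]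
  have e5 : ((om n)⁻¹) ^ (1 / (n : ℝ)) * ((om n)⁻¹) ^ (((n : ℝ) - 1) / n) = (om n)⁻¹ := by
    rw [← Real.rpow_add hoi]
    have : 1 / (n : ℝ) + ((n : ℝ) - 1) / n = 1 := by
      field_simp
      ring
    rw [this, Real.rpow_one]
  calc (om n)⁻¹ * ∫ θ : sphere (0 : Y n) 1, Z (s • (θ : Y n)) ^ (1 / (n : ℝ)) ∂(sph n)
      ≤ (om n)⁻¹ * _ := mul_le_mul_of_nonneg_left hH hoi.le
    _ = _ := by
        conv_lhs => rw [← e5]
        ring

/-- G5. from the radial information to the estimate -/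
theorem growth_radial {n : ℕ} (hn : 2 ≤ n) {β Cm : ℝ} (hβ : 0 < β) (hβ1 : β ≤ 1) (hCm : 0 < Cm) :
    ∃ C1 : ℝ, 0 < C1 ∧ ∀ {X : Type} [MeasurableSpace X] {μ : Measure X} [IsFiniteMeasure μ]
      {f : X → Y n} {e J z : X → ℝ} {w : X → Y n} {F G N Z : Y n → ℝ} {M r m : ℝ},
      0 < M → 0 < r → 0 < m → Push n μ f e J z w (2 * M * r ^ β) β →
      Dens n μ f e J z F G N Z →
      (∀ᵐ y, |F y ^ (1 / (n : ℝ)) - Av (fun y => F y ^ (1 / (n : ℝ))) ‖y‖| ^ n ≤
        Cm * (‖y‖ ^ n * Av Z ‖y‖)) →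
      (∀ᵐ s ∂(volume.restrict (Ioo 0 m)),
        Real.log (s / (2 * M * r ^ β)) / β - 1 - (Cm * (s ^ n * Av Z s)) ^ (1 / (n : ℝ)) ≤
          Av (fun y => F y ^ (1 / (n : ℝ))) s) →
      (∀ s t : ℝ, 0 < s → s ≤ t → ∫ x in s..t, x ^ n * Av Z x / x ≤
        β ^ (1 - (n : ℝ)) * (max (Real.log (t / (2 * M * r ^ β)) / β) 0 + 1)) →
      m ≤ C1 * M * r ^ β := by
  obtain ⟨C1, hC1, hode⟩ := ode_lemma hn hβ hβ1 hCm
  refine ⟨C1, hC1, ?_⟩
  intro X _ μ _ f e J z w F G N Z M r m hM hr hm P D hosc h6 h8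
  have hn1 : 1 ≤ n := by omega
  have hn2 : (2 : ℝ) ≤ n := by exact_mod_cast hn
  have hn0 : (n : ℝ) ≠ 0 := by linarith
  have hinv : 0 < 1 / (n : ℝ) := by positivity
  have hom := om_pos hn1
  obtain ⟨Cf, hCf⟩ := P.f_bdd
  -- integrability of the first part of `D x / x`
  have hroot : ∀ s t : ℝ, 0 < s → s ≤ t →
      IntervalIntegrable (fun x => Av (fun y => Z y ^ (1 / (n : ℝ))) x) volume s t := by
    intro s t hs hst
    exact (av_rpow_conv hn1 (h := fun _ => Z) (h' := Z) (fun _ => D.Z_int) D.Z_int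
      (fun _ => D.Z_nonneg) D.Z_nonneg (by simp) hs hst).1
  have hindm : Measurable (fun s => Av ({y | F y ≠ 0}.indicator fun _ => (1 : ℝ)) s) :=
    G5_Av_meas (G5_ind_meas D.meas_F)
  have hind0 : ∀ s, 0 ≤ Av ({y | F y ≠ 0}.indicator fun _ => (1 : ℝ)) s := fun s =>
    G5_Av_nonneg (G5_ind_nonneg F) s
  have hind1 : ∀ s, Av ({y | F y ≠ 0}.indicator fun _ => (1 : ℝ)) s ≤ 1 := G5_Av_ind_le hn1 F
  have hAvZ0 : ∀ s, 0 ≤ Av Z s := fun s => G5_Av_nonneg D.Z_nonneg s
  have hrootnn : ∀ s, 0 ≤ Av (fun y => Z y ^ (1 / (n : ℝ))) s := fun s =>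
    G5_Av_nonneg (fun y => Real.rpow_nonneg (D.Z_nonneg y) _) s
  -- the second part
  have hsec : ∀ g : ℝ → ℝ, Measurable g → (∀ x, 0 ≤ g x) → (∀ x, g x ≤ 1) → ∀ s t : ℝ, 0 < s →
      s ≤ t → IntervalIntegrable (fun x => g x / (β * x)) volume s t := by
    intro g hg hg0 hg1 s t hs hst
    have h1 : IntervalIntegrable (fun x : ℝ => 1 / (β * x)) volume s t := by
      apply ContinuousOn.intervalIntegrable
      apply ContinuousOn.div continuousOn_const (by fun_prop)
      intro x hx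
      rw [uIcc_of_le hst] at hx
      have : 0 < x := lt_of_lt_of_le hs hx.1
      positivity
    rw [intervalIntegrable_iff_integrableOn_Ioc_of_le hst] at h1 ⊢
    refine Integrable.mono' h1 ?_ ?_
    · exact (hg.div (measurable_const.mul measurable_id)).aestronglyMeasurable
    · filter_upwards [ae_restrict_mem measurableSet_Ioc] with x hx
      have hx0 : 0 < x := lt_trans hs hx.1
      rw [Real.norm_of_nonneg (div_nonneg (hg0 x) (by positivity))]
      exact div_le_div_of_nonneg_right (hg1 x) (by positivity)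
  have hqsec := hsec (fun s => 1 - Av ({y | F y ≠ 0}.indicator fun _ => (1 : ℝ)) s)
    (measurable_const.sub hindm) (fun x => by have := hind1 x; linarith)
    (fun x => by have := hind0 x; linarith)
  have hisec := hsec _ hindm hind0 hind1
  have hDeq : ∀ x : ℝ, 0 < x → (x * Av (fun y => Z y ^ (1 / (n : ℝ))) x +
      (1 - Av ({y | F y ≠ 0}.indicator fun _ => (1 : ℝ)) x) / β) / x =
      Av (fun y => Z y ^ (1 / (n : ℝ))) x +
      (1 - Av ({y | F y ≠ 0}.indicator fun _ => (1 : ℝ)) x) / (β * x) := by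
    intro x hx
    field_simp
  apply hode M r m (max Cf 0) (fun s => Av (fun y => F y ^ (1 / (n : ℝ))) s)
    (fun s => s ^ n * Av Z s)
    (fun s => s * Av (fun y => Z y ^ (1 / (n : ℝ))) s +
      (1 - Av ({y | F y ≠ 0}.indicator fun _ => (1 : ℝ)) s) / β)
    (fun s => 1 - Av ({y | F y ≠ 0}.indicator fun _ => (1 : ℝ)) s) hM hr hm
  · intro s hs
    exact mul_nonneg (pow_nonneg hs.le _) (hAvZ0 s)
  · intro s hs
    have h1 := hrootnn s
    have h2 := hind1 s
    have h3 : 0 ≤ (1 - Av ({y | F y ≠ 0}.indicator fun _ => (1 : ℝ)) s) / β :=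
      div_nonneg (by linarith) hβ.le
    have h4 : 0 ≤ s * Av (fun y => Z y ^ (1 / (n : ℝ))) s := mul_nonneg hs.le h1
    linarith
  · intro s t hs hst
    have h1 := (polar_integral hn1 D.Z_int).2.1
    have hsub : Icc s t ⊆ Ioi (0 : ℝ) := fun x hx => lt_of_lt_of_le hs hx.1
    refine (h1.mono_set hsub).congr_fun ?_ measurableSet_Icc
    intro x hx
    have hx0 : 0 < x := hsub hx
    simp only
    obtain ⟨k, rfl⟩ : ∃ k, n = k + 1 := ⟨n - 1, by omega⟩
    rw [Nat.add_sub_cancel, pow_succ]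
    field_simp
  · intro s t hs hst
    have h1 : IntervalIntegrable (fun x => Av (fun y => Z y ^ (1 / (n : ℝ))) x +
        (1 - Av ({y | F y ≠ 0}.indicator fun _ => (1 : ℝ)) x) / (β * x)) volume s t :=
      (hroot s t hs hst).add (hqsec s t hs hst)
    rw [intervalIntegrable_iff_integrableOn_Icc_of_le hst] at h1
    refine h1.congr_fun ?_ measurableSet_Icc
    intro x hx
    exact (hDeq x (lt_of_lt_of_le hs hx.1)).symm
  · have hmono := mono_limit hn P D
    filter_upwards [hmono, ae_restrict_mem measurableSet_Ioi] with s hs hs0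
    filter_upwards [hs, ae_restrict_mem measurableSet_Ioi] with t ht hst
    have hs0' : 0 < s := hs0
    have hst' : s ≤ t := le_of_lt hst
    have ht0 : 0 < t := lt_of_lt_of_le hs0' hst'
    have e1 : ∫ x in s..t, (x * Av (fun y => Z y ^ (1 / (n : ℝ))) x +
        (1 - Av ({y | F y ≠ 0}.indicator fun _ => (1 : ℝ)) x) / β) / x =
        (∫ x in s..t, (Av (fun y => Z y ^ (1 / (n : ℝ))) x -
          Av ({y | F y ≠ 0}.indicator fun _ => (1 : ℝ)) x / (β * x))) +
        ∫ x in s..t, 1 / (β * x) := by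
      have i1 := (hroot s t hs0' hst').sub (hisec s t hs0' hst')
      have i2 := hsec (fun _ => 1) measurable_const (fun _ => zero_le_one) (fun _ => le_rfl) s t
        hs0' hst'
      rw [← intervalIntegral.integral_add i1 i2]
      apply intervalIntegral.integral_congr
      intro x hx
      rw [uIcc_of_le hst'] at hx
      have hx0 : 0 < x := lt_of_lt_of_le hs0' hx.1
      simp only
      rw [hDeq x hx0]
      ring
    have e2 : ∫ x in s..t, 1 / (β * x) = (Real.log t - Real.log s) / β := by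
      have : ∀ x : ℝ, 1 / (β * x) = (1 / β) * (1 / x) := by
        intro x
        rw [one_div_mul_one_div]
      simp_rw [this]
      rw [intervalIntegral.integral_const_mul, integral_one_div_of_pos hs0' ht0,
        Real.log_div ht0.ne' hs0'.ne']
      ring
    rw [e1, e2]
    linarith
  · have hpi := (polar_integral hn1 D.Z_int).1
    have hpz := polar_ae hn1 D.Z_zero
    filter_upwards [hpi, hpz, ae_restrict_mem measurableSet_Ioi] with s hs1 hs2 hs0
    have hs0' : 0 < s := hs0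
    have h1 := hind0 s
    have h2 := hind1 s
    refine ⟨by linarith, by linarith, ?_⟩
    have h3 := G5_holder hn D.meas_F D.meas_Z D.Z_nonneg hs1 hs2
    have e1 : 1 - (1 - Av ({y | F y ≠ 0}.indicator fun _ => (1 : ℝ)) s) =
      Av ({y | F y ≠ 0}.indicator fun _ => (1 : ℝ)) s := by ring
    rw [e1]
    have e2 : (s ^ n * Av Z s) ^ (1 / (n : ℝ)) = s * (Av Z s) ^ (1 / (n : ℝ)) := by
      rw [Real.mul_rpow (by positivity) (hAvZ0 s)]
      congr 1
      rw [← Real.rpow_natCast, ← Real.rpow_mul hs0'.le, mul_one_div_cancel hn0, Real.rpow_one]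
    rw [e2]
    have h4 := mul_le_mul_of_nonneg_left h3 hs0'.le
    nlinarith
  · have hpo := polar_ae hn1 hosc
    filter_upwards [hpo, ae_restrict_mem measurableSet_Ioi] with s hs1 hs0 hq
    have hs0' : 0 < s := hs0
    have hex : ∃ θ : sphere (0 : Y n) 1, F (s • (θ : Y n)) = 0 ∧
        |F (s • (θ : Y n)) ^ (1 / (n : ℝ)) - Av (fun y => F y ^ (1 / (n : ℝ))) ‖s • (θ : Y n)‖| ^ n ≤
        Cm * (‖s • (θ : Y n)‖ ^ n * Av Z ‖s • (θ : Y n)‖) := by
      by_contra hcon
      push Not at hcon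
      have h1 : ∀ᵐ θ : sphere (0 : Y n) 1 ∂(sph n),
          ({y | F y ≠ 0}.indicator fun _ => (1 : ℝ)) (s • (θ : Y n)) = 1 := by
        filter_upwards [hs1] with θ hθ
        apply Set.indicator_of_mem
        intro h0
        exact absurd hθ (not_le.mpr (hcon θ h0))
      have h2 : Av ({y | F y ≠ 0}.indicator fun _ => (1 : ℝ)) s = 1 := by
        unfold Av
        rw [integral_congr_ae h1, G5_int_one, inv_mul_cancel₀ hom.ne']
      rw [h2] at hq
      linarith
    obtain ⟨θ, hθ0, hθ⟩ := hex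
    have hnorm : ‖s • (θ : Y n)‖ = s := by
      rw [norm_smul, Real.norm_of_nonneg hs0'.le, norm_eq_of_mem_sphere θ, mul_one]
    rw [hnorm, hθ0, Real.zero_rpow hinv.ne', zero_sub, abs_neg] at hθ
    calc Av (fun y => F y ^ (1 / (n : ℝ))) s ≤ |Av (fun y => F y ^ (1 / (n : ℝ))) s| :=
          le_abs_self _
      _ = (|Av (fun y => F y ^ (1 / (n : ℝ))) s| ^ n) ^ (1 / (n : ℝ)) := by
          rw [one_div, Real.pow_rpow_inv_natCast (abs_nonneg _) (by omega)]
      _ ≤ _ := Real.rpow_le_rpow (by positivity) hθ hinv.le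
  · exact ae_restrict_of_ae_restrict_of_subset
      (Ioo_subset_Ioo_left (by positivity : (0 : ℝ) ≤ m / 16)) h6
  · -- `F` vanishes outside a ball
    have hF0 : ∀ᵐ y, Cf < ‖y‖ → F y = 0 := by
      have hms : MeasurableSet {y : Y n | Cf < ‖y‖} := measurableSet_lt measurable_const measurable_norm
      have h1 := D.hF ({y : Y n | Cf < ‖y‖}.indicator fun _ => (1 : ℝ))
        (measurable_const.indicator hms) ⟨1, fun y => by
          rw [abs_of_nonneg (Set.indicator_nonneg (fun _ _ => zero_le_one) y)]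
          exact Set.indicator_le_self' (fun _ _ => zero_le_one) y⟩
      have h2 : ∀ x, ({y : Y n | Cf < ‖y‖}.indicator fun _ => (1 : ℝ)) (f x) * (e x ^ n * J x) = 0 := by
        intro x
        by_cases he : e x = 0
        · rw [he, zero_pow (by omega), zero_mul, mul_zero]
        · rw [Set.indicator_of_notMem (show f x ∉ {y : Y n | Cf < ‖y‖} from
            not_lt.mpr (hCf x he)), zero_mul]
      simp_rw [h2] at h1
      rw [integral_zero] at h1
      have h3 : ∀ y, 0 ≤ ({y : Y n | Cf < ‖y‖}.indicator fun _ => (1 : ℝ)) y * F y := fun y =>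
        mul_nonneg (Set.indicator_nonneg (fun _ _ => zero_le_one) y) (D.F_nonneg y)
      have h4 : Integrable (fun y => ({y : Y n | Cf < ‖y‖}.indicator fun _ => (1 : ℝ)) y * F y) := by
        have : (fun y => ({y : Y n | Cf < ‖y‖}.indicator fun _ => (1 : ℝ)) y * F y) =
            {y : Y n | Cf < ‖y‖}.indicator F := by
          funext y
          by_cases hy : y ∈ {y : Y n | Cf < ‖y‖}
          · rw [Set.indicator_of_mem hy, Set.indicator_of_mem hy, one_mul]
          · rw [Set.indicator_of_notMem hy, Set.indicator_of_notMem hy, zero_mul]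
        rw [this]
        exact D.F_int.indicator hms
      have h5 := (integral_eq_zero_iff_of_nonneg h3 h4).mp h1.symm
      filter_upwards [h5] with y hy hlt
      have h6' : ({y : Y n | Cf < ‖y‖}.indicator fun _ => (1 : ℝ)) y * F y = 0 := hy
      rw [Set.indicator_of_mem (show y ∈ {y : Y n | Cf < ‖y‖} from hlt), one_mul] at h6'
      exact h6'
    have hp := polar_ae hn1 hF0
    have hp' : ∀ᵐ s ∂(volume.restrict (Ioi (max Cf 0))), ∀ᵐ (θ : sphere (0 : Y n) 1) ∂(sph n),
        Cf < ‖s • (θ : Y n)‖ → F (s • (θ : Y n)) = 0 :=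
      ae_restrict_of_ae_restrict_of_subset (Ioi_subset_Ioi (le_max_right _ _)) hp
    filter_upwards [hp', ae_restrict_mem measurableSet_Ioi] with s hs1 hs0
    have hs0' : max Cf 0 < s := hs0
    have hspos : 0 < s := lt_of_le_of_lt (le_max_right _ _) hs0'
    have h1 : Av (fun y => F y ^ (1 / (n : ℝ))) s = 0 := by
      unfold Av
      have h2 : ∀ᵐ θ : sphere (0 : Y n) 1 ∂(sph n), F (s • (θ : Y n)) ^ (1 / (n : ℝ)) = 0 := by
        filter_upwards [hs1] with θ hθ
        have hnorm : ‖s • (θ : Y n)‖ = s := by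
          rw [norm_smul, Real.norm_of_nonneg hspos.le, norm_eq_of_mem_sphere θ, mul_one]
        rw [hθ (by rw [hnorm]; exact lt_of_le_of_lt (le_max_left _ _) hs0'),
          Real.zero_rpow hinv.ne']
      rw [integral_congr_ae h2, integral_zero, mul_zero]
    rw [h1]
  · exact h8


end H248.BH.G5

namespace H248.BH

export G5 (growth_radial)

end H248.BH
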