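import Pool.Agent.H248.BH.Defs

set_option autoImplicit false
open MeasureTheory Metric Set Filter Topology
open scoped ENNReal NNReal ContDiff

namespace H248.BH.Q1


open H248.ID


/-- pulling back null sets -/
lemma pull_null {n : ℕ} {X : Type*} [MeasurableSpace X] {μ : Measure X}
    {f : X → Y n} {e J : X → ℝ} (mf : Measurable f) (me : Measurable e)
    (J0 : ∀ x, 0 ≤ J x) (Ji : Integrable J μ) (l : ℝ) (Nl : Y n → ℝ)
    (h : ∀ ψ : Y n → ℝ, Measurable ψ → (∃ C, ∀ y, |ψ y| ≤ C) →
        ∫ x in {x | l < e x}, ψ (f x) * J x ∂μ = ∫ y, ψ y * Nl y)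
    (B : Set (Y n)) (hB : MeasurableSet B) (h0 : ∫ y, B.indicator (fun _ => (1 : ℝ)) y * Nl y = 0) :
    ∀ᵐ x ∂μ, f x ∈ B → l < e x → J x = 0 := by
  have hψm : Measurable (B.indicator (fun _ => (1 : ℝ))) := measurable_const.indicator hB
  have hψb : ∀ y, |B.indicator (fun _ => (1 : ℝ)) y| ≤ 1 := by
    intro y
    by_cases hy : y ∈ B <;> simp [hy]
  have h1 := h _ hψm ⟨1, hψb⟩
  rw [h0] at h1
  have hS : MeasurableSet {x | l < e x} := measurableSet_lt measurable_const me
  have hi : Integrable (fun x => B.indicator (fun _ => (1 : ℝ)) (f x) * J x) μ := by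
    refine Ji.bdd_mul (c := 1) (hψm.comp mf).aestronglyMeasurable ?_
    exact Eventually.of_forall fun x => by simpa using hψb (f x)
  have hnn : 0 ≤ᵐ[μ.restrict {x | l < e x}] fun x => B.indicator (fun _ => (1 : ℝ)) (f x) * J x := by
    refine Eventually.of_forall fun x => ?_
    apply mul_nonneg _ (J0 x)
    by_cases hy : f x ∈ B <;> simp [hy]
  rw [integral_eq_zero_iff_of_nonneg_ae hnn hi.integrableOn] at h1
  have h2 := (ae_restrict_iff' hS).1 h1
  filter_upwards [h2] with x hx hfx hlx
  have h3 := hx hlx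
  simpa [hfx] using h3

/-- existence of a density of the push-forward of `φ μ` -/
lemma exists_push {n : ℕ} {X : Type*} [MeasurableSpace X] {μ : Measure X}
    {f : X → Y n} (mf : Measurable f) (φ : X → ℝ) (mφ : Measurable φ) (φ0 : ∀ x, 0 ≤ φ x)
    (φi : Integrable φ μ)
    (hnull : ∀ B : Set (Y n), MeasurableSet B → volume B = 0 → ∀ᵐ x ∂μ, f x ∈ B → φ x = 0) :
    ∃ Φ : Y n → ℝ, Measurable Φ ∧ (∀ y, 0 ≤ Φ y) ∧ Integrable Φ ∧
      ∀ ψ : Y n → ℝ, Measurable ψ → (∃ C, ∀ y, |ψ y| ≤ C) →
        ∫ x, ψ (f x) * φ x ∂μ = ∫ y, ψ y * Φ y := by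
  set ρ : Measure X := μ.withDensity (fun x => ENNReal.ofReal (φ x)) with hρ
  have hρfin : IsFiniteMeasure ρ := isFiniteMeasure_withDensity_ofReal φi.2
  set κ : Measure (Y n) := ρ.map f with hκ
  have hκfin : IsFiniteMeasure κ := Measure.isFiniteMeasure_map ρ f
  have hac : κ ≪ volume := by
    refine Measure.AbsolutelyContinuous.mk fun B hB hB0 => ?_
    rw [hκ, Measure.map_apply mf hB, hρ, withDensity_apply _ (mf hB)]
    rw [lintegral_eq_zero_iff (by fun_prop)]
    have h1 := hnull B hB hB0
    refine (ae_restrict_iff' (mf hB)).2 ?_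
    filter_upwards [h1] with x hx hfx
    have := hx hfx
    simp [this]
  refine ⟨fun y => (κ.rnDeriv volume y).toReal, (Measure.measurable_rnDeriv _ _).ennreal_toReal,
    fun y => ENNReal.toReal_nonneg, Measure.integrable_toReal_rnDeriv, ?_⟩
  intro ψ mψ _
  have e1 : ∫ y, ψ y * (κ.rnDeriv volume y).toReal = ∫ y, ψ y ∂κ := by
    rw [← integral_rnDeriv_smul hac]
    congr 1
    ext y
    rw [smul_eq_mul, mul_comm]
  rw [e1, hκ, integral_map mf.aemeasurable mψ.aestronglyMeasurable, hρ,
    integral_withDensity_eq_integral_toReal_smul (by fun_prop)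
      (Eventually.of_forall fun x => ENNReal.ofReal_lt_top)]
  congr 1
  ext x
  rw [ENNReal.toReal_ofReal (φ0 x), smul_eq_mul, mul_comm]



/-- Q1. existence of the densities -/
theorem exists_dens {n : ℕ} (hn : 2 ≤ n) {X : Type*} [MeasurableSpace X] {μ : Measure X}
    [IsFiniteMeasure μ] {f : X → Y n} {e J z : X → ℝ} {w : X → Y n} {a β : ℝ}
    (P : Push n μ f e J z w a β)
    (hint : ∀ l : ℝ, 0 ≤ l → ∃ Nl : Y n → ℝ, Measurable Nl ∧ Integrable Nl ∧
      (∀ y, Nl y = 0 ∨ 1 ≤ Nl y) ∧ ∀ ψ : Y n → ℝ, Measurable ψ → (∃ C, ∀ y, |ψ y| ≤ C) →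
        ∫ x in {x | l < e x}, ψ (f x) * J x ∂μ = ∫ y, ψ y * Nl y) :
    ∃ F G N Z : Y n → ℝ, Dens n μ f e J z F G N Z := by
  have hn0 : n ≠ 0 := by omega
  have hnpos : (0 : ℝ) < n := by positivity
  obtain ⟨C, hC⟩ := P.e_bdd
  have hnull : ∀ B : Set (Y n), MeasurableSet B → volume B = 0 →
      ∀ᵐ x ∂μ, f x ∈ B → e x = 0 ∨ J x = 0 := by
    intro B hB hB0
    obtain ⟨N0, mN0, iN0, _, hN0⟩ := hint 0 le_rfl
    have h0 : ∫ y, B.indicator (fun _ => (1 : ℝ)) y * N0 y = 0 := by
      apply integral_eq_zero_of_ae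
      have : ∀ᵐ y : Y n, y ∉ B := measure_eq_zero_iff_ae_notMem.1 hB0
      filter_upwards [this] with y hy
      simp [hy]
    have h1 := pull_null P.meas_f P.meas_e P.J_nonneg P.J_int 0 N0 hN0 B hB h0
    filter_upwards [h1] with x hx hfx
    by_cases he : e x = 0
    · exact Or.inl he
    · exact Or.inr (hx hfx (lt_of_le_of_ne (P.e_nonneg x) (Ne.symm he)))
  have hint' : ∀ k : ℕ, Integrable (fun x => e x ^ k * J x) μ := by
    intro k
    refine P.J_int.bdd_mul (c := C ^ k) (P.meas_e.pow_const k).aestronglyMeasurable ?_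
    refine Eventually.of_forall fun x => ?_
    rw [Real.norm_eq_abs, abs_of_nonneg (pow_nonneg (P.e_nonneg x) k)]
    exact pow_le_pow_left₀ (P.e_nonneg x) (hC x) k
  have mJ := P.meas_J
  have me := P.meas_e
  have mz := P.meas_z
  have mf := P.meas_f
  obtain ⟨F, mF, F0, iF, hF⟩ := exists_push mf (fun x => e x ^ n * J x) (by fun_prop)
    (fun x => mul_nonneg (pow_nonneg (P.e_nonneg x) _) (P.J_nonneg x)) (hint' n) (by
      intro B hB hB0
      filter_upwards [hnull B hB hB0] with x hx hfx
      rcases hx hfx with h | h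
      · rw [h, zero_pow hn0, zero_mul]
      · rw [h, mul_zero])
  obtain ⟨G, mG, G0, iG, hG⟩ := exists_push mf (fun x => e x ^ (n - 1) * J x) (by fun_prop)
    (fun x => mul_nonneg (pow_nonneg (P.e_nonneg x) _) (P.J_nonneg x)) (hint' (n - 1)) (by
      intro B hB hB0
      filter_upwards [hnull B hB hB0] with x hx hfx
      rcases hx hfx with h | h
      · rw [h, zero_pow (by omega), zero_mul]
      · rw [h, mul_zero])
  obtain ⟨Z, mZ, Z0, iZ, hZ⟩ := exists_push mf z mz P.z_nonneg P.z_int (by
      intro B hB hB0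
      filter_upwards [hnull B hB hB0] with x hx hfx
      exact P.z_zero x (hx hfx))
  obtain ⟨N, mN, iN, N01, hN⟩ := hint 0 le_rfl
  have hindm : ∀ B : Set (Y n), MeasurableSet B → Measurable (B.indicator (fun _ => (1 : ℝ))) :=
    fun B hB => measurable_const.indicator hB
  have hindb : ∀ (B : Set (Y n)) (y : Y n), |B.indicator (fun _ => (1 : ℝ)) y| ≤ 1 := by
    intro B y
    by_cases hy : y ∈ B <;> simp [hy]
  have hind_int : ∀ (B : Set (Y n)) (H : Y n → ℝ), MeasurableSet B →
      ∫ y, B.indicator (fun _ => (1 : ℝ)) y * H y = ∫ y in B, H y := by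
    intro B H hB
    rw [← integral_indicator hB]
    congr 1
    ext y
    by_cases hy : y ∈ B <;> simp [hy]
  -- the lower bound
  have hl : ∀ l : ℝ, 0 < l → ∃ Nl : Y n → ℝ, Measurable Nl ∧ (∀ᵐ y, Nl y ≠ 0 → l ^ n ≤ F y) ∧
      ∀ᵐ x ∂μ, l < e x → J x ≠ 0 → Nl (f x) ≠ 0 := by
    intro l hl0
    obtain ⟨Nl, mNl, iNl, Nl01, hNl⟩ := hint l hl0.le
    refine ⟨Nl, mNl, ?_, ?_⟩
    · have hle : (fun y => l ^ n * Nl y) ≤ᵐ[volume] F := by
        apply ae_le_of_forall_setIntegral_le (iNl.const_mul _) iF
        intro s hs _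
        rw [integral_const_mul, ← hind_int s Nl hs, ← hind_int s F hs,
          ← hF _ (hindm s hs) ⟨1, hindb s⟩, ← hNl _ (hindm s hs) ⟨1, hindb s⟩, ← integral_const_mul]
        have hS : MeasurableSet {x | l < e x} := measurableSet_lt measurable_const me
        have hii : Integrable (fun x => s.indicator (fun _ => (1 : ℝ)) (f x) * (e x ^ n * J x)) μ := by
          refine (hint' n).bdd_mul (c := 1) ((hindm s hs).comp mf).aestronglyMeasurable ?_
          exact Eventually.of_forall fun x => by simpa using hindb s (f x)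
        have hii' : Integrable (fun x => s.indicator (fun _ => (1 : ℝ)) (f x) * J x) μ := by
          refine P.J_int.bdd_mul (c := 1) ((hindm s hs).comp mf).aestronglyMeasurable ?_
          exact Eventually.of_forall fun x => by simpa using hindb s (f x)
        have hnn : ∀ x, 0 ≤ s.indicator (fun _ => (1 : ℝ)) (f x) := by
          intro x
          by_cases hy : f x ∈ s <;> simp [hy]
        calc ∫ x in {x | l < e x}, l ^ n * (s.indicator (fun _ => (1 : ℝ)) (f x) * J x) ∂μ
            ≤ ∫ x in {x | l < e x}, s.indicator (fun _ => (1 : ℝ)) (f x) * (e x ^ n * J x) ∂μ := by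
              apply setIntegral_mono_on (hii'.const_mul _).integrableOn hii.integrableOn hS
              intro x hx
              have h1 : l ^ n ≤ e x ^ n := pow_le_pow_left₀ hl0.le (le_of_lt hx) n
              have h2 := P.J_nonneg x
              have h3 := hnn x
              calc l ^ n * (s.indicator (fun _ => (1 : ℝ)) (f x) * J x)
                  ≤ e x ^ n * (s.indicator (fun _ => (1 : ℝ)) (f x) * J x) :=
                    mul_le_mul_of_nonneg_right h1 (mul_nonneg h3 h2)
                _ = _ := by ring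
          _ ≤ ∫ x, s.indicator (fun _ => (1 : ℝ)) (f x) * (e x ^ n * J x) ∂μ := by
              apply setIntegral_le_integral hii
              exact Eventually.of_forall fun x =>
                mul_nonneg (hnn x) (mul_nonneg (pow_nonneg (P.e_nonneg x) _) (P.J_nonneg x))
      filter_upwards [hle] with y hy hne
      have h1 : 1 ≤ Nl y := (Nl01 y).resolve_left hne
      have h2 : l ^ n * 1 ≤ l ^ n * Nl y := mul_le_mul_of_nonneg_left h1 (by positivity)
      have hy' : l ^ n * Nl y ≤ F y := hy
      linarith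
    · have hB : MeasurableSet {y | Nl y = 0} := mNl (measurableSet_singleton 0)
      have h0 : ∫ y, ({y | Nl y = 0} : Set (Y n)).indicator (fun _ => (1 : ℝ)) y * Nl y = 0 := by
        apply integral_eq_zero_of_ae
        refine Eventually.of_forall fun y => ?_
        by_cases hy : Nl y = 0
        · simp [hy]
        · simp [hy]
      have h1 := pull_null mf me P.J_nonneg P.J_int l Nl hNl _ hB h0
      filter_upwards [h1] with x hx hlx hJ hNz
      exact hJ (hx hNz hlx)
  -- pointwise bound
  have hpt : ∀ᵐ x ∂μ, e x ≠ 0 → J x ≠ 0 → e x ^ n ≤ F (f x) := by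
    have hq : ∀ q : ℚ, 0 < (q : ℝ) → ∃ Nl : Y n → ℝ, Measurable Nl ∧
        (∀ᵐ y, Nl y ≠ 0 → (q : ℝ) ^ n ≤ F y) ∧ ∀ᵐ x ∂μ, (q : ℝ) < e x → J x ≠ 0 → Nl (f x) ≠ 0 :=
      fun q hq => hl q hq
    choose! Nq mNq h1q h2q using hq
    have hA : ∀ᵐ x ∂μ, ∀ q : ℚ, 0 < (q : ℝ) → (q : ℝ) < e x → J x ≠ 0 → Nq q (f x) ≠ 0 := by
      rw [ae_all_iff]
      intro q
      by_cases hq : 0 < (q : ℝ)
      · filter_upwards [h2q q hq] with x hx _
        exact hx
      · exact Eventually.of_forall fun x h => absurd h hq
    have hB : ∀ᵐ x ∂μ, ∀ q : ℚ, 0 < (q : ℝ) → e x ≠ 0 → J x ≠ 0 →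
        (Nq q (f x) ≠ 0 → (q : ℝ) ^ n ≤ F (f x)) := by
      rw [ae_all_iff]
      intro q
      by_cases hq : 0 < (q : ℝ)
      · have h3 := h1q q hq
        have hms : MeasurableSet {y | ¬ (Nq q y ≠ 0 → (q : ℝ) ^ n ≤ F y)} := by
          have h4 : {y | ¬ (Nq q y ≠ 0 → (q : ℝ) ^ n ≤ F y)} =
              {y | Nq q y = 0}ᶜ ∩ {y | (q : ℝ) ^ n ≤ F y}ᶜ := by
            ext y
            simp only [mem_setOf_eq, mem_inter_iff, mem_compl_iff]
            tauto
          rw [h4]
          exact ((mNq q hq) (measurableSet_singleton 0)).compl.inter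
            (measurableSet_le measurable_const mF).compl
        have h5 := hnull _ hms h3
        filter_upwards [h5] with x hx _ he hJ hne
        by_contra hcon
        rcases hx (fun h => hcon (h hne)) with h | h
        · exact he h
        · exact hJ h
      · exact Eventually.of_forall fun x h => absurd h hq
    filter_upwards [hA, hB] with x hAx hBx he hJ
    have hepos : 0 < e x := lt_of_le_of_ne (P.e_nonneg x) (Ne.symm he)
    by_contra hcon
    push Not at hcon
    -- choose rational q < e x with F (f x) < q ^ n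
    have hcont : Tendsto (fun t : ℝ => t ^ n) (𝓝[<] (e x)) (𝓝 (e x ^ n)) :=
      ((continuous_pow n).tendsto (e x)).mono_left nhdsWithin_le_nhds
    have hev := (hcont.eventually (lt_mem_nhds hcon)).and
      (Ioo_mem_nhdsLT hepos : Ioo 0 (e x) ∈ 𝓝[<] (e x))
    obtain ⟨b, hb, hb2⟩ := (mem_nhdsLT_iff_exists_Ioo_subset' hepos).1 hev
    obtain ⟨q, hq1, hq2⟩ := exists_rat_btwn (show b < e x from hb)
    have h6 := hb2 ⟨hq1, hq2⟩
    have h7 : F (f x) < (q : ℝ) ^ n := h6.1
    have h8 : (q : ℝ) ∈ Ioo 0 (e x) := h6.2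
    have := hBx q h8.1 he hJ (hAx q h8.1 h8.2 hJ)
    linarith
  -- F ≤ F^(1/n) G
  have hFG : ∀ᵐ y, F y ≤ F y ^ (1 / (n : ℝ)) * G y := by
    have hk : ∀ k : ℕ, ∀ᵐ y, F y ≤ k → F y ≤ F y ^ (1 / (n : ℝ)) * G y := by
      intro k
      have hBk : MeasurableSet {y | F y ≤ k} := measurableSet_le mF measurable_const
      have hΨm : Measurable (fun y => ({y | F y ≤ k} : Set (Y n)).indicator (fun y => F y ^ (1 / (n : ℝ))) y) :=
        (mF.pow_const _).indicator hBk
      have hΨ0 : ∀ y, 0 ≤ ({y | F y ≤ k} : Set (Y n)).indicator (fun y => F y ^ (1 / (n : ℝ))) y := by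
        intro y
        by_cases hy : F y ≤ k
        · simp only [mem_setOf_eq, hy, indicator_of_mem]
          exact Real.rpow_nonneg (F0 y) _
        · simp [hy]
      have hΨb : ∀ y, |({y | F y ≤ k} : Set (Y n)).indicator (fun y => F y ^ (1 / (n : ℝ))) y| ≤
          (k : ℝ) ^ (1 / (n : ℝ)) := by
        intro y
        rw [abs_of_nonneg (hΨ0 y)]
        by_cases hy : F y ≤ k
        · simp only [mem_setOf_eq, hy, indicator_of_mem]
          exact Real.rpow_le_rpow (F0 y) hy (by positivity)
        · simp only [mem_setOf_eq, hy, not_false_eq_true, indicator_of_notMem]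
          positivity
      have hle : ({y | F y ≤ k} : Set (Y n)).indicator F ≤ᵐ[volume]
          fun y => ({y | F y ≤ k} : Set (Y n)).indicator (fun y => F y ^ (1 / (n : ℝ))) y * G y := by
        apply ae_le_of_forall_setIntegral_le (iF.indicator hBk)
        · refine iG.bdd_mul (c := (k : ℝ) ^ (1 / (n : ℝ))) hΨm.aestronglyMeasurable ?_
          exact Eventually.of_forall fun y => hΨb y
        · intro s hs _
          have hsk : MeasurableSet (s ∩ {y | F y ≤ k}) := hs.inter hBk
          have e1 : ∫ y in s, ({y | F y ≤ k} : Set (Y n)).indicator F y =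
              ∫ x, (s ∩ {y | F y ≤ k}).indicator (fun _ => (1 : ℝ)) (f x) * (e x ^ n * J x) ∂μ := by
            rw [setIntegral_indicator hBk, hF _ (hindm _ hsk) ⟨1, hindb _⟩, hind_int _ _ hsk]
          have e2 : ∫ y in s, ({y | F y ≤ k} : Set (Y n)).indicator (fun y => F y ^ (1 / (n : ℝ))) y * G y =
              ∫ x, (s.indicator (fun _ => (1 : ℝ)) (f x) *
                ({y | F y ≤ k} : Set (Y n)).indicator (fun y => F y ^ (1 / (n : ℝ))) (f x)) *
                (e x ^ (n - 1) * J x) ∂μ := by
            have h9 := hG (fun y => s.indicator (fun _ => (1 : ℝ)) y *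
                ({y | F y ≤ k} : Set (Y n)).indicator (fun y => F y ^ (1 / (n : ℝ))) y)
              ((hindm s hs).mul hΨm) ⟨(k : ℝ) ^ (1 / (n : ℝ)), fun y => by
                rw [abs_mul]
                calc _ ≤ 1 * (k : ℝ) ^ (1 / (n : ℝ)) := by
                      gcongr
                      · exact hindb s y
                      · exact hΨb y
                  _ = _ := one_mul _⟩
            rw [h9, ← hind_int s _ hs]
            congr 1
            ext y
            ring
          rw [e1, e2]
          apply integral_mono_ae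
          · refine (hint' n).bdd_mul (c := 1) ((hindm _ hsk).comp mf).aestronglyMeasurable ?_
            exact Eventually.of_forall fun x => by simpa using hindb _ (f x)
          · refine (hint' (n - 1)).bdd_mul (c := (k : ℝ) ^ (1 / (n : ℝ)))
              (((hindm s hs).comp mf).mul (hΨm.comp mf)).aestronglyMeasurable ?_
            refine Eventually.of_forall fun x => ?_
            rw [norm_mul]
            calc _ ≤ 1 * (k : ℝ) ^ (1 / (n : ℝ)) := by
                  gcongr
                  · exact hindb s (f x)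
                  · exact hΨb (f x)
              _ = _ := one_mul _
          · filter_upwards [hpt] with x hx
            by_cases hfs : f x ∈ s
            · by_cases hfk : F (f x) ≤ k
              · have hm1 : f x ∈ s ∩ {y | F y ≤ k} := ⟨hfs, hfk⟩
                simp only [hm1, indicator_of_mem, hfs, mem_setOf_eq, hfk, one_mul]
                by_cases he : e x = 0
                · rw [he, zero_pow hn0, zero_mul]
                  exact mul_nonneg (Real.rpow_nonneg (F0 _) _)
                    (mul_nonneg (pow_nonneg le_rfl _) (P.J_nonneg x))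
                by_cases hJ : J x = 0
                · rw [hJ]; simp
                have h10 := hx he hJ
                have h11 : e x ≤ F (f x) ^ (1 / (n : ℝ)) := by
                  have h12 : (e x ^ n) ^ (1 / (n : ℝ)) ≤ F (f x) ^ (1 / (n : ℝ)) :=
                    Real.rpow_le_rpow (pow_nonneg (P.e_nonneg x) _) h10 (by positivity)
                  rwa [one_div, Real.pow_rpow_inv_natCast (P.e_nonneg x) hn0, ← one_div] at h12
                have h13 : e x ^ n = e x * e x ^ (n - 1) := by
                  rw [← pow_succ']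
                  congr 1
                  omega
                rw [h13]
                have h14 : 0 ≤ e x ^ (n - 1) * J x := mul_nonneg (pow_nonneg (P.e_nonneg x) _) (P.J_nonneg x)
                calc e x * e x ^ (n - 1) * J x = e x * (e x ^ (n - 1) * J x) := by ring
                  _ ≤ _ := mul_le_mul_of_nonneg_right h11 h14
              · have hm1 : f x ∉ s ∩ {y | F y ≤ k} := fun h => hfk h.2
                simp [hm1, hfk]
            · have hm1 : f x ∉ s ∩ {y | F y ≤ k} := fun h => hfs h.1
              simp [hm1, hfs]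
      filter_upwards [hle] with y hy hyk
      simpa [hyk] using hy
    have hall := ae_all_iff.2 hk
    filter_upwards [hall] with y hy
    obtain ⟨k, hk'⟩ := exists_nat_ge (F y)
    exact hy k hk'
  refine ⟨F, G, N, Z, ⟨mF, mG, mN, mZ, F0, G0, ?_, Z0, iF, iG, iN, iZ, hF, hG, ?_, hZ, ?_, ?_⟩⟩
  · intro y
    rcases N01 y with h | h
    · rw [h]
    · linarith
  · intro ψ mψ bψ
    have hset : {x | e x ≠ 0} = {x | 0 < e x} := by
      ext x
      simp only [mem_setOf_eq]
      constructor
      · intro h
        exact lt_of_le_of_ne (P.e_nonneg x) (Ne.symm h)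
      · intro h
        exact h.ne'
    rw [hset]
    exact hN ψ mψ bψ
  · filter_upwards [hFG] with y hy
    by_cases hFy : F y = 0
    · rw [hFy, Real.zero_rpow]
      · exact G0 y
      · have : (1 : ℝ) < n := by exact_mod_cast hn
        have : (0 : ℝ) < ((n : ℝ) - 1) / n := by apply div_pos <;> linarith
        exact this.ne'
    · have hFpos : 0 < F y := lt_of_le_of_ne (F0 y) (Ne.symm hFy)
      have h1 : F y = F y ^ (1 / (n : ℝ)) * F y ^ (((n : ℝ) - 1) / n) := by
        rw [← Real.rpow_add hFpos]
        have : 1 / (n : ℝ) + ((n : ℝ) - 1) / n = 1 := by field_simp; ring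
        rw [this, Real.rpow_one]
      have h2 : 0 < F y ^ (1 / (n : ℝ)) := Real.rpow_pos_of_pos hFpos _
      have h3 : F y ^ (1 / (n : ℝ)) * F y ^ (((n : ℝ) - 1) / n) ≤ F y ^ (1 / (n : ℝ)) * G y := by
        rw [← h1]
        exact hy
      exact le_of_mul_le_mul_left h3 h2
  · have hB : MeasurableSet {y | F y = 0} := mF (measurableSet_singleton 0)
    have h1 : ∫ x, ({y | F y = 0} : Set (Y n)).indicator (fun _ => (1 : ℝ)) (f x) * (e x ^ n * J x) ∂μ = 0 := by
      rw [hF _ (hindm _ hB) ⟨1, hindb _⟩]
      apply integral_eq_zero_of_ae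
      refine Eventually.of_forall fun y => ?_
      by_cases hy : F y = 0 <;> simp [hy]
    have hnn : ∀ (B : Set (Y n)) x, 0 ≤ B.indicator (fun _ => (1 : ℝ)) (f x) := by
      intro B x
      by_cases hy : f x ∈ B <;> simp [hy]
    rw [integral_eq_zero_iff_of_nonneg_ae] at h1
    · have h2 : ∫ y, ({y | F y = 0} : Set (Y n)).indicator (fun _ => (1 : ℝ)) y * Z y = 0 := by
        rw [← hZ _ (hindm _ hB) ⟨1, hindb _⟩]
        apply integral_eq_zero_of_ae
        filter_upwards [h1] with x hx
        by_cases hfx : F (f x) = 0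
        · have hx' : e x ^ n * J x = 0 := by simpa [hfx] using hx
          have hz : z x = 0 := by
            apply P.z_zero
            rcases mul_eq_zero.1 hx' with h | h
            · exact Or.inl (pow_eq_zero_iff hn0 |>.1 h)
            · exact Or.inr h
          simp [hz]
        · simp [hfx]
      rw [integral_eq_zero_iff_of_nonneg_ae] at h2
      · filter_upwards [h2] with y hy hFy
        simpa [hFy] using hy
      · refine Eventually.of_forall fun y => ?_
        apply mul_nonneg _ (Z0 y)
        by_cases hy : F y = 0 <;> simp [hy]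
      · refine iZ.bdd_mul (c := 1) (hindm _ hB).aestronglyMeasurable ?_
        exact Eventually.of_forall fun y => by simpa using hindb _ y
    · exact Eventually.of_forall fun x =>
        mul_nonneg (hnn _ x) (mul_nonneg (pow_nonneg (P.e_nonneg x) _) (P.J_nonneg x))
    · refine (hint' n).bdd_mul (c := 1) ((hindm _ hB).comp mf).aestronglyMeasurable ?_
      exact Eventually.of_forall fun x => by simpa using hindb _ (f x)


end H248.BH.Q1

namespace H248.BH

export Q1 (exists_dens)

end H248.BH
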