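import Pool.Agent.H248.BH.Defs

set_option autoImplicit false
open MeasureTheory Metric Set Filter Topology
open scoped ENNReal NNReal ContDiff

namespace H248.BH.M1


open H248.ID

/-! ### AVAILABLE (proved; from Pool/Agent/Helper795/LusinN.lean) -/

/-- Jensen / Hölder on a set of finite measure. -/
lemma lintegral_le_rpow {α : Type*} [MeasurableSpace α] (μ : Measure α) {p : ℝ} (hp : 1 < p)
    {h : α → ℝ≥0∞} (hh : AEMeasurable h μ) :
    ∫⁻ a, h a ∂μ ≤ (∫⁻ a, h a ^ p ∂μ) ^ (1 / p) * (μ univ) ^ (1 - 1 / p) := by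
  have hpq : p.HolderConjugate (Real.conjExponent p) := Real.HolderConjugate.conjExponent hp
  have := ENNReal.lintegral_mul_le_Lp_mul_Lq μ hpq hh (g := fun _ => 1) aemeasurable_const
  simp only [Pi.mul_apply, mul_one, ENNReal.one_rpow, lintegral_const, one_mul] at this
  refine this.trans (le_of_eq ?_)
  congr 2
  have := hpq.one_sub_inv
  simp only [one_div]
  exact this.symm

open Module in
lemma lintegral_homothety {F : Type*} [NormedAddCommGroup F] [NormedSpace ℝ F]
    [FiniteDimensional ℝ F] [MeasurableSpace F] [BorelSpace F] (μ : Measure F) [μ.IsAddHaarMeasure]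
    {s : ℝ} (hs : 0 < s) (c : F) {h : F → ℝ≥0∞} (hh : Measurable h) :
    ∫⁻ y, h (c + s • y) ∂μ = ENNReal.ofReal ((s ^ finrank ℝ F)⁻¹) * ∫⁻ z, h z ∂μ := by
  have h1 : ∫⁻ y, h (c + s • y) ∂μ = ∫⁻ z, h (c + z) ∂(Measure.map (s • ·) μ) := by
    rw [lintegral_map (by fun_prop) (measurable_const_smul s)]
  rw [h1, Measure.map_addHaar_smul μ hs.ne', lintegral_smul_measure,
    abs_of_nonneg (by positivity), lintegral_add_left_eq_self]
  rfl

open Module in
theorem morrey_abstract {F : Type*} [NormedAddCommGroup F] [NormedSpace ℝ F]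
    [FiniteDimensional ℝ F] [MeasurableSpace F] [BorelSpace F] (μ : Measure F) [μ.IsAddHaarMeasure]
    {p : ℝ} (hp : (finrank ℝ F : ℝ) < p) (hp1 : 1 < p) {ρ : ℝ} (hρ : 0 < ρ) :
    ∃ C : ℝ≥0∞, C ≠ ⊤ ∧ ∀ (h : F → ℝ≥0∞) (w : F → ℝ), Measurable h →
      (∀ x ∈ closedBall (0 : F) ρ, ∀ y ∈ closedBall (0 : F) ρ,
        ‖w x - w y‖ₑ ≤ ∫⁻ s in Ioo (0 : ℝ) 1, h (x + s • (y - x)) * ‖y - x‖ₑ) →
      ∀ x ∈ closedBall (0 : F) ρ, ∀ y ∈ closedBall (0 : F) ρ,
        ‖w x - w y‖ₑ ≤ C * (∫⁻ z in closedBall (0 : F) ρ, h z ^ p ∂μ) ^ (1 / p) := by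
  set B : Set F := closedBall (0 : F) ρ with hB
  have hBm : MeasurableSet B := measurableSet_closedBall
  have hBc : Convex ℝ B := convex_closedBall _ _
  have hB0 : μ B ≠ 0 := (measure_closedBall_pos μ 0 hρ).ne'
  have hBt : μ B ≠ ⊤ := measure_closedBall_lt_top.ne
  set m : ℕ := finrank ℝ F with hm
  have hp0 : 0 < p := by linarith
  set I : ℝ≥0∞ := ∫⁻ s in Ioo (0 : ℝ) 1, ENNReal.ofReal ((s ^ m)⁻¹) ^ (1 / p) with hI
  have hIt : I ≠ ⊤ := by
    have h1 : IntegrableOn (fun s : ℝ => s ^ (-((m : ℝ) / p))) (Ioo 0 1) := by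
      rw [intervalIntegral.integrableOn_Ioo_rpow_iff zero_lt_one]
      have : (m : ℝ) / p < 1 := (div_lt_one hp0).2 hp
      linarith
    have h2 := h1.2
    rw [hasFiniteIntegral_iff_enorm] at h2
    refine ne_of_lt (lt_of_le_of_lt (le_of_eq ?_) h2)
    refine setLIntegral_congr_fun measurableSet_Ioo fun s hs => ?_
    have hs0 : 0 < s := hs.1
    rw [Real.enorm_eq_ofReal (by positivity), ENNReal.ofReal_rpow_of_nonneg (by positivity)
      (by positivity)]
    congr 1
    rw [← Real.rpow_natCast s m, ← Real.rpow_neg hs0.le, ← Real.rpow_mul hs0.le]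
    congr 1
    ring
  refine ⟨2 * (ENNReal.ofReal (2 * ρ) * (I * (μ B) ^ (1 - 1 / p))) * (μ B)⁻¹, ?_, ?_⟩
  · refine ENNReal.mul_ne_top (ENNReal.mul_ne_top (by norm_num) (ENNReal.mul_ne_top
      ENNReal.ofReal_ne_top (ENNReal.mul_ne_top hIt ?_))) (ENNReal.inv_ne_top.2 hB0)
    refine ENNReal.rpow_ne_top_of_nonneg ?_ hBt
    have : 1 / p < 1 := by rw [div_lt_one hp0]; exact hp1
    linarith
  intro h w hh hw
  set J : ℝ≥0∞ := (∫⁻ z in B, h z ^ p ∂μ) ^ (1 / p) with hJ
  -- the averaged bound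
  set H : F → F → ℝ≥0∞ := fun x y => ∫⁻ s in Ioo (0 : ℝ) 1, h (x + s • (y - x)) *
    ENNReal.ofReal (2 * ρ) with hH
  have hHm : ∀ x, Measurable (H x) := by
    intro x
    have : Measurable fun q : F × ℝ => h (x + q.2 • (q.1 - x)) * ENNReal.ofReal (2 * ρ) := by
      refine (hh.comp ?_).mul_const _
      fun_prop
    exact this.lintegral_prod_right' (ν := volume.restrict (Ioo (0 : ℝ) 1))
  have key : ∀ x ∈ B, ∫⁻ y in B, H x y ∂μ ≤ ENNReal.ofReal (2 * ρ) * (I * (μ B) ^ (1 - 1 / p)) * J := by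
    intro x hx
    have hsw : ∫⁻ y in B, H x y ∂μ = ∫⁻ s in Ioo (0 : ℝ) 1, ∫⁻ y in B, h (x + s • (y - x)) *
        ENNReal.ofReal (2 * ρ) ∂μ := by
      rw [hH]
      refine lintegral_lintegral_swap ?_
      refine Measurable.aemeasurable ?_
      refine Measurable.mul_const (hh.comp ?_) _
      fun_prop
    rw [hsw]
    have hin : ∀ s ∈ Ioo (0 : ℝ) 1, ∫⁻ y in B, h (x + s • (y - x)) * ENNReal.ofReal (2 * ρ) ∂μ ≤
        ENNReal.ofReal ((s ^ m)⁻¹) ^ (1 / p) *
          (ENNReal.ofReal (2 * ρ) * (μ B) ^ (1 - 1 / p) * J) := by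
      intro s hs
      have hs0 : 0 < s := hs.1
      have hmeas : Measurable fun y : F => h (x + s • (y - x)) := hh.comp (by fun_prop)
      rw [lintegral_mul_const _ hmeas]
      have h1 := lintegral_le_rpow (μ.restrict B) hp1 (h := fun y => h (x + s • (y - x)))
        hmeas.aemeasurable
      rw [Measure.restrict_apply_univ] at h1
      have h2 : ∫⁻ y in B, h (x + s • (y - x)) ^ p ∂μ ≤ ENNReal.ofReal ((s ^ m)⁻¹) *
          ∫⁻ z in B, h z ^ p ∂μ := by
        have hg : Measurable (B.indicator fun z => h z ^ p) := (hh.pow_const p).indicator hBm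
        have h3 := lintegral_homothety μ hs0 (x - s • x) hg
        rw [lintegral_indicator hBm] at h3
        rw [← h3, ← lintegral_indicator hBm]
        refine lintegral_mono fun y => ?_
        by_cases hy : y ∈ B
        · rw [indicator_of_mem hy]
          have he : x + s • (y - x) = x - s • x + s • y := by rw [smul_sub]; abel
          have hmem : x - s • x + s • y ∈ B := by
            rw [← he]
            exact hBc.add_smul_sub_mem hx hy ⟨hs.1.le, hs.2.le⟩
          rw [indicator_of_mem hmem, he]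
        · rw [indicator_of_notMem hy]; exact zero_le
      have h4 : (∫⁻ y in B, h (x + s • (y - x)) ^ p ∂μ) ^ (1 / p) ≤
          ENNReal.ofReal ((s ^ m)⁻¹) ^ (1 / p) * J := by
        rw [hJ, ← ENNReal.mul_rpow_of_nonneg _ _ (by positivity)]
        exact ENNReal.rpow_le_rpow h2 (by positivity)
      calc (∫⁻ y in B, h (x + s • (y - x)) ∂μ) * ENNReal.ofReal (2 * ρ)
          ≤ ((ENNReal.ofReal ((s ^ m)⁻¹) ^ (1 / p) * J) * μ B ^ (1 - 1 / p)) *
            ENNReal.ofReal (2 * ρ) := by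
            gcongr
            exact h1.trans (by gcongr)
        _ = _ := by ring
    calc ∫⁻ s in Ioo (0 : ℝ) 1, ∫⁻ y in B, h (x + s • (y - x)) * ENNReal.ofReal (2 * ρ) ∂μ
        ≤ ∫⁻ s in Ioo (0 : ℝ) 1, ENNReal.ofReal ((s ^ m)⁻¹) ^ (1 / p) *
          (ENNReal.ofReal (2 * ρ) * (μ B) ^ (1 - 1 / p) * J) :=
          setLIntegral_mono' measurableSet_Ioo hin
      _ = I * (ENNReal.ofReal (2 * ρ) * (μ B) ^ (1 - 1 / p) * J) := by
          rw [lintegral_mul_const, hI]
          refine Measurable.pow_const ?_ _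
          exact ENNReal.measurable_ofReal.comp (by fun_prop)
      _ = _ := by ring
  intro x hx y hy
  have hle : ∀ x ∈ B, ∀ y ∈ B, ‖w x - w y‖ₑ ≤ H x y := by
    intro x hx y hy
    refine (hw x hx y hy).trans ?_
    refine lintegral_mono fun s => ?_
    gcongr
    rw [← ofReal_norm]
    refine ENNReal.ofReal_le_ofReal ?_
    have h1 : ‖x‖ ≤ ρ := by simpa [hB] using hx
    have h2 : ‖y‖ ≤ ρ := by simpa [hB] using hy
    calc ‖y - x‖ ≤ ‖y‖ + ‖x‖ := norm_sub_le _ _
      _ ≤ 2 * ρ := by linarith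
  have htot : ‖w x - w y‖ₑ * μ B ≤ 2 * (ENNReal.ofReal (2 * ρ) * (I * (μ B) ^ (1 - 1 / p)) * J) := by
    calc ‖w x - w y‖ₑ * μ B = ∫⁻ z in B, ‖w x - w y‖ₑ ∂μ := by
          rw [lintegral_const, Measure.restrict_apply_univ]
      _ ≤ ∫⁻ z in B, (H x z + H y z) ∂μ := by
          refine setLIntegral_mono' hBm fun z hz => ?_
          have h1 := hle x hx z hz
          have h2 := hle y hy z hz
          have h3 : ‖w x - w y‖ₑ ≤ ‖w x - w z‖ₑ + ‖w y - w z‖ₑ := by
            have : w x - w y = (w x - w z) - (w y - w z) := by ring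
            rw [this]
            exact enorm_sub_le
          exact h3.trans (add_le_add h1 h2)
      _ = ∫⁻ z in B, H x z ∂μ + ∫⁻ z in B, H y z ∂μ := by
          rw [lintegral_add_left (hHm x)]
      _ ≤ _ := by
          rw [two_mul]
          exact add_le_add (key x hx) (key y hy)
  calc ‖w x - w y‖ₑ = ‖w x - w y‖ₑ * μ B * (μ B)⁻¹ := by
        rw [mul_assoc, ENNReal.mul_inv_cancel hB0 hBt, mul_one]
    _ ≤ 2 * (ENNReal.ofReal (2 * ρ) * (I * (μ B) ^ (1 - 1 / p)) * J) * (μ B)⁻¹ := by gcongr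
    _ = _ := by ring



/-- M1. Morrey's inequality on a cube of dimension `m` with exponent `m + 1` -/
theorem cube_morrey {m : ℕ} (hm : 1 ≤ m) : ∃ C : ℝ, 0 < C ∧ ∀ (v : E m → ℝ) (T : E m → ℝ),
    ContDiff ℝ 1 v → Continuous T → (∀ x, 0 ≤ T x) → (∀ x ∈ closedBall (0 : E m) 1, gr v x ≤ T x) →
    ∀ x ∈ closedBall (0 : E m) 1, ∀ y ∈ closedBall (0 : E m) 1,
      |v x - v y| ^ (m + 1) ≤ C * ∫ z in closedBall (0 : E m) 1, T z ^ (m + 1) := by
  have hfr : Module.finrank ℝ (E m) = m := Module.finrank_fin_fun ℝ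
  have hp : (Module.finrank ℝ (E m) : ℝ) < ((m + 1 : ℕ) : ℝ) := by
    rw [hfr]; push_cast; linarith
  have hp1 : (1 : ℝ) < ((m + 1 : ℕ) : ℝ) := by
    have : (1 : ℝ) ≤ m := by exact_mod_cast hm
    push_cast; linarith
  obtain ⟨C0, hC0, hmain⟩ := morrey_abstract (F := E m) (volume : Measure (E m)) hp hp1
    (ρ := 1) zero_lt_one
  refine ⟨C0.toReal ^ (m + 1) + 1, by positivity, ?_⟩
  intro v T hv hT hT0 hgr x hx y hy
  have hvd : Differentiable ℝ v := hv.differentiable (by norm_num)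
  have hfc : Continuous (fderiv ℝ v) := hv.continuous_fderiv (by norm_num)
  -- derivative bound
  have hder : ∀ p ∈ closedBall (0 : E m) 1, ∀ w : E m, |fderiv ℝ v p w| ≤ T p * ‖w‖ := by
    intro p hpm w
    have hw : w = ∑ j, w j • (Pi.single j (1 : ℝ) : E m) := by
      ext i
      simp [Finset.sum_apply, Pi.single_apply]
    have h1 : fderiv ℝ v p w = ∑ j, w j * pd v j p := by
      conv_lhs => rw [hw]
      simp only [map_sum, map_smul, smul_eq_mul, pd]
    rw [h1]
    calc |∑ j, w j * pd v j p| ≤ ∑ j, |w j * pd v j p| := Finset.abs_sum_le_sum_abs _ _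
      _ ≤ ∑ j, ‖w‖ * |pd v j p| := by
          refine Finset.sum_le_sum fun j _ => ?_
          rw [abs_mul]
          refine mul_le_mul_of_nonneg_right ?_ (abs_nonneg _)
          exact norm_le_pi_norm w j
      _ = gr v p * ‖w‖ := by rw [← Finset.mul_sum, mul_comm, gr]
      _ ≤ T p * ‖w‖ := mul_le_mul_of_nonneg_right (hgr p hpm) (norm_nonneg _)
  have hseg : ∀ x ∈ closedBall (0 : E m) 1, ∀ y ∈ closedBall (0 : E m) 1,
      ‖v x - v y‖ₑ ≤ ∫⁻ s in Ioo (0 : ℝ) 1, ENNReal.ofReal (T (x + s • (y - x))) * ‖y - x‖ₑ := by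
    intro x hx y hy
    have hpath : ∀ s : ℝ, HasDerivAt (fun s : ℝ => v (x + s • (y - x)))
        (fderiv ℝ v (x + s • (y - x)) (y - x)) s := by
      intro s
      have h1 : HasDerivAt (fun s : ℝ => x + s • (y - x)) (y - x) s := by
        simpa using ((hasDerivAt_id s).smul_const (y - x)).const_add x
      exact (hvd _).hasFDerivAt.comp_hasDerivAt s h1
    have hcont : Continuous fun s : ℝ => fderiv ℝ v (x + s • (y - x)) (y - x) := by
      have h2 : Continuous fun s : ℝ => x + s • (y - x) := by fun_prop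
      exact (hfc.comp h2).clm_apply continuous_const
    have hint := intervalIntegral.integral_eq_sub_of_hasDerivAt (a := 0) (b := 1)
      (fun s _ => hpath s) (hcont.intervalIntegrable _ _)
    have h3 : v x - v y = -(∫ s in (0 : ℝ)..1, fderiv ℝ v (x + s • (y - x)) (y - x)) := by
      rw [hint]
      simp
    rw [h3, enorm_neg, intervalIntegral.integral_of_le zero_le_one,
      integral_Ioc_eq_integral_Ioo]
    refine (enorm_integral_le_lintegral_enorm _).trans ?_
    refine setLIntegral_mono' measurableSet_Ioo fun s hs => ?_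
    have hmem : x + s • (y - x) ∈ closedBall (0 : E m) 1 :=
      (convex_closedBall (0 : E m) 1).add_smul_sub_mem hx hy ⟨hs.1.le, hs.2.le⟩
    have h4 := hder _ hmem (y - x)
    rw [← ofReal_norm, ← ofReal_norm, ← ENNReal.ofReal_mul (hT0 _)]
    exact ENNReal.ofReal_le_ofReal h4
  have hmeas : Measurable fun z : E m => ENNReal.ofReal (T z) := hT.measurable.ennreal_ofReal
  have hfin := hmain (fun z => ENNReal.ofReal (T z)) v hmeas hseg x hx y hy
  -- convert the integral
  have hTp : Continuous fun z : E m => T z ^ (m + 1) := hT.pow _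
  have hTint : IntegrableOn (fun z : E m => T z ^ (m + 1)) (closedBall (0 : E m) 1) :=
    hTp.continuousOn.integrableOn_compact (isCompact_closedBall _ _)
  have hconv : ∫⁻ z in closedBall (0 : E m) 1, ENNReal.ofReal (T z) ^ (((m + 1 : ℕ) : ℝ)) =
      ENNReal.ofReal (∫ z in closedBall (0 : E m) 1, T z ^ (m + 1)) := by
    rw [ofReal_integral_eq_lintegral_ofReal hTint
      (Eventually.of_forall fun z => pow_nonneg (hT0 z) _)]
    refine lintegral_congr fun z => ?_
    rw [ENNReal.rpow_natCast, ENNReal.ofReal_pow (hT0 z)]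
  have hI0 : 0 ≤ ∫ z in closedBall (0 : E m) 1, T z ^ (m + 1) :=
    integral_nonneg fun z => pow_nonneg (hT0 z) _
  rw [hconv] at hfin
  have h5 : ‖v x - v y‖ₑ ^ (m + 1) ≤
      C0 ^ (m + 1) * ENNReal.ofReal (∫ z in closedBall (0 : E m) 1, T z ^ (m + 1)) := by
    calc ‖v x - v y‖ₑ ^ (m + 1) ≤ (C0 * ENNReal.ofReal (∫ z in closedBall (0 : E m) 1,
          T z ^ (m + 1)) ^ (1 / (((m + 1 : ℕ) : ℝ)))) ^ (m + 1) := by gcongr
      _ = C0 ^ (m + 1) * ENNReal.ofReal (∫ z in closedBall (0 : E m) 1, T z ^ (m + 1)) := by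
          rw [mul_pow]
          congr 1
          rw [← ENNReal.rpow_natCast, ← ENNReal.rpow_mul, one_div, inv_mul_cancel₀,
            ENNReal.rpow_one]
          positivity
  have h6 : ENNReal.ofReal (|v x - v y| ^ (m + 1)) ≤ ENNReal.ofReal (C0.toReal ^ (m + 1) *
      ∫ z in closedBall (0 : E m) 1, T z ^ (m + 1)) := by
    rw [ENNReal.ofReal_pow (abs_nonneg _), ENNReal.ofReal_mul (by positivity),
      ENNReal.ofReal_pow ENNReal.toReal_nonneg, ENNReal.ofReal_toReal hC0]
    rw [← ofReal_norm] at h5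
    exact h5
  have h7 := (ENNReal.ofReal_le_ofReal_iff (by positivity)).1 h6
  refine h7.trans ?_
  exact mul_le_mul_of_nonneg_right (by linarith) hI0


end H248.BH.M1

namespace H248.BH

export M1 (cube_morrey)

end H248.BH
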