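import Pool.Agent.H248.BH.Defs
import Pool.Agent.H248.BH.B01
import Pool.Agent.H248.BH.M1
import Pool.Agent.H248.BH.C1
import Pool.Agent.H248.BH.C2
import Pool.Agent.H248.BH.C3

set_option autoImplicit false
open MeasureTheory Metric Set Filter Topology
open scoped ENNReal NNReal ContDiff

namespace H248.BH.M2


open H248.ID












lemma M2_aux {m : ℕ} (i : Fin (m+1)) (σ : ℝ) {v : Y (m+1) → ℝ} {T : Y (m+1) → ℝ} {s C2 : ℝ}
    (hs : 0 < s) (hC2 : 0 < C2) (hv : ContDiff ℝ 1 v) (hT0 : ∀ y, 0 ≤ T y)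
    (hg : ∀ y, ‖y‖ = s → ∀ h : Y (m+1), inner ℝ y h = 0 → |fderiv ℝ v y h| ≤ T y * ‖h‖)
    (hfc : ContDiff ℝ 1 (face (m := m) i σ))
    (hf : ∀ z : E m, ‖face i σ z‖ = 1 ∧
      ∀ v : E m, ‖fderiv ℝ (face i σ) z v‖ ≤ C2 * ‖v‖ ∧
        inner ℝ (face i σ z) (fderiv ℝ (face i σ) z v) = 0) (z : E m) :
    gr (fun z => v (s • face i σ z)) z ≤ m * (C2 * s * T (s • face i σ z)) := by
  obtain ⟨h1, h2⟩ := hf z
  have hd1 : HasFDerivAt (fun z => s • face i σ z) (s • fderiv ℝ (face i σ) z) z :=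
    ((hfc.differentiable one_ne_zero) z).hasFDerivAt.const_smul s
  have hd2 : HasFDerivAt v (fderiv ℝ v (s • face i σ z)) (s • face i σ z) :=
    ((hv.differentiable one_ne_zero) _).hasFDerivAt
  have hd := hd2.comp z hd1
  have hfd : fderiv ℝ (fun z => v (s • face i σ z)) z =
      (fderiv ℝ v (s • face i σ z)).comp (s • fderiv ℝ (face i σ) z) := hd.fderiv
  have key : ∀ j, |pd (fun z => v (s • face i σ z)) j z| ≤ C2 * s * T (s • face i σ z) := by
    intro j
    unfold pd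
    rw [hfd]
    obtain ⟨h3, h4⟩ := h2 (Pi.single j 1)
    have h5 := hg (s • face i σ z) (by rw [norm_smul, h1, Real.norm_eq_abs, abs_of_pos hs, mul_one])
      (s • fderiv ℝ (face i σ) z (Pi.single j 1)) (by
        rw [inner_smul_left, inner_smul_right, h4]; simp)
    refine h5.trans ?_
    rw [norm_smul, Real.norm_eq_abs, abs_of_pos hs]
    have h6 : ‖(Pi.single j (1:ℝ) : E m)‖ ≤ 1 := by
      rw [pi_norm_le_iff_of_nonneg zero_le_one]
      intro k
      by_cases hk : k = j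
      · subst hk; simp
      · simp [hk]
    have h7 : ‖fderiv ℝ (face i σ) z (Pi.single j 1)‖ ≤ C2 :=
      h3.trans (by nlinarith)
    have h8 := mul_le_mul_of_nonneg_left (mul_le_mul_of_nonneg_left h7 hs.le)
      (hT0 (s • face i σ z))
    linarith
  unfold gr
  refine (Finset.sum_le_sum fun j _ => key j).trans ?_
  simp

/-- M2. Morrey's inequality on spheres -/
theorem sphere_morrey {n : ℕ} (hn : 2 ≤ n) : ∃ C : ℝ, 0 < C ∧ ∀ (v T : Y n → ℝ) (s : ℝ), 0 < s →
    ContDiff ℝ 1 v → Continuous T → (∀ y, 0 ≤ T y) →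
    (∀ y, ‖y‖ = s → ∀ h : Y n, inner ℝ y h = 0 → |fderiv ℝ v y h| ≤ T y * ‖h‖) →
    ∀ y, ‖y‖ = s → |v y - Av v s| ^ n ≤ C * (s ^ n * Av (fun y => T y ^ n) s) := by
  obtain ⟨m, rfl⟩ : ∃ m, n = m + 1 := ⟨n - 1, by omega⟩
  have hm : 1 ≤ m := by omega
  obtain ⟨C1, hC1, H1⟩ := cube_morrey hm
  obtain ⟨C3, hC3, H3⟩ := face_measure hm
  obtain ⟨C2, hC2, H2⟩ := face_smooth hm
  have hm0 : (0:ℝ) < m := by exact_mod_cast hm
  refine ⟨4 ^ (m+1) * (C1 * (m * C2) ^ (m+1) * C3), by positivity, ?_⟩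
  intro v T s hs hv hT hT0 hg y hy
  have hom : 0 < om (m+1) := om_pos (by omega)
  set AT := Av (fun y => T y ^ (m+1)) s with hAT
  have hAT0 : 0 ≤ AT := by
    rw [hAT]; unfold Av
    refine mul_nonneg (inv_nonneg.2 hom.le) (integral_nonneg fun θ => ?_)
    exact pow_nonneg (hT0 _) _
  set B := C1 * (m * C2 * s) ^ (m+1) * (C3 * AT) with hB
  have hB0 : 0 ≤ B := by positivity
  set A := B ^ (((m+1 : ℕ) : ℝ)⁻¹) with hA
  have hA0 : 0 ≤ A := Real.rpow_nonneg hB0 _
  have hAB : A ^ (m+1) = B := Real.rpow_inv_natCast_pow hB0 (by omega)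
  have hch : ∀ (i : Fin (m + 1)) (σ : ℝ), (σ = 1 ∨ σ = -1) → ∀ x ∈ closedBall (0 : E m) 1,
      ∀ y ∈ closedBall (0 : E m) 1,
        |(fun a => v (s • a)) (face i σ x) - (fun a => v (s • a)) (face i σ y)| ≤ A := by
    intro i σ hσ x hx y hy
    obtain ⟨hfc, hf⟩ := H2 i σ hσ
    have hfcont : Continuous (face (m := m) i σ) := hfc.continuous
    have h1 := H1 (fun z => v (s • face i σ z)) (fun z => m * (C2 * s * T (s • face i σ z)))
      (hv.comp (contDiff_const_smul s |>.comp hfc)) (by fun_prop)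
      (fun z => by have := hT0 (s • face i σ z); positivity)
      (fun z _ => M2_aux i σ hs hC2 hv hT0 hg hfc hf z) x hx y hy
    have h2 : ∫ z in closedBall (0 : E m) 1, (m * (C2 * s * T (s • face i σ z))) ^ (m+1) =
        (m * C2 * s) ^ (m+1) * ∫ z in closedBall (0 : E m) 1, T (s • face i σ z) ^ (m+1) := by
      rw [← integral_const_mul]
      congr 1
      ext z
      rw [← mul_pow]
      ring
    have h3 := H3 i σ hσ (fun y => T (s • y) ^ (m+1)) (by fun_prop) (fun y => pow_nonneg (hT0 _) _)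
    have h4 : Av (fun y : Y (m+1) => T (s • y) ^ (m+1)) 1 = AT := by
      rw [hAT]; unfold Av; simp
    rw [h4] at h3
    rw [h2] at h1
    have h5 : |v (s • face i σ x) - v (s • face i σ y)| ^ (m+1) ≤ A ^ (m+1) := by
      rw [hAB]
      refine h1.trans ?_
      have h6 : C1 * ((m * C2 * s) ^ (m+1) *
          ∫ z in closedBall (0 : E m) 1, T (s • face i σ z) ^ (m+1)) ≤
          C1 * ((m * C2 * s) ^ (m+1) * (C3 * AT)) :=
        mul_le_mul_of_nonneg_left (mul_le_mul_of_nonneg_left h3 (by positivity)) hC1.le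
      refine h6.trans (le_of_eq ?_)
      rw [hB]; ring
    exact (pow_le_pow_iff_left₀ (abs_nonneg _) hA0 (by omega)).1 h5
  have hu : ∀ a b : Y (m+1), ‖a‖ = 1 → ‖b‖ = 1 → |v (s • a) - v (s • b)| ≤ 4 * A :=
    fun a b ha hb => face_chain (u := fun a => v (s • a)) hm hch ha hb
  have hya : v y = v (s • (s⁻¹ • y)) := by rw [smul_smul, mul_inv_cancel₀ hs.ne', one_smul]
  have hna : ‖s⁻¹ • y‖ = 1 := by
    rw [norm_smul, hy, Real.norm_eq_abs, abs_of_pos (inv_pos.2 hs), inv_mul_cancel₀ hs.ne']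
  haveI : IsFiniteMeasure (sph (m+1)) := by unfold sph; infer_instance
  have hint : Integrable (fun θ : sphere (0 : Y (m+1)) 1 => v (s • (θ : Y (m+1)))) (sph (m+1)) := by
    have hc : Continuous (fun θ : sphere (0 : Y (m+1)) 1 => v (s • (θ : Y (m+1)))) :=
      hv.continuous.comp (continuous_subtype_val.const_smul s)
    exact hc.integrable_of_hasCompactSupport (HasCompactSupport.of_compactSpace _)
  have hdiff : v y - Av v s = (om (m+1))⁻¹ * ∫ θ : sphere (0 : Y (m+1)) 1,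
      (v y - v (s • (θ : Y (m+1)))) ∂(sph (m+1)) := by
    rw [integral_sub (integrable_const _) hint, integral_const]
    unfold Av
    have : (sph (m+1)).real univ = om (m+1) := rfl
    rw [this, smul_eq_mul, mul_sub, ← mul_assoc, inv_mul_cancel₀ hom.ne', one_mul]
  have hbd : |v y - Av v s| ≤ 4 * A := by
    rw [hdiff, abs_mul, abs_of_pos (inv_pos.2 hom)]
    have h1 : ‖∫ θ : sphere (0 : Y (m+1)) 1, (v y - v (s • (θ : Y (m+1)))) ∂(sph (m+1))‖ ≤
        (4 * A) * (sph (m+1)).real univ := by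
      refine norm_integral_le_of_norm_le_const (Eventually.of_forall fun θ => ?_)
      rw [Real.norm_eq_abs, hya]
      refine hu _ _ hna ?_
      have := θ.2
      rwa [mem_sphere_zero_iff_norm] at this
    have h2 : (sph (m+1)).real univ = om (m+1) := rfl
    rw [h2, Real.norm_eq_abs] at h1
    calc _ ≤ (om (m+1))⁻¹ * (4 * A * om (m+1)) := mul_le_mul_of_nonneg_left h1 (inv_nonneg.2 hom.le)
      _ = 4 * A := by field_simp
  calc |v y - Av v s| ^ (m+1) ≤ (4 * A) ^ (m+1) := pow_le_pow_left₀ (abs_nonneg _) hbd _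
    _ = 4 ^ (m+1) * B := by rw [mul_pow, hAB]
    _ = _ := by rw [hB]; ring


end H248.BH.M2

namespace H248.BH

export M2 (sphere_morrey)

end H248.BH
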