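import Pool.Agent.H248.BH.Defs
import Pool.Agent.H248.BH.B01
import Pool.Agent.H248.BH.B02
import Pool.Agent.H248.BH.M2
import Pool.Agent.H248.BH.A5

set_option autoImplicit false
open MeasureTheory Metric Set Filter Topology
open scoped ENNReal NNReal ContDiff

namespace H248.BH.Q3


open H248.ID









theorem J5036_int {n : ℕ} {h : Y n → ℝ} (hh : Continuous h) (s : ℝ) :
    Integrable (fun θ : sphere (0 : Y n) 1 => h (s • (θ : Y n))) (sph n) := by
  have hc : Continuous (fun θ : sphere (0 : Y n) 1 => h (s • (θ : Y n))) :=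
    hh.comp (continuous_subtype_val.const_smul s)
  have : IsFiniteMeasure (sph n) := by unfold sph; infer_instance
  exact hc.integrable_of_hasCompactSupport (HasCompactSupport.of_compactSpace _)

theorem J5036_mono {n : ℕ} (hn : 1 ≤ n) {h g : Y n → ℝ} (hh : Continuous h) (hg : Continuous g)
    (hle : ∀ y, h y ≤ g y) (s : ℝ) : Av h s ≤ Av g s := by
  unfold Av
  apply mul_le_mul_of_nonneg_left _ (inv_nonneg.2 (om_pos hn).le)
  exact integral_mono (J5036_int hh s) (J5036_int hg s) fun θ => hle _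

theorem J5036_lin {n : ℕ} {h g : Y n → ℝ} (hh : Continuous h) (hg : Continuous g) (a b s : ℝ) :
    Av (fun y => a * (h y + b * g y)) s = a * (Av h s + b * Av g s) := by
  unfold Av
  have e1 : ∫ θ : sphere (0 : Y n) 1, a * (h (s • (θ : Y n)) + b * g (s • (θ : Y n))) ∂(sph n) =
      a * (∫ θ : sphere (0 : Y n) 1, h (s • (θ : Y n)) ∂(sph n) +
        b * ∫ θ : sphere (0 : Y n) 1, g (s • (θ : Y n)) ∂(sph n)) := by
    rw [integral_const_mul, integral_add (J5036_int hh s) ((J5036_int hg s).const_mul b),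
      integral_const_mul]
  rw [e1]; ring

/-- Q3. oscillation on spheres -/
theorem osc_limit {n : ℕ} (hn : 2 ≤ n) : ∃ C : ℝ, 0 < C ∧ ∀ {X : Type} [MeasurableSpace X]
    {μ : Measure X} [IsFiniteMeasure μ] {f : X → Y n} {e J z : X → ℝ} {w : X → Y n} {a β : ℝ}
    {F G N Z : Y n → ℝ}, Push n μ f e J z w a β → Dens n μ f e J z F G N Z →
    ∀ᵐ y, |F y ^ (1 / (n : ℝ)) - Av (fun y => F y ^ (1 / (n : ℝ))) ‖y‖| ^ n ≤
      C * (‖y‖ ^ n * Av Z ‖y‖) := by
  obtain ⟨C0, hC0, hM⟩ := sphere_morrey hn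
  refine ⟨2 ^ (n - 1) * C0, by positivity, ?_⟩
  intro X _ μ _ f e J z w a β F G N Z P D
  obtain ⟨v, R, Zk, Nk, c, hcont, hnn, hc0, hclim, htan, -, hv, -, hs, -⟩ := approx_seq hn P D
  have h1n : (0 : ℝ) ≤ 1 / (n : ℝ) := by positivity
  have hn0 : n ≠ 0 := by omega
  have hpos : ∀ᵐ y : Y n, 0 < ‖y‖ := by
    apply ae_norm (by omega) (p := fun s => 0 < s)
    exact ae_restrict_mem measurableSet_Ioi
  have hs' := ae_norm (n := n) (by omega) hs
  filter_upwards [hpos, hs', hv] with y hy0 hys hyv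
  obtain ⟨hs1, hs2, hs3⟩ := hys
  set s := ‖y‖ with hsdef
  -- the bound for each k
  have hk : ∀ k, |v k y - Av (v k) s| ^ n ≤
      C0 * (s ^ n * (2 ^ (n - 1) * (Av (Zk k) s + c k ^ n * Av (Nk k) s))) := by
    intro k
    obtain ⟨hcv, hcZ, hcN, hcR⟩ := hcont k
    set T : Y n → ℝ := fun y => Zk k y ^ (1 / (n : ℝ)) + c k * Nk k y ^ (1 / (n : ℝ)) with hT
    have hTc : Continuous T :=
      (hcZ.rpow_const fun _ => Or.inr h1n).add
        (continuous_const.mul (hcN.rpow_const fun _ => Or.inr h1n))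
    have hT0 : ∀ y, 0 ≤ T y := fun y =>
      add_nonneg (Real.rpow_nonneg (hnn k y).2.1 _)
        (mul_nonneg (hc0 k) (Real.rpow_nonneg (hnn k y).2.2.1 _))
    have h1 := hM (v k) T s hy0 hcv hTc hT0 (fun x _ h hxh => htan k x h hxh) y rfl
    refine h1.trans ?_
    apply mul_le_mul_of_nonneg_left _ hC0.le
    apply mul_le_mul_of_nonneg_left _ (by positivity)
    rw [← J5036_lin hcZ hcN]
    apply J5036_mono (by omega) (hTc.pow n)
      (continuous_const.mul (hcZ.add (continuous_const.mul hcN)))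
    intro x
    have h2 := add_pow_le (Real.rpow_nonneg (hnn k x).2.1 (1 / (n : ℝ)))
      (mul_nonneg (hc0 k) (Real.rpow_nonneg (hnn k x).2.2.1 (1 / (n : ℝ)))) n
    have h3 : (Zk k x ^ (1 / (n : ℝ))) ^ n = Zk k x := by
      rw [one_div]; exact Real.rpow_inv_natCast_pow (hnn k x).2.1 hn0
    have h4 : (c k * Nk k x ^ (1 / (n : ℝ))) ^ n = c k ^ n * Nk k x := by
      rw [mul_pow, one_div]; rw [Real.rpow_inv_natCast_pow (hnn k x).2.2.1 hn0]
    rw [h3, h4] at h2
    exact h2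
  have hL : Tendsto (fun k => |v k y - Av (v k) s| ^ n) atTop
      (𝓝 (|F y ^ (1 / (n : ℝ)) - Av (fun y => F y ^ (1 / (n : ℝ))) s| ^ n)) :=
    ((hyv.sub hs1).abs).pow n
  have hcn : Tendsto (fun k => c k ^ n) atTop (𝓝 0) := by
    have := hclim.pow n
    rwa [zero_pow hn0] at this
  have hR : Tendsto (fun k => C0 * (s ^ n * (2 ^ (n - 1) * (Av (Zk k) s + c k ^ n * Av (Nk k) s))))
      atTop (𝓝 (C0 * (s ^ n * (2 ^ (n - 1) * (Av Z s + 0 * Av N s))))) :=
    ((((hs2.add (hcn.mul hs3)).const_mul _).const_mul _).const_mul _)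
  have hfin := le_of_tendsto_of_tendsto' hL hR hk
  refine hfin.trans (le_of_eq ?_)
  ring


end H248.BH.Q3

namespace H248.BH

export Q3 (osc_limit)

end H248.BH
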