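import Pool.Agent.H248.BH.Defs
import Pool.Agent.H248.ID.J03
import Pool.Agent.H248.ID.J09b
import Pool.Agent.H248.ID.J12b

set_option autoImplicit false
open MeasureTheory Metric Set Filter Topology
open scoped ENNReal NNReal ContDiff

namespace H248.BH.X2


open H248.ID

lemma im_entry_le {n : ℕ} (M : Matrix (Fin n) (Fin n) ℝ) (i j : Fin n) : |M i j| ≤ sn M := by
  unfold sn
  have h1 : |M i j| ≤ ∑ j, |M i j| :=
    Finset.single_le_sum (f := fun j => |M i j|) (fun _ _ => abs_nonneg _) (Finset.mem_univ j)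
  have h2 : ∑ j, |M i j| ≤ ∑ i, ∑ j, |M i j| :=
    Finset.single_le_sum (f := fun i => ∑ j, |M i j|)
      (fun _ _ => Finset.sum_nonneg fun _ _ => abs_nonneg _) (Finset.mem_univ i)
  exact h1.trans h2

lemma im_sn_nonneg {n : ℕ} (M : Matrix (Fin n) (Fin n) ℝ) : 0 ≤ sn M :=
  Finset.sum_nonneg fun _ _ => Finset.sum_nonneg fun _ _ => abs_nonneg _

lemma im_det_le {n : ℕ} (M : Matrix (Fin n) (Fin n) ℝ) :
    |M.det| ≤ (n.factorial : ℝ) * sn M ^ n := by
  rw [Matrix.det_apply]
  refine (Finset.abs_sum_le_sum_abs _ _).trans ?_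
  have h : ∀ σ ∈ (Finset.univ : Finset (Equiv.Perm (Fin n))),
      |Equiv.Perm.sign σ • ∏ i, M (σ i) i| ≤ sn M ^ n := by
    intro σ _
    have e1 : |Equiv.Perm.sign σ • ∏ i, M (σ i) i| = ∏ i, |M (σ i) i| := by
      rw [← Finset.abs_prod]
      rcases Int.units_eq_one_or (Equiv.Perm.sign σ) with h | h <;> simp [h]
    rw [e1]
    calc ∏ i, |M (σ i) i| ≤ ∏ _i : Fin n, sn M :=
          Finset.prod_le_prod (fun _ _ => abs_nonneg _) (fun i _ => im_entry_le M _ _)
      _ = sn M ^ n := by simp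
  refine (Finset.sum_le_card_nsmul _ _ _ h).trans ?_
  rw [Finset.card_univ, Fintype.card_perm, Fintype.card_fin, nsmul_eq_mul]

lemma im_det_meas {n : ℕ} {Df : E n → Matrix (Fin n) (Fin n) ℝ}
    (h : ∀ i j, Measurable fun x => Df x i j) : Measurable fun x => (Df x).det := by
  simp only [Matrix.det_apply]
  refine Finset.measurable_sum _ fun σ _ => ?_
  refine Measurable.const_smul ?_ _
  exact Finset.measurable_prod _ fun i _ => h _ _

lemma im_pow {t : ℝ} (ht : 0 ≤ t) {n : ℕ} (hn : 1 ≤ n) : t ≤ t ^ n + 1 := by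
  rcases le_total t 1 with h | h
  · have := pow_nonneg ht n
    linarith
  · have := le_self_pow₀ h (by omega : n ≠ 0)
    linarith

/-- the local covering -/
lemma im_local {n : ℕ} (hn : 1 ≤ n) {Ω : Set (E n)} {f : E n → E n}
    {Df : E n → Matrix (Fin n) (Fin n) ℝ} {K : ℝ} (H : QR Ω f Df K) {a : E n} {R : ℝ}
    (hR : 0 < R) (hsub : closedBall a (2 * R) ⊆ Ω) :
    ∃ A : ℕ → Set (E n), (∀ j, MeasurableSet (A j)) ∧
      volume (closedBall a (R / 4) \ ⋃ j, A j) = 0 ∧
      ∀ j, ∀ x ∈ A j, HasFDerivWithinAt f (toC (Df x)) (A j) x := by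
  have hf : ∀ i, IntegrableOn (fun x => f x i) (closedBall a (2 * R)) := by
    intro i
    have hc : ContinuousOn (fun x => f x i) (closedBall a (2 * R)) :=
      (continuous_apply i).comp_continuousOn (H.cont.mono hsub)
    exact hc.integrableOn_compact (isCompact_closedBall _ _)
  have hW : ∀ φ : E n → ℝ, ContDiff ℝ ∞ φ → tsupport φ ⊆ closedBall a (2 * R) →
      ∀ i j, ∫ x, f x i * pd φ j x = - ∫ x, Df x i j * φ x := by
    intro φ hφ hs
    exact H.weak φ hφ ((isCompact_closedBall a (2 * R)).of_isClosed_subset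
      (isClosed_tsupport _) hs) (hs.trans hsub)
  obtain ⟨F, hF, hconv, Φ, hΦ, hdom⟩ := mollification hn H.meas_f H.meas_D hR hf hW hn
    (H.int _ (isCompact_closedBall _ _) hsub)
  have hΦ' : IntegrableOn (fun x => Φ x + 1) (closedBall a R) :=
    hΦ.add (integrableOn_const (isCompact_closedBall _ _).measure_lt_top.ne)
  obtain ⟨A, hA1, _, hA3, hA4⟩ := approx_diff hn H.meas_f H.meas_D hR hF hΦ' hconv
    (by
      filter_upwards [hdom] with x hx k
      have := im_pow (im_sn_nonneg (jac (F k) x)) hn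
      linarith [hx k])
  exact ⟨A, hA1, hA3, hA4⟩

/-- the global covering -/
lemma im_cover {n : ℕ} (hn : 1 ≤ n) {Ω : Set (E n)} {f : E n → E n}
    {Df : E n → Matrix (Fin n) (Fin n) ℝ} {K : ℝ} (H : QR Ω f Df K) {C : Set (E n)}
    (hC : IsCompact C) (hCΩ : C ⊆ Ω) :
    ∃ S : ℕ → Set (E n), (∀ j, MeasurableSet (S j)) ∧ volume (C \ ⋃ j, S j) = 0 ∧
      ∀ j, ∀ x ∈ S j, HasFDerivWithinAt f (toC (Df x)) (S j) x := by
  have h0 : ∀ c ∈ C, ∃ R : ℝ, 0 < R ∧ closedBall c (2 * R) ⊆ Ω := by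
    intro c hc
    obtain ⟨ε, hε, h⟩ := Metric.isOpen_iff.1 H.isOpen c (hCΩ hc)
    exact ⟨ε / 3, by positivity, (closedBall_subset_ball (by linarith)).trans h⟩
  choose! R hR hsub using h0
  obtain ⟨t, ht, hcov⟩ := hC.elim_nhds_subcover (fun c => closedBall c (R c / 4))
    (fun c hc => closedBall_mem_nhds c (by have := hR c hc; positivity))
  have h1 : ∀ c : t, ∃ A : ℕ → Set (E n), (∀ j, MeasurableSet (A j)) ∧
      volume (closedBall (c : E n) (R c / 4) \ ⋃ j, A j) = 0 ∧
      ∀ j, ∀ x ∈ A j, HasFDerivWithinAt f (toC (Df x)) (A j) x := fun c =>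
    im_local hn H (hR c (ht c c.2)) (hsub c (ht c c.2))
  choose A hA1 hA2 hA3 using h1
  let _ : Encodable (t × ℕ) := Encodable.ofCountable _
  let T : t × ℕ → Set (E n) := fun p => A p.1 p.2
  refine ⟨fun m => ⋃ b ∈ Encodable.decode₂ (t × ℕ) m, T b, ?_, ?_, ?_⟩
  · intro m
    exact Encodable.iUnion_decode₂_cases (C := fun X => MeasurableSet X) MeasurableSet.empty
      (fun b => hA1 _ _)
  · rw [Encodable.iUnion_decode₂ T]
    have h2 : C \ ⋃ b, T b ⊆ ⋃ c : t, (closedBall (c : E n) (R c / 4) \ ⋃ j, A c j) := by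
      rintro x ⟨hx, hx'⟩
      obtain ⟨c, hc, hxc⟩ := mem_iUnion₂.1 (hcov hx)
      refine mem_iUnion.2 ⟨⟨c, hc⟩, hxc, fun h => hx' ?_⟩
      obtain ⟨j, hj⟩ := mem_iUnion.1 h
      exact mem_iUnion.2 ⟨(⟨c, hc⟩, j), hj⟩
    exact measure_mono_null h2 (measure_iUnion_null fun c => hA2 c)
  · intro m
    exact Encodable.iUnion_decode₂_cases
      (C := fun X => ∀ x ∈ X, HasFDerivWithinAt f (toC (Df x)) X x)
      (fun x hx => absurd hx (notMem_empty x)) (fun b => hA3 _ _)

/-- summation of the multiplicities -/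
lemma im_sum {n : ℕ} {N : ℕ → E n → ℤ} (hm : ∀ i, Measurable (N i))
    (hi : ∀ i, Integrable fun y => (N i y : ℝ)) (h0 : ∀ i y, 0 ≤ N i y)
    (hs : Summable fun i => ∫ y, (N i y : ℝ)) :
    ∃ M : E n → ℝ, Measurable M ∧ Integrable M ∧ (∀ y, M y = 0 ∨ 1 ≤ M y) ∧
      ∀ y, M y = ∑' i, (N i y : ℝ) := by
  have hmr : ∀ i, Measurable fun y => (N i y : ℝ) := fun i =>
    (measurable_from_top (f := fun z : ℤ => (z : ℝ))).comp (hm i)
  have hme : ∀ i, Measurable fun y => ENNReal.ofReal (N i y : ℝ) := fun i => (hmr i).ennreal_ofReal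
  let M : E n → ℝ≥0∞ := fun y => ∑' i, ENNReal.ofReal (N i y : ℝ)
  have hM : Measurable M := Measurable.tsum hme
  have hn0 : ∀ i y, (0 : ℝ) ≤ N i y := fun i y => by exact_mod_cast h0 i y
  have hfin : ∫⁻ y, M y ≠ ⊤ := by
    have e1 : ∫⁻ y, M y = ∑' i, ENNReal.ofReal (∫ y, (N i y : ℝ)) := by
      rw [lintegral_tsum fun i => (hme i).aemeasurable]
      congr 1
      funext i
      rw [ofReal_integral_eq_lintegral_ofReal (hi i) (Eventually.of_forall (hn0 i))]
    rw [e1, ← ENNReal.ofReal_tsum_of_nonneg (fun i => integral_nonneg (hn0 i)) hs]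
    exact ENNReal.ofReal_ne_top
  refine ⟨fun y => (M y).toReal, hM.ennreal_toReal,
    integrable_toReal_of_lintegral_ne_top hM.aemeasurable hfin, ?_, ?_⟩
  · intro y
    by_cases h : ∃ i, N i y ≠ 0
    · obtain ⟨i, hi'⟩ := h
      have h1 : (1 : ℤ) ≤ N i y := by have := h0 i y; omega
      have h2 : (1 : ℝ≥0∞) ≤ ENNReal.ofReal (N i y : ℝ) := by
        rw [← ENNReal.ofReal_one]
        exact ENNReal.ofReal_le_ofReal (by exact_mod_cast h1)
      have h3 : (1 : ℝ≥0∞) ≤ M y := h2.trans (ENNReal.le_tsum i)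
      by_cases h4 : M y = ⊤
      · left
        simp [h4]
      · right
        have := ENNReal.toReal_mono h4 h3
        simpa using this
    · left
      push Not at h
      simp [M, h]
  · intro y
    simp only [M]
    rw [ENNReal.tsum_toReal_eq fun i => ENNReal.ofReal_ne_top]
    congr 1
    funext i
    exact ENNReal.toReal_ofReal (hn0 i y)

/-- X2. integer multiplicity -/
theorem integer_mult {n : ℕ} (hn : 1 ≤ n) {Ω : Set (E n)} {f : E n → E n}
    {Df : E n → Matrix (Fin n) (Fin n) ℝ} {K : ℝ} (H : QR Ω f Df K) {C A : Set (E n)}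
    (hC : IsCompact C) (hCΩ : C ⊆ Ω) (hA : MeasurableSet A) (hAC : A ⊆ C) :
    ∃ N : E n → ℝ, Measurable N ∧ Integrable N ∧ (∀ y, N y = 0 ∨ 1 ≤ N y) ∧
      ∀ ψ : E n → ℝ, Measurable ψ → (∃ B, ∀ y, |ψ y| ≤ B) →
        ∫ x in A, ψ (f x) * (Df x).det = ∫ y, ψ y * N y := by
  obtain ⟨S, hS1, hS2, hS3⟩ := im_cover hn H hC hCΩ
  have hdm : Measurable fun x => (Df x).det := im_det_meas H.meas_D
  have hdi : IntegrableOn (fun x => (Df x).det) C := by
    refine Integrable.mono' ((H.int C hC hCΩ).const_mul (n.factorial : ℝ))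
      hdm.aestronglyMeasurable (Eventually.of_forall fun x => ?_)
    simpa using im_det_le (Df x)
  let B0 : Set (E n) := A ∩ {x | 0 ≤ (Df x).det}
  have hB0 : MeasurableSet B0 := hA.inter (measurableSet_le measurable_const hdm)
  let D : ℕ → Set (E n) := fun i => disjointed S i ∩ B0
  have hD1 : ∀ i, MeasurableSet (D i) := fun i => (MeasurableSet.disjointed hS1 i).inter hB0
  have hDS : ∀ i, D i ⊆ S i := fun i => inter_subset_left.trans (disjointed_subset S i)
  have hDB : ∀ i, D i ⊆ B0 := fun i => inter_subset_right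
  have hD2 : Pairwise (Function.onFun Disjoint D) := by
    intro i j hij
    exact (disjoint_disjointed S hij).mono inter_subset_left inter_subset_left
  have hDu : ⋃ i, D i = (⋃ i, S i) ∩ B0 := by
    simp only [D]
    rw [← iUnion_inter, iUnion_disjointed]
  have hDA : (⋃ i, D i) =ᵐ[volume] A := by
    have hsub : (⋃ i, D i) ⊆ A := by
      rw [hDu]
      exact inter_subset_right.trans inter_subset_left
    have hpos := (ae_restrict_iff' H.isOpen.measurableSet).1 H.pos
    have hae : ∀ᵐ x, x ∉ C \ ⋃ i, S i := measure_eq_zero_iff_ae_notMem.1 hS2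
    filter_upwards [hpos, hae] with x hx1 hx2
    apply propext
    constructor
    · exact fun h => hsub h
    · intro h
      have hxC : x ∈ C := hAC h
      have hxS : x ∈ ⋃ i, S i := by
        by_contra hh
        exact hx2 ⟨hxC, hh⟩
      have : x ∈ (⋃ i, S i) ∩ B0 := ⟨hxS, h, (hx1 (hCΩ hxC)).1⟩
      rw [← hDu] at this
      exact this
  have hDC : ∀ i, D i ⊆ C := fun i => (hDB i).trans (inter_subset_left.trans hAC)
  have hstep : ∀ i, ∃ N : E n → ℤ, Measurable N ∧ Integrable (fun y => (N y : ℝ)) ∧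
      (∀ ψ : E n → ℝ, Measurable ψ → (∃ C : ℝ, ∀ y, |ψ y| ≤ C) →
        ∫ x in D i, ψ (f x) * (Df x).det = ∫ y, ψ y * N y) ∧ ∀ y, 0 ≤ N y := by
    intro i
    obtain ⟨N, h1, h2, h3, h4⟩ := area_integer (f := f) (f' := fun x => toC (Df x)) (hD1 i)
      (fun x hx => (hS3 i x (hDS i hx)).mono (hDS i))
      (by
        simp only [toC_det]
        exact hdi.mono_set (hDC i))
    refine ⟨N, h1, h2, ?_, h4 ?_⟩
    · intro ψ hψ hb
      have := h3 ψ hψ hb
      simpa only [toC_det] using this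
    · intro x hx
      rw [toC_det]
      exact (hDB i hx).2
  choose N hN1 hN2 hN3 hN4 using hstep
  have hsumψ : ∀ ψ : E n → ℝ, Measurable ψ → (∃ B, ∀ y, |ψ y| ≤ B) →
      HasSum (fun i => ∫ x in D i, ψ (f x) * (Df x).det) (∫ x in A, ψ (f x) * (Df x).det) := by
    intro ψ hψ ⟨B, hB⟩
    have hint : IntegrableOn (fun x => ψ (f x) * (Df x).det) (⋃ i, D i) := by
      have h1 : IntegrableOn (fun x => (Df x).det) (⋃ i, D i) :=
        hdi.mono_set (iUnion_subset hDC)
      refine Integrable.bdd_mul (c := B) h1 (hψ.comp H.meas_f).aestronglyMeasurable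
        (Eventually.of_forall fun x => ?_)
      simpa using hB (f x)
    have h2 := hasSum_integral_iUnion hD1 hD2 hint
    rwa [setIntegral_congr_set hDA] at h2
  have hs : Summable fun i => ∫ y, (N i y : ℝ) := by
    have h1 := hsumψ (fun _ => 1) measurable_const ⟨1, fun y => by simp⟩
    have h2 : (fun i => ∫ x in D i, (fun _ => (1 : ℝ)) (f x) * (Df x).det) =
        fun i => ∫ y, (N i y : ℝ) := by
      funext i
      rw [hN3 i (fun _ => 1) measurable_const ⟨1, fun y => by simp⟩]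
      simp
    rw [h2] at h1
    exact h1.summable
  have hn0 : ∀ i y, (0 : ℝ) ≤ N i y := fun i y => by exact_mod_cast hN4 i y
  obtain ⟨M, hM1, hM2, hM3, hM4⟩ := im_sum hN1 hN2 hN4 hs
  refine ⟨M, hM1, hM2, hM3, ?_⟩
  intro ψ hψ hb
  have h1 := hsumψ ψ hψ hb
  obtain ⟨B, hB⟩ := hb
  have hiF : ∀ i, Integrable fun y => ψ y * (N i y : ℝ) := fun i =>
    Integrable.bdd_mul (c := B) (hN2 i) hψ.aestronglyMeasurable
      (Eventually.of_forall fun y => by simpa using hB y)
  have hsF : Summable fun i => ∫ y, ‖ψ y * (N i y : ℝ)‖ := by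
    refine Summable.of_nonneg_of_le (fun i => integral_nonneg fun y => norm_nonneg _) (fun i => ?_)
      (hs.mul_left B)
    rw [← integral_const_mul]
    refine integral_mono (hiF i).norm ((hN2 i).const_mul B) fun y => ?_
    simp only [norm_mul, Real.norm_eq_abs, abs_of_nonneg (hn0 i y)]
    exact mul_le_mul_of_nonneg_right (hB y) (hn0 i y)
  have h2 := hasSum_integral_of_summable_integral_norm hiF hsF
  have h3 : (fun i => ∫ x in D i, ψ (f x) * (Df x).det) = fun i => ∫ y, ψ y * (N i y : ℝ) := by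
    funext i
    exact hN3 i ψ hψ ⟨B, hB⟩
  rw [h3] at h1
  rw [h1.unique h2]
  congr 1
  funext y
  rw [hM4 y, tsum_mul_left]


end H248.BH.X2

namespace H248.BH

export X2 (integer_mult)

end H248.BH
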