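import Pool.Agent.H248.BH.Defs
import Pool.Agent.H248.BH.X2

set_option autoImplicit false
open MeasureTheory Metric Set Filter Topology
open scoped ENNReal NNReal ContDiff

namespace H248.BH.X2b


open H248.ID






/-- X2b. integer multiplicity, Euclidean version -/
theorem integer_mult_Y {n : ℕ} (hn : 1 ≤ n) {Ω : Set (E n)} {f : E n → E n}
    {Df : E n → Matrix (Fin n) (Fin n) ℝ} {K : ℝ} (H : QR Ω f Df K) {C A : Set (E n)}
    (hC : IsCompact C) (hCΩ : C ⊆ Ω) (hA : MeasurableSet A) (hAC : A ⊆ C) :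
    ∃ N : Y n → ℝ, Measurable N ∧ Integrable N ∧ (∀ y, N y = 0 ∨ 1 ≤ N y) ∧
      ∀ ψ : Y n → ℝ, Measurable ψ → (∃ B, ∀ y, |ψ y| ≤ B) →
        ∫ x in A, ψ (toY (f x)) * (Df x).det = ∫ y, ψ y * N y := by
  obtain ⟨N', hN'm, hN'i, hN'z, hN'⟩ := integer_mult hn H hC hCΩ hA hAC
  have hofm : Measurable (fun y : Y n => (WithLp.ofLp y : E n)) :=
    (PiLp.volume_preserving_ofLp (Fin n)).measurable
  have htom : Measurable (fun x : E n => (toY x : Y n)) :=
    (PiLp.volume_preserving_toLp (Fin n)).measurable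
  refine ⟨fun y => N' (WithLp.ofLp y), hN'm.comp hofm, ?_, fun y => hN'z _, ?_⟩
  · exact (PiLp.volume_preserving_ofLp (Fin n)).integrable_comp_of_integrable hN'i
  · intro ψ hψ hB
    obtain ⟨B, hB⟩ := hB
    have h1 := hN' (fun y => ψ (toY y)) (hψ.comp htom) ⟨B, fun y => hB _⟩
    rw [h1]
    have h2 := (EuclideanSpace.volume_preserving_symm_measurableEquiv_toLp (Fin n)).integral_comp'
      (g := fun y : E n => ψ (toY y) * N' y)
    rw [← h2]
    rfl


end H248.BH.X2b

namespace H248.BH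

export X2b (integer_mult_Y)

end H248.BH
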