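import Pool.Agent.H248.BH.Defs
import Pool.Agent.H248.BH.Q3
import Pool.Agent.H248.BH.Q1
import Pool.Agent.H248.BH.X2b
import Pool.Agent.H248.BH.G0
import Pool.Agent.H248.BH.G1
import Pool.Agent.H248.BH.G3
import Pool.Agent.H248.BH.G4
import Pool.Agent.H248.BH.G5

set_option autoImplicit false
open MeasureTheory Metric Set Filter Topology
open scoped ENNReal NNReal ContDiff

namespace H248.BH.G2


open H248.ID













/-- G2. growth -/
theorem growth {n : ℕ} (hn : 2 ≤ n) {β : ℝ} (hβ : 0 < β) (hβ1 : β ≤ 1) :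
    ∃ C : ℝ, 0 < C ∧ ∀ (Ω : Set (E n)) (f fc : E n → E n)
      (Df : E n → Matrix (Fin n) (Fin n) ℝ), QR Ω f Df (β ^ (1 - (n : ℝ))) →
      ContinuousOn fc (closure Ω) → (∀ x ∈ Ω, f x = fc x) →
      ∀ (x0 : E n) (R M : ℝ), 0 < R → 0 < M → (x0 ∈ Ω → fc x0 = 0) →
      (∀ x ∈ frontier Ω, en (x - x0) < R → en (fc x) ≤ M * en (x - x0) ^ β) →
      (∀ x ∈ Ω, en (x - x0) < R → en (fc x) ≤ M * R ^ β) →
      ∀ x ∈ Ω, en (x - x0) < R → en (fc x) ≤ C * M * en (x - x0) ^ β := by
  obtain ⟨Cm, hCm, hosc⟩ := osc_limit hn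
  obtain ⟨C1, hC1, hrad⟩ := growth_radial hn hβ hβ1 hCm
  refine ⟨C1, hC1, ?_⟩
  intro Ω f fc Df H hfc hff x0 R M hR hM hx0 hfr hin x hx hxR
  have hen0 : ∀ y : E n, 0 ≤ en y := fun y => norm_nonneg _
  have hcont : Continuous fun y : E n => en (y - x0) := by
    unfold en toY
    exact ((PiLp.continuous_toLp 2 _).comp (continuous_id.sub continuous_const)).norm
  rcases (hen0 (x - x0)).eq_or_lt with h0 | hr
  · -- the centre
    have h1 : x = x0 := by
      have h2 : toY (x - x0) = 0 := norm_eq_zero.1 h0.symm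
      have h3 : x - x0 = 0 := by
        funext i
        have := congrArg (fun v : Y n => v i) h2
        simpa [toY] using this
      exact sub_eq_zero.1 h3
    have h4 : fc x = 0 := by
      subst h1
      exact hx0 hx
    have h5 : en (fc x) = 0 := by
      rw [h4]
      show ‖toY (0 : E n)‖ = 0
      rw [norm_eq_zero]
      rfl
    rw [h5, ← h0, Real.zero_rpow hβ.ne', mul_zero]
  · set r := en (x - x0) with hrdef
    rcases (hen0 (fc x)).eq_or_lt with hm0 | hm
    · rw [← hm0]
      positivity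
    · obtain ⟨C, hC, hCΩ, hCR, hCz, hCe⟩ := ex_support H.isOpen hfc hr hR hM hβ hfr hin
      have : IsFiniteMeasure (volume.restrict C) :=
        ⟨by rw [Measure.restrict_apply_univ]; exact hC.measure_lt_top⟩
      have hK : (0 : ℝ) ≤ β ^ (1 - (n : ℝ)) := Real.rpow_nonneg hβ.le _
      have hU : IsOpen (Ω ∩ {y | en (y - x0) < R}) :=
        H.isOpen.inter (isOpen_lt hcont continuous_const)
      obtain ⟨e, J, z, w, P, he, hJ, hzb⟩ := push_of_qr hn hK H (x0 := x0) hr hM hβ hC hCΩ hU
        inter_subset_left (subset_inter hCΩ hCR) (by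
          intro y hy hyC
          rw [hff y hy.1]
          exact hCz y hy.1 hy.2 hyC)
      have hint : ∀ A : Set (E n), MeasurableSet A → A ⊆ C →
          ∃ NA : Y n → ℝ, Measurable NA ∧ Integrable NA ∧ (∀ y, NA y = 0 ∨ 1 ≤ NA y) ∧
            ∀ ψ : Y n → ℝ, Measurable ψ → (∃ B, ∀ y, |ψ y| ≤ B) →
              ∫ x in A, ψ (toY (f x)) * (Df x).det = ∫ y, ψ y * NA y :=
        fun A hA hAC => integer_mult_Y (by omega) H hC hCΩ hA hAC
      obtain ⟨F, G, N, Z, D⟩ := exists_dens hn P (by
        intro l _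
        have hA : MeasurableSet {y | l < e y} := measurableSet_lt measurable_const P.meas_e
        obtain ⟨Nl, h1, h2, h3, h4⟩ := hint ({y | l < e y} ∩ C) (hA.inter hC.measurableSet)
          inter_subset_right
        refine ⟨Nl, h1, h2, h3, fun ψ hψ hb => ?_⟩
        rw [Measure.restrict_restrict hA, ← h4 ψ hψ hb]
        refine integral_congr_ae ?_
        filter_upwards [ae_restrict_of_ae_restrict_of_subset inter_subset_right hJ] with y hy
        rw [hy])
      have hosc' := hosc P D
      have hlow := growth_lower hn H hfc hff hr hM hβ hβ1 hCm (by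
          intro y hy hyr
          refine (hfr y hy (lt_of_le_of_lt hyr hxR)).trans ?_
          exact mul_le_mul_of_nonneg_left (Real.rpow_le_rpow (hen0 _) hyr hβ.le) hM.le)
        hx0 hx le_rfl hC hCΩ (by
          intro y hy hyr hyC
          rw [hff y hy]
          exact hCz y hy (hyr.trans hxR) hyC) P D he hJ hint hosc'
      have hen := fun (s t : ℝ) (hs : 0 < s) (hst : s ≤ t) =>
        growth_energy hn hC hr hM hβ hK P D hzb (by
          intro y hy hey
          have h1 : ex x0 r M β y (fc y) ≠ 0 := by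
            rw [← hff y (hCΩ hy), ← he y hy]
            exact hey
          have h2 := (hCe y h1).2
          rw [← hff y (hCΩ hy)] at h2
          exact h2) hs hst
      exact hrad hM hr hm P D hosc' hlow hen


end H248.BH.G2

namespace H248.BH

export G2 (growth)

end H248.BH
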