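import Pool.Agent.H248.BH.Defs
import Pool.Agent.H248.BH.G2

set_option autoImplicit false
open MeasureTheory Metric Set Filter Topology
open scoped ENNReal NNReal ContDiff

namespace H248.BH.F1


open H248.ID






theorem toY_sub {n : ℕ} (x y : E n) : toY (x - y) = toY x - toY y := rfl

theorem en_nonneg {n : ℕ} (x : E n) : 0 ≤ en x := norm_nonneg _

theorem en_comm {n : ℕ} (x y : E n) : en (x - y) = en (y - x) := by
  unfold en
  rw [toY_sub, toY_sub, norm_sub_rev]

theorem en_tri {n : ℕ} (x y z : E n) : en (x - z) ≤ en (x - y) + en (y - z) := by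
  unfold en
  rw [toY_sub, toY_sub, toY_sub]
  exact norm_sub_le_norm_sub_add_norm_sub _ _ _

theorem en_sub_le {n : ℕ} (x y : E n) : en (x - y) ≤ en x + en y := by
  unfold en
  rw [toY_sub]
  exact norm_sub_le _ _

theorem continuous_toY {n : ℕ} : Continuous (toY : E n → Y n) :=
  PiLp.continuous_toLp 2 _

theorem continuous_en {n : ℕ} : Continuous (en : E n → ℝ) := continuous_toY.norm

theorem en_eq_zero {n : ℕ} {x : E n} (h : en x = 0) : x = 0 := by
  have h1 : toY x = 0 := norm_eq_zero.1 h
  funext i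
  have := congrArg (fun v : Y n => v i) h1
  simpa [toY] using this

theorem en_smul {n : ℕ} (c : ℝ) (x : E n) : en (c • x) = |c| * en x := by
  unfold en
  have : toY (c • x) = c • toY x := rfl
  rw [this, norm_smul, Real.norm_eq_abs]

theorem QR_sub {n : ℕ} {Ω : Set (E n)} {f : E n → E n} {Df : E n → Matrix (Fin n) (Fin n) ℝ}
    {K : ℝ} (H : QR Ω f Df K) (c : E n) : QR Ω (fun x => f x - c) Df K := by
  refine ⟨H.isOpen, H.meas_f.sub_const c, H.cont.sub continuousOn_const, H.meas_D, ?_, H.int, H.pos,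
    H.dist⟩
  intro φ hφ hc ht i j
  have hcd : Continuous (fun x => pd φ j x) := by
    unfold pd
    exact (hφ.continuous_fderiv (by simp)).clm_apply continuous_const
  have hsupp : Function.support (fun x => pd φ j x) ⊆ tsupport φ := by
    intro x hx
    by_contra hx'
    apply hx
    have h1 : fderiv ℝ φ x = 0 := by
      have := support_fderiv_subset ℝ (f := φ)
      by_contra h2
      exact hx' (this h2)
    show fderiv ℝ φ x (Pi.single j 1) = 0
    rw [h1]
    rfl
  have hcpd : HasCompactSupport (fun x => pd φ j x) :=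
    HasCompactSupport.intro hc (fun x hx => by
      by_contra h
      exact hx (hsupp h))
  have hint : Integrable (fun x => pd φ j x) := hcd.integrable_of_hasCompactSupport hcpd
  have h0 : ∫ x, pd φ j x = 0 := by
    have h1 := integral_mul_fderiv_eq_neg_fderiv_mul_of_integrable (𝕜 := ℝ) (μ := (volume : Measure (E n)))
      (f := fun _ : E n => (1 : ℝ)) (g := φ) (v := Pi.single j 1)
      (by simp) (by simpa [pd] using hint)
      (by simpa using hφ.continuous.integrable_of_hasCompactSupport hc)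
      (fun x _ => by fun_prop) (fun x _ => (hφ.differentiable (by simp)) x)
    simpa [pd] using h1
  have hint2 : Integrable (fun x => f x i * pd φ j x) := by
    have h1 : IntegrableOn (fun x => f x i * pd φ j x) (tsupport φ) := by
      apply ContinuousOn.integrableOn_compact hc
      have h2 : ContinuousOn (fun x => f x i) (tsupport φ) :=
        ((continuous_apply i).comp_continuousOn H.cont).mono ht
      exact h2.mul hcd.continuousOn
    rw [integrableOn_iff_integrable_of_support_subset] at h1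
    · exact h1
    · intro x hx
      apply hsupp
      intro h
      apply hx
      simp only at h ⊢
      rw [h, mul_zero]
  have h3 : (fun x => (f x - c) i * pd φ j x) = fun x => f x i * pd φ j x - c i * pd φ j x := by
    funext x
    rw [Pi.sub_apply, sub_mul]
  calc ∫ x, (f x - c) i * pd φ j x = ∫ x, (f x i * pd φ j x - c i * pd φ j x) := by rw [h3]
    _ = (∫ x, f x i * pd φ j x) - ∫ x, c i * pd φ j x := integral_sub hint2 (hint.const_mul _)
    _ = ∫ x, f x i * pd φ j x := by rw [integral_const_mul, h0, mul_zero, sub_zero]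
    _ = _ := H.weak φ hφ hc ht i j

/-- F1. from growth to Hölder continuity on the closure -/
theorem metric_holder {n : ℕ} (hn : 2 ≤ n) {β : ℝ} (hβ : 0 < β) (hβ1 : β ≤ 1) {Ω : Set (E n)}
    (hΩ : Bornology.IsBounded Ω) {f fc : E n → E n} {Df : E n → Matrix (Fin n) (Fin n) ℝ}
    (H : QR Ω f Df (β ^ (1 - (n : ℝ)))) (hfc : ContinuousOn fc (closure Ω))
    (hff : ∀ x ∈ Ω, f x = fc x) {M : ℝ} (hM : 0 ≤ M)
    (hbd : ∀ x ∈ frontier Ω, ∀ y ∈ frontier Ω, en (fc x - fc y) ≤ M * en (x - y) ^ β) :
    ∃ M1 : ℝ, ∀ x ∈ closure Ω, ∀ y ∈ closure Ω, en (fc x - fc y) ≤ M1 * en (x - y) ^ β := by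
  rcases Ω.eq_empty_or_nonempty with h0 | hne
  · refine ⟨0, fun x hx => ?_⟩
    rw [h0, closure_empty] at hx
    exact absurd hx (Set.notMem_empty x)
  have : Nonempty (Fin n) := ⟨⟨0, by omega⟩⟩
  have hS : IsCompact (closure Ω) := hΩ.isCompact_closure
  obtain ⟨B, hB⟩ := hS.exists_bound_of_continuousOn (continuous_toY.comp_continuousOn hfc)
  have hB' : ∀ x ∈ closure Ω, en (fc x) ≤ B := hB
  obtain ⟨B1, hB1⟩ := hS.exists_bound_of_continuousOn (f := fun x : E n => toY x)
    continuous_toY.continuousOn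
  have hB1' : ∀ x ∈ closure Ω, en x ≤ B1 := hB1
  obtain ⟨p0, hp0⟩ := hne
  have hp0' : p0 ∈ closure Ω := subset_closure hp0
  have hB0 : 0 ≤ B := (en_nonneg _).trans (hB' p0 hp0')
  have hB10 : 0 ≤ B1 := (en_nonneg _).trans (hB1' p0 hp0')
  obtain ⟨C, hC, hgr⟩ := growth hn hβ hβ1
  have hfr : ∀ x ∈ frontier Ω, x ∉ Ω := by
    intro x hx hx'
    rw [H.isOpen.frontier_eq] at hx
    exact hx.2 hx'
  have hfrS : ∀ x ∈ frontier Ω, x ∈ closure Ω := fun x hx => frontier_subset_closure hx
  have hcase : ∀ x ∈ closure Ω, x ∈ Ω ∨ x ∈ frontier Ω := by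
    intro x hx
    by_cases h : x ∈ Ω
    · exact Or.inl h
    · right
      rw [H.isOpen.frontier_eq]
      exact ⟨hx, h⟩
  -- step 1
  obtain ⟨R0, hR0⟩ : ∃ R0 : ℝ, R0 = 2 * B1 + 1 := ⟨_, rfl⟩
  have hR1 : 1 ≤ R0 := by rw [hR0]; linarith
  have hR0' : 0 < R0 := by linarith
  obtain ⟨M', hM'⟩ : ∃ M' : ℝ, M' = M + 2 * B + 1 := ⟨_, rfl⟩
  have hM'0 : 0 < M' := by rw [hM']; linarith
  obtain ⟨M2, hM2⟩ : ∃ M2 : ℝ, M2 = C * M' + M := ⟨_, rfl⟩
  have hCM : 0 ≤ C * M' := by positivity
  have hM20 : 0 ≤ M2 := by rw [hM2]; linarith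
  have hpow0 : ∀ u : E n, 0 ≤ en u ^ β := fun u => Real.rpow_nonneg (en_nonneg u) β
  have hrpow : 1 ≤ R0 ^ β := Real.one_le_rpow hR1 hβ.le
  have step1 : ∀ x0 ∈ frontier Ω, ∀ x ∈ closure Ω, en (fc x - fc x0) ≤ M2 * en (x - x0) ^ β := by
    intro x0 hx0 x hx
    rcases hcase x hx with hxΩ | hxf
    · have h1 := hgr Ω (fun x => f x - fc x0) (fun x => fc x - fc x0) Df (QR_sub H (fc x0))
        (hfc.sub continuousOn_const) (fun x hx => by rw [hff x hx]) x0 R0 M' hR0' hM'0
        (fun h => absurd h (hfr x0 hx0)) ?_ ?_ x hxΩ ?_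
      · have h2 : C * M' * en (x - x0) ^ β ≤ M2 * en (x - x0) ^ β :=
          mul_le_mul_of_nonneg_right (by rw [hM2]; linarith) (hpow0 _)
        exact h1.trans h2
      · intro y hy _
        refine (hbd y hy x0 hx0).trans ?_
        exact mul_le_mul_of_nonneg_right (by rw [hM']; linarith) (hpow0 _)
      · intro y hy _
        have h2 := en_sub_le (fc y) (fc x0)
        have h3 := hB' y (subset_closure hy)
        have h4 := hB' x0 (hfrS x0 hx0)
        have h5 : M' * 1 ≤ M' * R0 ^ β := mul_le_mul_of_nonneg_left hrpow hM'0.le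
        have h6 : en (fc y - fc x0) ≤ M' * R0 ^ β := by
          rw [hM'] at h5 ⊢
          linarith
        exact h6
      · have h2 := en_sub_le x x0
        have h3 := hB1' x hx
        have h4 := hB1' x0 (hfrS x0 hx0)
        rw [hR0]; linarith
    · refine (hbd x hxf x0 hx0).trans ?_
      exact mul_le_mul_of_nonneg_right (by rw [hM2]; linarith) (hpow0 _)
  -- the frontier
  have hfne : (frontier Ω).Nonempty := by
    rw [nonempty_frontier_iff]
    refine ⟨⟨p0, hp0⟩, ?_⟩
    rintro rfl
    exact NormedSpace.unbounded_univ ℝ (E n) hΩ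
  have hfcpt : IsCompact (frontier Ω) := hS.of_isClosed_subset isClosed_frontier
    frontier_subset_closure
  obtain ⟨M3, hM3⟩ : ∃ M3 : ℝ, M3 = 3 * M2 + 1 := ⟨_, rfl⟩
  have hM30 : 0 < M3 := by rw [hM3]; linarith
  have h2β : (2 : ℝ) ^ β ≤ 2 := by
    calc (2 : ℝ) ^ β ≤ 2 ^ (1 : ℝ) := Real.rpow_le_rpow_of_exponent_le (by norm_num) hβ1
      _ = 2 := Real.rpow_one 2
  have hdouble : ∀ s : ℝ, 0 ≤ s → (2 * s) ^ β ≤ 2 * s ^ β := by
    intro s hs
    rw [Real.mul_rpow (by norm_num) hs]
    exact mul_le_mul_of_nonneg_right h2β (Real.rpow_nonneg hs β)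
  -- steps 2 and 3
  have step2 : ∀ x ∈ Ω, ∀ y ∈ closure Ω,
      en (fc x - fc y) ≤ (3 * M2 + C * M3) * en (x - y) ^ β := by
    intro x hx y hy
    obtain ⟨xb, hxb, hmin⟩ := hfcpt.exists_isMinOn hfne
      (f := fun z : E n => en (x - z)) (continuous_en.comp (continuous_const.sub continuous_id)).continuousOn
    have hmin' : ∀ z ∈ frontier Ω, en (x - xb) ≤ en (x - z) := fun z hz => hmin hz
    obtain ⟨d, hd⟩ : ∃ d : ℝ, d = en (x - xb) := ⟨_, rfl⟩
    rw [← hd] at hmin'
    have hd0 : 0 < d := by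
      rw [hd]
      refine lt_of_le_of_ne (en_nonneg _) (fun h => ?_)
      have h1 := en_eq_zero h.symm
      rw [sub_eq_zero] at h1
      exact hfr xb hxb (h1 ▸ hx)
    have hball : ∀ z, en (z - x) < d → z ∈ Ω := by
      intro z hz
      by_contra hzΩ
      have hpre : IsPreconnected (segment ℝ x z) := (convex_segment x z).isPreconnected
      obtain ⟨p, hp1, hp2⟩ : ∃ p, p ∈ segment ℝ x z ∧ p ∈ frontier Ω := by
        by_contra hcon
        push Not at hcon
        have hcov : segment ℝ x z ⊆ Ω ∪ (closure Ω)ᶜ := by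
          intro p hp
          by_cases hpc : p ∈ closure Ω
          · rcases hcase p hpc with h | h
            · exact Or.inl h
            · exact absurd h (hcon p hp)
          · exact Or.inr hpc
        have hzc : z ∉ closure Ω := by
          intro h
          rcases hcase z h with h | h
          · exact hzΩ h
          · exact hcon z (right_mem_segment ℝ x z) h
        obtain ⟨p, _, hp2, hp3⟩ := hpre Ω (closure Ω)ᶜ H.isOpen isClosed_closure.isOpen_compl hcov
          ⟨x, left_mem_segment ℝ x z, hx⟩ ⟨z, right_mem_segment ℝ x z, hzc⟩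
        exact hp3 (subset_closure hp2)
      obtain ⟨θ, hθ, rfl⟩ := (segment_eq_image' ℝ x z ▸ hp1 :
        p ∈ (fun θ : ℝ => x + θ • (z - x)) '' Set.Icc 0 1)
      have h1 := hmin' _ hp2
      have h2 : en (x - (x + θ • (z - x))) = θ * en (z - x) := by
        have : x - (x + θ • (z - x)) = (-θ) • (z - x) := by
          rw [neg_smul]; abel
        rw [this, en_smul, abs_neg, abs_of_nonneg hθ.1]
      have h3 : θ * en (z - x) ≤ 1 * en (z - x) :=
        mul_le_mul_of_nonneg_right hθ.2 (en_nonneg _)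
      have h1' : d ≤ en (x - (x + θ • (z - x))) := h1
      rw [h2] at h1'
      linarith
    have hC3 : 0 ≤ C * M3 := by positivity
    by_cases hyd : en (y - x) < d
    · have hyΩ := hball y hyd
      have h1 := hgr Ω (fun z => f z - fc x) (fun z => fc z - fc x) Df (QR_sub H (fc x))
        (hfc.sub continuousOn_const) (fun z hz => by rw [hff z hz]) x d M3 hd0 hM30
        (fun _ => by simp) ?_ ?_ y hyΩ hyd
      · rw [en_comm (fc x), en_comm x y]
        refine h1.trans ?_
        exact mul_le_mul_of_nonneg_right (by linarith) (hpow0 _)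
      · intro z hz hz2
        exact absurd (hball z hz2) (hfr z hz)
      · intro z hz hz2
        have h2 := en_tri (fc z) (fc xb) (fc x)
        have h3 := step1 xb hxb z (subset_closure hz)
        have h4 := step1 xb hxb x (subset_closure hx)
        rw [en_comm (fc xb) (fc x)] at h2
        have h5 := en_tri z x xb
        rw [← hd] at h5 h4
        have h6 : en (z - xb) ^ β ≤ (2 * d) ^ β :=
          Real.rpow_le_rpow (en_nonneg _) (by linarith) hβ.le
        have h7 := hdouble d hd0.le
        have h8 : M2 * en (z - xb) ^ β ≤ M2 * (2 * d ^ β) :=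
          mul_le_mul_of_nonneg_left (h6.trans h7) hM20
        have h9 : 0 ≤ d ^ β := Real.rpow_nonneg hd0.le β
        have h10 : en (fc z - fc x) ≤ M3 * d ^ β := by
          rw [hM3]
          nlinarith
        exact h10
    · push Not at hyd
      have h2 := en_tri (fc x) (fc xb) (fc y)
      have h3 := step1 xb hxb x (subset_closure hx)
      have h4 := step1 xb hxb y hy
      rw [en_comm (fc xb) (fc y)] at h2
      rw [← hd] at h3
      have h5 := en_tri y x xb
      rw [← hd] at h5
      rw [en_comm y x] at hyd h5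
      have h6 : en (y - xb) ^ β ≤ (2 * en (x - y)) ^ β :=
        Real.rpow_le_rpow (en_nonneg _) (by linarith) hβ.le
      have h7 := hdouble (en (x - y)) (en_nonneg _)
      have h8 : M2 * en (y - xb) ^ β ≤ M2 * (2 * en (x - y) ^ β) :=
        mul_le_mul_of_nonneg_left (h6.trans h7) hM20
      have h9 : d ^ β ≤ en (x - y) ^ β := Real.rpow_le_rpow hd0.le hyd hβ.le
      have h10 : M2 * d ^ β ≤ M2 * en (x - y) ^ β := mul_le_mul_of_nonneg_left h9 hM20
      have h11 : 0 ≤ C * M3 * en (x - y) ^ β := mul_nonneg hC3 (hpow0 _)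
      have h12 : (3 * M2 + C * M3) * en (x - y) ^ β =
        M2 * en (x - y) ^ β + M2 * (2 * en (x - y) ^ β) + C * M3 * en (x - y) ^ β := by ring
      rw [h12]
      linarith
  refine ⟨M + (3 * M2 + C * M3), ?_⟩
  have hC3 : 0 ≤ C * M3 := by positivity
  intro x hx y hy
  rcases hcase x hx with hxΩ | hxf
  · refine (step2 x hxΩ y hy).trans ?_
    exact mul_le_mul_of_nonneg_right (by linarith) (hpow0 _)
  · rcases hcase y hy with hyΩ | hyf
    · rw [en_comm (fc x), en_comm x y]
      refine (step2 y hyΩ x hx).trans ?_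
      exact mul_le_mul_of_nonneg_right (by linarith) (hpow0 _)
    · refine (hbd x hxf y hyf).trans ?_
      exact mul_le_mul_of_nonneg_right (by linarith) (hpow0 _)


end H248.BH.F1

namespace H248.BH

export F1 (metric_holder)

end H248.BH
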