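import Pool.Agent.H248.BH.Defs

set_option autoImplicit false
open MeasureTheory Metric Set Filter Topology
open scoped ENNReal NNReal ContDiff

namespace H248.BH.X4


open H248.ID



theorem en_sq_aux {n : ℕ} (x : E n) : en x ^ 2 = x ⬝ᵥ x := by
  unfold en toY
  rw [EuclideanSpace.norm_eq, Real.sq_sqrt (Finset.sum_nonneg fun i _ => sq_nonneg _)]
  unfold dotProduct
  refine Finset.sum_congr rfl fun i _ => ?_
  simp [sq]

theorem en_nonneg_aux {n : ℕ} (x : E n) : 0 ≤ en x := norm_nonneg _

theorem en_cs_aux {n : ℕ} (x y : E n) : x ⬝ᵥ y ≤ en x * en y := by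
  have h := real_inner_le_norm (toY x) (toY y)
  have e : inner ℝ (toY x) (toY y) = x ⬝ᵥ y := by
    unfold toY dotProduct
    rw [PiLp.inner_apply]
    refine Finset.sum_congr rfl fun i _ => ?_
    simp [mul_comm]
  rw [e] at h
  exact h

theorem en_smul_aux {n : ℕ} (c : ℝ) (hc : 0 ≤ c) (x : E n) : en (c • x) = c * en x := by
  unfold en toY
  rw [WithLp.toLp_smul, norm_smul, Real.norm_of_nonneg hc]

/-- X4. linear algebra -/
theorem adj_bound {n : ℕ} (hn : 2 ≤ n) (M : Matrix (Fin n) (Fin n) ℝ) {K : ℝ} (hK : 1 ≤ K)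
    (hdet : 0 ≤ M.det) (h0 : M.det = 0 → M = 0)
    (h : ∀ v : E n, en v = 1 → M.det ≤ K * en (M.mulVec v) ^ n) (w : E n) :
    en (M.adjugate.transpose.mulVec w) ^ n ≤ K * M.det ^ (n - 1) * en w ^ n := by
  have hn0 : n ≠ 0 := by omega
  rcases hdet.eq_or_lt with hd | hd
  · have hM := h0 hd.symm
    haveI : Nontrivial (Fin n) := Fin.nontrivial_iff_two_le.mpr hn
    have h1 : M.adjugate.transpose.mulVec w = 0 := by
      rw [hM, Matrix.adjugate_zero]; simp
    have h2 : en (M.adjugate.transpose.mulVec w) = 0 := by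
      rw [h1]; simp [en, toY]
    rw [h2, zero_pow hn0]
    have := en_nonneg_aux w
    positivity
  · set u : E n := M.adjugate.transpose.mulVec w with hu
    set v : E n := M.adjugate.mulVec u with hv
    set d := M.det with hdd
    have h1 : M.mulVec v = d • u := by
      rw [hv, Matrix.mulVec_mulVec, Matrix.mul_adjugate, Matrix.smul_mulVec, Matrix.one_mulVec]
    have h2 : M.transpose.mulVec u = d • w := by
      rw [hu, Matrix.mulVec_mulVec, ← Matrix.transpose_mul, Matrix.adjugate_mul,
        Matrix.transpose_smul, Matrix.transpose_one, Matrix.smul_mulVec, Matrix.one_mulVec]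
    have h3 : d * (u ⬝ᵥ u) = d * (v ⬝ᵥ w) := by
      have e1 : (M.mulVec v) ⬝ᵥ u = v ⬝ᵥ (M.transpose.mulVec u) := by
        rw [Matrix.mulVec_transpose, dotProduct_comm, Matrix.dotProduct_mulVec, dotProduct_comm]
      rw [h1, h2, smul_dotProduct, dotProduct_smul] at e1
      simpa using e1
    have h4 : en u ^ 2 ≤ en v * en w := by
      rw [en_sq_aux, mul_left_cancel₀ hd.ne' h3]
      exact en_cs_aux v w
    have hun := en_nonneg_aux u
    have hvn := en_nonneg_aux v
    have hwn := en_nonneg_aux w
    have h5 : d * en v ^ n ≤ K * (d ^ n * en u ^ n) := by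
      rcases hvn.eq_or_lt with hv0 | hv0
      · rw [← hv0, zero_pow hn0, mul_zero]
        positivity
      · have hh := h ((en v)⁻¹ • v) (by rw [en_smul_aux _ (by positivity)]; field_simp)
        rw [Matrix.mulVec_smul, h1, en_smul_aux _ (by positivity), en_smul_aux _ hd.le, mul_pow,
          inv_pow, mul_pow] at hh
        have hp : 0 < en v ^ n := by positivity
        calc d * en v ^ n ≤ (K * ((en v ^ n)⁻¹ * (d ^ n * en u ^ n))) * en v ^ n :=
              mul_le_mul_of_nonneg_right hh hp.le
          _ = K * (d ^ n * en u ^ n) := by field_simp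
    rcases hun.eq_or_lt with hu0 | hu0
    · rw [← hu0, zero_pow hn0]
      positivity
    · have hp : 0 < en u ^ n := by positivity
      have h6 : (en u ^ 2) ^ n ≤ (en v * en w) ^ n := pow_le_pow_left₀ (by positivity) h4 n
      rw [mul_pow] at h6
      have h7 : en u ^ n * en u ^ n ≤ en v ^ n * en w ^ n := by
        calc en u ^ n * en u ^ n = (en u ^ 2) ^ n := by ring
          _ ≤ _ := h6
      have hwp : 0 ≤ en w ^ n := by positivity
      have h8 : d * (en u ^ n * en u ^ n) ≤ K * (d ^ n * en u ^ n) * en w ^ n := by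
        calc d * (en u ^ n * en u ^ n) ≤ d * (en v ^ n * en w ^ n) :=
              mul_le_mul_of_nonneg_left h7 hd.le
          _ = (d * en v ^ n) * en w ^ n := by ring
          _ ≤ _ := mul_le_mul_of_nonneg_right h5 hwp
      have hdn : d ^ n = d * d ^ (n - 1) := by
        rw [← pow_succ']
        congr 1
        omega
      rw [hdn] at h8
      have h9 : (d * en u ^ n) * en u ^ n ≤ (d * en u ^ n) * (K * d ^ (n - 1) * en w ^ n) := by
        calc (d * en u ^ n) * en u ^ n = d * (en u ^ n * en u ^ n) := by ring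
          _ ≤ _ := h8
          _ = _ := by ring
      exact le_of_mul_le_mul_left h9 (by positivity)


end H248.BH.X4

namespace H248.BH

export X4 (adj_bound)

end H248.BH
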