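import Pool.Agent.H248.BH.Defs
import Pool.Agent.H248.BH.X4

set_option autoImplicit false
open MeasureTheory Metric Set Filter Topology
open scoped ENNReal NNReal ContDiff

namespace H248.BH.F2


open H248.ID






section aux105

variable {n : ℕ}

theorem mp_toY105 : MeasurePreserving (toY : E n → Y n) := PiLp.volume_preserving_toLp (Fin n)

theorem me_toY105 : MeasurableEmbedding (toY : E n → Y n) :=
  (MeasurableEquiv.toLp 2 (Fin n → ℝ)).measurableEmbedding

theorem ct_toY105 : Continuous (toY : E n → Y n) := PiLp.continuous_toLp 2 _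

/-- matrix of a continuous linear map -/
noncomputable def mat105 (A : Y n →L[ℝ] Y n) : Matrix (Fin n) (Fin n) ℝ :=
  Matrix.of fun i j => (A (EuclideanSpace.single j 1)) i

theorem mat105_eq (A : Y n →L[ℝ] Y n) : mat105 A =
    LinearMap.toMatrix (EuclideanSpace.basisFun (Fin n) ℝ).toBasis
      (EuclideanSpace.basisFun (Fin n) ℝ).toBasis (A : Y n →ₗ[ℝ] Y n) := by
  ext i j
  simp [mat105, LinearMap.toMatrix_apply]

theorem mat105_det (A : Y n →L[ℝ] Y n) : (mat105 A).det = LinearMap.det (A : Y n →ₗ[ℝ] Y n) := by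
  rw [mat105_eq, LinearMap.det_toMatrix]

theorem toY_sum105 (v : E n) : toY v = ∑ j, v j • (EuclideanSpace.single j (1 : ℝ) : Y n) := by
  ext i
  simp [toY, Finset.sum_apply, Pi.single_apply]

theorem mat105_mulVec (A : Y n →L[ℝ] Y n) (v : E n) : toY ((mat105 A).mulVec v) = A (toY v) := by
  rw [toY_sum105 v, map_sum]
  ext i
  simp [toY, mat105, Matrix.mulVec, dotProduct, mul_comm]

theorem single_norm105 (j : Fin n) : ‖(EuclideanSpace.single j (1 : ℝ) : Y n)‖ = 1 := by
  simp

theorem sn_mat105 (A : Y n →L[ℝ] Y n) : sn (mat105 A) ≤ (n * n : ℝ) * ‖A‖ := by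
  unfold sn
  have h : ∀ i j, |mat105 A i j| ≤ ‖A‖ := by
    intro i j
    have h1 : |mat105 A i j| ≤ ‖A (EuclideanSpace.single j 1)‖ := by
      have := PiLp.norm_apply_le (A (EuclideanSpace.single j 1)) i
      simpa [mat105, Real.norm_eq_abs] using this
    have h2 := A.le_opNorm (EuclideanSpace.single j (1 : ℝ))
    rw [single_norm105, mul_one] at h2
    exact h1.trans h2
  calc ∑ i, ∑ j, |mat105 A i j| ≤ ∑ i : Fin n, ∑ j : Fin n, ‖A‖ :=
        Finset.sum_le_sum fun i _ => Finset.sum_le_sum fun j _ => h i j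
    _ = (n * n : ℝ) * ‖A‖ := by simp; ring

theorem pd105 {φ : E n → ℝ} (hφ : ContDiff ℝ ∞ φ) (j : Fin n) (x : E n) :
    fderiv ℝ (fun y : Y n => φ (WithLp.ofLp y)) (toY x) (EuclideanSpace.single j 1) = pd φ j x := by
  have h1 : HasFDerivAt (fun y : Y n => WithLp.ofLp y)
      ((EuclideanSpace.equiv (Fin n) ℝ : Y n →L[ℝ] E n)) (toY x) :=
    (EuclideanSpace.equiv (Fin n) ℝ : Y n →L[ℝ] E n).hasFDerivAt
  have h2 : HasFDerivAt φ (fderiv ℝ φ x) (WithLp.ofLp (toY x)) :=
    (hφ.differentiable (by simp) x).hasFDerivAt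
  have h3 := h2.comp (toY x) h1
  have h4 : fderiv ℝ (fun y : Y n => φ (WithLp.ofLp y)) (toY x) = _ := h3.fderiv
  rw [h4]
  rfl

end aux105

/-- F2. conversion of the data -/
theorem conv_qr {n : ℕ} (hn : 2 ≤ n) {Ω : Set (Y n)} (hΩ : IsOpen Ω) {f : Y n → Y n}
    {g : Y n → (Y n →L[ℝ] Y n)} {K K' : ℝ} (hf : ContinuousOn f (closure Ω))
    (hg : AEStronglyMeasurable g (volume.restrict Ω))
    (hgi : ∀ C : Set (Y n), IsCompact C → C ⊆ Ω → IntegrableOn (fun x => ‖g x‖ ^ n) C)
    (hw : ∀ φ : Y n → ℝ, ContDiff ℝ 1 φ → HasCompactSupport φ → tsupport φ ⊆ Ω → ∀ i : Fin n,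
      ∫ x in Ω, (fderiv ℝ φ x (EuclideanSpace.single i 1)) • f x
        = - ∫ x in Ω, φ x • g x (EuclideanSpace.single i 1))
    (hK : 1 ≤ K)
    (hqr : ∀ᵐ x ∂(volume.restrict Ω),
      ‖g x‖ ^ n ≤ K * LinearMap.det ((g x : Y n →ₗ[ℝ] Y n)))
    (hK' : 1 ≤ K')
    (hI : ∀ᵐ x ∂(volume.restrict Ω), ∀ h : Y n, ‖h‖ = 1 →
      LinearMap.det ((g x : Y n →ₗ[ℝ] Y n)) ≤ K' * ‖g x h‖ ^ n) :
    ∃ (fe : E n → E n) (Df : E n → Matrix (Fin n) (Fin n) ℝ), QR (toY ⁻¹' Ω) fe Df K' ∧
      ∀ x, toY x ∈ Ω → toY (fe x) = f (toY x) := by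
  classical
  set g1 := hg.mk g with hg1
  have hg1m : StronglyMeasurable g1 := hg.stronglyMeasurable_mk
  have hae : g =ᵐ[volume.restrict Ω] g1 := hg.ae_eq_mk
  have hΩm : MeasurableSet Ω := hΩ.measurableSet
  have hfΩ : ContinuousOn f Ω := hf.mono subset_closure
  set F : Y n → Y n := Ω.indicator f with hF
  set G : Y n → (Y n →L[ℝ] Y n) := Ω.indicator g1 with hG
  have hFm : Measurable F := by
    rw [hF, ← Set.piecewise_eq_indicator]
    exact hfΩ.measurable_piecewise continuousOn_const hΩm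
  have hGm : StronglyMeasurable G := hg1m.indicator hΩm
  have hFin : ∀ y ∈ Ω, F y = f y := fun y hy => Set.indicator_of_mem hy f
  have hGin : ∀ y ∈ Ω, G y = g1 y := fun y hy => Set.indicator_of_mem hy g1
  have hGe : ∀ (e : Y n), StronglyMeasurable (fun y => G y e) := fun e =>
    (ContinuousLinearMap.apply ℝ (Y n) e).continuous.comp_stronglyMeasurable hGm
  -- the almost everywhere properties
  have hP : ∀ᵐ y ∂(volume.restrict Ω), ‖G y‖ ^ n ≤ K * LinearMap.det ((G y : Y n →ₗ[ℝ] Y n)) ∧
      ∀ h : Y n, ‖h‖ = 1 →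
        LinearMap.det ((G y : Y n →ₗ[ℝ] Y n)) ≤ K' * ‖G y h‖ ^ n := by
    filter_upwards [hae, hqr, hI, ae_restrict_mem hΩm] with y h1 h2 h3 h4
    rw [hGin y h4, ← h1]
    exact ⟨h2, h3⟩
  have hPx : ∀ᵐ x ∂(volume.restrict (toY ⁻¹' Ω : Set (E n))),
      ‖G (toY x)‖ ^ n ≤ K * LinearMap.det ((G (toY x) : Y n →ₗ[ℝ] Y n)) ∧
      ∀ h : Y n, ‖h‖ = 1 →
        LinearMap.det ((G (toY x) : Y n →ₗ[ℝ] Y n)) ≤ K' * ‖G (toY x) h‖ ^ n :=
    (mp_toY105.restrict_preimage hΩm).quasiMeasurePreserving.ae hP
  have hpos : ∀ x : E n, ‖G (toY x)‖ ^ n ≤ K * LinearMap.det ((G (toY x) : Y n →ₗ[ℝ] Y n)) →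
      0 ≤ (mat105 (G (toY x))).det ∧ ((mat105 (G (toY x))).det = 0 → mat105 (G (toY x)) = 0) := by
    intro x hx
    rw [mat105_det]
    have hK0 : 0 < K := by linarith
    constructor
    · have h0 : 0 ≤ K * LinearMap.det ((G (toY x) : Y n →ₗ[ℝ] Y n)) := le_trans (by positivity) hx
      exact nonneg_of_mul_nonneg_right h0 hK0
    · intro h0
      rw [h0, mul_zero] at hx
      have h1 : ‖G (toY x)‖ ^ n = 0 := le_antisymm hx (by positivity)
      have h2 : ‖G (toY x)‖ = 0 := by
        rcases eq_or_ne ‖G (toY x)‖ 0 with h | h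
        · exact h
        · exact absurd h1 (pow_ne_zero n h)
      have h3 : G (toY x) = 0 := norm_eq_zero.mp h2
      rw [h3]
      ext i j
      simp [mat105]
  have hGint : ∀ C : Set (Y n), IsCompact C → C ⊆ Ω → IntegrableOn (fun x => ‖G x‖ ^ n) C := by
    intro C hC hCΩ
    refine (hgi C hC hCΩ).congr ?_
    have h1 : ∀ᵐ y ∂(volume.restrict C), g y = g1 y := ae_restrict_of_ae_restrict_of_subset hCΩ hae
    filter_upwards [h1, ae_restrict_mem hC.measurableSet] with y hy1 hy2
    rw [hGin y (hCΩ hy2), ← hy1]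
  refine ⟨fun x => WithLp.ofLp (F (toY x)), fun x => mat105 (G (toY x)), ?_, ?_⟩
  swap
  · intro x hx
    show WithLp.toLp 2 (WithLp.ofLp (F (toY x))) = f (toY x)
    rw [hFin _ hx]
  refine
    { isOpen := hΩ.preimage ct_toY105
      meas_f := ?_
      cont := ?_
      meas_D := ?_
      weak := ?_
      int := ?_
      pos := ?_
      dist := ?_ }
  · exact (WithLp.measurable_ofLp 2 (Fin n → ℝ)).comp (hFm.comp me_toY105.measurable)
  · have h1 : ContinuousOn F Ω := hfΩ.congr hFin
    have h2 : ContinuousOn (fun x : E n => F (toY x)) (toY ⁻¹' Ω) :=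
      h1.comp ct_toY105.continuousOn (fun x hx => hx)
    exact (PiLp.continuous_ofLp 2 _).comp_continuousOn h2
  · intro i j
    have h1 : Measurable fun y => G y (EuclideanSpace.single j 1) := (hGe _).measurable
    have h2 : Measurable fun y => (G y (EuclideanSpace.single j 1)) i :=
      (EuclideanSpace.proj i : Y n →L[ℝ] ℝ).continuous.measurable.comp h1
    exact h2.comp me_toY105.measurable
  · intro φ hφ hφc hφs i j
    set φ' : Y n → ℝ := fun y => φ (WithLp.ofLp y) with hφ'
    have hφ'd : ContDiff ℝ 1 φ' :=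
      (hφ.of_le (by simp)).comp (EuclideanSpace.equiv (Fin n) ℝ : Y n →L[ℝ] E n).contDiff
    have hts : tsupport φ' = WithLp.ofLp ⁻¹' (tsupport φ) :=
      tsupport_comp_eq_preimage φ (EuclideanSpace.equiv (Fin n) ℝ).toHomeomorph
    have hφ'c : HasCompactSupport φ' :=
      hφc.comp_homeomorph (EuclideanSpace.equiv (Fin n) ℝ).toHomeomorph
    have hφ's : tsupport φ' ⊆ Ω := by
      rw [hts]
      intro y hy
      exact hφs hy
    have hW := hw φ' hφ'd hφ'c hφ's j
    set S := tsupport φ' with hS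
    have hSc : IsCompact S := hφ'c
    have hSΩ : S ⊆ Ω := hφ's
    have hdc : Continuous fun y => fderiv ℝ φ' y (EuclideanSpace.single j 1) :=
      (hφ'd.continuous_fderiv (by simp)).clm_apply continuous_const
    have hd0 : ∀ y, y ∉ S → fderiv ℝ φ' y = 0 := by
      intro y hy
      by_contra h
      exact hy (support_fderiv_subset ℝ h)
    have hφ0 : ∀ y, y ∉ S → φ' y = 0 := fun y hy => image_eq_zero_of_notMem_tsupport hy
    -- integrability
    have hint1 : IntegrableOn (fun y => (fderiv ℝ φ' y (EuclideanSpace.single j 1)) • f y) Ω := by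
      have h1 : IntegrableOn (fun y => (fderiv ℝ φ' y (EuclideanSpace.single j 1)) • f y) S :=
        (hdc.continuousOn.smul (hfΩ.mono hSΩ)).integrableOn_compact hSc
      refine h1.of_forall_diff_eq_zero hΩm ?_
      rintro y ⟨_, hy⟩
      simp [hd0 y hy]
    have hint2 : IntegrableOn (fun y => φ' y • G y (EuclideanSpace.single j 1)) Ω := by
      have h1 : IntegrableOn (fun y => φ' y • G y (EuclideanSpace.single j 1)) S := by
        obtain ⟨C, hC⟩ := hφ'd.continuous.bounded_above_of_compact_support hφ'c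
        have hC0 : 0 ≤ C := le_trans (norm_nonneg _) (hC 0)
        have hb : IntegrableOn (fun y => C * (1 + ‖G y‖ ^ n)) S := by
          refine Integrable.const_mul ?_ C
          refine Integrable.add ?_ (hGint S hSc hSΩ)
          exact integrableOn_const hSc.measure_lt_top.ne
        refine Integrable.mono' hb ?_ ?_
        · exact (hφ'd.continuous.stronglyMeasurable.smul (hGe _)).aestronglyMeasurable
        · refine ae_of_all _ fun y => ?_
          rw [norm_smul]
          have h2 := (G y).le_opNorm (EuclideanSpace.single j (1 : ℝ))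
          rw [single_norm105, mul_one] at h2
          have h3 : ‖G y‖ ≤ 1 + ‖G y‖ ^ n := by
            rcases le_total ‖G y‖ 1 with h | h
            · have : 0 ≤ ‖G y‖ ^ n := by positivity
              linarith
            · have : ‖G y‖ ≤ ‖G y‖ ^ n := le_self_pow₀ h (by omega)
              linarith
          exact mul_le_mul (hC y) (h2.trans h3) (norm_nonneg _) hC0
      refine h1.of_forall_diff_eq_zero hΩm ?_
      rintro y ⟨_, hy⟩
      simp [hφ0 y hy]
    have hW' : ∫ y in Ω, (fderiv ℝ φ' y (EuclideanSpace.single j 1)) • f y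
        = - ∫ y in Ω, φ' y • G y (EuclideanSpace.single j 1) := by
      rw [hW]
      congr 1
      refine integral_congr_ae ?_
      filter_upwards [hae, ae_restrict_mem hΩm] with y h1 h2
      rw [h1, hGin y h2]
    have hc := congrArg (fun v : Y n => (EuclideanSpace.proj i : Y n →L[ℝ] ℝ) v) hW'
    simp only [map_neg] at hc
    rw [← ContinuousLinearMap.integral_comp_comm _ hint1,
      ← ContinuousLinearMap.integral_comp_comm _ hint2] at hc
    -- transfer
    have hL : ∫ x : E n, (WithLp.ofLp (F (toY x))) i * pd φ j x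
        = ∫ y in Ω, (EuclideanSpace.proj i : Y n →L[ℝ] ℝ)
            ((fderiv ℝ φ' y (EuclideanSpace.single j 1)) • f y) := by
      have h1 : ∀ x : E n, (WithLp.ofLp (F (toY x))) i * pd φ j x
          = (fun y => (WithLp.ofLp (F y)) i *
              fderiv ℝ φ' y (EuclideanSpace.single j 1)) (toY x) := by
        intro x
        simp only
        rw [← pd105 hφ j x]
      rw [integral_congr_ae (ae_of_all _ h1)]
      rw [mp_toY105.integral_comp me_toY105
        (fun y => (WithLp.ofLp (F y)) i * fderiv ℝ φ' y (EuclideanSpace.single j 1))]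
      rw [← integral_indicator hΩm]
      refine integral_congr_ae (ae_of_all _ fun y => ?_)
      by_cases hy : y ∈ Ω
      · simp [hF, hy, mul_comm]
      · simp [hF, hy]
    have hR : ∫ x : E n, mat105 (G (toY x)) i j * φ x
        = ∫ y in Ω, (EuclideanSpace.proj i : Y n →L[ℝ] ℝ)
            (φ' y • G y (EuclideanSpace.single j 1)) := by
      have h1 : ∀ x : E n, mat105 (G (toY x)) i j * φ x
          = (fun y => mat105 (G y) i j * φ' y) (toY x) := by
        intro x
        rfl
      rw [integral_congr_ae (ae_of_all _ h1)]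
      rw [mp_toY105.integral_comp me_toY105 (fun y => mat105 (G y) i j * φ' y)]
      rw [← integral_indicator hΩm]
      refine integral_congr_ae (ae_of_all _ fun y => ?_)
      by_cases hy : y ∈ Ω
      · simp [mat105, hy, mul_comm]
      · simp [mat105, hG, hy]
    rw [hL, hR]
    exact hc
  · intro C hC hCΩ
    have hC' : IsCompact (toY '' C) := hC.image ct_toY105
    have hC'Ω : toY '' C ⊆ Ω := by
      rintro _ ⟨x, hx, rfl⟩
      exact hCΩ hx
    have h1 := hGint _ hC' hC'Ω
    rw [mp_toY105.integrableOn_image me_toY105] at h1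
    have h2 : IntegrableOn (fun x : E n => ((n * n : ℝ)) ^ n * ‖G (toY x)‖ ^ n) C :=
      h1.const_mul _
    refine Integrable.mono' h2 ?_ ?_
    · have hm : Measurable fun x : E n => sn (mat105 (G (toY x))) ^ n := by
        refine Measurable.pow_const ?_ n
        unfold sn
        refine Finset.measurable_sum _ fun i _ => Finset.measurable_sum _ fun j _ => ?_
        have h1 : Measurable fun y => G y (EuclideanSpace.single j 1) := (hGe _).measurable
        have h2 : Measurable fun y => (G y (EuclideanSpace.single j 1)) i :=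
          (EuclideanSpace.proj i : Y n →L[ℝ] ℝ).continuous.measurable.comp h1
        have h3 : Measurable fun x : E n => mat105 (G (toY x)) i j := h2.comp me_toY105.measurable
        exact h3.abs
      exact hm.aestronglyMeasurable
    · refine ae_of_all _ fun x => ?_
      have h0 : 0 ≤ sn (mat105 (G (toY x))) := by
        unfold sn; positivity
      rw [Real.norm_eq_abs, abs_of_nonneg (by positivity), ← mul_pow]
      exact pow_le_pow_left₀ h0 (sn_mat105 _) n
  · filter_upwards [hPx] with x hx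
    exact hpos x hx.1
  · filter_upwards [hPx] with x hx w
    obtain ⟨h1, h2⟩ := hpos x hx.1
    refine adj_bound hn _ hK' h1 h2 ?_ w
    intro v hv
    rw [mat105_det]
    unfold en
    rw [mat105_mulVec]
    exact hx.2 (toY v) hv


end H248.BH.F2

namespace H248.BH

export F2 (conv_qr)

end H248.BH
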