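import Pool.Agent.H248.BH.Defs
import Pool.Agent.H248.BH.F1
import Pool.Agent.H248.BH.F2

set_option autoImplicit false
open MeasureTheory Metric Set Filter Topology
open scoped ENNReal NNReal ContDiff

namespace H248.BH.F3


open H248.ID







/-- the coordinates as a linear homeomorphism -/
noncomputable def eqY (n : ℕ) : E n ≃L[ℝ] Y n := (EuclideanSpace.equiv (Fin n) ℝ).symm

theorem eqY_apply {n : ℕ} (x : E n) : eqY n x = toY x := rfl

theorem en_sub {n : ℕ} (x y : E n) : en (x - y) = dist (toY x) (toY y) := by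
  unfold en
  rw [dist_eq_norm, ← eqY_apply, ← eqY_apply, ← eqY_apply, map_sub]

/-- F3. the theorem -/
theorem main_thm {n : ℕ} (hn : 2 ≤ n) {Ω : Set (Y n)} (hΩ : IsOpen Ω)
    (hΩb : Bornology.IsBounded Ω) {f : Y n → Y n}
    {g : Y n → (Y n →L[ℝ] Y n)} {K M δ : ℝ} (hf : ContinuousOn f (closure Ω))
    (hg : AEStronglyMeasurable g (volume.restrict Ω))
    (hgi : ∀ C : Set (Y n), IsCompact C → C ⊆ Ω → IntegrableOn (fun x => ‖g x‖ ^ n) C)
    (hw : ∀ φ : Y n → ℝ, ContDiff ℝ 1 φ → HasCompactSupport φ → tsupport φ ⊆ Ω → ∀ i : Fin n,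
      ∫ x in Ω, (fderiv ℝ φ x (EuclideanSpace.single i 1)) • f x
        = - ∫ x in Ω, φ x • g x (EuclideanSpace.single i 1))
    (hK : 1 ≤ K)
    (hqr : ∀ᵐ x ∂(volume.restrict Ω),
      ‖g x‖ ^ n ≤ K * LinearMap.det ((g x : Y n →ₗ[ℝ] Y n)))
    (hM : 0 ≤ M) (hδ : 0 < δ) (hδ1 : δ ≤ 1)
    (hbd : ∀ x ∈ frontier Ω, ∀ y ∈ frontier Ω, dist (f x) (f y) ≤ M * dist x y ^ δ) :
    ∃ M1 : ℝ, ∀ x ∈ closure Ω, ∀ y ∈ closure Ω,
      dist (f x) (f y) ≤ M1 * dist x y ^
        (min δ ((sInf {K' : ℝ | 1 ≤ K' ∧ ∀ᵐ x ∂(volume.restrict Ω),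
            ∀ h : Y n, ‖h‖ = 1 →
              LinearMap.det ((g x : Y n →ₗ[ℝ] Y n)) ≤ K' * ‖g x h‖ ^ n}) ^
                (1 / (1 - (n : ℝ))))) := by
  set S : Set ℝ := {K' : ℝ | 1 ≤ K' ∧ ∀ᵐ x ∂(volume.restrict Ω),
            ∀ h : Y n, ‖h‖ = 1 →
              LinearMap.det ((g x : Y n →ₗ[ℝ] Y n)) ≤ K' * ‖g x h‖ ^ n} with hS
  have hn2 : (2 : ℝ) ≤ n := by exact_mod_cast hn
  have hn1 : (1 : ℝ) - n < 0 := by linarith
  rcases S.eq_empty_or_nonempty with hemp | hne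
  · -- trivial exponent
    have h0 : (1 / (1 - (n : ℝ))) ≠ 0 := one_div_ne_zero hn1.ne
    rw [hemp, Real.sInf_empty, Real.zero_rpow h0, min_eq_right hδ.le]
    have hc : IsCompact (closure Ω) := hΩb.isCompact_closure
    obtain ⟨C, hC⟩ := Metric.isBounded_iff.1 (hc.image_of_continuousOn hf).isBounded
    refine ⟨C, fun x hx y hy => ?_⟩
    rw [Real.rpow_zero, mul_one]
    exact hC (mem_image_of_mem f hx) (mem_image_of_mem f hy)
  · have hbb : BddBelow S := ⟨1, fun K' hK' => hK'.1⟩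
    have hKI1 : 1 ≤ sInf S := le_csInf hne fun K' hK' => hK'.1
    have hKI0 : 0 < sInf S := by linarith
    obtain ⟨u, _, hu, huS⟩ := exists_seq_tendsto_sInf hne hbb
    have hKI : ∀ᵐ x ∂(volume.restrict Ω), ∀ h : Y n, ‖h‖ = 1 →
        LinearMap.det ((g x : Y n →ₗ[ℝ] Y n)) ≤ sInf S * ‖g x h‖ ^ n := by
      have h1 : ∀ᵐ x ∂(volume.restrict Ω), ∀ j, ∀ h : Y n, ‖h‖ = 1 →
          LinearMap.det ((g x : Y n →ₗ[ℝ] Y n)) ≤ u j * ‖g x h‖ ^ n :=
        ae_all_iff.2 fun j => (huS j).2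
      filter_upwards [h1] with x hx h hh
      exact ge_of_tendsto' (hu.mul_const _) fun j => hx j h hh
    set β : ℝ := min δ ((sInf S) ^ (1 / (1 - (n : ℝ)))) with hβdef
    have hpos : 0 < (sInf S) ^ (1 / (1 - (n : ℝ))) := Real.rpow_pos_of_pos hKI0 _
    have hβ : 0 < β := lt_min hδ hpos
    have hβδ : β ≤ δ := min_le_left _ _
    have hβ1 : β ≤ 1 := hβδ.trans hδ1
    have hK'KI : sInf S ≤ β ^ (1 - (n : ℝ)) := by
      have h1 := Real.rpow_le_rpow_of_nonpos hβ (min_le_right δ ((sInf S) ^ (1 / (1 - (n : ℝ)))))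
        hn1.le
      rwa [← Real.rpow_mul hKI0.le, one_div_mul_cancel hn1.ne, Real.rpow_one] at h1
    have hK'1 : 1 ≤ β ^ (1 - (n : ℝ)) := hKI1.trans hK'KI
    have hI : ∀ᵐ x ∂(volume.restrict Ω), ∀ h : Y n, ‖h‖ = 1 →
        LinearMap.det ((g x : Y n →ₗ[ℝ] Y n)) ≤ β ^ (1 - (n : ℝ)) * ‖g x h‖ ^ n := by
      filter_upwards [hKI] with x hx h hh
      exact (hx h hh).trans (mul_le_mul_of_nonneg_right hK'KI (by positivity))
    obtain ⟨fe, Df, hQR, hfe⟩ := conv_qr hn hΩ hf hg hgi hw hK hqr hK'1 hI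
    have hpre : (toY : E n → Y n) = (eqY n).toHomeomorph := rfl
    have hcl : closure (toY ⁻¹' Ω : Set (E n)) = toY ⁻¹' closure Ω := by
      rw [hpre, Homeomorph.preimage_closure]
    have hfr : frontier (toY ⁻¹' Ω : Set (E n)) = toY ⁻¹' frontier Ω := by
      rw [hpre, Homeomorph.preimage_frontier]
    have hbdd : Bornology.IsBounded (toY ⁻¹' Ω : Set (E n)) :=
      (eqY n).antilipschitz.isBounded_preimage hΩb
    set fc : E n → E n := fun x => (eqY n).symm (f (toY x)) with hfc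
    have hfcY : ∀ x, toY (fc x) = f (toY x) := fun x => (eqY n).apply_symm_apply _
    have hfcc : ContinuousOn fc (closure (toY ⁻¹' Ω : Set (E n))) := by
      rw [hcl]
      refine (eqY n).symm.continuous.comp_continuousOn ?_
      refine hf.comp (eqY n).continuous.continuousOn ?_
      intro x hx
      exact hx
    have hff : ∀ x ∈ (toY ⁻¹' Ω : Set (E n)), fe x = fc x := by
      intro x hx
      apply (eqY n).injective
      rw [eqY_apply, eqY_apply, hfe x hx, hfcY]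
    obtain ⟨C, hC⟩ := Metric.isBounded_iff.1 hΩb.closure
    set Dm : ℝ := max C 1 with hDm
    have hDm0 : 0 < Dm := lt_max_of_lt_right one_pos
    have hbd' : ∀ x ∈ frontier (toY ⁻¹' Ω : Set (E n)), ∀ y ∈ frontier (toY ⁻¹' Ω : Set (E n)),
        en (fc x - fc y) ≤ (M * Dm ^ (δ - β)) * en (x - y) ^ β := by
      intro x hx y hy
      rw [hfr] at hx hy
      rw [en_sub, en_sub, hfcY, hfcY]
      refine (hbd _ hx _ hy).trans ?_
      rw [mul_assoc]
      refine mul_le_mul_of_nonneg_left ?_ hM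
      have hd : dist (toY x) (toY y) ≤ Dm :=
        (hC (frontier_subset_closure hx) (frontier_subset_closure hy)).trans (le_max_left _ _)
      rcases (dist_nonneg (x := toY x) (y := toY y)).eq_or_lt with h0 | h0
      · rw [← h0, Real.zero_rpow hδ.ne', Real.zero_rpow hβ.ne', mul_zero]
      · have h1 : dist (toY x) (toY y) ^ δ =
            dist (toY x) (toY y) ^ (δ - β) * dist (toY x) (toY y) ^ β := by
          rw [← Real.rpow_add h0, sub_add_cancel]
        rw [h1]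
        exact mul_le_mul_of_nonneg_right (Real.rpow_le_rpow h0.le hd (by linarith))
          (Real.rpow_nonneg h0.le _)
    obtain ⟨M1, hM1⟩ := metric_holder hn hβ hβ1 hbdd hQR hfcc hff (by positivity) hbd'
    refine ⟨M1, fun x hx y hy => ?_⟩
    have hx' : (eqY n).symm x ∈ closure (toY ⁻¹' Ω : Set (E n)) := by
      rw [hcl, mem_preimage, ← eqY_apply, (eqY n).apply_symm_apply]; exact hx
    have hy' : (eqY n).symm y ∈ closure (toY ⁻¹' Ω : Set (E n)) := by
      rw [hcl, mem_preimage, ← eqY_apply, (eqY n).apply_symm_apply]; exact hy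
    have := hM1 _ hx' _ hy'
    rwa [en_sub, en_sub, hfcY, hfcY, ← eqY_apply, ← eqY_apply, (eqY n).apply_symm_apply,
      (eqY n).apply_symm_apply] at this


end H248.BH.F3

namespace H248.BH

export F3 (main_thm)

end H248.BH
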